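import Pool.Agent.MP_9f8ce8_lc.Rom.St

set_option autoImplicit false
set_option linter.unusedSectionVars false

namespace Pool.Agent.MP_9f8ce8_lc.Rom

open Finset Cap

section

theorem zero_Ch {Ω : Type} [Fintype Ω] {V : Ω → ℝ} (h : ∀ O, 0 ≤ V O) (ha : ¬ 0 < ∑ O, V O) :
    V = fun _ => 0 := funext fun O =>
  le_antisymm ((single_le_sum (fun O _ => h O) (mem_univ O)).trans (not_lt.1 ha)) (h O)

theorem card_Ch {Ω : Type} [Fintype Ω] {A : Finset Ω} {V : Ω → ℝ}
    (h : ∀ O, 0 ≤ V O ∧ (V O ≠ 0 → O ∈ A)) (ha : 0 < ∑ O, V O) : (0 : ℝ) < A.card := by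
  obtain ⟨O, -, hO⟩ := exists_ne_zero_of_sum_ne_zero ha.ne'
  exact_mod_cast card_pos.2 ⟨O, (h O).2 hO⟩

theorem pos_Ch {Y : Type} [Fintype Y] [DecidableEq Y] {A : Finset (Y → Bool)}
    {V : (Y → Bool) → ℝ} (h : ∀ O, 0 ≤ V O ∧ (V O ≠ 0 → O ∈ A)) : 0 ≤ Ph A V := by
  by_cases ha : 0 < ∑ O, V O
  swap
  · rw [zero_Ch (fun O => (h O).1) ha]
    simp [Ph]
  have hc := card_Ch h ha
  have h1 : ∀ O, V O - (if O ∈ A then (∑ O', V O') / A.card else 0) ≤
      V O * Real.log (V O * A.card / ∑ O', V O') := fun O => by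
    rcases (h O).1.eq_or_lt with e | e
    · rw [← e, zero_mul, zero_sub, neg_nonpos]
      split_ifs
      exacts [by positivity, le_rfl]
    · rw [if_pos ((h O).2 e.ne')]
      refine le_trans (le_of_eq ?_)
        (mul_le_mul_of_nonneg_left (Real.one_sub_inv_le_log_of_pos (by positivity)) e.le)
      field_simp
  refine le_trans (le_of_eq ?_) (sum_le_sum fun O _ => h1 O)
  rw [sum_sub_distrib, sum_ite_mem, univ_inter, sum_const, nsmul_eq_mul, mul_div_cancel₀ _ hc.ne',
    sub_self]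

theorem hom_Ch {Y : Type} [Fintype Y] [DecidableEq Y] (A : Finset (Y → Bool))
    (V : (Y → Bool) → ℝ) (y : ℝ) : Ph A (fun O => V O * y) = y * Ph A V := by
  rcases eq_or_ne y 0 with rfl | hy
  · simp [Ph]
  simp only [Ph]
  rw [mul_sum]
  refine sum_congr rfl fun O _ => ?_
  rw [← sum_mul, mul_right_comm (V O) y (A.card : ℝ), mul_div_mul_right _ _ hy]
  ring

theorem exp_Ch {x p : ℝ} (h0 : 0 ≤ x) (h1 : x ≤ 1) (hp : |p| ≤ 1) :
    Real.exp (x * p) ≤ 1 + x * p + x ^ 2 := by
  have h2 : |x * p| ≤ x := by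
    rw [abs_mul, abs_of_nonneg h0]
    exact mul_le_of_le_one_right h0 hp
  have h3 := (le_abs_self _).trans (Real.abs_exp_sub_one_sub_id_le (h2.trans h1))
  have h4 : (x * p) ^ 2 ≤ x ^ 2 := sq_le_sq.2 (h2.trans (le_abs_self x))
  linarith

theorem sCh : SCh := by
  classical
  intro Y _ _ S _ A B f V ψ x h hB hψ hc h0 h1
  refine ⟨pos_Ch h, fun y _ => hom_Ch A V y, ?_⟩
  by_cases ha : 0 < ∑ O, V O
  swap
  · rw [zero_Ch (fun O => (h O).1) ha]
    simp [Ph]
  have hA := card_Ch h ha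
  obtain ⟨m, hm⟩ : ∃ m : S → ℝ, ∀ s, ∑ O, V O * ind (f O = s) = m s := ⟨_, fun _ => rfl⟩
  have e1 : ∑ s, Ph (B s) (fun O => V O * ind (f O = s)) =
      ∑ O, V O * Real.log (V O * (B (f O)).card / m (f O)) := by
    simp only [Ph, hm]
    rw [sum_comm]
    refine sum_congr rfl fun O _ => ?_
    rw [sum_eq_single (f O), ind_pos rfl, mul_one]
    · intro s _ hs
      rw [ind_neg hs.symm, mul_zero, zero_mul]
    · exact fun hs => absurd (mem_univ _) hs
  have e2 : ∀ O, x * (V O * ψ O) + V O * Real.log (V O * (B (f O)).card / m (f O)) ≤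
      (∑ O', V O') / A.card *
        ∑ O' ∈ A, V O * ind (f O = f O') * (Real.exp (x * ψ O') / m (f O')) - V O +
      V O * Real.log (V O * A.card / ∑ O', V O') := fun O => by
    rcases (h O).1.eq_or_lt with e | e
    · simp [← e]
    have hO := (h O).2 e.ne'
    have hb : (0 : ℝ) < (B (f O)).card := by
      exact_mod_cast card_pos.2 ⟨O, (hB O hO O).2 ⟨hO, rfl⟩⟩
    have hmO : 0 < m (f O) := by
      rw [← hm]
      refine lt_of_lt_of_le ?_
        (single_le_sum (fun O' _ => mul_nonneg (h O').1 (ind_nonneg _)) (mem_univ O))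
      rwa [ind_pos rfl, mul_one]
    have a1 : ∑ O' ∈ A, V O * ind (f O = f O') * (Real.exp (x * ψ O') / m (f O')) =
        (B (f O)).card * (V O * (Real.exp (x * ψ O) / m (f O))) := by
      rw [← nsmul_eq_mul, ← sum_const,
        ← sum_subset (s₁ := B (f O)) (fun O' hO' => ((hB O hO O').1 hO').1)]
      · refine sum_congr rfl fun O' hO' => ?_
        have a2 := ((hB O hO O').1 hO').2
        rw [ind_pos a2.symm, mul_one, hc O' O a2, a2]
      · intro O' h2 h3
        rw [ind_neg fun h4 => h3 ((hB O hO O').2 ⟨h2, h4.symm⟩), mul_zero, zero_mul]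
    have a3 : 0 < (∑ O', V O') / A.card * ((B (f O)).card * (Real.exp (x * ψ O) / m (f O))) := by
      positivity
    have a4 := mul_le_mul_of_nonneg_left (Real.log_le_sub_one_of_pos a3) e.le
    have a5 : Real.log ((∑ O', V O') / A.card * ((B (f O)).card * (Real.exp (x * ψ O) / m (f O)))) =
        x * ψ O + Real.log (V O * (B (f O)).card / m (f O)) -
          Real.log (V O * A.card / ∑ O', V O') := by
      rw [← Real.log_exp (x * ψ O), ← Real.log_mul (by positivity) (by positivity),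
        ← Real.log_div (by positivity) (by positivity), Real.log_exp]
      congr 1
      field_simp
    rw [a5] at a4
    rw [a1]
    linarith
  have e3 : ∑ O, ∑ O' ∈ A, V O * ind (f O = f O') * (Real.exp (x * ψ O') / m (f O')) ≤
      ∑ O' ∈ A, (1 + x * ψ O' + x ^ 2) := by
    rw [sum_comm]
    refine sum_le_sum fun O' _ => ?_
    rw [← sum_mul, hm, mul_div_left_comm]
    exact (mul_le_of_le_one_right (Real.exp_pos _).le (div_self_le_one _)).trans
      (exp_Ch h0 h1 (hψ O'))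
  have e4 := sum_le_sum fun O (_ : O ∈ univ) => e2 O
  rw [sum_add_distrib, sum_add_distrib, sum_sub_distrib, ← mul_sum, ← mul_sum, ← e1] at e4
  have e5 := mul_le_mul_of_nonneg_left e3 (div_pos ha hA).le
  have e6 : (∑ O, V O) / A.card * ∑ O' ∈ A, (1 + x * ψ O' + x ^ 2) =
      ∑ O, V O + x * ((∑ O, V O) * ((∑ O ∈ A, ψ O) / A.card)) + x ^ 2 * ∑ O, V O := by
    rw [sum_add_distrib, sum_add_distrib, sum_const, sum_const, ← mul_sum, nsmul_eq_mul,
      nsmul_eq_mul]
    field_simp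
  rw [Ph]
  linarith

end

section

variable {Y : Type} [Fintype Y] [DecidableEq Y]

theorem trans_eq_G1 (t : DT Y) {O O' : Y → Bool} (h : ∀ y ∈ qs t O, O' y = O y) :
    trans t O' = trans t O := by
  funext y
  simp only [trans, (agree t h).1]
  split_ifs with hy
  · rw [h y hy]
  · rfl

theorem cell_G1 (t : DT Y) (ρ : Y → Option Bool) (O : Y → Bool) (hO : O ∈ cube ρ)
    (O' : Y → Bool) :
    O' ∈ cube (merge ρ (trans t O)) ↔ O' ∈ cube ρ ∧ trans t O' = trans t O := by
  rw [mem_cube] at hO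
  simp only [mem_cube, merge]
  constructor
  · intro h
    refine ⟨fun y b hy => h y b (by simp [hy]), trans_eq_G1 t fun y hy => ?_⟩
    cases hρ : ρ y with
    | none => exact h y (O y) (by simp [hρ, trans, hy])
    | some b => rw [hO y b hρ]; exact h y b (by simp [hρ])
  · rintro ⟨h1, h2⟩ y b hy
    cases hρ : ρ y with
    | none =>
      rw [hρ, Option.none_or, ← h2] at hy
      simp only [trans] at hy
      split_ifs at hy
      exact Option.some.inj hy
    | some c =>
      rw [hρ, Option.some_or] at hy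
      exact h1 y b (hρ.trans hy)

theorem ovr_mem_G1 (ρ : Y → Option Bool) (O : Y → Bool) : ovr ρ O ∈ cube ρ :=
  mem_cube.2 fun y b hy => by simp [ovr, hy]

theorem av_G1 (ρ : Y → Option Bool) (φ : (Y → Bool) → ℝ) :
    av (fun O => φ (ovr ρ O)) = (∑ O ∈ cube ρ, φ O) / (cube ρ).card := by
  have hc : (0 : ℝ) < (cube ρ).card := by
    exact_mod_cast card_pos.2 ⟨_, ovr_mem_G1 ρ fun _ => true⟩
  have hu : (0 : ℝ) < Fintype.card (Y → Bool) := by exact_mod_cast Fintype.card_pos
  have key : ∑ p ∈ (univ : Finset (Y → Bool)) ×ˢ cube ρ, φ (ovr ρ p.1) =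
      ∑ p ∈ (univ : Finset (Y → Bool)) ×ˢ cube ρ, φ p.2 := by
    have inv : ∀ p ∈ (univ : Finset (Y → Bool)) ×ˢ cube ρ,
        ((fun y => if ρ y = none then ovr ρ p.1 y else (if ρ y = none then p.2 y else p.1 y)),
          ovr ρ fun y => if ρ y = none then p.2 y else p.1 y) = p := by
      intro p hp
      have h2 := mem_cube.1 (mem_product.1 hp).2
      refine Prod.ext (funext fun y => ?_) (funext fun y => ?_)
      · cases hρ : ρ y <;> simp [ovr, hρ]
      · cases hρ : ρ y with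
        | none => simp [ovr, hρ]
        | some b => simp [ovr, hρ, h2 y b hρ]
    refine sum_nbij' (fun p => (fun y => if ρ y = none then p.2 y else p.1 y, ovr ρ p.1))
      (fun p => (fun y => if ρ y = none then p.2 y else p.1 y, ovr ρ p.1))
      (fun p _ => mem_product.2 ⟨mem_univ _, ovr_mem_G1 ρ _⟩)
      (fun p _ => mem_product.2 ⟨mem_univ _, ovr_mem_G1 ρ _⟩) inv inv fun p _ => rfl
  rw [sum_product, sum_product] at key
  simp only [sum_const, nsmul_eq_mul, card_univ] at key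
  rw [← mul_sum] at key
  rw [av, div_eq_div_iff hu.ne' hc.ne']
  linarith

theorem sG1 (h : SCh) : SG1 := by
  intro Y _ _ R _ w tr ρ V ψ x hw hV h1 h2 hx0 hx1
  have H := fun r => h Y (Y → Option Bool) (cube ρ) (fun ω => cube (merge ρ ω)) (trans (tr r)) V
    (ψ r) x hV (fun O hO O' => cell_G1 (tr r) ρ O hO O') (h1 r) (h2 r) hx0 hx1
  have hom : ∀ r (ω : Y → Option Bool),
      Ph (cube (merge ρ ω)) (fun O => V O * (w r * ind (trans (tr r) O = ω))) =
        w r * Ph (cube (merge ρ ω)) (fun O => V O * ind (trans (tr r) O = ω)) := by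
    intro r ω
    have := (h Y Unit (cube (merge ρ ω)) (fun _ => cube (merge ρ ω)) (fun _ => ())
      (fun O => V O * ind (trans (tr r) O = ω)) (fun _ => 0) 0
      (fun O => ⟨mul_nonneg (hV O).1 (ind_nonneg _), fun hne => by
        have a : V O ≠ 0 := left_ne_zero_of_mul hne
        have b : trans (tr r) O = ω := by
          by_contra hb
          exact hne (by rw [ind_neg hb, mul_zero])
        rw [← b]
        exact (cell_G1 (tr r) ρ O ((hV O).2 a) O).2 ⟨(hV O).2 a, rfl⟩⟩)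
      (fun O _ O' => by simp) (fun _ => by simp) (fun _ _ _ => rfl) le_rfl zero_le_one).2.1
      (w r) (hw.1 r)
    rw [← this]
    congr 1
    funext O
    ring
  have h0 : 0 ≤ Ph (cube ρ) V := (h Y Unit (cube ρ) (fun _ => cube ρ) (fun _ => ()) V
    (fun _ => 0) 0 hV (fun O _ O' => by simp) (fun _ => by simp) (fun _ _ _ => rfl) le_rfl
    zero_le_one).1
  refine ⟨h0, ?_⟩
  have hs := sum_le_sum fun r (_ : r ∈ univ) => mul_le_mul_of_nonneg_left (H r).2.2 (hw.1 r)
  have e1 : x * ∑ O, V O * ∑ r, w r * ψ r O = ∑ r, w r * (x * ∑ O, V O * ψ r O) := by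
    simp only [mul_sum]
    rw [sum_comm]
    exact sum_congr rfl fun r _ => sum_congr rfl fun O _ => by ring
  have e2 : gop w tr (fun ρ' V' => Ph (cube ρ') V') ρ V = ∑ r, w r *
      ∑ ω, Ph (cube (merge ρ ω)) (fun O => V O * ind (trans (tr r) O = ω)) := by
    simp only [gop, hom, mul_sum]
  have e3 : x * ((∑ O, V O) * ∑ r, w r * av fun O => ψ r (ovr ρ O)) =
      ∑ r, w r * (x * ((∑ O, V O) * ((∑ O ∈ cube ρ, ψ r O) / (cube ρ).card))) := by
    rw [mul_sum univ (fun r => w r * av fun O => ψ r (ovr ρ O)), mul_sum]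
    exact sum_congr rfl fun r _ => by rw [av_G1 ρ (ψ r)]; ring
  have e4 : x ^ 2 * ∑ O, V O + Ph (cube ρ) V =
      ∑ r, w r * (x ^ 2 * ∑ O, V O + Ph (cube ρ) V) := by
    rw [← sum_mul, hw.2, one_mul]
  rw [e1, e2, add_assoc, e3, e4, ← sum_add_distrib, ← sum_add_distrib]
  refine le_trans (le_of_eq (sum_congr rfl fun r _ => by ring)) (hs.trans (le_of_eq ?_))
  exact sum_congr rfl fun r _ => by ring

end

section

theorem sgsg_G2 (a b : Bool) : -1 ≤ sg a * sg b ∧ sg a * sg b ≤ 1 := by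
  cases a <;> cases b <;> simp [sg]

theorem one_le_G2 {Y : Type} [Fintype Y] (p q r : Y → Prop) (y : Y) (hp : p y) (hq : q y)
    (hr : r y) : 1 ≤ ∑ z, ind (p z) * (ind (q z) * ind (r z)) := by
  have h := single_le_sum (f := fun z => ind (p z) * (ind (q z) * ind (r z)))
    (fun z _ => mul_nonneg (ind_nonneg _) (mul_nonneg (ind_nonneg _) (ind_nonneg _))) (mem_univ y)
  rwa [ind_pos hp, ind_pos hq, ind_pos hr, mul_one, mul_one] at h

theorem zero_le_G2 {Y : Type} [Fintype Y] (p q r : Y → Prop) :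
    0 ≤ ∑ z, ind (p z) * (ind (q z) * ind (r z)) :=
  sum_nonneg fun _ _ => mul_nonneg (ind_nonneg _) (mul_nonneg (ind_nonneg _) (ind_nonneg _))

theorem trans_G2 {Y : Type} [Fintype Y] [DecidableEq Y] (t : DT Y) {O O' : Y → Bool}
    (h : trans t O = trans t O') : qs t O' = qs t O ∧ t.eval O' = t.eval O := by
  refine agree t fun y hy => ?_
  have h1 := congrFun h y
  unfold trans at h1
  rw [if_pos hy] at h1
  split_ifs at h1 with h2
  exact (Option.some.inj h1).symm

theorem diff_G2 {Y : Type} {ρ ρ' : Y → Option Bool} (h : ∀ y b, ρ y = some b → ρ' y = some b)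
    {O : Y → Bool} {y : Y} (hy : ovr ρ' O y ≠ ovr ρ O y) : ρ y = none ∧ ρ' y ≠ none := by
  unfold ovr at hy
  cases h1 : ρ y with
  | none =>
    refine ⟨rfl, fun h2 => hy ?_⟩
    rw [h1, h2]
  | some b => exact absurd (by rw [h1, h y b h1]) hy

theorem av_G2 {Y : Type} [Fintype Y] [DecidableEq Y] (ρ : Y → Option Bool) (t : DT Y)
    (p r : Y → Prop) (f g : (Y → Bool) → ℝ)
    (h : ∀ O, f O ≤ g O + 2 * ∑ y, ind (p y) * (ind (y ∈ qs t (ovr ρ O)) * ind (r y))) :
    av f ≤ av g + 2 * ∑ y, ind (p y) * (hitF ρ t y * ind (r y)) := by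
  have e : ∑ y, ind (p y) * (hitF ρ t y * ind (r y))
      = (∑ O : Y → Bool, ∑ y, ind (p y) * (ind (y ∈ qs t (ovr ρ O)) * ind (r y)))
        / Fintype.card (Y → Bool) := by
    rw [sum_comm, sum_div]
    refine sum_congr rfl fun y _ => ?_
    unfold hitF av
    rw [← mul_sum, ← sum_mul]
    ring
  unfold av
  rw [e, ← mul_div_assoc, ← add_div, mul_sum, ← sum_add_distrib]
  exact div_le_div_of_nonneg_right (sum_le_sum fun O _ => h O) (Nat.cast_nonneg _)

theorem sG2 (h : SG1) : SG2 := by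
  classical
  intro Y _ _ R _ w tr s Good ρ ρ' V x hw hV hρ hx0 hx1
  set ψ : R → (Y → Bool) → ℝ := fun r O =>
    if ∃ y ∈ qs (tr r) O, (ρ y = none ∧ ρ' y ≠ none) ∧ ¬ Good y r then -1
    else sg ((tr r).eval O) * sg (s r) with hψ
  have a1 : ∀ r O, |ψ r O| ≤ 1 := by
    intro r O
    simp only [hψ]
    split_ifs
    · simp
    · exact abs_le.2 (sgsg_G2 _ _)
  have a2 : ∀ r O O', trans (tr r) O = trans (tr r) O' → ψ r O = ψ r O' := by
    intro r O O' e
    obtain ⟨e1, e2⟩ := trans_G2 (tr r) e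
    simp only [hψ, e1, e2]
  have key := (h Y R w tr ρ' V ψ x hw hV a1 a2 hx0 hx1).2
  have real : ∀ r O, sg ((tr r).eval O) * sg (s r) ≤ ψ r O + 2 * ∑ y,
      ind (ρ y = none ∧ ρ' y ≠ none) * (ind (y ∈ qs (tr r) O) * ind (¬ Good y r)) := by
    intro r O
    simp only [hψ]
    split_ifs with c
    · obtain ⟨y, c1, c2, c3⟩ := c
      have := one_le_G2 (fun y => ρ y = none ∧ ρ' y ≠ none) (fun y => y ∈ qs (tr r) O)
        (fun y => ¬ Good y r) y c2 c1 c3
      linarith [(sgsg_G2 ((tr r).eval O) (s r)).2]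
    · linarith [zero_le_G2 (fun y => ρ y = none ∧ ρ' y ≠ none) (fun y => y ∈ qs (tr r) O)
        (fun y => ¬ Good y r)]
  have fresh : ∀ r O, ψ r (ovr ρ' O) ≤ sg ((tr r).eval (ovr ρ O)) * sg (s r) + 2 * ∑ y,
      ind (ρ y = none ∧ ρ' y ≠ none) * (ind (y ∈ qs (tr r) (ovr ρ O)) * ind (Good y r)) := by
    intro r O
    have z := zero_le_G2 (fun y => ρ y = none ∧ ρ' y ≠ none)
      (fun y => y ∈ qs (tr r) (ovr ρ O)) (fun y => Good y r)
    have b := sgsg_G2 ((tr r).eval (ovr ρ O)) (s r)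
    simp only [hψ]
    split_ifs with c
    · linarith [b.1]
    · rcases common (tr r) (ovr ρ' O) (ovr ρ O) with e | ⟨y, c1, c2, c3⟩
      · rw [e]
        linarith
      · have d := diff_G2 hρ c1
        have g : Good y r := by
          by_contra g
          exact c ⟨y, c2, d, g⟩
        have := one_le_G2 (fun y => ρ y = none ∧ ρ' y ≠ none)
          (fun y => y ∈ qs (tr r) (ovr ρ O)) (fun y => Good y r) y d c3 g
        linarith [(sgsg_G2 ((tr r).eval (ovr ρ' O)) (s r)).2, b.1]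
  set A : (Y → Bool) → ℝ := fun O => ∑ r, w r * ∑ y,
    ind (ρ y = none ∧ ρ' y ≠ none) * (ind (y ∈ qs (tr r) O) * ind (¬ Good y r)) with hA
  set C : ℝ := ∑ r, w r * ∑ y,
    ind (ρ y = none ∧ ρ' y ≠ none) * (hitF ρ (tr r) y * ind (Good y r)) with hC
  have e1 : ∀ O, ∑ y, ind (ρ y = none ∧ ρ' y ≠ none) *
      ∑ r, w r * (ind (y ∈ qs (tr r) O) * ind (¬ Good y r) + hitF ρ (tr r) y * ind (Good y r))
        = A O + C := by
    intro O
    simp only [hA, hC, mul_sum]
    rw [sum_comm, ← sum_add_distrib]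
    refine sum_congr rfl fun r _ => ?_
    rw [← sum_add_distrib]
    exact sum_congr rfl fun y _ => by ring
  have b1 : ∑ O, V O * ∑ r, w r * (sg ((tr r).eval O) * sg (s r))
      ≤ ∑ O, V O * ∑ r, w r * ψ r O + 2 * ∑ O, V O * A O := by
    rw [mul_sum, ← sum_add_distrib]
    refine sum_le_sum fun O _ => ?_
    have b2 : ∑ r, w r * (sg ((tr r).eval O) * sg (s r)) ≤ ∑ r, w r * ψ r O + 2 * A O := by
      simp only [hA]
      rw [mul_sum, ← sum_add_distrib]
      refine sum_le_sum fun r _ => ?_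
      have := mul_le_mul_of_nonneg_left (real r O) (hw.1 r)
      linarith
    have := mul_le_mul_of_nonneg_left b2 (hV O).1
    linarith
  have b3 : ∑ r, w r * av (fun O => ψ r (ovr ρ' O))
      ≤ ∑ r, w r * av (fun O => sg ((tr r).eval (ovr ρ O)) * sg (s r)) + 2 * C := by
    simp only [hC]
    rw [mul_sum, ← sum_add_distrib]
    refine sum_le_sum fun r _ => ?_
    have := mul_le_mul_of_nonneg_left (av_G2 ρ (tr r) (fun y => ρ y = none ∧ ρ' y ≠ none)
      (fun y => Good y r) _ _ (fresh r)) (hw.1 r)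
    linarith
  have v0 : 0 ≤ ∑ O, V O := sum_nonneg fun O _ => (hV O).1
  have e2 : ∑ O, V O * (A O + C) = ∑ O, V O * A O + (∑ O, V O) * C := by
    rw [sum_mul, ← sum_add_distrib]
    exact sum_congr rfl fun O _ => by ring
  simp only [e1]
  rw [e2]
  have b4 := mul_le_mul_of_nonneg_left b1 hx0
  have b5 := mul_le_mul_of_nonneg_left (mul_le_mul_of_nonneg_left b3 v0) hx0
  linarith

end

section

/-! The ghost argument: summing the one step inequality over the ghost runs. -/

section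
variable {Y : Type} [Fintype Y] [DecidableEq Y] {R : Type} [Fintype R]

theorem sup_child_G {w : R → ℝ} (hw : IsProb w) (tr : R → DT Y) {ρ : Y → Option Bool}
    {V : (Y → Bool) → ℝ} (h : Sup ρ V) (r : R) (ω : Y → Option Bool) :
    Sup (merge ρ ω) fun O => V O * (w r * ind (trans (tr r) O = ω)) := by
  intro O
  refine ⟨mul_nonneg (h O).1 (mul_nonneg (hw.1 r) (ind_nonneg _)), fun hne => ?_⟩
  have h1 : V O ≠ 0 := left_ne_zero_of_mul hne
  have h2 : trans (tr r) O = ω := by
    by_contra g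
    apply hne
    simp only [ind_neg g, mul_zero]
  have h3 := mem_cube.1 ((h O).2 h1)
  refine mem_cube.2 fun y b hb => ?_
  unfold merge at hb
  cases hy : ρ y with
  | some c =>
    rw [hy] at hb
    simp only [Option.some_or, Option.some.injEq] at hb
    rw [← hb]; exact h3 y c hy
  | none =>
    rw [hy, ← h2] at hb
    simp only [Option.none_or, trans] at hb
    split_ifs at hb
    exact Option.some.inj hb

theorem gop_lin_G (w : R → ℝ) (tr : R → DT Y) (g : (Y → Option Bool) → (Y → Bool) → ℝ)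
    (ρ : Y → Option Bool) (V : (Y → Bool) → ℝ) :
    gop w tr (fun ρ' V' => ∑ O, V' O * g ρ' O) ρ V =
      ∑ O, V O * ∑ r, w r * g (merge ρ (trans (tr r) O)) O := by
  unfold gop
  simp only [mul_sum]
  rw [sum_comm (s := (univ : Finset (Y → Bool)))]
  refine sum_congr rfl fun r _ => ?_
  rw [sum_comm]
  refine sum_congr rfl fun O _ => ?_
  rw [sum_eq_single (trans (tr r) O)]
  · rw [ind_pos rfl]; ring
  · intro ω _ hω
    rw [ind_neg (Ne.symm hω)]; ring
  · simp

theorem ind_merge_G (t : DT Y) (ρ : Y → Option Bool) (O : Y → Bool) (y : Y) :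
    ind (merge ρ (trans t O) y ≠ none) ≤ ind (ρ y ≠ none) + ind (y ∈ qs t O) := by
  by_cases h1 : ρ y = none
  · by_cases h2 : y ∈ qs t O
    · rw [ind_pos h2]
      linarith [ind_le_one (merge ρ (trans t O) y ≠ none), ind_nonneg (ρ y ≠ none)]
    · have : ¬ merge ρ (trans t O) y ≠ none := by simp [merge, trans, h1, h2]
      rw [ind_neg this]
      linarith [ind_nonneg (ρ y ≠ none), ind_nonneg (y ∈ qs t O)]
  · rw [ind_pos (p := ρ y ≠ none) h1]
    linarith [ind_le_one (merge ρ (trans t O) y ≠ none), ind_nonneg (y ∈ qs t O)]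

theorem min_step_G {w : R → ℝ} (hw : IsProb w) (tr : R → DT Y) (ρ : Y → Option Bool)
    (O : Y → Bool) (y : Y) (c : ℝ) :
    ∑ r, w r * min 1 (ind (merge ρ (trans (tr r) O) y ≠ none) + c) ≤
      min 1 (ind (ρ y ≠ none) + (c + ∑ r, w r * ind (y ∈ qs (tr r) O))) := by
  refine le_min ?_ ?_
  · refine le_trans (sum_le_sum fun r _ => ?_) hw.2.le
    exact mul_le_of_le_one_right (hw.1 r) (min_le_left _ _)
  · have e : ind (ρ y ≠ none) + (c + ∑ r, w r * ind (y ∈ qs (tr r) O)) =
        ∑ r, w r * (ind (ρ y ≠ none) + ind (y ∈ qs (tr r) O) + c) := by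
      simp only [mul_add, sum_add_distrib, ← sum_mul, hw.2]; ring
    rw [e]
    refine sum_le_sum fun r _ => mul_le_mul_of_nonneg_left ((min_le_right _ _).trans ?_) (hw.1 r)
    linarith [ind_merge_G (tr r) ρ O y]

/-- the accumulated error term after `u` ghost runs -/
noncomputable def acc_G (w : R → ℝ) (tr : R → DT Y) (φ : Y → (Y → Bool) → ℝ) (u : ℕ)
    (ρ : Y → Option Bool) (O : Y → Bool) : ℝ :=
  ∑ y, ∑ j ∈ range u,
    min 1 (ind (ρ y ≠ none) + j * ∑ r, w r * ind (y ∈ qs (tr r) O)) * φ y O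

theorem acc_step_G {w : R → ℝ} (hw : IsProb w) (tr : R → DT Y) (φ : Y → (Y → Bool) → ℝ)
    (hφ : ∀ y O, 0 ≤ φ y O) (u : ℕ) (ρ : Y → Option Bool) (O : Y → Bool) :
    ∑ y, ind (ρ y ≠ none) * φ y O + ∑ r, w r * acc_G w tr φ u (merge ρ (trans (tr r) O)) O ≤
      acc_G w tr φ (u + 1) ρ O := by
  unfold acc_G
  have hm := fun y => min_step_G hw tr ρ O y
  generalize hα : (fun y => ∑ r, w r * ind (y ∈ qs (tr r) O)) = α
  have hα' : ∀ y, ∑ r, w r * ind (y ∈ qs (tr r) O) = α y := fun y => congrFun hα y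
  simp only [hα'] at hm ⊢
  simp only [mul_sum]
  rw [sum_comm (s := (univ : Finset R)), ← sum_add_distrib]
  refine sum_le_sum fun y _ => ?_
  rw [sum_range_succ', add_comm, sum_comm]
  refine add_le_add (sum_le_sum fun j _ => ?_) ?_
  · simp only [← mul_assoc, ← sum_mul]
    refine mul_le_mul_of_nonneg_right ((hm y _).trans_eq ?_) (hφ y O)
    congr 2
    push_cast
    ring
  · simp only [Nat.cast_zero, zero_mul, add_zero]
    rw [min_eq_right (ind_le_one _)]

theorem ghost_G {w : R → ℝ} (hw : IsProb w) (tr : R → DT Y) (ρ : Y → Option Bool)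
    (ψ : (Y → Bool) → ℝ) (φ : Y → (Y → Bool) → ℝ) (hφ : ∀ y O, 0 ≤ φ y O) (c : ℝ) (hc : 0 ≤ c)
    (h0 : ∀ (ρ' : Y → Option Bool) V, Sup ρ' V → 0 ≤ Ph (cube ρ') V)
    (h : ∀ ρ' V, Sup ρ' V → (∀ y b, ρ y = some b → ρ' y = some b) →
      ∑ O, V O * ψ O + gop w tr (fun ρ' V' => Ph (cube ρ') V') ρ' V ≤
        Ph (cube ρ') V + c * ∑ O, V O * ∑ y, ind (ρ' y ≠ none) * φ y O) (u : ℕ) :
    ∀ ρ' V, Sup ρ' V → (∀ y b, ρ y = some b → ρ' y = some b) →
      u * ∑ O, V O * ψ O ≤ Ph (cube ρ') V + c * ∑ O, V O * acc_G w tr φ u ρ' O := by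
  induction u with
  | zero => intro ρ' V hs _; simpa [acc_G] using h0 ρ' V hs
  | succ u ih =>
    intro ρ' V hs hρ
    have h1 := h ρ' V hs hρ
    have h2 : u * gop w tr (fun _ V' => ∑ O, V' O * ψ O) ρ' V ≤
        gop w tr (fun ρ' V' => Ph (cube ρ') V') ρ' V +
          c * gop w tr (fun ρ' V' => ∑ O, V' O * acc_G w tr φ u ρ' O) ρ' V := by
      unfold gop
      rw [mul_sum, mul_sum, ← sum_add_distrib]
      refine sum_le_sum fun r _ => ?_
      rw [mul_sum, mul_sum, ← sum_add_distrib]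
      refine sum_le_sum fun ω _ => ih _ _ (sup_child_G hw tr hs r ω) fun y b hb => ?_
      simp [merge, hρ y b hb]
    rw [gop_lin_G w tr (fun _ O => ψ O), gop_lin_G w tr (acc_G w tr φ u)] at h2
    simp only [← sum_mul, hw.2, one_mul] at h2
    have h3 : ∑ O, V O * ∑ y, ind (ρ' y ≠ none) * φ y O +
        ∑ O, V O * ∑ r, w r * acc_G w tr φ u (merge ρ' (trans (tr r) O)) O ≤
        ∑ O, V O * acc_G w tr φ (u + 1) ρ' O := by
      rw [← sum_add_distrib]
      refine sum_le_sum fun O _ => ?_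
      rw [← mul_add]
      exact mul_le_mul_of_nonneg_left (acc_step_G hw tr φ hφ u ρ' O) (hs O).1
    have h4 := mul_le_mul_of_nonneg_left h3 hc
    push_cast
    linarith

end

theorem sG (h : SG2) (h0 : SG1) : SG := by
  intro Y _ _ R _ w tr s Good ρ V x t hw hs hx hx1 ht
  set b : ℝ := ∑ r, w r * av fun O => sg ((tr r).eval (ovr ρ O)) * sg (s r) with hb
  set a : (Y → Bool) → ℝ := fun O => ∑ r, w r * (sg ((tr r).eval O) * sg (s r)) with ha
  set χ : Y → (Y → Bool) → ℝ := fun y O => ∑ r, w r *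
    (ind (y ∈ qs (tr r) O) * ind (¬ Good y r) + hitF ρ (tr r) y * ind (Good y r)) with hχ
  have χ0 : ∀ y O, 0 ≤ χ y O := fun y O => sum_nonneg fun r _ => mul_nonneg (hw.1 r)
    (add_nonneg (mul_nonneg (ind_nonneg _) (ind_nonneg _)) (mul_nonneg
      (div_nonneg (sum_nonneg fun _ _ => ind_nonneg _) (Nat.cast_nonneg _)) (ind_nonneg _)))
  have e1 : ∀ V' : (Y → Bool) → ℝ, ∑ O, V' O * (x * a O - x * b - x ^ 2) =
      x * ∑ O, V' O * a O - x * ((∑ O, V' O) * b) - x ^ 2 * ∑ O, V' O := fun V' => by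
    clear_value a b
    rw [sum_mul, mul_sum, mul_sum, mul_sum, ← sum_sub_distrib, ← sum_sub_distrib]
    exact sum_congr rfl fun O _ => by ring
  have key := ghost_G hw tr ρ (fun O => x * a O - x * b - x ^ 2)
    (fun y O => ind (ρ y = none) * χ y O) (fun y O => mul_nonneg (ind_nonneg _) (χ0 y O))
    (2 * x) (by linarith)
    (fun ρ' V' hs' => (h0 Y R w tr ρ' V' (fun _ _ => 0) 0 hw hs' (fun _ _ => by simp)
      (fun _ _ _ _ => rfl) le_rfl zero_le_one).1)
    (fun ρ' V' hs' hρ => by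
      have h1 := h Y R w tr s Good ρ ρ' V' x hw hs' hρ hx.le hx1
      have e2 : ∀ y O, ind (ρ' y ≠ none) * (ind (ρ y = none) * χ y O) =
          ind (ρ y = none ∧ ρ' y ≠ none) * χ y O := fun y O => by
        by_cases g1 : ρ y = none <;> by_cases g2 : ρ' y = none <;> simp [ind, g1, g2]
      simp only [e2]
      rw [e1]
      linarith) t ρ V hs fun _ _ g => g
  have h2 : ∀ O, acc_G w tr (fun y O => ind (ρ y = none) * χ y O) t ρ O ≤
      t * ∑ y, ind (ρ y = none) * gh w tr t O y * χ y O := fun O => by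
    unfold acc_G
    rw [mul_sum]
    refine sum_le_sum fun y _ => ?_
    by_cases g : ρ y = none
    · have g' : ¬ ρ y ≠ none := fun k => k g
      rw [ind_pos g, ind_neg g']
      have a0 : 0 ≤ ∑ r, w r * ind (y ∈ qs (tr r) O) :=
        sum_nonneg fun r _ => mul_nonneg (hw.1 r) (ind_nonneg _)
      have := sum_le_card_nsmul (range t)
        (fun j => min 1 (0 + (j : ℝ) * ∑ r, w r * ind (y ∈ qs (tr r) O)) * (1 * χ y O))
        (1 * gh w tr t O y * χ y O) fun j hj => by
          simp only [zero_add, one_mul]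
          refine mul_le_mul_of_nonneg_right (min_le_min le_rfl ?_) (χ0 y O)
          exact mul_le_mul_of_nonneg_right (by exact_mod_cast (mem_range.1 hj).le) a0
      simpa [ind_pos g] using this
    · simp [ind_neg g]
  have h3 : ∑ O, V O * acc_G w tr (fun y O => ind (ρ y = none) * χ y O) t ρ O ≤
      t * ∑ O, V O * ∑ y, ind (ρ y = none) * gh w tr t O y * χ y O := by
    rw [mul_sum]
    refine sum_le_sum fun O _ => ?_
    rw [mul_left_comm]
    exact mul_le_mul_of_nonneg_left (h2 O) (hs O).1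
  rw [e1] at key
  have tp : (0 : ℝ) < t := by exact_mod_cast ht
  have xt : 0 < x * t := by positivity
  have h4 := mul_le_mul_of_nonneg_left h3 (show 0 ≤ 2 * x by linarith)
  change ∑ O, V O * a O ≤ (∑ O, V O) * b + x * ∑ O, V O + Ph (cube ρ) V / (x * t) +
    2 * ∑ O, V O * ∑ y, ind (ρ y = none) * gh w tr t O y * χ y O
  generalize (∑ O, V O * ∑ y, ind (ρ y = none) * gh w tr t O y * χ y O) = G at *
  generalize (∑ O, V O * a O) = A at *
  generalize (∑ O, V O) = M at *
  have h5 : A - M * b - x * M - 2 * G ≤ Ph (cube ρ) V / (x * t) := by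
    rw [le_div_iff₀ xt]
    nlinarith
  linarith

end

section

theorem hom_Ph1 {Y : Type} [Fintype Y] [DecidableEq Y] (A : Finset (Y → Bool))
    (V : (Y → Bool) → ℝ) (y : ℝ) : Ph A (fun O => V O * y) = y * Ph A V := by
  rcases eq_or_ne y 0 with rfl | hy
  · simp [Ph]
  · simp only [Ph, mul_sum, ← sum_mul]
    refine sum_congr rfl fun O _ => ?_
    rw [mul_right_comm (V O) y (A.card : ℝ), mul_div_mul_right _ _ hy]
    ring

theorem cube_Ph1 {Y : Type} [Fintype Y] [DecidableEq Y] {ρ : Y → Option Bool} (y : Y)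
    {O : Y → Bool} (hO : O ∈ cube ρ) (O' : Y → Bool) :
    O' ∈ cube (Function.update ρ y (some (O y))) ↔ O' ∈ cube ρ ∧ O' y = O y := by
  simp only [mem_cube] at hO ⊢
  constructor
  · intro h
    have e := h y (O y) (Function.update_self ..)
    refine ⟨fun z b hz => ?_, e⟩
    rcases eq_or_ne z y with rfl | hzy
    · rw [e, hO z b hz]
    · exact h z b (by rwa [Function.update_of_ne hzy])
  · rintro ⟨h, e⟩ z b hz
    rcases eq_or_ne z y with rfl | hzy
    · rw [Function.update_self] at hz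
      rw [e, Option.some.inj hz]
    · exact h z b (by rwa [Function.update_of_ne hzy] at hz)

theorem upd_Ph1 {Y : Type} [Fintype Y] [DecidableEq Y] (ρ : Y → Option Bool) (y : Y) (a : Bool)
    (g : Y → ℝ) : ∑ y', ind (Function.update ρ y (some a) y' = none) * g y' =
      ∑ y', ind (ρ y' = none) * g y' - ind (ρ y = none) * g y := by
  rw [← add_sum_erase _ _ (mem_univ y), ← add_sum_erase _ (fun y' => ind (ρ y' = none) * g y')
    (mem_univ y), Function.update_self, ind_neg (Option.some_ne_none a), zero_mul, zero_add,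
    add_sub_cancel_left]
  exact sum_congr rfl fun z hz => by rw [Function.update_of_ne (ne_of_mem_erase hz)]

theorem one_Ph1 (b : Bool) : ∑ a, ind (b = a) = 1 := by
  cases b <;> simp [ind]

theorem sPh1 (h : SCh) : SPh1 := by
  intro Y I _ _ _ _ _ lam e σ hl _ _ hV
  refine ⟨?_, le_of_eq ?_, fun g => ?_⟩
  · have key : ∀ y, ∑ a, Ph1 (nextQ lam σ y a) ≤ lam σ y * Ph1 σ := fun y => by
      simp only [Ph1, nextQ]
      rw [sum_comm, mul_sum]
      refine sum_le_sum fun c _ => ?_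
      have h1 := (h Y Bool (cube σ.1) (fun a => cube (Function.update σ.1 y (some a)))
        (fun O => O y) (fun O => σ.2 (O, c)) (fun _ => 0) 0 (fun O => hV (O, c))
        (fun O hO O' => cube_Ph1 y hO O') (fun _ => by simp) (fun _ _ _ => rfl) le_rfl
        zero_le_one).2.2
      rw [zero_mul, zero_mul, zero_pow two_ne_zero, zero_mul, zero_add, zero_add, zero_add] at h1
      refine le_trans (le_of_eq ?_) (mul_le_mul_of_nonneg_left h1 (hl.1 y))
      rw [mul_sum]
      refine sum_congr rfl fun a _ => ?_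
      rw [← hom_Ph1]
      congr 1
      funext O
      ring
    refine (sum_le_sum fun y _ => key y).trans (le_of_eq ?_)
    rw [← sum_mul, hl.2, one_mul]
  · simp only [lop, Ph1, mulT, hom_Ph1]
    rw [sum_comm]
    refine sum_congr rfl fun c _ => ?_
    rw [← sum_mul, sum_tokw, one_mul]
  · have key : ∀ y, ∑ a, Psi g (nextQ lam σ y a) =
        lam σ y * Psi g σ - ind (σ.1 y = none) * (∑ h, σ.2 h * g h y) * lam σ y := fun y => by
      simp only [Psi, nextQ, upd_Ph1]
      rw [sum_comm, mul_sum, mul_sum, sum_mul, ← sum_sub_distrib]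
      refine sum_congr rfl fun x _ => ?_
      rw [← sum_mul, ← mul_sum, ← mul_sum, one_Ph1]
      ring
    simp only [qop, key]
    rw [sum_sub_distrib, ← sum_mul, hl.2]
    ring

end

section

/-! The splitting operators. -/

variable {Y I : Type} [Fintype Y] [DecidableEq Y] [Fintype I] [DecidableEq I]

theorem sum_ind_Spl (b : Bool) : ∑ a, ind (b = a) = 1 := by
  cases b <;> simp [ind]

theorem sum_q_Spl {p : Y → ℝ} (hp : IsProb p) (O : Y → Bool) :
    ∑ y, ∑ a, p y * ind (O y = a) = 1 := by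
  simp only [← mul_sum, sum_ind_Spl, mul_one, hp.2]

theorem qop_Spl {lam : St Y I → Y → ℝ} (hl : ∀ σ, IsProb (lam σ)) : Spl (qop lam) := by
  refine ⟨fun F G σ => ?_, fun x F σ => ?_, fun F G h σ hσ => ?_, fun φ σ => ?_⟩
  · simp only [qop, sum_add_distrib]
  · simp only [qop, mul_sum]
  · refine sum_le_sum fun y _ => sum_le_sum fun a _ => h _ fun k => ⟨mul_nonneg (hσ k).1
      (mul_nonneg ((hl σ).1 y) (ind_nonneg _)), fun h0 => mem_cube.2 fun y' b hb => ?_⟩
    have h1 : k.1 y = a := by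
      by_contra h1
      exact h0 (by simp [nextQ, ind_neg h1])
    by_cases e : y' = y
    · subst e
      simp only [nextQ, Function.update_self, Option.some.injEq] at hb
      rw [h1, hb]
    · simp only [nextQ, Function.update_of_ne e] at hb
      exact mem_cube.1 ((hσ k).2 (left_ne_zero_of_mul h0)) y' b hb
  · simp only [qop, lin, nextQ]
    rw [sum_congr rfl fun y _ => sum_comm, sum_comm]
    refine sum_congr rfl fun k _ => ?_
    simp only [← sum_mul, ← mul_sum, sum_ind_Spl, mul_one, (hl σ).2]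

theorem lop_Spl [Nonempty I] {e : ℝ} (h0 : 0 ≤ e) (h1 : e ≤ 1) : Spl (lop (Y := Y) (I := I) e) := by
  refine ⟨fun F G σ => ?_, fun x F σ => ?_, fun F G h σ hσ => ?_, fun φ σ => ?_⟩
  · simp only [lop, sum_add_distrib]
  · simp only [lop, mul_sum]
  · exact sum_le_sum fun z _ => h _ fun k => ⟨mul_nonneg (hσ k).1 (tokw_nonneg h0 h1 _ _),
      fun h0 => (hσ k).2 (left_ne_zero_of_mul h0)⟩
  · simp only [lop, lin, mulT]
    rw [sum_comm]
    refine sum_congr rfl fun k _ => ?_
    simp only [← sum_mul, ← mul_sum, sum_tokw, mul_one]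

theorem comp_Spl {A B : (St Y I → ℝ) → St Y I → ℝ} (hA : Spl A) (hB : Spl B) :
    Spl fun F => A (B F) := by
  refine ⟨fun F G σ => ?_, fun x F σ => ?_, fun F G h => hA.mono _ _ (hB.mono F G h),
    fun φ σ => ?_⟩
  · rw [funext (hB.add F G), hA.add]
  · rw [funext (hB.smul x F), hA.smul]
  · rw [funext (hB.lin φ), hA.lin]

theorem iter_Spl {A : (St Y I → ℝ) → St Y I → ℝ} (hA : Spl A) (n : ℕ) : Spl A^[n] := by
  induction n with
  | zero => exact ⟨fun _ _ _ => rfl, fun _ _ _ => rfl, fun _ _ h => h, fun _ _ => rfl⟩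
  | succ n ih => exact (comp_Spl ih hA :)

theorem sub_Spl {A : (St Y I → ℝ) → St Y I → ℝ} (hA : Spl A) (F G : St Y I → ℝ) (σ : St Y I) :
    A (fun τ => F τ - G τ) σ = A F σ - A G σ := by
  have := hA.add F (fun τ => -1 * G τ) σ
  rw [hA.smul] at this
  simpa only [neg_one_mul, ← sub_eq_add_neg] using this

theorem nonneg_Spl {A : (St Y I → ℝ) → St Y I → ℝ} (hA : Spl A) {F : St Y I → ℝ}
    (h : ∀ σ, Val σ → 0 ≤ F σ) (σ : St Y I) (hσ : Val σ) : 0 ≤ A F σ := by
  have := hA.mono (fun τ => 0 * F τ) F (fun τ hτ => by simpa using h τ hτ) σ hσ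
  rwa [hA.smul, zero_mul] at this

theorem blk_Spl {lam : St Y I → Y → ℝ} (hl : ∀ σ, IsProb (lam σ)) {s : ℕ} (hs : 0 < s) :
    Spl (blk lam s) := by
  have h := iter_Spl (qop_Spl hl)
  refine ⟨fun F G σ => ?_, fun x F σ => ?_, fun F G k σ hσ => ?_, fun φ σ => ?_⟩
  · simp only [blk, (h _).add, sum_add_distrib, add_div]
  · simp only [blk, (h _).smul, ← mul_sum, mul_div_assoc]
  · exact div_le_div_of_nonneg_right (sum_le_sum fun u _ => (h u).mono F G k σ hσ)
      (Nat.cast_nonneg _)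
  · have : (s : ℝ) ≠ 0 := Nat.cast_ne_zero.2 hs.ne'
    simp only [blk, (h _).lin, sum_const, card_range, nsmul_eq_mul]
    field_simp

theorem sSpl : SSpl := by
  intro Y I _ _ _ _ _ lam s e hl hs h0 h1
  have hq := qop_Spl hl
  have hi := iter_Spl hq
  have hb := blk_Spl hl hs
  have hL := lop_Spl (Y := Y) (I := I) h0 h1
  have hO := iter_Spl (comp_Spl hb hL)
  have hE : ∀ j, Spl (Ex lam s e j) := fun j => (comp_Spl (hO j) hb :)
  have hs' : (0 : ℝ) < s := Nat.cast_pos.2 hs
  refine ⟨hE, fun F a1 a2 => ?_, fun F φ a j σ hσ => ?_, fun F G b hc J σ hσ => ?_⟩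
  · have b1 : ∀ u σ, Val σ → (qop lam)^[u] F σ ≤ F σ := fun u => by
      induction u with
      | zero => exact fun _ _ => le_rfl
      | succ u ih => exact fun σ hσ => ((hi u).mono _ _ a1 σ hσ).trans (ih σ hσ)
    have b2 : ∀ σ, Val σ → blk lam s F σ ≤ F σ := fun σ hσ => by
      rw [blk, div_le_iff₀ hs']
      refine (sum_le_sum fun u _ => b1 u σ hσ).trans_eq ?_
      simp [mul_comm]
    intro j
    induction j with
    | zero => exact b2
    | succ j ih =>
      intro σ hσ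
      rw [Ex, Function.iterate_succ_apply']
      exact (hb.mono _ _ (fun τ hτ => (hL.mono _ _ ih τ hτ).trans (a2 τ hτ)) σ hσ).trans (b2 σ hσ)
  · have b1 : ∀ τ, Val τ → blk lam s (fun τ => F τ - qop lam F τ) τ ≤ 1 / s * lin φ τ := by
      intro τ hτ
      rw [blk, one_div_mul_eq_div]
      refine div_le_div_of_nonneg_right ?_ hs'.le
      simp only [sub_Spl (hi _)]
      have := sum_range_sub' (fun u => (qop lam)^[u] F τ) s
      simp only [Function.iterate_succ_apply, Function.iterate_zero, id] at this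
      rw [this]
      linarith [nonneg_Spl (hi s) (fun σ hσ => (a σ hσ).1) τ hτ, (a τ hτ).2]
    refine ((hO j).mono _ _ b1 σ hσ).trans_eq ?_
    rw [(hO j).smul, (hO j).lin, one_div_mul_eq_div]
  · have a1 : ∀ τ : St Y I, Val τ → F τ.2 ≤ qop lam (fun τ => F τ.2) τ := fun τ hτ => by
      have := hc.split (Y × Bool) τ.2 (fun z h => lam τ z.1 * ind (h.1 z.1 = z.2))
        (fun h => (hτ h).1) (fun z h => mul_nonneg ((hl τ).1 _) (ind_nonneg _))
        fun h => by rw [Fintype.sum_prod_type]; exact sum_q_Spl (hl τ) h.1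
      rwa [Fintype.sum_prod_type] at this
    have b1 : ∀ u (τ : St Y I), Val τ → F τ.2 ≤ (qop lam)^[u] (fun τ => F τ.2) τ := fun u => by
      induction u with
      | zero => exact fun _ _ => le_rfl
      | succ u ih => exact fun σ hσ => (ih σ hσ).trans ((hi u).mono _ _ a1 σ hσ)
    have b2 : ∀ τ : St Y I, Val τ → F τ.2 ≤ blk lam s (fun τ => F τ.2) τ := fun τ hτ => by
      rw [blk, le_div_iff₀ hs']
      refine Eq.trans_le ?_ (sum_le_sum fun u _ => b1 u τ hτ)
      simp [mul_comm]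
    have b3 : ∀ j, Ex lam s e j (fun τ => F τ.2) σ + Ex lam s e j (fun τ => G τ.2) σ ≤
        Ex lam s e (j + 1) (fun τ => F τ.2) σ := fun j => by
      rw [← (hE j).add]
      exact (hE j).mono _ (lop e (blk lam s fun τ => F τ.2))
        (fun τ hτ => (hc.gain τ.2 fun h => (hτ h).1).trans (hL.mono _ _ b2 τ hτ)) σ hσ
    have b4 : ∑ j ∈ range J, Ex lam s e j (fun τ => G τ.2) σ ≤
        Ex lam s e J (fun τ => F τ.2) σ := by
      induction J with
      | zero => simpa using nonneg_Spl (hE 0) (fun τ hτ => hc.lo τ.2 fun h => (hτ h).1) σ hσ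
      | succ J ih => rw [sum_range_succ]; linarith [b3 J]
    exact b4.trans (((hE J).mono _ (lin b) (fun τ hτ => hc.up τ.2 fun h => (hτ h).1) σ hσ).trans_eq
      ((hE J).lin b σ))

end

section

theorem var_Kl {a b r : ℝ} (ha : 0 ≤ a) (hb : 0 ≤ b) (hab : b = 0 → a = 0) (hr : 0 < r) :
    a * Real.log r + b * (1 - r) ≤ kl a b := by
  rcases ha.eq_or_lt with h | ha
  · subst h
    simp only [kl, zero_mul]
    nlinarith [mul_nonneg hb hr.le]
  · have hb' : 0 < b := lt_of_le_of_ne hb fun e => ha.ne' (hab e.symm)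
    have h1 := Real.log_le_sub_one_of_pos (show 0 < r / (a / b) by positivity)
    rw [Real.log_div hr.ne' (by positivity)] at h1
    have h2 := mul_le_mul_of_nonneg_left h1 ha.le
    have h3 : a * (r / (a / b) - 1) = r * b - a := by field_simp
    unfold kl
    nlinarith

theorem split_Kl {S : Type} [Fintype S] (x y : S → ℝ) (hx : ∀ s, 0 ≤ x s) (hy : ∀ s, 0 ≤ y s)
    (hxy : ∀ s, y s = 0 → x s = 0) : kl (∑ s, x s) (∑ s, y s) ≤ ∑ s, kl (x s) (y s) := by
  rcases (sum_nonneg fun s (_ : s ∈ univ) => hx s).eq_or_lt with h | ha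
  · have h0 := (sum_eq_zero_iff_of_nonneg fun s (_ : s ∈ univ) => hx s).1 h.symm
    rw [← h]
    refine le_of_eq ?_
    have h1 : ∑ s, kl (x s) (y s) = ∑ s, y s :=
      sum_congr rfl fun s hs => by rw [h0 s hs]; simp [kl]
    rw [h1]
    simp [kl]
  · have hb : 0 < ∑ s, y s := by
      refine lt_of_le_of_ne (sum_nonneg fun s _ => hy s) fun e => ha.ne' ?_
      have h0 := (sum_eq_zero_iff_of_nonneg fun s (_ : s ∈ univ) => hy s).1 e.symm
      exact sum_eq_zero fun s hs => hxy s (h0 s hs)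
    refine le_trans (le_of_eq ?_)
      (sum_le_sum fun s _ => var_Kl (hx s) (hy s) (hxy s) (div_pos ha hb))
    rw [sum_add_distrib, ← sum_mul, ← sum_mul]
    unfold kl
    field_simp
    ring

theorem pq_Kl {p q : ℝ} (hp : 0 < p) (hq : 0 < q) (hp1 : p ≤ 1) (hq1 : q ≤ 1) :
    p - q + (p - q) ^ 2 / 4 ≤ p * Real.log (p / q) := by
  obtain ⟨s, hs, rfl⟩ : ∃ s : ℝ, 0 < s ∧ p = s ^ 2 :=
    ⟨√p, Real.sqrt_pos.2 hp, (Real.sq_sqrt hp.le).symm⟩
  obtain ⟨t, ht, rfl⟩ : ∃ t : ℝ, 0 < t ∧ q = t ^ 2 :=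
    ⟨√q, Real.sqrt_pos.2 hq, (Real.sq_sqrt hq.le).symm⟩
  have h1 := Real.log_le_sub_one_of_pos (div_pos ht hs)
  have h2 : Real.log (s ^ 2 / t ^ 2) = -(2 * Real.log (t / s)) := by
    rw [← div_pow, Real.log_pow, Real.log_div hs.ne' ht.ne', Real.log_div ht.ne' hs.ne']
    push_cast
    ring
  have h3 := mul_le_mul_of_nonneg_left h1 hp.le
  have h4 : s ^ 2 * (t / s - 1) = s * t - s ^ 2 := by field_simp
  have hs1 : s ≤ 1 := by nlinarith
  have ht1 : t ≤ 1 := by nlinarith
  have h5 : (s + t) ^ 2 ≤ 4 := by nlinarith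
  have h6 := mul_le_mul_of_nonneg_left h5 (sq_nonneg (s - t))
  rw [h2]
  nlinarith

theorem tok_Kl {a b c p q : ℝ} (ha : 0 < a) (hb : 0 < b) (hc : 0 < c) (hp : 0 ≤ p) (hq : 0 ≤ q)
    (hp1 : p ≤ 1) (hq1 : q ≤ 1) (hpq : b * c * q = 0 → a * c * p = 0) :
    a * c * p * Real.log (a / b) - a * c * p + b * c * q + a * c * (p - q + (p - q) ^ 2 / 4) ≤
      kl (a * c * p) (b * c * q) := by
  have hac := mul_pos ha hc
  rcases hp.eq_or_lt with h | hp
  · subst h
    simp only [kl, mul_zero, zero_mul]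
    have : 0 - q + (0 - q) ^ 2 / 4 ≤ 0 := by nlinarith
    nlinarith [mul_le_mul_of_nonneg_left this hac.le]
  · have hq' : 0 < q := lt_of_le_of_ne hq fun e => (mul_pos hac hp).ne' (hpq (by rw [← e, mul_zero]))
    have h1 : a * c * p / (b * c * q) = a / b * (p / q) := by field_simp
    have h2 := mul_le_mul_of_nonneg_left (pq_Kl hp hq' hp1 hq1) hac.le
    unfold kl
    rw [h1, Real.log_mul (by positivity) (by positivity)]
    nlinarith

section
variable {Y I : Type} [Fintype Y] [DecidableEq Y] [Fintype I] [DecidableEq I]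

theorem post_Kl (V : Hd Y I → ℝ) (hV : ∀ h, 0 ≤ V h) (i : I) : 0 ≤ post V i ∧ post V i ≤ 1 := by
  have h0 : 0 ≤ ∑ h, V h := sum_nonneg fun h _ => hV h
  refine ⟨div_nonneg (sum_nonneg fun h _ => mul_nonneg (hV h) (ind_nonneg _)) h0, ?_⟩
  exact div_le_one_of_le₀ (sum_le_sum fun h _ => mul_le_of_le_one_right (hV h) (ind_le_one _)) h0

theorem mass_Kl (e : ℝ) (V : Hd Y I → ℝ) (hv : ∑ h, V h ≠ 0) (i : I) :
    ∑ h, V h * tokw e h.2 (i, true) =
      (∑ h, V h) * (1 / Fintype.card I) * (e + (1 - 2 * e) * post V i) ∧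
    ∑ h, V h * tokw e h.2 (i, false) =
      (∑ h, V h) * (1 / Fintype.card I) * (1 - (e + (1 - 2 * e) * post V i)) := by
  have h1 : (∑ h, V h) * post V i = ∑ h, V h * ind (h.2 i = true) := by
    unfold post
    field_simp
  constructor
  · calc _ = ∑ h, (1 / Fintype.card I : ℝ) *
          (e * V h + (1 - 2 * e) * (V h * ind (h.2 i = true))) := by
          refine sum_congr rfl fun h _ => ?_
          cases hc : h.2 i <;> simp [tokw, lik, hc, ind] <;> ring
      _ = _ := by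
          rw [← mul_sum, sum_add_distrib, ← mul_sum, ← mul_sum, ← h1]
          ring
  · calc _ = ∑ h, (1 / Fintype.card I : ℝ) *
          ((1 - e) * V h - (1 - 2 * e) * (V h * ind (h.2 i = true))) := by
          refine sum_congr rfl fun h _ => ?_
          cases hc : h.2 i <;> simp [tokw, lik, hc, ind] <;> ring
      _ = _ := by
          rw [← mul_sum, sum_sub_distrib, ← mul_sum, ← mul_sum, ← h1]
          ring

end

theorem sKl : SKl := by
  intro Y I _ _ _ _ _ e L A B he0 he1 hL hAB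
  have hB : ∀ h, 0 ≤ B h := fun h =>
    nonneg_of_mul_nonneg_right ((hAB h).1.trans (hAB h).2) (by linarith)
  have ka : ∀ W : Hd Y I → ℝ, (∀ h, 0 ≤ W h) → 0 ≤ ∑ h, W h * A h := fun W hW =>
    sum_nonneg fun h _ => mul_nonneg (hW h) (hAB h).1
  have kb : ∀ W : Hd Y I → ℝ, (∀ h, 0 ≤ W h) → 0 ≤ ∑ h, W h * B h := fun W hW =>
    sum_nonneg fun h _ => mul_nonneg (hW h) (hB h)
  have kl' : ∀ W : Hd Y I → ℝ, (∀ h, 0 ≤ W h) → ∑ h, W h * A h ≤ L * ∑ h, W h * B h := by
    intro W hW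
    rw [mul_sum]
    exact sum_le_sum fun h _ => by nlinarith [mul_le_mul_of_nonneg_left (hAB h).2 (hW h)]
  have kz : ∀ W : Hd Y I → ℝ, (∀ h, 0 ≤ W h) → ∑ h, W h * B h = 0 → ∑ h, W h * A h = 0 := by
    intro W hW h0
    have := kl' W hW
    rw [h0, mul_zero] at this
    exact le_antisymm this (ka W hW)
  have hsplit : ∀ (S : Type) [Fintype S] (W : Hd Y I → ℝ) (κ : S → Hd Y I → ℝ), (∀ h, 0 ≤ W h) →
      (∀ s h, 0 ≤ κ s h) → (∀ h, ∑ s, κ s h = 1) → kl (∑ h, W h * A h) (∑ h, W h * B h) ≤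
        ∑ s, kl (∑ h, W h * κ s h * A h) (∑ h, W h * κ s h * B h) := by
    intro S _ W κ hW hκ h1
    have hW' : ∀ s h, 0 ≤ W h * κ s h := fun s h => mul_nonneg (hW h) (hκ s h)
    have key : ∀ C : Hd Y I → ℝ, ∑ s, ∑ h, W h * κ s h * C h = ∑ h, W h * C h := by
      intro C
      rw [sum_comm]
      refine sum_congr rfl fun h _ => ?_
      rw [← sum_mul, ← mul_sum, h1, mul_one]
    have := split_Kl (fun s => ∑ h, W h * κ s h * A h) (fun s => ∑ h, W h * κ s h * B h)
      (fun s => ka _ (hW' s)) (fun s => kb _ (hW' s)) (fun s => kz _ (hW' s))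
    rwa [key, key] at this
  refine ⟨hsplit, fun W hW => ?_, fun W hW => ?_, fun W hW => ?_⟩
  · rcases (ka W hW).eq_or_lt with h | ha
    · have := hsplit (I × Bool) W (fun z h => tokw e h.2 z) hW
        (fun z h => tokw_nonneg he0 he1 _ _) (fun h => sum_tokw e h.2)
      rw [← h, zero_mul, mul_zero, add_zero]
      rw [← h] at this
      exact this
    have hb : 0 < ∑ h, W h * B h := lt_of_le_of_ne (kb W hW) fun e => ha.ne' (kz W hW e.symm)
    have hN : (0 : ℝ) < Fintype.card I := by exact_mod_cast Fintype.card_pos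
    have hc : (0 : ℝ) < 1 / Fintype.card I := by positivity
    rw [Fintype.sum_prod_type
      (f := fun z : I × Bool => kl (∑ h, mulT e W z h * A h) (∑ h, mulT e W z h * B h))]
    have step : ∀ i : I, 1 / Fintype.card I * kl (∑ h, W h * A h) (∑ h, W h * B h) +
        (1 - 2 * e) ^ 2 / 4 * ((∑ h, W h * A h) *
          ((post (fun h => W h * A h) i - post (fun h => W h * B h) i) ^ 2 / Fintype.card I)) ≤
        ∑ β : Bool, kl (∑ h, mulT e W (i, β) h * A h) (∑ h, mulT e W (i, β) h * B h) := by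
      intro i
      obtain ⟨a1, a2⟩ := mass_Kl e (fun h => W h * A h) ha.ne' i
      obtain ⟨b1, b2⟩ := mass_Kl e (fun h => W h * B h) hb.ne' i
      obtain ⟨p0, p1⟩ := post_Kl (fun h => W h * A h) (fun h => mul_nonneg (hW h) (hAB h).1) i
      obtain ⟨q0, q1⟩ := post_Kl (fun h => W h * B h) (fun h => mul_nonneg (hW h) (hB h)) i
      have hm : ∀ (β : Bool) (C : Hd Y I → ℝ), ∑ h, mulT e W (i, β) h * C h =
          ∑ h, W h * C h * tokw e h.2 (i, β) := fun β C =>
        sum_congr rfl fun h _ => by simp only [mulT]; ring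
      have hz : ∀ β : Bool, ∑ h, W h * B h * tokw e h.2 (i, β) = 0 →
          ∑ h, W h * A h * tokw e h.2 (i, β) = 0 := by
        intro β
        rw [← hm, ← hm]
        exact kz _ fun h => mul_nonneg (hW h) (tokw_nonneg he0 he1 _ _)
      have z1 := hz true
      have z2 := hz false
      rw [Fintype.sum_bool, hm, hm, hm, hm, a1, a2, b1, b2]
      rw [a1, b1] at z1
      rw [a2, b2] at z2
      generalize post (fun h => W h * A h) i = p at *
      generalize post (fun h => W h * B h) i = q at *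
      generalize ∑ h, W h * A h = a at *
      generalize ∑ h, W h * B h = b at *
      have t1 := tok_Kl ha hb hc (by nlinarith) (by nlinarith) (by nlinarith) (by nlinarith) z1
      have t2 := tok_Kl ha hb hc (by nlinarith) (by nlinarith) (by nlinarith) (by nlinarith) z2
      refine le_trans ?_ (add_le_add t1 t2)
      have hd : (p - q) ^ 2 / (Fintype.card I : ℝ) = 1 / Fintype.card I * (p - q) ^ 2 := by ring
      rw [hd]
      unfold kl
      generalize (1 / Fintype.card I : ℝ) = c at *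
      have := mul_nonneg (mul_pos ha hc).le (sq_nonneg ((1 - 2 * e) * (p - q)))
      nlinarith
    refine le_trans (le_of_eq ?_) (sum_le_sum fun i _ => step i)
    rw [sum_add_distrib, ← mul_sum, ← mul_sum, ← mul_sum, ← sum_div, sum_const, card_univ,
      nsmul_eq_mul]
    unfold av
    field_simp
  · have := var_Kl (ka W hW) (kb W hW) (kz W hW) one_pos
    simpa using this
  · have h1 : ∑ h, W h * (Real.log L * A h + B h) =
        Real.log L * ∑ h, W h * A h + ∑ h, W h * B h := by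
      rw [mul_sum, ← sum_add_distrib]
      exact sum_congr rfl fun h _ => by ring
    rw [h1]
    rcases (ka W hW).eq_or_lt with h | ha
    · rw [← h]
      simp [kl]
    · have hb : 0 < ∑ h, W h * B h := lt_of_le_of_ne (kb W hW) fun e => ha.ne' (kz W hW e.symm)
      have h2 := Real.log_le_log (div_pos ha hb) ((div_le_iff₀ hb).2 (kl' W hW))
      have h3 := mul_le_mul_of_nonneg_left h2 ha.le
      unfold kl
      linarith

end

section

section
variable {Y I : Type} [Fintype Y] [DecidableEq Y] [Fintype I] [DecidableEq I]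

theorem post_scale_Heavy (V : Hd Y I → ℝ) {x : ℝ} (hx : x ≠ 0) (i : I) :
    post (fun h => V h * x) i = post V i := by
  unfold post
  simp only [mul_right_comm _ x, ← sum_mul]
  exact mul_div_mul_right _ _ hx

theorem msq_le_Heavy (W g A : Hd Y I → ℝ) {T N : ℝ} (hT : T ≠ 0) (hN : N ≠ 0) :
    msq W g ≤
      2 * (av fun i => (post (fun h => W h * A h) i - post (fun h => W h * (g h / T)) i) ^ 2) +
      2 * (av fun i => (post (fun h => W h * A h) i - post (fun h => W h * (1 / N)) i) ^ 2) := by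
  have e1 : ∀ i, post (fun h => W h * (g h / T)) i = post (fun h => W h * g h) i := fun i => by
    rw [← post_scale_Heavy (fun h => W h * g h) (inv_ne_zero hT) i]
    simp only [div_eq_mul_inv, mul_assoc]
  have e2 : ∀ i, post (fun h => W h * (1 / N)) i = post W i :=
    post_scale_Heavy W (one_div_ne_zero hN)
  simp only [e1, e2, msq, av, gap, sq_abs]
  rw [← mul_div_assoc, ← mul_div_assoc, ← add_div, mul_sum, mul_sum, ← sum_add_distrib]
  refine div_le_div_of_nonneg_right (sum_le_sum fun i _ => ?_) (Nat.cast_nonneg _)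
  nlinarith [sq_nonneg (2 * post (fun h => W h * A h) i - post (fun h => W h * g h) i - post W i)]

theorem msq_nonneg_Heavy (W g : Hd Y I → ℝ) : 0 ≤ msq W g :=
  div_nonneg (sum_nonneg fun _ _ => sq_nonneg _) (Nat.cast_nonneg _)

theorem succ_Heavy (e : ℝ) (c : I → Bool) {m : ℕ} (f : (Fin (m + 1) → I × Bool) → ℝ) :
    ∑ z, Lz e c z * f z =
      ∑ t, tokw e c t * ∑ z : Fin m → I × Bool, Lz e c z * f (Fin.cons t z) := by
  rw [sum_succ]
  refine sum_congr rfl fun t _ => ?_
  rw [mul_sum]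
  refine sum_congr rfl fun z _ => ?_
  rw [Lz_succ, Fin.cons_zero, Fin.tail_cons, mul_assoc]

end

theorem sHeavy (h : SKl) : SHeavy := by
  intro Y I _ _ _ _ _ _ e e' κ T g he0 he1 he0' he1' hκ hT hg hgT m
  have hT0 : (0 : ℝ) < T := by linarith
  have hN : (1 : ℝ) ≤ Fintype.card Y := by exact_mod_cast Fintype.card_pos
  have hN0 : (0 : ℝ) < Fintype.card Y := by linarith
  induction m with
  | zero =>
    intro H _
    refine ⟨fun _ => 0, fun _ => 0, (Cert.zero e').weak fun x => by simp, fun W _ => ?_⟩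
    simp [cnt]
  | succ m ih =>
    intro H hH
    have hb : ∀ (x : Hd Y I) y, 0 ≤ ∑ z, Lz e x.2 z * H z x y ∧ ∑ z, Lz e x.2 z * H z x y ≤ 1 :=
      fun x y => ⟨sum_nonneg fun z _ => mul_nonneg (Lz_nonneg he0 he1 _ z) (hH z x y).1,
        (sum_le_sum fun z _ => mul_le_of_le_one_right (Lz_nonneg he0 he1 _ z) (hH z x y).2).trans_eq
          (sum_Lz e x.2 (m + 1))⟩
    obtain ⟨A, hA⟩ : ∃ A : Y → Hd Y I → ℝ, ∀ y x, A y x = g x y * ∑ z, Lz e x.2 z * H z x y :=
      ⟨_, fun _ _ => rfl⟩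
    have hA0 : ∀ y x, 0 ≤ A y x := fun y x => hA y x ▸ mul_nonneg (hg x y).1 (hb x y).1
    have hA1 : ∀ y x, A y x ≤ g x y := fun y x =>
      hA y x ▸ mul_le_of_le_one_right (hg x y).1 (hb x y).2
    have C1 := Cert.sum fun y => h Y I e' T (A y) (fun x => g x y / T) he0' he1' hT fun x =>
      ⟨hA0 y x, by rw [mul_div_cancel₀ _ hT0.ne']; exact hA1 y x⟩
    have C2 := Cert.sum fun y => h Y I e' (Fintype.card Y) (A y) (fun _ => 1 / Fintype.card Y)
      he0' he1' hN fun x =>
        ⟨hA0 y x, by rw [mul_div_cancel₀ _ hN0.ne']; exact (hA1 y x).trans (hg x y).2⟩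
    choose F G C3 hG using fun t : I × Bool =>
      ih (fun z => H (Fin.cons t z)) fun z => hH (Fin.cons t z)
    have C4 := Cert.sum fun t => (C3 t).mul (fun x => tokw e x.2 t) fun x => tokw_nonneg he0 he1 _ t
    refine ⟨_, _, ((C1.add C2).add C4).weak fun x => ?_, fun W hW => ?_⟩
    · have a1 : ∑ y, g x y / T ≤ 1 := by
        rw [← sum_div, div_le_one hT0]
        exact hgT x
      have a2 : ∑ _y : Y, (1 / Fintype.card Y : ℝ) = 1 := by
        rw [sum_const, card_univ, nsmul_eq_mul, mul_div_cancel₀ _ hN0.ne']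
      have a3 : ∑ t, tokw e x.2 t * ∑ y, g x y *
          ∑ z : Fin m → I × Bool, Lz e x.2 z * H (Fin.cons t z) x y = ∑ y, A y x := by
        simp only [hA, succ_Heavy e x.2 fun z => H z x _, mul_sum]
        rw [sum_comm]
        exact sum_congr rfl fun y _ => sum_congr rfl fun t _ => sum_congr rfl fun z _ => by ring
      have a4 : ∀ (u v : ℝ) (p : I × Bool → ℝ), ∑ t, tokw e x.2 t * (u * (v * p t + 2)) =
          u * (v * ∑ t, tokw e x.2 t * p t + 2) := fun u v p => by
        have := sum_tokw e x.2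
        calc _ = ∑ t, (u * (v * (tokw e x.2 t * p t)) + u * 2 * tokw e x.2 t) :=
              sum_congr rfl fun t _ => by ring
          _ = _ := by rw [sum_add_distrib, ← mul_sum, ← mul_sum, ← mul_sum, this]; ring
      simp only [← hA]
      rw [a4, a3, sum_add_distrib, sum_add_distrib, ← mul_sum, ← mul_sum, a2]
      push_cast
      linarith
    · have hc : 0 ≤ (1 - 2 * e') ^ 2 := sq_nonneg _
      have b1 : ∀ y x, W x * g x y * ∑ z, Lz e x.2 z * H z x y *
          (cnt e (fun V _ => κ < msq V fun h => g h y) (m + 1) W z : ℝ) =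
          ind (κ < msq W fun h => g h y) * (W x * A y x) +
          ∑ t, mulT e W t x * g x y * ∑ z : Fin m → I × Bool, Lz e x.2 z * H (Fin.cons t z) x y *
            (cnt e (fun V _ => κ < msq V fun h => g h y) m (mulT e W t) z : ℝ) := fun y x => by
        have c1 : ∀ z : Fin (m + 1) → I × Bool,
            (cnt e (fun V _ => κ < msq V fun h => g h y) (m + 1) W z : ℝ) =
            ind (κ < msq W fun h => g h y) +
              cnt e (fun V _ => κ < msq V fun h => g h y) m (mulT e W (z 0)) (Fin.tail z) :=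
          fun z => by
            by_cases hp : κ < msq W fun h => g h y <;> simp [cnt, ind, hp]
        simp only [c1, mul_add, sum_add_distrib, mul_assoc (Lz e x.2 _)]
        rw [succ_Heavy e x.2 fun z => H z x y *
          (cnt e (fun V _ => κ < msq V fun h => g h y) m (mulT e W (z 0)) (Fin.tail z) : ℝ), hA]
        simp only [Fin.cons_zero, Fin.tail_cons]
        congr 1
        · simp only [← mul_assoc, ← sum_mul]
          ring
        · rw [mul_sum]
          exact sum_congr rfl fun t _ => by simp only [mulT]; ring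
      have b2 : ∀ y, (1 - 2 * e') ^ 2 * κ * ∑ x, ind (κ < msq W fun h => g h y) * (W x * A y x) ≤
          8 * ((1 - 2 * e') ^ 2 / 4 * ((∑ x, W x * A y x) * av fun i =>
            (post (fun x => W x * A y x) i - post (fun x => W x * (g x y / T)) i) ^ 2) +
          (1 - 2 * e') ^ 2 / 4 * ((∑ x, W x * A y x) * av fun i =>
            (post (fun x => W x * A y x) i -
              post (fun x => W x * (1 / Fintype.card Y)) i) ^ 2)) := fun y => by
        have c1 := msq_le_Heavy W (fun x => g x y) (A y) hT0.ne' hN0.ne'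
        have c2 : κ * ind (κ < msq W fun h => g h y) ≤ msq W fun h => g h y := by
          by_cases hp : κ < msq W fun h => g h y
          · rw [ind_pos hp, mul_one]; exact hp.le
          · rw [ind_neg hp, mul_zero]; exact msq_nonneg_Heavy _ _
        have c3 : 0 ≤ (1 - 2 * e') ^ 2 * ∑ x, W x * A y x :=
          mul_nonneg hc (sum_nonneg fun x _ => mul_nonneg (hW x) (hA0 y x))
        have c4 := mul_le_mul_of_nonneg_left (c2.trans c1) c3
        rw [← mul_sum]
        linarith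
      have b3 := sum_le_sum fun t (_ : t ∈ univ) =>
        hG t (mulT e W t) fun x => mul_nonneg (hW x) (tokw_nonneg he0 he1 _ t)
      have b4 := sum_le_sum fun y (_ : y ∈ univ) => b2 y
      rw [← mul_sum, ← mul_sum] at b3 b4
      rw [sum_add_distrib] at b4
      rw [sum_comm] at b3
      simp only [b1, sum_add_distrib]
      rw [sum_congr rfl fun y _ => sum_comm (s := univ) (t := univ)
        (f := fun x t => mulT e W t x * g x y * ∑ z : Fin m → I × Bool,
          Lz e x.2 z * H (Fin.cons t z) x y *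
            (cnt e (fun V _ => κ < msq V fun h => g h y) m (mulT e W t) z : ℝ))]
      have b5 : ∑ t, G t (fun x => W x * tokw e x.2 t) = ∑ t, G t (mulT e W t) := rfl
      rw [b5]
      linarith

end

section

theorem real_Bay (a1 a0 P1 P0 P e α : ℝ) (h1 : 0 ≤ a1) (h0 : 0 ≤ a0) (hP : 0 ≤ P) (hP' : P ≤ 1)
    (he : 0 ≤ e) (he' : e ≤ 1) (hα : 0 < α) :
    |e * a1 + (1 - 2 * e) * (a1 * P1) - (e * a0 + (1 - 2 * e) * (a0 * P0))| +
      |(1 - e) * a1 - (1 - 2 * e) * (a1 * P1) - ((1 - e) * a0 - (1 - 2 * e) * (a0 * P0))| ≤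
      |a1 - a0| + α * (a1 + a0) + (a1 * (P1 - P) ^ 2 + a0 * (P0 - P) ^ 2) / α := by
  have p0 : 0 ≤ e + (1 - 2 * e) * P := by nlinarith
  have p1 : 0 ≤ 1 - (e + (1 - 2 * e) * P) := by nlinarith
  have hv : |1 - 2 * e| ≤ 1 := abs_le.2 ⟨by linarith, by linarith⟩
  have hd : ∀ d : ℝ, 2 * |d| ≤ α + d ^ 2 / α := by
    intro d
    have : 2 * |d| - α ≤ d ^ 2 / α := by
      rw [le_div_iff₀ hα, ← sq_abs d]
      nlinarith [sq_nonneg (|d| - α)]
    linarith
  have hD : |(1 - 2 * e) * (a1 * (P1 - P) - a0 * (P0 - P))| ≤ a1 * |P1 - P| + a0 * |P0 - P| := by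
    rw [abs_mul]
    refine (mul_le_of_le_one_left (abs_nonneg _) hv).trans ((abs_sub _ _).trans_eq ?_)
    rw [abs_mul, abs_mul, abs_of_nonneg h1, abs_of_nonneg h0]
  have e1 := abs_add_le ((e + (1 - 2 * e) * P) * (a1 - a0))
    ((1 - 2 * e) * (a1 * (P1 - P) - a0 * (P0 - P)))
  have e2 := abs_sub ((1 - (e + (1 - 2 * e) * P)) * (a1 - a0))
    ((1 - 2 * e) * (a1 * (P1 - P) - a0 * (P0 - P)))
  rw [abs_mul (e + _), abs_of_nonneg p0] at e1
  rw [abs_mul (1 - (e + _)), abs_of_nonneg p1] at e2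
  rw [show e * a1 + (1 - 2 * e) * (a1 * P1) - (e * a0 + (1 - 2 * e) * (a0 * P0)) =
      (e + (1 - 2 * e) * P) * (a1 - a0) + (1 - 2 * e) * (a1 * (P1 - P) - a0 * (P0 - P)) by ring,
    show (1 - e) * a1 - (1 - 2 * e) * (a1 * P1) - ((1 - e) * a0 - (1 - 2 * e) * (a0 * P0)) =
      (1 - (e + (1 - 2 * e) * P)) * (a1 - a0) - (1 - 2 * e) * (a1 * (P1 - P) - a0 * (P0 - P))
      by ring, add_div, mul_div_assoc, mul_div_assoc]
  linarith [mul_le_mul_of_nonneg_left (hd (P1 - P)) h1, mul_le_mul_of_nonneg_left (hd (P0 - P)) h0]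

section
variable {Y I : Type} [Fintype Y] [DecidableEq Y] [Fintype I] [DecidableEq I]

theorem post_smul_Bay (V : Hd Y I → ℝ) {x : ℝ} (hx : x ≠ 0) (i : I) :
    post (fun h => V h * x) i = post V i := by
  unfold post
  simp only [mul_right_comm _ x, ← sum_mul]
  exact mul_div_mul_right _ _ hx

theorem mass_post_Bay (V : Hd Y I → ℝ) (hV : ∀ h, 0 ≤ V h) (i : I) :
    (∑ h, V h) * post V i = ∑ h, V h * ind (h.2 i = true) := by
  by_cases h0 : ∑ h, V h = 0
  · have := (sum_eq_zero_iff_of_nonneg fun h _ => hV h).1 h0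
    rw [h0, zero_mul]
    exact (sum_eq_zero fun h hh => by rw [this h hh, zero_mul]).symm
  · exact mul_div_cancel₀ _ h0

theorem post_mem_Bay (V : Hd Y I → ℝ) (hV : ∀ h, 0 ≤ V h) (i : I) :
    0 ≤ post V i ∧ post V i ≤ 1 :=
  ⟨div_nonneg (sum_nonneg fun h _ => mul_nonneg (hV h) (ind_nonneg _)) (sum_nonneg fun h _ => hV h),
    div_le_one_of_le₀ (sum_le_sum fun h _ => mul_le_of_le_one_right (hV h) (ind_le_one _))
      (sum_nonneg fun h _ => hV h)⟩

theorem pair_Bay {e α : ℝ} (he : 0 ≤ e) (he' : e ≤ 1) (hα : 0 < α) (W : Hd Y I → ℝ)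
    (hW : ∀ h, 0 ≤ W h) (i j : I) :
    ∑ b, |∑ h, W h * lik e (h.2 j) b * sg (h.2 i)| ≤ |∑ h, W h * sg (h.2 i)| + α * ∑ h, W h +
      (∑ ε, (∑ h, W h * ind (h.2 i = ε)) *
        (post (fun h => W h * ind (h.2 i = ε)) j - post W j) ^ 2) / α := by
  have hn : ∀ ε h, 0 ≤ W h * ind (h.2 i = ε) := fun ε h => mul_nonneg (hW h) (ind_nonneg _)
  have key := real_Bay (∑ h, W h * ind (h.2 i = true)) (∑ h, W h * ind (h.2 i = false))
    (post (fun h => W h * ind (h.2 i = true)) j) (post (fun h => W h * ind (h.2 i = false)) j)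
    (post W j) e α (sum_nonneg fun h _ => hn _ h) (sum_nonneg fun h _ => hn _ h)
    (post_mem_Bay W hW j).1 (post_mem_Bay W hW j).2 he he' hα
  rw [mass_post_Bay _ (hn true), mass_post_Bay _ (hn false)] at key
  rw [Fintype.sum_bool, Fintype.sum_bool]
  refine le_of_eq_of_le (congrArg₂ (· + ·) (congrArg _ ?_) (congrArg _ ?_))
    (key.trans_eq (congrArg (· + _) (congrArg₂ (· + ·) (congrArg _ ?_) (congrArg _ ?_))))
  all_goals
    simp only [mul_sum, ← sum_add_distrib, ← sum_sub_distrib]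
    refine sum_congr rfl fun h _ => ?_
    cases h.2 i <;> cases h.2 j <;> simp [lik, sg, ind_eq] <;> ring

theorem step_Bay [Nonempty I] {e α : ℝ} (he : 0 ≤ e) (he' : e ≤ 1) (hα : 0 < α) (W : Hd Y I → ℝ)
    (hW : ∀ h, 0 ≤ W h) (i : I) :
    ∑ t, |∑ h, mulT e W t h * sg (h.2 i)| ≤ |∑ h, W h * sg (h.2 i)| + α * ∑ h, W h +
      (∑ ε, (∑ h, W h * ind (h.2 i = ε)) *
        av fun j => (post (fun h => W h * ind (h.2 i = ε)) j - post W j) ^ 2) / α := by
  have hN : (0 : ℝ) < Fintype.card I := by exact_mod_cast Fintype.card_pos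
  have e1 : ∀ t : I × Bool, |∑ h, mulT e W t h * sg (h.2 i)| =
      |∑ h, W h * lik e (h.2 t.1) t.2 * sg (h.2 i)| / Fintype.card I := by
    intro t
    rw [← abs_of_pos hN, ← abs_div, sum_div]
    exact congrArg _ (sum_congr rfl fun h _ => by simp only [mulT, tokw]; ring)
  simp only [e1]
  rw [← sum_div, Fintype.sum_prod_type, div_le_iff₀ hN]
  refine (sum_le_sum fun j _ => pair_Bay he he' hα W hW i j).trans_eq ?_
  simp only [av, Fintype.sum_bool, add_div, mul_div_assoc, sum_add_distrib, ← mul_sum, ← sum_div,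
    sum_const, card_univ, nsmul_eq_mul]
  field_simp

end

theorem sBay (h : SKl) : SBay := by
  intro Y I _ _ _ _ _ e e' α m he he1 he' he2 hα
  have hN : (0 : ℝ) < Fintype.card I := by exact_mod_cast Fintype.card_pos
  have hv : 0 < 1 - 2 * e' := by linarith
  induction m with
  | zero =>
    refine ⟨fun _ => 0, fun _ => 0, (Cert.zero e').weak fun _ => by simp, fun W _ => ?_⟩
    simp [bay, Lz]
  | succ m ih =>
    obtain ⟨F, G, hC, hS⟩ := ih
    have c1 := Cert.sum fun p : I × Bool => h Y I e' 2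
      (fun x => ind (x.2 p.1 = p.2) * (Fintype.card I : ℝ)⁻¹) (fun _ => 2⁻¹ * (Fintype.card I : ℝ)⁻¹)
      he' (by linarith) one_le_two fun x => ⟨mul_nonneg (ind_nonneg _) (by positivity), by
        rw [← mul_assoc, mul_inv_cancel₀ two_ne_zero]
        exact mul_le_mul_of_nonneg_right (ind_le_one _) (by positivity)⟩
    have c2 := Cert.sum fun t : I × Bool =>
      hC.mul (fun x => tokw e x.2 t) fun x => tokw_nonneg he he1 _ _
    refine ⟨_, _, (c1.add c2).weak fun x => ?_, fun W hW => ?_⟩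
    · have a1 : ∀ i, ∑ ε, (Real.log 2 * (ind (x.2 i = ε) * (Fintype.card I : ℝ)⁻¹) +
          2⁻¹ * (Fintype.card I : ℝ)⁻¹) = (Real.log 2 + 1) * (Fintype.card I : ℝ)⁻¹ := by
        intro i
        rw [Fintype.sum_bool]
        cases x.2 i <;> simp [ind_eq] <;> ring
      rw [← sum_mul, sum_tokw, Fintype.sum_prod_type]
      simp only [a1, sum_const, card_univ, nsmul_eq_mul]
      rw [mul_comm, inv_mul_cancel_right₀ hN.ne']
      push_cast
      linarith [Real.log_two_lt_d9]
    · have hM : ∀ t x, 0 ≤ mulT e W t x := fun t x => mul_nonneg (hW x) (tokw_nonneg he he1 _ _)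
      have a1 : (av fun i => ∑ z : Fin (m + 1) → I × Bool, |∑ h, W h * Lz e h.2 z * sg (h.2 i)|) =
          ∑ t, av fun i => ∑ z : Fin m → I × Bool, |∑ h, mulT e W t h * Lz e h.2 z * sg (h.2 i)| := by
        simp only [av]
        symm
        rw [← sum_div, sum_comm]
        refine congrArg (· / _) (sum_congr rfl fun i _ => ?_)
        rw [sum_succ]
        simp only [Lz_succ, Fin.cons_zero, Fin.tail_cons, mulT, mul_assoc]
      have a2 : ∑ t, ∑ h, mulT e W t h = ∑ h, W h := by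
        rw [sum_comm]
        exact sum_congr rfl fun x _ => by simp only [mulT]; rw [← mul_sum, sum_tokw, mul_one]
      have a3 : ∑ t, bay (mulT e W t) ≤ bay W + α * ∑ h, W h + (∑ i, ∑ ε,
          (∑ h, W h * ind (h.2 i = ε)) * (Fintype.card I : ℝ)⁻¹ *
            av fun j => (post (fun h => W h * ind (h.2 i = ε)) j - post W j) ^ 2) / α := by
        simp only [bay]
        unfold av
        rw [← sum_div, sum_comm, div_le_iff₀ hN]
        refine (sum_le_sum fun i _ => step_Bay he he1 hα W hW i).trans_eq ?_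
        simp only [av, sum_add_distrib, ← sum_div, sum_const, card_univ, nsmul_eq_mul,
          mul_right_comm _ (Fintype.card I : ℝ)⁻¹, ← sum_mul]
        field_simp
      have a4 := sum_le_sum fun t (_ : t ∈ univ) => hS (mulT e W t) (hM t)
      rw [sum_add_distrib, sum_add_distrib, ← mul_sum, ← mul_sum, a2] at a4
      rw [a1]
      refine a4.trans ?_
      simp only [← mul_assoc, post_smul_Bay _ (inv_ne_zero hN.ne'),
        post_smul_Bay _ (inv_ne_zero (two_ne_zero (α := ℝ))), ← sum_mul]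
      rw [← Fintype.sum_prod_type' (f := fun i ε => (∑ h, W h * ind (h.2 i = ε)) *
        (Fintype.card I : ℝ)⁻¹ *
          av fun j => (post (fun h => W h * ind (h.2 i = ε)) j - post W j) ^ 2)] at a3
      simp only [mul_assoc ((1 - 2 * e') ^ 2 / 4), ← mul_sum]
      have a5 : ∀ x : ℝ, 4 / (α * (1 - 2 * e') ^ 2) * ((1 - 2 * e') ^ 2 / 4 * x) = x / α := by
        intro x
        field_simp
      rw [mul_add, a5]
      push_cast
      have a6 : ∑ t, G (mulT e W t) = ∑ t, G fun x => W x * tokw e x.2 t := rfl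
      rw [a6]
      linarith

end

section

section

variable {Y I : Type} [Fintype Y] [DecidableEq Y] [Fintype I] [DecidableEq I] [Nonempty I]
  {e ζ : ℝ} {W g : Hd Y I → ℝ}

noncomputable def sm_Rat (e ζ : ℝ) (W : Hd Y I → ℝ) (t : I × Bool) : ℝ :=
  (1 - ζ) * ((∑ h, mulT e W t h) / ∑ h, W h) + ζ / 2 / Fintype.card I

omit [Nonempty I] in
theorem mulT_Rat (h0 : 0 ≤ e) (h1 : e ≤ 1) (hW : ∀ h, 0 ≤ W h) (t : I × Bool) (h : Hd Y I) :
    0 ≤ mulT e W t h := mul_nonneg (hW h) (tokw_nonneg h0 h1 _ _)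

omit [Nonempty I] in
theorem low_Rat (h0 : 0 ≤ e) (h1 : e ≤ 1) (z1 : ζ < 1) (hW : ∀ h, 0 ≤ W h) (t : I × Bool) :
    ζ / 2 / Fintype.card I ≤ sm_Rat e ζ W t :=
  le_add_of_nonneg_left (mul_nonneg (by linarith) (div_nonneg
    (sum_nonneg fun h _ => mulT_Rat h0 h1 hW t h) (sum_nonneg fun h _ => hW h)))

theorem sum_Rat (z1 : ζ < 1) : ∑ t, sm_Rat e ζ W t ≤ 1 := by
  have hN : (Fintype.card I : ℝ) ≠ 0 := Nat.cast_ne_zero.2 Fintype.card_ne_zero
  have a : ∑ t, ∑ h, mulT e W t h = ∑ h, W h := by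
    rw [sum_comm]
    exact sum_congr rfl fun h _ => by simp only [mulT, ← mul_sum, sum_tokw, mul_one]
  have b : ∑ _t : I × Bool, ζ / 2 / Fintype.card I = ζ := by
    simp only [sum_const, card_univ, Fintype.card_prod, Fintype.card_bool, nsmul_eq_mul]
    push_cast
    field_simp
  simp only [sm_Rat]
  rw [sum_add_distrib, ← mul_sum, ← sum_div, a, b]
  have c := mul_le_mul_of_nonneg_left (div_self_le_one (∑ h, W h)) (show 0 ≤ 1 - ζ by linarith)
  linarith

omit [Nonempty I] in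
theorem post_Rat (e : ℝ) (t : I × Bool) : ∃ a s : ℝ, (s = 1 - 2 * e ∨ s = 2 * e - 1) ∧
    ∀ V : Hd Y I → ℝ, ∑ h, V h ≠ 0 →
      ∑ h, V h * tokw e h.2 t = (∑ h, V h) * ((a + s * post V t.1) / Fintype.card I) := by
  have key : ∀ a s : ℝ, (∀ c : Bool, lik e c t.2 = a + s * ind (c = true)) →
      ∀ V : Hd Y I → ℝ, ∑ h, V h ≠ 0 →
      ∑ h, V h * tokw e h.2 t = (∑ h, V h) * ((a + s * post V t.1) / Fintype.card I) := by
    intro a s hl V hV
    have b : ∑ h, V h * tokw e h.2 t =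
        ((∑ h, V h) * a + s * ∑ h, V h * ind (h.2 t.1 = true)) / Fintype.card I := by
      rw [sum_mul, mul_sum, ← sum_add_distrib, sum_div]
      exact sum_congr rfl fun h _ => by rw [tokw, hl]; ring
    rw [b, post, ← mul_div_assoc]
    congr 1
    field_simp
  cases ht : t.2
  · refine ⟨1 - e, 2 * e - 1, Or.inr rfl, key _ _ fun c => ?_⟩
    cases c <;> simp [lik, ht, ind_eq]
    ring
  · refine ⟨e, 1 - 2 * e, Or.inl rfl, key _ _ fun c => ?_⟩
    cases c <;> simp [lik, ht, ind_eq]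
    ring

open Classical in
theorem step_Rat (h0 : 0 ≤ e) (h1 : e ≤ 1) (z0 : 0 < ζ) (z1 : ζ < 1) (hW : ∀ h, 0 ≤ W h)
    (hg : ∀ h, 0 ≤ g h ∧ g h ≤ 1) (t : I × Bool) :
    ∑ h, mulT e W t h * g h ≤ (∑ h, W h * g h) * sm_Rat e ζ W t *
      (1 / (1 - ζ) * (2 / ζ) ^ (if ζ / 2 < gap W g t.1 then 1 else 0)) := by
  have hN : (0 : ℝ) < Fintype.card I := Nat.cast_pos.2 Fintype.card_pos
  have z2 : 0 < 1 - ζ := by linarith
  have z3 : 1 ≤ 1 / (1 - ζ) := by rw [le_div_iff₀ z2]; linarith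
  have hA : 0 ≤ ∑ h, W h * g h := sum_nonneg fun h _ => mul_nonneg (hW h) (hg h).1
  have e1 : ∑ h, mulT e W t h * g h = ∑ h, W h * g h * tokw e h.2 t :=
    sum_congr rfl fun h _ => by rw [mulT]; ring
  have b1 : ∑ h, W h * g h * tokw e h.2 t ≤ (∑ h, W h * g h) * (1 / Fintype.card I) := by
    rw [sum_mul]
    refine sum_le_sum fun h _ => mul_le_mul_of_nonneg_left ?_ (mul_nonneg (hW h) (hg h).1)
    refine div_le_div_of_nonneg_right ?_ hN.le
    unfold lik
    split_ifs <;> linarith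
  rw [e1, mul_assoc]
  split_ifs with hb
  · refine b1.trans (mul_le_mul_of_nonneg_left ?_ hA)
    have b2 := low_Rat h0 h1 z1 hW t
    calc (1 : ℝ) / Fintype.card I = ζ / 2 / Fintype.card I * (1 * (2 / ζ) ^ 1) := by field_simp
      _ ≤ _ := by gcongr; exact le_trans (by positivity) b2
  · rcases hA.eq_or_lt with h | h
    · rw [← h] at b1 ⊢
      simpa using b1
    have hS : 0 < ∑ h, W h := h.trans_le (sum_le_sum fun h _ => mul_le_of_le_one_right (hW h) (hg h).2)
    obtain ⟨a, s, hs, hp⟩ := post_Rat (Y := Y) e t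
    have p0 : (∑ h, mulT e W t h) / ∑ h, W h = (a + s * post W t.1) / Fintype.card I := by
      rw [div_eq_iff hS.ne', mul_comm]
      exact hp W hS.ne'
    rw [hp _ h.ne']
    refine mul_le_mul_of_nonneg_left ?_ hA
    have s1 : |s| ≤ 1 := by rcases hs with rfl | rfl <;> rw [abs_le] <;> constructor <;> linarith
    have s2 : s * (post (fun h => W h * g h) t.1 - post W t.1) ≤ ζ / 2 := by
      refine (le_abs_self _).trans ?_
      rw [abs_mul]
      exact (mul_le_of_le_one_left (abs_nonneg _) s1).trans (not_lt.1 hb)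
    have s3 : ζ / 2 / Fintype.card I ≤ ζ / 2 / Fintype.card I * (1 / (1 - ζ)) :=
      le_mul_of_one_le_right (by positivity) z3
    rw [pow_zero, mul_one, sm_Rat, p0, add_mul, mul_right_comm, mul_one_div_cancel z2.ne', one_mul]
    refine le_trans ?_ (add_le_add_right s3 _)
    rw [← add_div]
    exact div_le_div_of_nonneg_right (by linarith) hN.le

end

theorem sRat : SRat := by
  intro Y I _ _ _ _ _ e ζ m W h0 h1 z0 z1
  have z2 : 0 < 1 - ζ := by linarith
  induction m generalizing W with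
  | zero => exact fun hW => ⟨fun z => zero_le_one, by simp [fake], fun g z hg => by
      simp [fake, cnt, Lz]⟩
  | succ m ih =>
    intro hW
    have i := fun t => ih (mulT e W t) (mulT_Rat h0 h1 hW t)
    have f : ∀ z : Fin (m + 1) → I × Bool, fake e ζ (m + 1) W z =
        sm_Rat e ζ W (z 0) * fake e ζ m (mulT e W (z 0)) (Fin.tail z) := fun z => rfl
    have s0 : ∀ t, 0 ≤ sm_Rat e ζ W t := fun t =>
      le_trans (by positivity) (low_Rat h0 h1 z1 hW t)
    refine ⟨fun z => ?_, ?_, fun g z hg => ?_⟩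
    · rw [f]
      exact mul_nonneg (s0 _) ((i _).1 _)
    · rw [sum_succ]
      refine le_trans (sum_le_sum fun t _ => ?_) (sum_Rat (e := e) (W := W) z1)
      simp only [f, Fin.cons_zero, Fin.tail_cons, ← mul_sum]
      exact mul_le_of_le_one_right (s0 t) (i t).2.1
    · have a1 : ∑ h, W h * g h * Lz e h.2 z =
          ∑ h, mulT e W (z 0) h * g h * Lz e h.2 (Fin.tail z) :=
        sum_congr rfl fun h _ => by rw [Lz_succ, mulT]; ring
      have a2 := (i (z 0)).2.2 g (Fin.tail z) hg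
      have a3 := step_Rat h0 h1 z0 z1 hW hg (z 0)
      have a4 := (i (z 0)).1 (Fin.tail z)
      rw [a1, f, cnt, pow_add, pow_succ]
      refine a2.trans ((mul_le_mul_of_nonneg_right (mul_le_mul_of_nonneg_right a3 a4)
        (by positivity)).trans (le_of_eq ?_))
      ring

end

section

section
variable {Y I : Type} [Fintype Y] [DecidableEq Y] [Fintype I] [DecidableEq I]

theorem le_Rare (e : ℝ) {p q r : (Hd Y I → ℝ) → I × Bool → Prop}
    (h : ∀ V t, p V t → q V t ∨ r V t) (m : ℕ) (W : Hd Y I → ℝ) (z : Fin m → I × Bool) :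
    cnt e p m W z ≤ cnt e q m W z + cnt e r m W z := by
  induction m generalizing W with
  | zero => simp [cnt]
  | succ m ih =>
    have a := ih (mulT e W (z 0)) (Fin.tail z)
    have b := h W (z 0)
    simp only [cnt]
    split_ifs <;> first | omega | tauto

theorem mom_Rare {e x B : ℝ} (h0 : 0 ≤ e) (h1 : e ≤ 1) (hx : 0 ≤ x) (c : I → Bool)
    {p : (Hd Y I → ℝ) → I × Bool → Prop}
    (hB : ∀ V, ∑ t, tokw e c t * (1 + x * ind (p V t)) ≤ B) (hB0 : 0 ≤ B) (m : ℕ)
    (W : Hd Y I → ℝ) : ∑ z : Fin m → I × Bool, Lz e c z * x ^ cnt e p m W z ≤ B ^ m := by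
  induction m generalizing W with
  | zero => simp [cnt, Lz]
  | succ m ih =>
    rw [sum_succ, pow_succ']
    refine le_trans (sum_le_sum fun t _ => ?_)
      ((sum_mul _ _ _).symm.trans_le (mul_le_mul_of_nonneg_right (hB W) (pow_nonneg hB0 m)))
    have a : 0 ≤ tokw e c t := tokw_nonneg h0 h1 c t
    have b : 0 ≤ 1 + x * ind (p W t) := add_nonneg zero_le_one (mul_nonneg hx (ind_nonneg _))
    have k : ∀ z : Fin m → I × Bool, x ^ cnt e p (m + 1) W (Fin.cons t z) ≤
        (1 + x * ind (p W t)) * x ^ cnt e p m (mulT e W t) z := by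
      intro z
      rw [cnt, pow_add]
      refine mul_le_mul_of_nonneg_right ?_ (pow_nonneg hx _)
      by_cases h : p W t
      · rw [if_pos (by exact h)]
        simp [ind_pos h]
      · rw [if_neg (by exact h)]
        simp [ind_neg h]
    refine le_trans (sum_le_sum fun z _ =>
      mul_le_mul_of_nonneg_left (k z) (Lz_nonneg h0 h1 c _)) ?_
    simp only [Lz_succ, Fin.cons_zero, Fin.tail_cons]
    rw [sum_congr rfl fun z _ => mul_mul_mul_comm _ _ _ _, ← mul_sum]
    exact mul_le_mul_of_nonneg_left (ih _) (mul_nonneg a b)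

omit [DecidableEq I] in
theorem av_Rare (e : ℝ) (c : I → Bool) (f : I → ℝ) : ∑ t, tokw e c t * f t.1 = av f := by
  rw [Fintype.sum_prod_type, av, sum_div]
  refine sum_congr rfl fun i _ => ?_
  cases hc : c i <;> simp [tokw, lik, hc] <;> ring

end

theorem sRare : SRare := by
  intro Y I _ _ _ _ _ e ζ κ x m a W g c h0 h1 hζ hκ hx
  have x0 : 0 < x := one_pos.trans_le hx
  refine ⟨fun z => ?_, ?_⟩
  · have h := le_Rare e (p := fun V t => ζ / 2 < gap V g t.1) (q := fun V _ => κ < msq V g)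
      (r := fun V t => ζ / 2 < gap V g t.1 ∧ msq V g ≤ κ)
      (fun V t h => (lt_or_ge κ (msq V g)).imp_right fun h' => ⟨h, h'⟩) m W z
    rcases Nat.eq_zero_or_pos (cnt e (fun V _ => κ < msq V g) m W z) with h' | h'
    · rw [h', Nat.cast_zero, zero_add]
      exact ind_mono fun h2 => by omega
    · exact (ind_le_one _).trans (le_add_of_le_of_nonneg (by exact_mod_cast h') (ind_nonneg _))
  · rw [le_div_iff₀ (pow_pos x0 _), sum_mul]
    refine le_trans (sum_le_sum fun z _ => ?_) (mom_Rare h0 h1 x0.le c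
      (p := fun V t => ζ / 2 < gap V g t.1 ∧ msq V g ≤ κ) (fun V => ?_) (by positivity) m W)
    · rw [mul_assoc]
      refine mul_le_mul_of_nonneg_left ?_ (Lz_nonneg h0 h1 c z)
      by_cases h : a < cnt e (fun V t => ζ / 2 < gap V g t.1 ∧ msq V g ≤ κ) m W z
      · rw [ind_pos h, one_mul]
        exact pow_le_pow_right₀ hx h
      · rw [ind_neg h, zero_mul]
        positivity
    · simp only [mul_add, mul_one, sum_add_distrib, sum_tokw, mul_left_comm _ x, ← mul_sum]
      rw [av_Rare e c fun i => ind (ζ / 2 < gap V g i ∧ msq V g ≤ κ)]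
      refine add_le_add le_rfl (mul_le_mul_of_nonneg_left ?_ x0.le)
      by_cases h : msq V g ≤ κ
      · have b : ∀ i, ind (ζ / 2 < gap V g i ∧ msq V g ≤ κ) ≤ 4 / ζ ^ 2 * gap V g i ^ 2 := by
          intro i
          by_cases h' : ζ / 2 < gap V g i
          · refine (ind_le_one _).trans ?_
            rw [div_mul_eq_mul_div, le_div_iff₀ (by positivity)]
            nlinarith
          · rw [ind_neg fun k => h' k.1]
            positivity
        calc _ ≤ 4 / ζ ^ 2 * msq V g := by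
              rw [msq, av, av, ← mul_div_assoc, mul_sum]
              exact div_le_div_of_nonneg_right (sum_le_sum fun i _ => b i) (Nat.cast_nonneg _)
          _ ≤ 4 / ζ ^ 2 * κ := mul_le_mul_of_nonneg_left h (by positivity)
          _ = _ := by ring
      · simp only [av, ind_neg fun k : _ ∧ msq V g ≤ κ => h k.2, sum_const_zero, zero_div]
        positivity

end

section

noncomputable section

namespace PLoc

theorem av_mono {α : Type} [Fintype α] {f g : α → ℝ} (h : ∀ a, f a ≤ g a) : av f ≤ av g :=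
  div_le_div_of_nonneg_right (sum_le_sum fun a _ => h a) (Nat.cast_nonneg _)

theorem av_const {α : Type} [Fintype α] [Nonempty α] (b : ℝ) : av (fun _ : α => b) = b := by
  have : (Fintype.card α : ℝ) ≠ 0 := Nat.cast_ne_zero.2 Fintype.card_ne_zero
  simp only [av, sum_const, card_univ, nsmul_eq_mul]
  field_simp

theorem av_le {α : Type} [Fintype α] [Nonempty α] {f : α → ℝ} {b : ℝ} (h : ∀ a, f a ≤ b) :
    av f ≤ b := (av_mono h).trans_eq (av_const b)

theorem le_av {α : Type} [Fintype α] [Nonempty α] {f : α → ℝ} {b : ℝ} (h : ∀ a, b ≤ f a) :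
    b ≤ av f := (av_const b).symm.trans_le (av_mono h)

theorem sum_av {α β : Type} [Fintype α] [Fintype β] (f : β → α → ℝ) :
    ∑ y, av (f y) = av fun a => ∑ y, f y a := by
  simp only [av]; rw [← sum_div, sum_comm]

theorem mul_av {α : Type} [Fintype α] (x : ℝ) (f : α → ℝ) : x * av f = av fun a => x * f a := by
  simp only [av]; rw [← mul_sum, mul_div_assoc]

theorem pr_le {R : Type} [Fintype R] {w φ : R → ℝ} {b : ℝ} (hw : IsProb w) (h : ∀ r, φ r ≤ b) :
    ∑ r, w r * φ r ≤ b := by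
  refine (sum_le_sum fun r _ => mul_le_mul_of_nonneg_left (h r) (hw.1 r)).trans_eq ?_
  rw [← sum_mul, hw.2, one_mul]

theorem pr_ge {R : Type} [Fintype R] {w φ : R → ℝ} {b : ℝ} (hw : IsProb w) (h : ∀ r, b ≤ φ r) :
    b ≤ ∑ r, w r * φ r := by
  refine le_trans (le_of_eq ?_) (sum_le_sum fun r _ => mul_le_mul_of_nonneg_left (h r) (hw.1 r))
  rw [← sum_mul, hw.2, one_mul]

section
variable {Y I R : Type} [Fintype Y] [DecidableEq Y] [Fintype I] [DecidableEq I] [Nonempty I]
  [Fintype R] {m : ℕ}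

theorem sum_rw (e : ℝ) (ν : I → (Fin m → I × Bool) → R → ℝ) (c : I → Bool)
    (F : I × (Fin m → I × Bool) × R → ℝ) :
    ∑ r, rw e ν c r * F r = ∑ z, Lz e c z * av fun i => ∑ r, ν i z r * F (i, z, r) := by
  simp only [Fintype.sum_prod_type, av, rw]
  rw [sum_comm]
  refine sum_congr rfl fun z _ => ?_
  rw [sum_div, mul_sum]
  refine sum_congr rfl fun i _ => ?_
  rw [sum_div, mul_sum]
  exact sum_congr rfl fun r _ => by ring

theorem rw_prob {e : ℝ} (h0 : 0 ≤ e) (h1 : e ≤ 1) {ν : I → (Fin m → I × Bool) → R → ℝ}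
    (hν : ∀ i z, IsProb (ν i z)) (c : I → Bool) : IsProb (rw e ν c) := by
  refine ⟨fun r => div_nonneg (mul_nonneg (Lz_nonneg h0 h1 _ _) ((hν _ _).1 _))
    (Nat.cast_nonneg _), ?_⟩
  have := sum_rw e ν c fun _ => 1
  simpa only [mul_one, fun i z => (hν i z).2, av_const, sum_Lz] using this

def mixv (ν : I → (Fin m → I × Bool) → R → ℝ) (φ : R → ℝ) (z : Fin m → I × Bool) : ℝ :=
  av fun i => ∑ r, ν i z r * φ r

theorem mix_bd {ν : I → (Fin m → I × Bool) → R → ℝ} (hν : ∀ i z, IsProb (ν i z))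
    (φ : Y → R → ℝ) (q : ℝ) (h1 : ∀ y r, 0 ≤ φ y r ∧ φ y r ≤ 1) (h2 : ∀ r, ∑ y, φ y r ≤ q)
    (z : Fin m → I × Bool) :
    (∀ y, 0 ≤ mixv ν (φ y) z ∧ mixv ν (φ y) z ≤ 1) ∧ ∑ y, mixv ν (φ y) z ≤ q := by
  refine ⟨fun y => ⟨le_av fun i => pr_ge (hν i z) fun r => (h1 y r).1,
    av_le fun i => pr_le (hν i z) fun r => (h1 y r).2⟩, ?_⟩
  simp only [mixv]
  rw [sum_av]
  refine av_le fun i => ?_
  rw [sum_comm]
  simp only [← mul_sum]
  exact pr_le (hν i z) h2

theorem hit_bd (ρ : Y → Option Bool) (t : DT Y) :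
    (∀ y, 0 ≤ hitF ρ t y ∧ hitF ρ t y ≤ 1) ∧ ∑ y, hitF ρ t y ≤ t.depth := by
  refine ⟨fun y => ⟨le_av fun O => ind_nonneg _, av_le fun O => ind_le_one _⟩, ?_⟩
  simp only [hitF]
  rw [sum_av]
  exact av_le fun O => sum_ind_qs t _

/-- a probability vector dominating `f / (q + 1)` -/
theorem dom [Nonempty Y] (f : Y → ℝ) (q : ℝ) (hq : 0 ≤ q) :
    ∃ l : Y → ℝ, IsProb l ∧ ((∀ y, 0 ≤ f y) → ∑ y, f y ≤ q → ∀ y, f y ≤ (q + 1) * l y) := by
  obtain ⟨y0⟩ := ‹Nonempty Y›
  have s1 : ∑ y, ind (y = y0) = 1 := by simp [ind_eq]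
  by_cases h : (∀ y, 0 ≤ f y) ∧ ∑ y, f y ≤ q
  · have hq1 : 0 < q + 1 := by linarith
    have h2 : 0 ≤ 1 - (∑ y, f y) / (q + 1) := by
      rw [sub_nonneg, div_le_one hq1]; linarith [h.2]
    refine ⟨fun y => f y / (q + 1) + (1 - (∑ y, f y) / (q + 1)) * ind (y = y0),
      ⟨fun y => add_nonneg (div_nonneg (h.1 y) hq1.le) (mul_nonneg h2 (ind_nonneg _)), ?_⟩,
      fun _ _ y => ?_⟩
    · rw [sum_add_distrib, ← sum_div, ← mul_sum, s1]; ring
    · rw [mul_add, mul_div_cancel₀ _ hq1.ne']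
      exact le_add_of_nonneg_right (mul_nonneg hq1.le (mul_nonneg h2 (ind_nonneg _)))
  · exact ⟨fun y => ind (y = y0), ⟨fun y => ind_nonneg _, s1⟩, fun a b => absurd ⟨a, b⟩ h⟩

end

end PLoc

open PLoc

theorem sLoc (hG : SG) (hR : SRat) (hA : SRare) : SLoc := by
  intro Y I R _ _ _ _ _ _ _ e ζ κ x x' m q t a tr ν β h0 h1 z0 z1 k0 x0 x1 x2 t0 hd hν hβ
  have hw := fun c => rw_prob h0 h1 hν c
  have hdq : ∀ r, ((tr r).depth : ℝ) ≤ q := fun r => Nat.cast_le.2 (hd r)
  let g : Hd Y I → Y → ℝ := fun h y => gh (rw e ν h.2) (fun r => tr r.2.2) t h.1 y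
  let H : (Fin m → I × Bool) → Hd Y I → Y → ℝ := fun z h y =>
    mixv ν (fun r => ind (y ∈ qs (tr r) h.1)) z
  let K : (Y → Option Bool) → (Fin m → I × Bool) → Y → ℝ := fun ρ z y =>
    mixv ν (fun r => hitF ρ (tr r) y) z
  have hH := fun z (h : Hd Y I) => mix_bd hν (fun y r => ind (y ∈ qs (tr r) h.1)) q
    (fun _ _ => ⟨ind_nonneg _, ind_le_one _⟩) (fun r => (sum_ind_qs _ _).trans (hdq r)) z
  have hK := fun ρ z => mix_bd hν (fun y r => hitF ρ (tr r) y) q
    (fun y r => (hit_bd ρ (tr r)).1 y) (fun r => (hit_bd ρ (tr r)).2.trans (hdq r)) z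
  have hg : ∀ h y, 0 ≤ g h y ∧ g h y ≤ 1 := fun h y =>
    ⟨le_min zero_le_one (mul_nonneg (Nat.cast_nonneg _) (pr_ge (hw _) fun r => ind_nonneg _)),
      min_le_left _ _⟩
  have hgs : ∀ h, ∑ y, g h y ≤ t * q := fun h => by
    refine (sum_le_sum fun y _ => min_le_right _ _).trans ?_
    rw [← mul_sum, sum_comm]
    simp only [← mul_sum]
    exact mul_le_mul_of_nonneg_left (pr_le (hw _) fun r => (sum_ind_qs _ _).trans (hdq _))
      (Nat.cast_nonneg _)
  choose lam hl1 hl2 using fun σ : St Y I =>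
    dom (fun y => ∑ z, fake e ζ m σ.2 z * K σ.1 z y) q (Nat.cast_nonneg q)
  refine ⟨lam, g, H, hl1, hg, hgs, fun z h => (hH z h).1, fun z h => (hH z h).2, fun σ hσ => ?_⟩
  obtain ⟨ρ, W⟩ := σ
  have hW : ∀ h, 0 ≤ W h := fun h => (hσ h).1
  obtain ⟨f0, f1, f2⟩ := hR Y I e ζ m W h0 h1 z0 z1 hW
  have hl := hl2 (ρ, W) (fun y => sum_nonneg fun z _ => mul_nonneg (f0 z) ((hK ρ z).1 y).1) (by
    rw [sum_comm]
    simp only [← mul_sum]
    refine (sum_le_sum fun z _ => mul_le_mul_of_nonneg_left (hK ρ z).2 (f0 z)).trans ?_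
    rw [← sum_mul]
    exact mul_le_of_le_one_left (Nat.cast_nonneg _) f1)
  let N : Y → (Fin m → I × Bool) → ℕ := fun y z =>
    cnt e (fun V t => ζ / 2 < gap V (fun h => g h y) t.1) m W z
  have key := fun c => hG Y _ (rw e ν c) (fun r => tr r.2.2) (fun r => c r.1)
    (fun y r => N y r.2.1 ≤ a) ρ (fun O => W (O, c)) x t (hw c) (fun O => hσ (O, c)) x0 x1 t0
  have ks := sum_le_sum fun c (_ : c ∈ univ) => key c
  have pr : ∀ F : Hd Y I → ℝ, ∑ h, F h = ∑ c, ∑ O, F (O, c) := fun F =>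
    Fintype.sum_prod_type_right F
  have e0 : lin (advI e β) (ρ, W) = ∑ c, ∑ O, W (O, c) *
      ∑ r, rw e ν c r * (sg ((tr r.2.2).eval O) * sg (c r.1)) := by
    rw [lin, pr]
    refine sum_congr rfl fun c _ => sum_congr rfl fun O _ => congrArg _ ?_
    rw [sum_rw]
    simp only [advI, mul_av, sum_av, hβ, sum_mul, mul_assoc]
  have e1 : ∑ c, (∑ O, W (O, c)) * ∑ r, rw e ν c r *
      (av fun O : Y → Bool => sg ((tr r.2.2).eval (ovr ρ O)) * sg (c r.1)) ≤
      av fun i => ∑ z : Fin m → I × Bool, |∑ h, W h * Lz e h.2 z * sg (h.2 i)| := by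
    have b : ∀ i z, |∑ r, ν i z r * av fun O : Y → Bool => sg ((tr r).eval (ovr ρ O))| ≤ 1 :=
      fun i z => abs_le.2
        ⟨pr_ge (hν i z) fun r => le_av (α := Y → Bool) fun O => (abs_le.1 (abs_sg _).le).1,
        pr_le (hν i z) fun r => av_le (α := Y → Bool) fun O => (abs_le.1 (abs_sg _).le).2⟩
    have b2 : ∀ (c : I → Bool) i z, ∑ r, ν i z r *
        (av fun O : Y → Bool => sg ((tr r).eval (ovr ρ O)) * sg (c i)) =
        (∑ r, ν i z r * av fun O : Y → Bool => sg ((tr r).eval (ovr ρ O))) * sg (c i) := by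
      intro c i z
      rw [sum_mul]
      refine sum_congr rfl fun r _ => ?_
      simp only [av, ← sum_mul]
      ring
    obtain ⟨u, hu⟩ : ∃ u : I → (Fin m → I × Bool) → ℝ, ∀ i z,
      (∑ r, ν i z r * av fun O : Y → Bool => sg ((tr r).eval (ovr ρ O))) = u i z :=
      ⟨_, fun _ _ => rfl⟩
    simp only [sum_rw, b2, hu] at b ⊢
    simp only [mul_av, sum_av, mul_sum]
    refine av_mono fun i => ?_
    rw [sum_comm]
    refine sum_le_sum fun z _ => ?_
    refine le_trans (le_of_eq ?_) ((le_abs_self ((∑ h, W h * Lz e h.2 z * sg (h.2 i)) *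
      u i z)).trans ?_)
    · rw [pr, sum_mul]
      refine sum_congr rfl fun c _ => ?_
      simp only [← sum_mul]
      ring
    · rw [abs_mul]; exact mul_le_of_le_one_right (abs_nonneg _) (b i z)
  set E : ℝ := (1 + x' * (4 * κ / ζ ^ 2)) ^ m / x' ^ (a + 1) with hE
  set C : ℝ := (1 / (1 - ζ)) ^ m * (2 / ζ) ^ a with hC
  have C1 : (0 : ℝ) ≤ (1 / (1 - ζ)) ^ m := pow_nonneg (one_div_pos.2 (by linarith)).le _
  have C2 : (1 : ℝ) ≤ 2 / ζ := by rw [le_div_iff₀ z0]; linarith
  have E0 : 0 ≤ E := by positivity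
  have e2 : ∑ c, ∑ O, W (O, c) * ∑ y, ind (ρ y = none) * gh (rw e ν c) (fun r => tr r.2.2) t O y *
      ∑ r, rw e ν c r * (ind (y ∈ qs (tr r.2.2) O) * ind (¬ N y r.2.1 ≤ a) +
        hitF ρ (tr r.2.2) y * ind (N y r.2.1 ≤ a)) =
      ∑ y, (∑ h, W h * g h y * (ind (ρ y = none) * ∑ z, Lz e h.2 z * H z h y * ind (a < N y z)) +
        ind (ρ y = none) * ∑ z, K ρ z y * (ind (N y z ≤ a) * ∑ h, W h * g h y * Lz e h.2 z)) := by
    have r : ∀ y, ∑ z, K ρ z y * (ind (N y z ≤ a) * ∑ h, W h * g h y * Lz e h.2 z) =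
        ∑ h, W h * g h y * ∑ z, Lz e h.2 z * K ρ z y * ind (N y z ≤ a) := fun y => by
      simp only [mul_sum]
      rw [sum_comm]
      exact sum_congr rfl fun _ _ => sum_congr rfl fun _ _ => by ring
    simp only [r]
    simp only [mul_sum _ _ (ind _), ← sum_add_distrib]
    rw [sum_comm (s := univ (α := Y)), pr]
    refine sum_congr rfl fun c _ => sum_congr rfl fun O _ => ?_
    rw [mul_sum]
    refine sum_congr rfl fun y _ => ?_
    rw [sum_rw]
    simp only [g, H, K, mixv, not_le, mul_sum, ← sum_add_distrib]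
    refine sum_congr rfl fun z _ => ?_
    simp only [av, mul_add, sum_add_distrib, ← mul_assoc, ← sum_mul]
    ring
  have e3 : ∀ y (h : Hd Y I), ind (ρ y = none) * ∑ z, Lz e h.2 z * H z h y * ind (a < N y z) ≤
      ∑ z, Lz e h.2 z * H z h y * cnt e (fun V _ => κ < msq V fun h => g h y) m W z + E := by
    intro y h
    obtain ⟨r1, r2⟩ := hA Y I e ζ κ x' m a W (fun h => g h y) h.2 h0 h1 z0 k0 x2
    refine (mul_le_of_le_one_left (sum_nonneg fun z _ => mul_nonneg (mul_nonneg
      (Lz_nonneg h0 h1 _ _) ((hH z h).1 y).1) (ind_nonneg _)) (ind_le_one _)).trans ?_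
    refine le_trans ?_ (add_le_add le_rfl r2)
    rw [← sum_add_distrib]
    refine sum_le_sum fun z _ => ?_
    refine (mul_le_mul_of_nonneg_left (r1 z) (mul_nonneg (Lz_nonneg h0 h1 _ _)
      ((hH z h).1 y).1)).trans ?_
    rw [mul_add]
    exact add_le_add le_rfl (mul_le_mul_of_nonneg_right (mul_le_of_le_one_right
      (Lz_nonneg h0 h1 _ _) ((hH z h).1 y).2) (ind_nonneg _))
  have e4 : ∀ y, ∑ z, K ρ z y * (ind (N y z ≤ a) * ∑ h, W h * g h y * Lz e h.2 z) ≤
      C * (q + 1) * ((∑ h, W h * g h y) * lam (ρ, W) y) := by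
    intro y
    have S0 : 0 ≤ ∑ h, W h * g h y := sum_nonneg fun h _ => mul_nonneg (hW h) (hg h y).1
    have C0 : 0 ≤ C := mul_nonneg C1 (pow_nonneg (zero_le_one.trans C2) _)
    have b : ∀ z, ind (N y z ≤ a) * ∑ h, W h * g h y * Lz e h.2 z ≤
        (∑ h, W h * g h y) * fake e ζ m W z * C := fun z => by
      by_cases hz : N y z ≤ a
      · rw [ind_pos hz, one_mul]
        exact (f2 (fun h => g h y) z fun h => hg h y).trans (mul_le_mul_of_nonneg_left
          (mul_le_mul_of_nonneg_left (pow_le_pow_right₀ C2 hz) C1) (mul_nonneg S0 (f0 z)))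
      · rw [ind_neg hz, zero_mul]; exact mul_nonneg (mul_nonneg S0 (f0 z)) C0
    refine (sum_le_sum fun z _ => mul_le_mul_of_nonneg_left (b z) ((hK ρ z).1 y).1).trans ?_
    calc _ = C * (∑ h, W h * g h y) * ∑ z, fake e ζ m W z * K ρ z y := by
          rw [mul_sum]; exact sum_congr rfl fun z _ => by ring
      _ ≤ C * (∑ h, W h * g h y) * ((q + 1) * lam (ρ, W) y) :=
          mul_le_mul_of_nonneg_left (hl y) (mul_nonneg C0 S0)
      _ = _ := by ring
  have e5 : ∑ y, ∑ h, W h * g h y * E ≤ t * q * E * ∑ h, W h := by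
    rw [sum_comm, mul_sum]
    refine sum_le_sum fun h _ => ?_
    rw [← sum_mul, ← mul_sum]
    have := mul_le_mul_of_nonneg_left (hgs h) (mul_nonneg (hW h) E0)
    linarith
  have e6 := sum_le_sum fun y (_ : y ∈ univ) => add_le_add
    (sum_le_sum fun h (_ : h ∈ univ) => mul_le_mul_of_nonneg_left (e3 y h)
      (mul_nonneg (hW h) (hg h y).1))
    (mul_le_mul_of_nonneg_left (e4 y) (ind_nonneg (ρ y = none)))
  rw [← e2] at e6
  have e7 : ∑ y, ind (ρ y = none) * (C * (q + 1) * ((∑ h, W h * g h y) * lam (ρ, W) y)) =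
      C * (q + 1) * ∑ y, ind (ρ y = none) * (∑ h, W h * g h y) * lam (ρ, W) y := by
    rw [mul_sum]; exact sum_congr rfl fun _ _ => by ring
  rw [sum_add_distrib, e7] at e6
  simp only [mul_add (W _ * g _ _), sum_add_distrib] at e6
  rw [sum_add_distrib, sum_add_distrib, sum_add_distrib, ← mul_sum, ← mul_sum, ← sum_div,
    ← pr fun h => W h] at ks
  rw [e0]
  simp only [Ph1]
  linarith

end

end

end Pool.Agent.MP_9f8ce8_lc.Rom
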