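import Pool.Agent.MP_9f8ce8_lc.Rom.St

set_option autoImplicit false
set_option linter.unusedSectionVars false

namespace Pool.Agent.MP_9f8ce8_lc.Rom

open Finset Cap

section

theorem gen_Ach {Y : Type} {q : ℕ} (t : DT Y) (ht : t.depth ≤ q) :
    (fun O => if t.eval O then (1 : ℝ) else 0) ∈ (Ach q : Set ((Y → Bool) → ℝ)) :=
  subset_convexHull ℝ _ ⟨t, ht, rfl⟩

theorem conv_Ach {Y : Type} (q : ℕ) : Convex ℝ (Ach q : Set ((Y → Bool) → ℝ)) :=
  convex_convexHull ℝ _

theorem min_Ach {Y : Type} {q : ℕ} {C : Set ((Y → Bool) → ℝ)} (hC : Convex ℝ C)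
    (h : ∀ t : DT Y, t.depth ≤ q → (fun O => if t.eval O then (1 : ℝ) else 0) ∈ C) :
    Ach q ⊆ C := by
  refine convexHull_min ?_ hC
  rintro f ⟨t, ht, rfl⟩
  exact h t ht

theorem node_Ach {Y : Type} {q : ℕ} (y : Y) {u v : (Y → Bool) → ℝ} (hu : u ∈ Ach q)
    (hv : v ∈ Ach q) : (fun O => if O y then u O else v O) ∈ Ach (q + 1) := by
  have step : ∀ t0 : DT Y, t0.depth ≤ q → (fun O : Y → Bool =>
      if O y then u O else (if t0.eval O then (1 : ℝ) else 0)) ∈ Ach (q + 1) := by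
    intro t0 h0
    refine min_Ach (C := {u | (fun O : Y → Bool =>
      if O y then u O else (if t0.eval O then (1 : ℝ) else 0)) ∈ Ach (q + 1)}) ?_ ?_ hu
    · intro a ha b hb s t hs ht hst
      have := conv_Ach (q + 1) ha hb hs ht hst
      simp only [Set.mem_ofPred_eq]
      convert this using 2 with O
      simp only [Pi.add_apply, Pi.smul_apply, smul_eq_mul]
      split_ifs <;> linarith
    · intro t1 h1
      have := gen_Ach (q := q + 1) (DT.node y t1 t0) (by
        simp only [DT.depth]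
        omega)
      simp only [Set.mem_ofPred_eq]
      convert this using 2 with O
      by_cases h : O y = true <;> simp [DT.eval, h]
  refine min_Ach (C := {v | (fun O : Y → Bool => if O y then u O else v O) ∈ Ach (q + 1)})
    ?_ step hv
  intro a ha b hb s t hs ht hst
  have := conv_Ach (q + 1) ha hb hs ht hst
  simp only [Set.mem_ofPred_eq]
  convert this using 2 with O
  simp only [Pi.add_apply, Pi.smul_apply, smul_eq_mul]
  split_ifs
  · rw [← add_mul, hst, one_mul]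
  · rfl

theorem sAch : SAch := by
  intro Y _ _ q
  classical
  refine ⟨?_, ?_, ?_, ?_, ?_, ?_⟩
  · refine Set.Finite.isCompact_convexHull ℝ ?_
    refine (Set.finite_range fun g : (Y → Bool) → Bool =>
      fun O => if g O then (1 : ℝ) else 0).subset ?_
    rintro f ⟨t, _, rfl⟩
    exact ⟨fun O => t.eval O, rfl⟩
  · intro f hf
    refine min_Ach (C := {f | ∀ O, 0 ≤ f O ∧ f O ≤ 1}) ?_ ?_ hf
    · intro a ha b hb s t hs ht hst O
      simp only [Pi.add_apply, Pi.smul_apply, smul_eq_mul]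
      obtain ⟨a0, a1⟩ := ha O
      obtain ⟨b0, b1⟩ := hb O
      constructor
      · positivity
      · nlinarith
    · intro t _ O
      dsimp only
      split_ifs <;> norm_num
  · intro p p0 p1
    have h1 := gen_Ach (Y := Y) (q := q) (DT.leaf true) (Nat.zero_le q)
    have h0 := gen_Ach (Y := Y) (q := q) (DT.leaf false) (Nat.zero_le q)
    have := conv_Ach q h1 h0 p0 (sub_nonneg.2 p1) (by ring)
    convert this using 2 with O
    simp [DT.eval]
  · intro q' hq
    exact min_Ach (conv_Ach q') fun t ht => gen_Ach t (ht.trans hq)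
  · intro y f hf
    convert node_Ach y (hf true) (hf false) using 2 with O
    cases O y <;> simp
  · have hex : ∀ g : (Y → Bool) → Bool, ∃ t : DT Y, t.depth ≤ q ∧
        ∀ t' : DT Y, t'.depth ≤ q → (fun O => t'.eval O) = g → ∀ O, t.eval O = g O := by
      intro g
      by_cases h : ∃ t : DT Y, t.depth ≤ q ∧ (fun O => t.eval O) = g
      · obtain ⟨t, ht, hg⟩ := h
        exact ⟨t, ht, fun _ _ _ O => congrFun hg O⟩
      · exact ⟨DT.leaf true, Nat.zero_le q, fun t' h1 h2 => (h ⟨t', h1, h2⟩).elim⟩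
    choose tr htr using hex
    refine ⟨tr, fun g => (htr g).1, fun f hf => ?_⟩
    refine min_Ach (C := {f | ∃ ν : ((Y → Bool) → Bool) → ℝ, IsProb ν ∧
      ∀ O, 2 * f O - 1 = ∑ g, ν g * sg ((tr g).eval O)}) ?_ ?_ hf
    · rintro a ⟨ν, hν, ha⟩ b ⟨μ, hμ, hb⟩ s t hs ht hst
      refine ⟨fun g => s * ν g + t * μ g, ⟨fun g => ?_, ?_⟩, fun O => ?_⟩
      · have := hν.1 g
        have := hμ.1 g
        positivity
      · rw [sum_add_distrib, ← mul_sum, ← mul_sum, hν.2, hμ.2]
        linarith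
      · simp only [Pi.add_apply, Pi.smul_apply, smul_eq_mul, add_mul, mul_assoc]
        rw [sum_add_distrib, ← mul_sum, ← mul_sum, ← ha O, ← hb O]
        linear_combination hst
    · intro t ht
      refine ⟨fun g => if g = (fun O => t.eval O) then 1 else 0, ⟨fun g => ?_, ?_⟩, fun O => ?_⟩
      · dsimp only
        split_ifs <;> norm_num
      · simp
      · simp only [ite_mul, one_mul, zero_mul, sum_ite_eq', mem_univ, if_true]
        rw [(htr _).2 t ht rfl O]
        cases t.eval O <;> norm_num [sg]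

end

section

noncomputable section

section
variable {Y I : Type} [Fintype Y] [DecidableEq Y] [Fintype I] [DecidableEq I]

/-- one random query, then the strategy `f` -/
def qev_Real (lam : St Y I → Y → ℝ) (f : St Y I → (Y → Bool) → ℝ) (σ : St Y I) (O : Y → Bool) :
    ℝ := ∑ y, lam σ y * f (nextQ lam σ y (O y)) O

/-- advantage of a family of strategies -/
def pr_Real (e : ℝ) {n : ℕ} (f : I → (Fin n → I × Bool) → St Y I → (Y → Bool) → ℝ)
    (σ : St Y I) : ℝ := lin (advI e fun i z => f i z σ) σ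

theorem pr_eq_Real (e : ℝ) {n : ℕ} (f : I → (Fin n → I × Bool) → St Y I → (Y → Bool) → ℝ)
    (σ : St Y I) : pr_Real e f σ = ∑ h, ∑ i, ∑ z, σ.2 h * (Lz e h.2 z * sg (h.2 i) /
      Fintype.card I) * (2 * f i z σ h.1 - 1) := by
  simp only [pr_Real, lin, advI, av, sum_div, mul_sum]
  exact sum_congr rfl fun h _ => sum_congr rfl fun i _ => sum_congr rfl fun z _ => by ring

theorem q_Real (lam : St Y I → Y → ℝ) (hl : ∀ σ, IsProb (lam σ)) (e : ℝ) {n : ℕ}
    (f : I → (Fin n → I × Bool) → St Y I → (Y → Bool) → ℝ) :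
    qop lam (pr_Real e f) = pr_Real e fun i z => qev_Real lam (f i z) := by
  funext σ
  have h1 : ∀ y, ∑ a, pr_Real e f (nextQ lam σ y a) = ∑ h, ∑ i, ∑ z, σ.2 h *
      (Lz e h.2 z * sg (h.2 i) / Fintype.card I) *
      (lam σ y * (2 * f i z (nextQ lam σ y (h.1 y)) h.1 - 1)) := by
    intro y
    simp only [pr_eq_Real]
    rw [sum_comm]
    refine sum_congr rfl fun h _ => ?_
    rw [sum_eq_single (h.1 y)]
    · refine sum_congr rfl fun i _ => sum_congr rfl fun z _ => ?_
      have : (nextQ lam σ y (h.1 y)).2 h = σ.2 h * lam σ y := by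
        simp only [nextQ, ind_pos, mul_one]
      rw [this]
      ring
    · intro a _ ha
      have : (nextQ lam σ y a).2 h = 0 := by
        simp only [nextQ, ind_neg (Ne.symm ha), mul_zero]
      simp [this]
    · simp
  rw [qop, sum_congr rfl fun y _ => h1 y, pr_eq_Real, sum_comm]
  refine sum_congr rfl fun h _ => ?_
  rw [sum_comm]
  refine sum_congr rfl fun i _ => ?_
  rw [sum_comm]
  refine sum_congr rfl fun z _ => ?_
  rw [← mul_sum]
  congr 1
  simp only [qev_Real, mul_sub, mul_one, sum_sub_distrib, (hl σ).2, mul_sum]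
  congr 1
  exact sum_congr rfl fun y _ => by ring

theorem iter_Real (lam : St Y I → Y → ℝ) (hl : ∀ σ, IsProb (lam σ)) (e : ℝ) {n : ℕ}
    (f : I → (Fin n → I × Bool) → St Y I → (Y → Bool) → ℝ) (u : ℕ) :
    (qop lam)^[u] (pr_Real e f) = pr_Real e fun i z => (qev_Real lam)^[u] (f i z) := by
  induction u with
  | zero => rfl
  | succ u ih => simp only [Function.iterate_succ_apply', ih, q_Real lam hl]

theorem avg_Real (e : ℝ) {n : ℕ} (s : ℕ) (hs : 0 < s)
    (g : ℕ → I → (Fin n → I × Bool) → St Y I → (Y → Bool) → ℝ) (σ : St Y I) :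
    (∑ u ∈ range s, pr_Real e (g u) σ) / s =
      pr_Real e (fun i z τ O => (∑ u ∈ range s, g u i z τ O) / s) σ := by
  have h0 : (s : ℝ) ≠ 0 := by exact_mod_cast hs.ne'
  simp only [pr_eq_Real]
  rw [sum_comm, sum_div]
  refine sum_congr rfl fun h _ => ?_
  rw [sum_comm, sum_div]
  refine sum_congr rfl fun i _ => ?_
  rw [sum_comm, sum_div]
  refine sum_congr rfl fun z _ => ?_
  rw [← mul_sum, sum_sub_distrib, ← mul_sum, sum_const, card_range, nsmul_eq_mul, mul_div_assoc]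
  congr 1
  field_simp

theorem l_Real (e : ℝ) {n : ℕ} (f : I → (Fin n → I × Bool) → St Y I → (Y → Bool) → ℝ) :
    lop e (pr_Real e f) = pr_Real e fun i (z : Fin (n + 1) → I × Bool) τ =>
      f i (Fin.tail z) (τ.1, mulT e τ.2 (z 0)) := by
  funext σ
  simp only [lop, pr_eq_Real]
  rw [sum_comm]
  refine sum_congr rfl fun h _ => ?_
  rw [sum_comm]
  refine sum_congr rfl fun i _ => ?_
  rw [sum_succ]
  refine sum_congr rfl fun t _ => sum_congr rfl fun z _ => ?_
  simp only [Lz_succ, Fin.cons_zero, Fin.tail_cons, mulT]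
  ring

theorem zero_Real [Nonempty I] (e : ℝ) (n : ℕ) :
    (fun τ : St Y I => bay τ.2) = pr_Real e fun i (_ : Fin n → I × Bool) τ _ =>
      ind (0 ≤ ∑ h, τ.2 h * sg (h.2 i)) := by
  funext σ
  rw [pr_eq_Real, sum_comm, bay, av, sum_div]
  refine sum_congr rfl fun i _ => ?_
  have h1 : ∀ h : Hd Y I, ∑ z : Fin n → I × Bool, σ.2 h * (Lz e h.2 z * sg (h.2 i) /
      Fintype.card I) * (2 * ind (0 ≤ ∑ h, σ.2 h * sg (h.2 i)) - 1) =
      σ.2 h * sg (h.2 i) * ((2 * ind (0 ≤ ∑ h, σ.2 h * sg (h.2 i)) - 1) / Fintype.card I) := by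
    intro h
    rw [← sum_mul, ← mul_sum, ← sum_div, ← sum_mul, sum_Lz]
    ring
  rw [sum_congr rfl fun h _ => h1 h, ← sum_mul]
  by_cases h : 0 ≤ ∑ h, σ.2 h * sg (h.2 i)
  · rw [ind_pos h, abs_of_nonneg h]
    ring
  · rw [ind_neg h, abs_of_neg (not_le.1 h)]
    ring

theorem achAvg_Real (Q s : ℕ) (hs : 0 < s) (g : ℕ → (Y → Bool) → ℝ)
    (hg : ∀ u < s, g u ∈ Ach Q) : (fun O => (∑ u ∈ range s, g u O) / s) ∈ Ach Q := by
  have h0 : (s : ℝ) ≠ 0 := by exact_mod_cast hs.ne'
  have h := (convex_convexHull ℝ _).sum_mem (t := range s) (w := fun _ => (1 : ℝ) / s) (z := g)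
    (fun _ _ => by positivity) (by simp [h0]) (fun u hu => hg u (mem_range.1 hu))
  have e : (fun O => (∑ u ∈ range s, g u O) / s) = ∑ u ∈ range s, ((1 : ℝ) / s) • g u := by
    funext O
    simp only [Finset.sum_apply, Pi.smul_apply, smul_eq_mul, sum_div]
    exact sum_congr rfl fun u _ => by ring
  rw [e]
  exact h

theorem achQ_Real (hA : SAch) (lam : St Y I → Y → ℝ) (hl : ∀ σ, IsProb (lam σ)) (q : ℕ)
    (f : St Y I → (Y → Bool) → ℝ) (hf : ∀ σ, f σ ∈ Ach q) (u : ℕ) :
    ∀ σ, (qev_Real lam)^[u] f σ ∈ Ach (q + u) := by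
  induction u with
  | zero => exact hf
  | succ u ih =>
    intro σ
    rw [Function.iterate_succ_apply']
    have h := (convex_convexHull ℝ _).sum_mem (t := univ) (w := lam σ)
      (z := fun y O => (qev_Real lam)^[u] f (nextQ lam σ y (O y)) O)
      (fun y _ => (hl σ).1 y) (hl σ).2
      (fun y _ => (hA Y (q + u)).2.2.2.2.1 y (fun a => (qev_Real lam)^[u] f (nextQ lam σ y a))
        fun a => ih _)
    have e : qev_Real lam ((qev_Real lam)^[u] f) σ = ∑ y, lam σ y •
        fun O => (qev_Real lam)^[u] f (nextQ lam σ y (O y)) O := by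
      funext O
      simp only [qev_Real, Finset.sum_apply, Pi.smul_apply, smul_eq_mul]
    rw [e]
    exact h

theorem blk_Real (hA : SAch) (lam : St Y I → Y → ℝ) (hl : ∀ σ, IsProb (lam σ)) (e : ℝ) {n : ℕ}
    (s q : ℕ) (hs : 0 < s) (f : I → (Fin n → I × Bool) → St Y I → (Y → Bool) → ℝ)
    (hf : ∀ i z σ, f i z σ ∈ Ach q) :
    ∃ g : I → (Fin n → I × Bool) → St Y I → (Y → Bool) → ℝ, (∀ i z σ, g i z σ ∈ Ach (q + s)) ∧
      blk lam s (pr_Real e f) = pr_Real e g := by
  refine ⟨fun i z τ O => (∑ u ∈ range s, (qev_Real lam)^[u] (f i z) τ O) / s, fun i z σ => ?_, ?_⟩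
  · exact achAvg_Real _ s hs _ fun u hu =>
      (hA Y (q + u)).2.2.2.1 _ (by omega) (achQ_Real hA lam hl q _ (hf i z) u σ)
  · funext σ
    simp only [blk, iter_Real lam hl]
    exact avg_Real e s hs (fun u i z => (qev_Real lam)^[u] (f i z)) σ

theorem ex_Real [Nonempty I] (hA : SAch) (lam : St Y I → Y → ℝ) (hl : ∀ σ, IsProb (lam σ))
    (e : ℝ) (s : ℕ) (hs : 0 < s) (j : ℕ) : ∀ n, j ≤ n →
    ∃ g : I → (Fin n → I × Bool) → St Y I → (Y → Bool) → ℝ,
      (∀ i z σ, g i z σ ∈ Ach ((j + 1) * s)) ∧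
      Ex lam s e j (fun τ => bay τ.2) = pr_Real e g := by
  induction j with
  | zero =>
    intro n _
    obtain ⟨g, h1, h2⟩ := blk_Real hA lam hl e s 0 hs
      (fun i (_ : Fin n → I × Bool) τ _ => ind (0 ≤ ∑ h, τ.2 h * sg (h.2 i)))
      fun i z σ => (hA Y 0).2.2.1 _ (ind_nonneg _) (ind_le_one _)
    refine ⟨g, by simpa using h1, ?_⟩
    rw [← h2, ← zero_Real]
    rfl
  | succ j ih =>
    intro n hn
    obtain ⟨n, rfl⟩ : ∃ n', n = n' + 1 := ⟨n - 1, by omega⟩
    obtain ⟨f, h1, h2⟩ := ih n (by omega)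
    obtain ⟨g, h3, h4⟩ := blk_Real hA lam hl e s ((j + 1) * s) hs
      (fun i (z : Fin (n + 1) → I × Bool) τ => f i (Fin.tail z) (τ.1, mulT e τ.2 (z 0)))
      fun i z σ => h1 _ _ _
    refine ⟨g, by rw [Nat.succ_mul (j + 1) s]; exact h3, ?_⟩
    rw [← h4, ← l_Real, ← h2]
    simp only [Ex, Function.iterate_succ_apply']

end

theorem sReal (h : SAch) : SReal := by
  intro Y I _ _ _ _ _ lam s J e σ hl hs hJ
  have key : ∀ j : ℕ, ∃ g : I → (Fin J → I × Bool) → St Y I → (Y → Bool) → ℝ, j < J →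
      (∀ i z σ, g i z σ ∈ Ach ((j + 1) * s)) ∧
      Ex lam s e j (fun τ => bay τ.2) = pr_Real e g := by
    intro j
    by_cases hj : j < J
    · obtain ⟨g, hg⟩ := ex_Real h lam hl e s hs j J hj.le
      exact ⟨g, fun _ => hg⟩
    · exact ⟨0, fun h0 => absurd h0 hj⟩
  choose g hg using key
  refine ⟨fun i z O => (∑ j ∈ range J, g j i z σ O) / J, fun i z => ?_, ?_⟩
  · exact achAvg_Real _ J hJ _ fun j hj =>
      (h Y _).2.2.2.1 _ (Nat.mul_le_mul_right s hj) ((hg j hj).1 i z σ)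
  · rw [sum_congr rfl fun j hj => congrFun (hg j (mem_range.1 hj)).2 σ, avg_Real e J hJ]
    rfl

end

end

section

theorem sMM : SMM := by
  intro A E _ _ _ _ _ _ K C p v kK cK kC cC neC hp ha h
  rcases K.eq_empty_or_nonempty with rfl | neK
  · obtain ⟨β, hβ⟩ := neC
    exact ⟨β, hβ, fun μ hμ => hμ.elim⟩
  have c1 : ∀ β : E, Continuous fun μ : A → ℝ => ∑ a, μ a * p β a := fun β => by fun_prop
  have c2 : ∀ μ : A → ℝ, Continuous fun β : E => ∑ a, μ a * p β a := fun μ =>
    continuous_finsetSum _ fun a _ => continuous_const.mul (hp a)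
  have v1 : ∀ β : E, ConvexOn ℝ K fun μ : A → ℝ => ∑ a, μ a * p β a := fun β =>
    ⟨cK, fun x _ y _ s t _ _ _ => le_of_eq (by
      simp only [smul_eq_mul, mul_sum, ← sum_add_distrib, Pi.add_apply, Pi.smul_apply]
      exact sum_congr rfl fun a _ => by ring)⟩
  have v2 : ∀ μ : A → ℝ, ConcaveOn ℝ C fun β : E => ∑ a, μ a * p β a := fun μ =>
    ⟨cC, fun x _ y _ s t _ _ e => le_of_eq (by
      simp only [smul_eq_mul, mul_sum, ← sum_add_distrib]
      exact sum_congr rfl fun a _ => by rw [ha a x y s t e]; ring)⟩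
  obtain ⟨a, haK, b, hb, hs⟩ := Sion.exists_isSaddlePointOn
    (f := fun (μ : A → ℝ) (β : E) => ∑ a, μ a * p β a) neK cK kK
    (fun β _ => (c1 β).continuousOn.lowerSemicontinuousOn) (fun β _ => (v1 β).quasiconvexOn)
    cC neC kC (fun μ _ => (c2 μ).continuousOn.upperSemicontinuousOn)
    (fun μ _ => (v2 μ).quasiconcaveOn)
  obtain ⟨β, hβ, hv⟩ := h a haK
  exact ⟨b, hb, fun μ hμ => hv.trans (hs μ hμ β hβ)⟩

end

section

theorem term_Def {v m N L C : ℝ} (hv : 0 ≤ v) (hm : v ≤ m) (hN : 0 < N) (hL : v * N ≤ L)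
    (hC : 0 < C) :
    v * Real.log (v * N / m) ≤ v * (Real.log L + Real.log C - 1) + v / (m * C) := by
  rcases hv.eq_or_lt with rfl | hv
  · simp
  have hm0 : 0 < m := hv.trans_le hm
  have h1 : Real.log (v * N) ≤ Real.log L := Real.log_le_log (by positivity) hL
  have h2 := Real.log_le_sub_one_of_pos (show 0 < 1 / (m * C) by positivity)
  rw [one_div, Real.log_inv, Real.log_mul hm0.ne' hC.ne'] at h2
  rw [Real.log_div (by positivity) hm0.ne', div_eq_mul_inv v, ← mul_add]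
  exact mul_le_mul_of_nonneg_left (by linarith) hv.le

theorem sDef : SDef := by
  intro Y U _ _ _ μ L h0 h1 hL
  have hU : Nonempty U := by
    by_contra h
    rw [not_nonempty_iff] at h
    simp at h1
  have hC : (0 : ℝ) < Fintype.card U := by exact_mod_cast Fintype.card_pos
  have hN : (0 : ℝ) < Fintype.card (Y → Bool) := by exact_mod_cast Fintype.card_pos
  have key : ∀ u, Ph univ (fun O => μ O u) ≤
      (∑ O, μ O u) * (Real.log L + Real.log (Fintype.card U) - 1) + 1 / Fintype.card U := by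
    intro u
    unfold Ph
    rw [card_univ]
    refine (sum_le_sum fun O _ => term_Def (L := L) (h0 O u)
      (single_le_sum (f := fun O => μ O u) (fun O _ => h0 O u) (mem_univ O)) hN
      ((mul_le_mul_of_nonneg_right
        (single_le_sum (f := fun u => μ O u) (fun u _ => h0 O u) (mem_univ u)) hN.le).trans
        (hL O)) hC).trans ?_
    rw [sum_add_distrib, ← sum_mul, ← sum_div, ← div_div]
    gcongr
    exact div_self_le_one _
  refine (sum_le_sum fun u _ => key u).trans (le_of_eq ?_)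
  rw [sum_add_distrib, ← sum_mul, sum_comm, h1, sum_const, card_univ, nsmul_eq_mul]
  field_simp
  ring

end

section

theorem advI_cont_Pool {Y I T : Type} [Fintype Y] [DecidableEq Y] [Fintype I] [DecidableEq I]
    (e : ℝ) {J : ℕ} (xs : T) (h : Hd Y I) :
    Continuous fun β : T → I → (Fin J → I × Bool) → (Y → Bool) → ℝ => advI e (β xs) h := by
  unfold advI av
  fun_prop

theorem advI_aff_Pool {Y I : Type} [Fintype Y] [DecidableEq Y] [Fintype I] [DecidableEq I]
    (e : ℝ) {J : ℕ} (β β' : I → (Fin J → I × Bool) → (Y → Bool) → ℝ) (h : Hd Y I) (s t : ℝ)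
    (hst : s + t = 1) : advI e (s • β + t • β') h = s * advI e β h + t * advI e β' h := by
  unfold advI av
  rw [← mul_div_assoc, ← mul_div_assoc, ← add_div, mul_sum, mul_sum, ← sum_add_distrib]
  congr 1
  refine sum_congr rfl fun i _ => ?_
  rw [mul_sum, mul_sum, ← sum_add_distrib]
  refine sum_congr rfl fun z _ => ?_
  simp only [Pi.add_apply, Pi.smul_apply, smul_eq_mul]
  have ht : t = 1 - s := by linarith
  subst ht
  ring

theorem card_log_Pool (n : ℕ) (I : Type) [Fintype I] [DecidableEq I] :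
    Real.log (Fintype.card ((I → X n) × (I → Bool))) =
      Fintype.card I * ((n + 1) * Real.log 2) := by
  have h : Fintype.card ((I → X n) × (I → Bool)) = 2 ^ (Fintype.card I * (n + 1)) := by
    simp only [Fintype.card_prod, Fintype.card_fun, Fintype.card_bool, Fintype.card_fin, X]
    rw [← pow_mul, ← pow_add]
    congr 1
    ring
  rw [h]
  push_cast
  rw [Real.log_pow]
  push_cast
  ring

theorem sPool (h1 : SMM) (h2 : SDef) (h3 : SAch) : SPool := by
  intro n m J Q Y I _ _ _ _ e e' E0 E1 γ L A hE1 hyp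
  obtain ⟨hc, -, hconst, -⟩ := h3 Y Q
  have hcv : Convex ℝ (Ach Q : Set ((Y → Bool) → ℝ)) := convex_convexHull ℝ _
  let K : Set ((I → X n) × Hd Y I → ℝ) :=
    {μ | (∀ a, 0 ≤ μ a) ∧ ∑ a, μ a = 1 ∧
      (∀ O, (∑ xs, ∑ c, μ (xs, (O, c))) * Fintype.card (Y → Bool) ≤ L) ∧
      γ ≤ ∑ a, μ a * advI e (onPool A a.1) a.2}
  let C : Set ((I → X n) → I → (Fin J → I × Bool) → (Y → Bool) → ℝ) :=
    Set.pi Set.univ fun _ => Set.pi Set.univ fun _ => Set.pi Set.univ fun _ => Ach Q
  have hKc : IsCompact K := by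
    have hcl : IsClosed K := by
      simp only [K, Set.ofPred_and, Set.ofPred_forall]
      refine (isClosed_iInter fun a => isClosed_le continuous_const (continuous_apply a)).inter
        ((isClosed_eq (by fun_prop) continuous_const).inter
          ((isClosed_iInter fun O => isClosed_le (by fun_prop) continuous_const).inter
            (isClosed_le continuous_const (by fun_prop))))
    exact (isCompact_stdSimplex ℝ _).of_isClosed_subset hcl fun μ hμ => ⟨hμ.1, hμ.2.1⟩
  have hKv : Convex ℝ K := by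
    intro μ hμ ν hν s t hs ht hst
    refine ⟨fun a => ?_, ?_, fun O => ?_, ?_⟩
    · exact add_nonneg (mul_nonneg hs (hμ.1 a)) (mul_nonneg ht (hν.1 a))
    · simp only [Pi.add_apply, Pi.smul_apply, smul_eq_mul, sum_add_distrib, ← mul_sum]
      rw [hμ.2.1, hν.2.1]; linarith
    · simp only [Pi.add_apply, Pi.smul_apply, smul_eq_mul, sum_add_distrib, ← mul_sum]
      have a1 := mul_le_mul_of_nonneg_left (hμ.2.2.1 O) hs
      have a2 := mul_le_mul_of_nonneg_left (hν.2.2.1 O) ht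
      have a3 : s * L + t * L = L := by rw [← add_mul, hst, one_mul]
      linarith
    · simp only [Pi.add_apply, Pi.smul_apply, smul_eq_mul, add_mul, mul_assoc, sum_add_distrib,
        ← mul_sum]
      have a1 := mul_le_mul_of_nonneg_left hμ.2.2.2 hs
      have a2 := mul_le_mul_of_nonneg_left hν.2.2.2 ht
      have a3 : s * γ + t * γ = γ := by rw [← add_mul, hst, one_mul]
      linarith
  have hCc : IsCompact C :=
    isCompact_univ_pi fun _ => isCompact_univ_pi fun _ => isCompact_univ_pi fun _ => hc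
  have hCv : Convex ℝ C :=
    convex_pi fun _ _ => convex_pi fun _ _ => convex_pi fun _ _ => hcv
  have hCn : C.Nonempty :=
    ⟨fun _ _ _ _ => 1 / 2, fun _ _ _ _ _ _ => hconst _ (by norm_num) (by norm_num)⟩
  obtain ⟨β, hβ, hmain⟩ := h1 ((I → X n) × Hd Y I)
    ((I → X n) → I → (Fin J → I × Bool) → (Y → Bool) → ℝ) K C
    (fun β a => advI e' (β a.1) a.2)
    (γ - E0 - (Real.log L + Fintype.card I * ((n + 1) * Real.log 2)) * E1) hKc hKv hCc hCv hCn
    (fun a => advI_cont_Pool e' a.1 a.2)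
    (fun a β β' s t hst => advI_aff_Pool e' (β a.1) (β' a.1) a.2 s t hst) (by
      intro μ hμ
      choose β' hβ' hle using fun xs => hyp xs (fun h => μ (xs, h)) fun h => hμ.1 _
      refine ⟨β', fun xs _ i _ z _ => hβ' xs i z, ?_⟩
      have hs := sum_le_sum fun xs (_ : xs ∈ (univ : Finset (I → X n))) => hle xs
      simp only [sum_add_distrib, ← mul_sum, ← sum_mul] at hs
      have e1 : ∑ xs, ∑ h, μ (xs, h) = 1 := by rw [← hμ.2.1, Fintype.sum_prod_type]
      have hd := h2 Y ((I → X n) × (I → Bool)) (fun O u => μ (u.1, (O, u.2))) L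
        (fun O u => hμ.1 _) (by
          rw [← e1]
          simp only [Fintype.sum_prod_type]
          rw [sum_comm])
        (fun O => by rw [Fintype.sum_prod_type]; exact hμ.2.2.1 O)
      rw [card_log_Pool, Fintype.sum_prod_type] at hd
      have hγ := hμ.2.2.2
      rw [Fintype.sum_prod_type] at hγ ⊢
      have hd' := mul_le_mul_of_nonneg_right hd hE1
      rw [e1] at hs
      linarith)
  refine ⟨β, fun xs i z => hβ xs trivial i trivial z trivial, fun μ a1 a2 a3 a4 => ?_⟩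
  have := hmain (fun a => μ a.1 a.2) ⟨fun a => a1 _ _, by rw [Fintype.sum_prod_type]; exact a2,
    a3, by rw [Fintype.sum_prod_type]; exact a4⟩
  rw [Fintype.sum_prod_type] at this
  exact this

end

section

theorem one_Emp {T U : Type} [Fintype T] [Fintype U] (π : T → U) (w : T → ℝ) (F : U → ℝ) :
    ∑ u, (∑ t, ind (π t = u) * w t) * F u = ∑ t, w t * F (π t) := by
  simp only [sum_mul]
  rw [sum_comm]
  refine sum_congr rfl fun t _ => ?_
  rw [sum_eq_single (π t)]
  · rw [ind_pos rfl, one_mul]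
  · intro u _ h
    rw [ind_neg (Ne.symm h), zero_mul, zero_mul]
  · simp

theorem push_Emp {T U : Type} [Fintype T] [Fintype U] (π : T → U) (w : T → ℝ) (m : ℕ)
    (F : (Fin m → U) → ℝ) :
    ∑ S : Fin m → U, (∏ k, ∑ t, ind (π t = S k) * w t) * F S =
      ∑ z : Fin m → T, (∏ k, w (z k)) * F fun k => π (z k) := by
  classical
  rw [← one_Emp (fun (z : Fin m → T) k => π (z k)) (fun z => ∏ k, w (z k)) F]
  refine sum_congr rfl fun S _ => ?_
  congr 1
  rw [prod_univ_sum, Fintype.piFinset_univ]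
  refine sum_congr rfl fun z _ => ?_
  rw [prod_mul_distrib]
  congr 1
  by_cases h : (fun k => π (z k)) = S
  · rw [ind_pos h]
    exact prod_eq_one fun k _ => ind_pos (congrFun h k)
  · rw [ind_neg h]
    obtain ⟨k, hk⟩ := Function.ne_iff.1 h
    exact prod_eq_zero (mem_univ k) (ind_neg hk)

theorem sEmp : SEmp := by
  intro n m Y I _ _ _ _ _ e A xs O c
  have hN : (Fintype.card I : ℝ) ≠ 0 := by exact_mod_cast Fintype.card_ne_zero
  have hD : ∀ φ : X n → ℝ, ∑ x, (∑ i, ind (xs i = x) * (1 / (Fintype.card I : ℝ))) * φ x =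
      av fun i => φ (xs i) := fun φ => by
    rw [one_Emp, ← mul_sum, av]; ring
  refine ⟨fun x => ∑ i, ind (xs i = x) * (1 / (Fintype.card I : ℝ)), ⟨fun x => sum_nonneg
    fun i _ => mul_nonneg (ind_nonneg _) (by positivity), ?_⟩, ?_⟩
  · have := hD fun _ => 1
    simp only [mul_one] at this
    rw [this, av]
    simp
  · have hp : ∀ y : X n × Bool,
        exProb e c (fun x => ∑ i, ind (xs i = x) * (1 / (Fintype.card I : ℝ))) y =
          ∑ t : I × Bool, ind ((xs t.1, t.2) = y) * tokw e (fun i => c (xs i)) t := by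
      rintro ⟨x, b⟩
      rw [exProb, sum_mul, Fintype.sum_prod_type]
      refine sum_congr rfl fun i _ => ?_
      by_cases h : xs i = x
      · subst h
        rw [sum_eq_single b]
        · rw [ind_pos rfl, ind_pos rfl]; simp only [tokw, lik]; ring
        · intro b' _ hb
          rw [ind_neg (fun h => hb (Prod.mk.inj h).2), zero_mul]
        · simp
      · rw [ind_neg h, zero_mul, zero_mul]
        exact (sum_eq_zero fun b' _ => by
          rw [ind_neg (fun h' => h (Prod.mk.inj h').1), zero_mul]).symm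
    simp only [mis, hp, hD]
    rw [push_Emp (fun t : I × Bool => (xs t.1, t.2))]
    change _ = 1 - 2 * ∑ z, Lz e (fun i => c (xs i)) z * av fun i =>
      if c (xs i) then 1 - onPool A xs i z O else onPool A xs i z O
    have h1 := sum_Lz e (fun i => c (xs i)) m
    have h2 : ∀ (i : I) (z : Fin m → I × Bool), (2 * onPool A xs i z O - 1) * sg (c (xs i)) =
        1 - 2 * (if c (xs i) then 1 - onPool A xs i z O else onPool A xs i z O) := fun i z => by
      cases c (xs i) <;> simp [sg] <;> ring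
    simp only [advI, av, h2, mul_sub, mul_one, sum_sub_distrib, h1, sum_const, card_univ,
      nsmul_eq_mul, sub_div, div_self hN]
    congr 1
    rw [sum_comm, sum_div, mul_sum]
    refine sum_congr rfl fun z _ => ?_
    rw [← mul_sum, ← mul_sum]; ring

end

section

/-! The collision bound. -/

theorem one_Coll {M J : ℕ} (j : Fin J) (g : (Fin J → Fin (M + 1)) → Fin (M + 1))
    (hg : ∀ d a, g (Function.update d j a) = g d) :
    (∑ d : Fin J → Fin (M + 1), ind (d j = g d)) * (M + 1) =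
      Fintype.card (Fin J → Fin (M + 1)) := by
  have h : ∀ k : Fin (M + 1), ∑ d : Fin J → Fin (M + 1), ind (d j = g d) =
      ∑ d : Fin J → Fin (M + 1), ind (k = g d + d j) := fun k => by
    have hi : Function.Involutive fun d : Fin J → Fin (M + 1) =>
        Function.update d j (k - d j) := fun d => by simp
    rw [← Equiv.sum_comp hi.toPerm]
    refine sum_congr rfl fun d _ => ?_
    simp only [Function.Involutive.coe_toPerm, Function.update_self, hg, sub_eq_iff_eq_add]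
  have h2 := sum_congr (rfl : (univ : Finset (Fin (M + 1))) = univ) fun k _ => h k
  rw [sum_const, sum_comm] at h2
  simp only [ind_eq, sum_ite_eq', mem_univ, if_true, sum_const, card_univ, Fintype.card_fin,
    nsmul_eq_mul, mul_one] at h2
  simp only [ind_eq]
  push_cast at h2
  rw [← h2, mul_comm]

theorem sColl : SColl := by
  intro M J i
  have hM : (0 : ℝ) < M + 1 := by positivity
  have hc : (0 : ℝ) < Fintype.card (Fin J → Fin (M + 1)) := Nat.cast_pos.2 Fintype.card_pos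
  have h1 : ∀ d : Fin J → Fin (M + 1), ind (¬ (Function.Injective d ∧ ∀ j, d j ≠ i)) ≤
      ∑ j, ind (d j = i) + ∑ j, ∑ j' ∈ univ.erase j, ind (d j = d j') := fun d => by
    have n1 : 0 ≤ ∑ j, ind (d j = i) := sum_nonneg fun _ _ => ind_nonneg _
    have n2 : ∀ j, 0 ≤ ∑ j' ∈ univ.erase j, ind (d j = d j') := fun j =>
      sum_nonneg fun _ _ => ind_nonneg _
    have n3 := sum_nonneg fun j (_ : j ∈ univ) => n2 j
    refine (ind_eq _).trans_le ?_
    split_ifs with h
    · linarith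
    · rw [not_and_or] at h
      rcases h with h | h
      · obtain ⟨a, b, e, hab⟩ := Function.not_injective_iff.1 h
        have k1 := single_le_sum (fun j _ => n2 j) (mem_univ a)
        have k2 := single_le_sum (f := fun j' => ind (d a = d j')) (fun _ _ => ind_nonneg _)
          (mem_erase.2 ⟨hab.symm, mem_univ b⟩)
        rw [ind_pos e] at k2
        linarith
      · push Not at h
        obtain ⟨a, e⟩ := h
        have k1 := single_le_sum (f := fun j => ind (d j = i)) (fun _ _ => ind_nonneg _)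
          (mem_univ a)
        rw [ind_pos e] at k1
        linarith
  rw [av, div_le_div_iff₀ hc hM]
  refine (mul_le_mul_of_nonneg_right (sum_le_sum fun d _ => h1 d) hM.le).trans ?_
  rw [sum_add_distrib, sum_comm, sum_comm (s := (univ : Finset (Fin J → Fin (M + 1)))), add_mul,
    sum_mul, sum_mul, sum_congr rfl fun j _ => one_Coll j (fun _ => i) fun _ _ => rfl]
  have h2 : ∀ j : Fin J, (∑ d : Fin J → Fin (M + 1), ∑ j' ∈ univ.erase j, ind (d j = d j')) *
      (M + 1) ≤ J * (Fintype.card (Fin J → Fin (M + 1)) : ℝ) := fun j => by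
    rw [sum_comm, sum_mul, sum_congr rfl fun j' hj => one_Coll j (fun d => d j') fun d a =>
      Function.update_of_ne (ne_of_mem_erase hj) _ _, sum_const, nsmul_eq_mul]
    refine mul_le_mul_of_nonneg_right ?_ hc.le
    exact_mod_cast (card_le_univ _).trans_eq (Fintype.card_fin J)
  have h3 := sum_le_sum fun j (_ : j ∈ univ) => h2 j
  simp only [sum_const, card_univ, Fintype.card_fin, nsmul_eq_mul] at h3 ⊢
  have : (0 : ℝ) ≤ J := Nat.cast_nonneg J
  nlinarith [mul_nonneg this hc.le]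

end

section

theorem marg_Good {ι κ Y : Type} [Fintype ι] [DecidableEq ι] [Fintype κ] [DecidableEq κ]
    [Fintype Y] (e : κ → ι) (he : Function.Injective e)
    (w : ι → Y → ℝ) (hw : ∀ j, ∑ y, w j y = 1) (H : (κ → Y) → ℝ) :
    ∑ p : ι → Y, (∏ j, w j (p j)) * H (fun k => p (e k)) =
      ∑ q : κ → Y, (∏ k, w (e k) (q k)) * H q := by
  classical
  let E : κ ⊕ {j // ¬ j ∈ Set.range e} ≃ ι :=
    (Equiv.sumCongr (Equiv.ofInjective e he) (Equiv.refl _)).trans
      (Equiv.sumCompl fun j => j ∈ Set.range e)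
  have hE : ∀ k, E (Sum.inl k) = e k := fun k => rfl
  rw [← Equiv.sum_comp ((Equiv.sumArrowEquivProdArrow _ _ Y).symm.trans
    (Equiv.arrowCongr E (Equiv.refl Y))), Fintype.sum_prod_type]
  refine sum_congr rfl fun q _ => ?_
  have h1 : ∀ t : {j // ¬ j ∈ Set.range e} → Y, ∀ s,
      ((Equiv.sumArrowEquivProdArrow _ _ Y).symm.trans (Equiv.arrowCongr E (Equiv.refl Y)))
        (q, t) (E s) = Sum.elim q t s := fun t s => by
    simp [Equiv.arrowCongr, Equiv.sumArrowEquivProdArrow]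
  have h2 : ∑ t : {j // ¬ j ∈ Set.range e} → Y, ∏ s, w (E (Sum.inr s)) (t s) = 1 := by
    rw [← Fintype.piFinset_univ, ← prod_univ_sum]
    simp [hw]
  rw [← mul_one ((∏ k, w (e k) (q k)) * H q), ← h2, mul_sum]
  refine sum_congr rfl fun t _ => ?_
  rw [← Equiv.prod_comp E, Fintype.prod_sum_type]
  simp only [← hE, h1, Sum.elim_inl, Sum.elim_inr]
  ring

theorem sum_lik_Good (e : ℝ) (c : Bool) : ∑ b, lik e c b = 1 := by
  cases c <;> simp [lik]

theorem sum_pair_Good {ι A B : Type} [Fintype ι] [DecidableEq ι] [Fintype A] [Fintype B]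
    (f : (ι → A × B) → ℝ) :
    ∑ S, f S = ∑ p : ι → A, ∑ l : ι → B, f fun k => (p k, l k) := by
  rw [← (Equiv.arrowProdEquivProdArrow ι (fun _ => A) (fun _ => B)).symm.sum_comp,
    Fintype.sum_prod_type]
  rfl

theorem sum_ins_Good {M : ℕ} {A : Type} [Fintype A] (i : Fin (M + 1))
    (f : (Fin (M + 1) → A) → ℝ) :
    ∑ xs, f xs = ∑ p : Fin M → A, ∑ x : A, f (i.insertNth x p) := by
  rw [← (Fin.insertNthEquiv (fun _ : Fin (M + 1) => A) i).sum_comp, Fintype.sum_prod_type,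
    sum_comm]
  rfl

theorem sGood : SGood := by
  intro n M J e c D i d Φ hd
  rw [sum_ins_Good i, sum_pair_Good]
  refine sum_congr rfl fun p _ => ?_
  have h1 : ∀ l : Fin M → Bool, (∏ k, exProb e c D (p k, l k)) =
      (∏ k, D (p k)) * ∏ k, lik e (c (p k)) (l k) := fun l => by
    rw [← prod_mul_distrib]
    rfl
  simp only [h1, mul_sum]
  rw [sum_comm (s := (univ : Finset (Fin M → Bool)))]
  refine sum_congr rfl fun x _ => ?_
  have h2 := marg_Good d hd (fun k b => lik e (c (p k)) b) (fun k => sum_lik_Good e _)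
    fun b => Φ (i.insertNth x p) b
  rw [Fin.prod_univ_succAbove _ i]
  simp only [Fin.insertNth_apply_same, Fin.insertNth_apply_succAbove]
  rw [← mul_sum, ← h2, mul_sum]
  refine sum_congr rfl fun l _ => ?_
  ring

end

section

theorem av_mono_Back {α : Type} [Fintype α] {f g : α → ℝ} (h : ∀ a, f a ≤ g a) : av f ≤ av g :=
  div_le_div_of_nonneg_right (sum_le_sum fun a _ => h a) (Nat.cast_nonneg _)

theorem av_add_Back {α : Type} [Fintype α] (f g : α → ℝ) :
    av (fun a => f a + g a) = av f + av g := by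
  unfold av
  rw [sum_add_distrib, add_div]

theorem av_const_Back {α : Type} [Fintype α] [Nonempty α] (x : ℝ) : av (fun _ : α => x) = x := by
  have h : (Fintype.card α : ℝ) ≠ 0 := Nat.cast_ne_zero.2 Fintype.card_ne_zero
  unfold av
  rw [sum_const, card_univ, nsmul_eq_mul, mul_div_cancel_left₀ _ h]

theorem sum_av_Back {α S : Type} [Fintype α] [Fintype S] (w : S → ℝ) (f : S → α → ℝ) :
    ∑ s, w s * av (f s) = av fun a => ∑ s, w s * f s a := by
  unfold av
  rw [sum_comm, sum_div]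
  exact sum_congr rfl fun s _ => by rw [← mul_sum, mul_div_assoc]

theorem av_aff_Back {α : Type} [Fintype α] [Nonempty α] (f : α → ℝ) (y : ℝ) :
    (2 * av f - 1) * y = av fun a => (2 * f a - 1) * y := by
  have h : (Fintype.card α : ℝ) ≠ 0 := Nat.cast_ne_zero.2 Fintype.card_ne_zero
  unfold av
  rw [← sum_mul, sum_sub_distrib, ← mul_sum, sum_const, card_univ, nsmul_eq_mul]
  field_simp

theorem av_mem_Back {α Y : Type} [Fintype α] [Nonempty α] (Q : ℕ) (f : α → (Y → Bool) → ℝ)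
    (h : ∀ a, f a ∈ Ach Q) : (fun O => av fun a => f a O) ∈ Ach Q := by
  have hc : (Fintype.card α : ℝ) ≠ 0 := Nat.cast_ne_zero.2 Fintype.card_ne_zero
  have e : (fun O => av fun a => f a O) = ∑ a, (1 / (Fintype.card α : ℝ)) • f a := by
    funext O
    unfold av
    rw [Finset.sum_apply, sum_div]
    exact sum_congr rfl fun a _ => by rw [Pi.smul_apply, smul_eq_mul, one_div_mul_eq_div]
  rw [e]
  refine (convex_convexHull ℝ _).sum_mem (fun _ _ => by positivity) ?_ fun a _ => h a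
  rw [sum_const, card_univ, nsmul_eq_mul, mul_one_div_cancel hc]

theorem sum_prod_Back {ι α : Type} [Fintype ι] [DecidableEq ι] [Fintype α] (w : ι → α → ℝ)
    (h : ∀ k, ∑ a, w k a = 1) : ∑ S : ι → α, ∏ k, w k (S k) = 1 := by
  classical
  rw [← Fintype.piFinset_univ, ← prod_univ_sum]
  exact prod_eq_one fun k _ => h k

theorem sum_lik_Back (e : ℝ) (c : Bool) : ∑ b, lik e c b = 1 := by
  cases c <;> simp [lik]

theorem lik_nonneg_Back {e : ℝ} (h0 : 0 ≤ e) (h1 : e ≤ 1) (c b : Bool) : 0 ≤ lik e c b := by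
  unfold lik
  split_ifs <;> linarith

theorem mis_Back {n M : ℕ} (e : ℝ) (c : X n → Bool) (D : X n → ℝ) (hD : IsProb D)
    (h : Sample n M → X n → ℝ) : 1 - 2 * mis e c D h =
      ∑ S : Sample n M, (∏ k, exProb e c D (S k)) * ∑ x, D x * ((2 * h S x - 1) * sg (c x)) := by
  have h1 : ∑ y, exProb e c D y = 1 := by
    rw [Fintype.sum_prod_type, ← hD.2]
    refine sum_congr rfl fun x _ => ?_
    have := sum_lik_Back e (c x)
    unfold lik at this
    unfold exProb
    simp only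
    rw [← mul_sum, this, mul_one]
  have h2 : ∑ S : Sample n M, ∏ k, exProb e c D (S k) = 1 :=
    sum_prod_Back (fun _ : Fin M => exProb e c D) fun _ => h1
  have h3 : ∀ S : Sample n M, ∑ x, D x * ((2 * h S x - 1) * sg (c x))
      = 1 - 2 * ∑ x, D x * (if c x then 1 - h S x else h S x) := by
    intro S
    rw [mul_sum, eq_sub_iff_add_eq, ← sum_add_distrib]
    refine Eq.trans (sum_congr rfl fun x _ => ?_) hD.2
    unfold sg
    split_ifs <;> ring
  unfold mis
  simp only [h3, mul_sub, mul_one, sum_sub_distrib, h2]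
  rw [mul_sum]
  congr 1
  exact sum_congr rfl fun S _ => by ring

theorem sum_Lz_Back {I : Type} [Fintype I] [DecidableEq I] {J : ℕ} (e : ℝ) (c : I → Bool)
    (φ : (Fin J → I × Bool) → ℝ) : ∑ z, Lz e c z * φ z =
      av fun d : Fin J → I => ∑ b : Fin J → Bool,
        (∏ j, lik e (c (d j)) (b j)) * φ fun j => (d j, b j) := by
  unfold av
  rw [← (Equiv.arrowProdEquivProdArrow (Fin J) (fun _ => I) fun _ => Bool).symm.sum_comp,
    Fintype.sum_prod_type, sum_div]
  refine sum_congr rfl fun d _ => ?_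
  rw [sum_div]
  refine sum_congr rfl fun b _ => ?_
  have e1 : Lz e c ((Equiv.arrowProdEquivProdArrow (Fin J) (fun _ => I) fun _ => Bool).symm (d, b))
      = (∏ j, lik e (c (d j)) (b j)) / Fintype.card (Fin J → I) := by
    rw [Fintype.card_fun, Fintype.card_fin, Nat.cast_pow, ← Fin.prod_const, ← prod_div_distrib]
    rfl
  rw [e1, div_mul_eq_mul_div]
  rfl

theorem sBack (h1 : SColl) (h2 : SGood) (h3 : SAch) : SBack := by
  intro n M J Q Y _ _ e β he0 he1 hβ
  obtain ⟨-, hb, hc, -⟩ := h3 Y Q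
  have key : ∀ (i : Fin (M + 1)) (d : Fin J → Fin (M + 1)),
      ∃ k : Sample n M → X n → (Y → Bool) → ℝ, (∀ S x, k S x ∈ Ach Q) ∧
        ∀ (O : Y → Bool) (c : X n → Bool) (D : X n → ℝ), IsProb D →
          ∑ xs : Fin (M + 1) → X n, (∏ k, D (xs k)) * ∑ b : Fin J → Bool,
            (∏ j, lik e (c (xs (d j))) (b j)) *
              ((2 * β xs i (fun j => (d j, b j)) O - 1) * sg (c (xs i))) ≤
          ∑ S : Sample n M, (∏ k, exProb e c D (S k)) *
            ∑ x, D x * ((2 * k S x O - 1) * sg (c x)) +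
          ind (¬ (Function.Injective d ∧ ∀ j, d j ≠ i)) := by
    intro i d
    by_cases hd : Function.Injective d ∧ ∀ j, d j ≠ i
    · choose d' hd' using fun j => Fin.exists_succAbove_eq (hd.2 j)
      obtain rfl : d = fun j => i.succAbove (d' j) := funext fun j => (hd' j).symm
      have hinj : Function.Injective d' := fun j j' h => hd.1 (congrArg i.succAbove h)
      refine ⟨fun S x => β (i.insertNth x fun k => (S k).1) i
        fun j => (i.succAbove (d' j), (S (d' j)).2), fun S x => hβ _ _ _, fun O c D _ => ?_⟩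
      have h4 := h2 n M J e c D i d' (fun xs b =>
        (2 * β xs i (fun j => (i.succAbove (d' j), b j)) O - 1) * sg (c (xs i))) hinj
      simp only [Fin.insertNth_apply_same] at h4
      exact h4.le.trans (le_add_of_nonneg_right (ind_nonneg _))
    · refine ⟨fun _ _ _ => 1 / 2, fun _ _ => hc _ (by norm_num) (by norm_num),
        fun O c D hD => ?_⟩
      have e1 : (2 * (1 / 2 : ℝ) - 1) = 0 := by norm_num
      simp only [e1, zero_mul, mul_zero, sum_const_zero, zero_add]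
      rw [ind_pos hd]
      refine le_of_le_of_eq (sum_le_sum fun xs _ => mul_le_of_le_one_right
        (prod_nonneg fun k _ => hD.1 _) ?_) (sum_prod_Back (fun _ : Fin (M + 1) => D) fun _ => hD.2)
      refine le_of_le_of_eq (sum_le_sum fun b _ => mul_le_of_le_one_right
        (prod_nonneg fun j _ => lik_nonneg_Back he0 he1 _ _) ?_)
        (sum_prod_Back (fun j : Fin J => lik e (c (xs (d j)))) fun j => sum_lik_Back e _)
      obtain ⟨a1, a2⟩ := hb _ (hβ xs i fun j => (d j, b j)) O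
      unfold sg
      split_ifs <;> linarith
  choose k hk1 hk2 using key
  refine ⟨fun S x O => av fun i => av fun d => k i d S x O, fun S x =>
    av_mem_Back Q _ fun i => av_mem_Back Q _ fun d => hk1 i d S x, fun O c D hD => ?_⟩
  rw [mis_Back e c D hD]
  unfold advI
  simp only [sum_Lz_Back, av_aff_Back, sum_av_Back]
  refine (av_mono_Back fun i => av_mono_Back fun d => hk2 i d O c D hD).trans ?_
  simp only [av_add_Back]
  refine add_le_add le_rfl ((av_mono_Back fun i => h1 M J i).trans (av_const_Back _).le)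

end

section

theorem small_Par {z A c : ℝ} {j k : ℕ} (hz : 10 ≤ z) (hA : A ≤ c * z ^ j) (i : ℕ)
    (hc : c ≤ 10 ^ i) (hk : j + i + 2 ≤ k) : A / z ^ k ≤ 1 / z ^ 2 := by
  have h0 : 0 < z := by linarith
  rw [div_le_div_iff₀ (by positivity) (by positivity), one_mul]
  calc A * z ^ 2 ≤ z ^ i * z ^ j * z ^ 2 := by
        gcongr
        exact hA.trans (by gcongr; exact hc.trans (by gcongr))
    _ = z ^ (j + i + 2) := by ring
    _ ≤ _ := pow_le_pow_right₀ (by linarith) hk

theorem pow_Par {Z m : ℕ} (hZ : 10 ≤ Z) (hm : m ≤ Z) {y : ℝ} (h0 : 0 ≤ y) (hy : y ≤ 1 + 1 / Z) :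
    y ^ m ≤ 3 := by
  have hz : (0 : ℝ) < Z := by exact_mod_cast (by omega : 0 < Z)
  calc y ^ m ≤ (1 + 1 / Z : ℝ) ^ m := by gcongr
    _ ≤ (1 + 1 / Z : ℝ) ^ Z := pow_le_pow_right₀ (by simp) hm
    _ ≤ Real.exp (1 / Z) ^ Z := by
        gcongr
        linarith [Real.add_one_le_exp (1 / Z : ℝ)]
    _ = Real.exp 1 := by rw [← Real.exp_nat_mul]; congr 1; field_simp
    _ ≤ 3 := by linarith [Real.exp_one_lt_d9]

theorem sPar : SPar := by
  intro Z n l m q e' Lg hLg hZ hn hl hm hq he hd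
  replace hLg := sub_nonpos.2 hLg
  have hz : (10 : ℝ) ≤ Z := by exact_mod_cast hZ
  have hn' : (n : ℝ) ≤ Z := by exact_mod_cast hn
  have hl' : (l : ℝ) ≤ Z := by exact_mod_cast hl
  have hm' : (m : ℝ) ≤ Z := by exact_mod_cast hm
  have hq' : (q : ℝ) ≤ Z := by exact_mod_cast hq
  have p2 := pow_Par hZ hm (y := 1 + (Z : ℝ) ^ 25 * (4 * (1 / Z ^ 29) / (1 / (Z + 1)) ^ 2))
    (by positivity) (by
      have h0 : (0 : ℝ) < Z := by linarith
      have : (Z : ℝ) ^ 25 * (4 * (1 / Z ^ 29) / (1 / (Z + 1)) ^ 2) = 4 * (Z + 1) ^ 2 / Z ^ 4 := by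
        field_simp
      rw [this, add_le_add_iff_left, div_le_div_iff₀ (by positivity) h0]
      have h1 : 4 * ((Z : ℝ) + 1) ^ 2 ≤ Z * Z ^ 2 := by nlinarith
      nlinarith)
  have p6 := pow_Par hZ hm (y := 1 / (1 - 1 / ((Z : ℝ) + 1))) (by
      have : 1 / ((Z : ℝ) + 1) ≤ 1 := by rw [div_le_one (by linarith)]; linarith
      exact div_nonneg zero_le_one (by linarith)) (le_of_eq (by
      have h0 : (0 : ℝ) < Z := by linarith
      have : 1 - 1 / ((Z : ℝ) + 1) = Z / (Z + 1) := by field_simp; ring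
      rw [this]; field_simp))
  unfold err0
  push_cast
  generalize (Z : ℝ) = z at *
  generalize 1 - 2 * e' = d at *
  have h0 : 0 < z := by linarith
  have hd0 : 0 < d := by
    by_contra h
    nlinarith [mul_nonneg h0.le (neg_nonneg.2 (not_lt.1 h))]
  have hd2 : 1 / d ^ 2 ≤ z ^ 2 := by
    rw [div_le_iff₀ (by positivity), ← mul_pow]
    exact one_le_pow₀ hd
  have hl2 : Real.log 2 ≤ 1 := by linarith [Real.log_two_lt_d9]
  have hl0 : 0 ≤ Real.log 2 := Real.log_nonneg one_le_two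
  have h1z : ∀ k : ℕ, 1 ≤ z ^ k := fun k => one_le_pow₀ (by linarith)
  have t2 : 2 * (z ^ 94 * q) * ((1 + z ^ 25 * (4 * (1 / z ^ 29) / (1 / (z + 1)) ^ 2)) ^ m /
      (z ^ 25) ^ (3 + 1)) ≤ 1 / z ^ 2 := by
    rw [← mul_div_assoc, ← pow_mul]
    refine small_Par (c := 6) (j := 95) hz ?_ 1 (by norm_num) (by norm_num)
    calc _ ≤ 2 * (z ^ 94 * z) * 3 := by gcongr
      _ = _ := by ring
  have t3 : m * (1 / z ^ 3) ≤ 1 / z ^ 2 := by
    rw [mul_one_div]
    exact small_Par (c := 1) (j := 1) hz (by simpa using hm') 0 (by norm_num) (by norm_num)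
  have t4 : 4 / (1 / z ^ 3 * d ^ 2) * (2 * m) / z ^ 42 ≤ 1 / z ^ 2 := by
    refine small_Par (c := 8) (j := 6) hz ?_ 1 (by norm_num) (by norm_num)
    calc _ = 4 * z ^ 3 * (1 / d ^ 2) * (2 * m) := by field_simp
      _ ≤ 4 * z ^ 3 * z ^ 2 * (2 * z) := by gcongr
      _ = _ := by ring
  have hlog : Real.log (z ^ 94 * q + 1) ≤ 96 * z := by
    have h1 : z ^ 94 * q + 1 ≤ z ^ 96 := by
      have : z ^ 94 * q ≤ z ^ 94 * z := by gcongr
      have h4 := h1z 95
      rw [← pow_succ, show 94 + 1 = 95 from rfl] at this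
      calc z ^ 94 * q + 1 ≤ z ^ 95 * 2 := by linarith
        _ ≤ z ^ 95 * z := by gcongr; linarith
        _ = z ^ 96 := (pow_succ z 95).symm
    have h5 : 0 < z ^ 94 * (q : ℝ) + 1 :=
      add_pos_of_nonneg_of_pos (mul_nonneg (pow_nonneg h0.le _) (Nat.cast_nonneg q)) one_pos
    refine (Real.log_le_log h5 h1).trans ?_
    rw [Real.log_pow]
    have := Real.log_le_sub_one_of_pos h0
    push_cast
    linarith
  have hlog0 : 0 ≤ Real.log (z ^ 94 * q + 1) :=
    Real.log_nonneg (le_add_of_nonneg_left (by positivity))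
  have t5 : 16 / (d ^ 2 * (1 / z ^ 29)) * (m * ((Real.log (z ^ 94 * q + 1) + l) * q + 2)) /
      z ^ 42 ≤ 1 / z ^ 2 := by
    refine small_Par (c := 1568) (j := 34) hz ?_ 4 (by norm_num) (by norm_num)
    calc _ = 16 * z ^ 29 * (1 / d ^ 2) * (m * ((Real.log (z ^ 94 * q + 1) + l) * q + 2)) := by
          field_simp
      _ ≤ 16 * z ^ 29 * z ^ 2 * (z * ((96 * z + z) * z + z ^ 2)) := by
          gcongr
          nlinarith
      _ = _ := by ring
  have t6 : 2 * ((1 / (1 - 1 / (z + 1))) ^ m * (2 / (1 / (z + 1))) ^ 3 * (q + 1)) * (z ^ 94 * q) /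
      z ^ 106 ≤ 1 / z ^ 2 := by
    refine small_Par (c := 324) (j := 99) hz ?_ 3 (by norm_num) (by norm_num)
    have a1 : 2 / (1 / (z + 1)) ≤ 3 * z := by
      rw [div_div_eq_mul_div, div_one]; linarith
    have a2 : (q : ℝ) + 1 ≤ 2 * z := by linarith
    calc _ ≤ 2 * (3 * (3 * z) ^ 3 * (2 * z)) * (z ^ 94 * z) := by gcongr
      _ = _ := by ring
  have t7 : (Lg + (z ^ 87 + 1) * ((n + 1) * Real.log 2)) *
      (1 / (1 / z ^ 2 * z ^ 94)) ≤ 1 / z ^ 2 := by
    rw [show 1 / z ^ 2 * z ^ 94 = z ^ 92 by field_simp, mul_one_div]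
    refine small_Par (c := 5) (j := 88) hz ?_ 1 (by norm_num) (by norm_num)
    have a1 : z ^ 87 + 1 ≤ 2 * z ^ 87 := by linarith [h1z 87]
    have a2 : (n : ℝ) + 1 ≤ 2 * z := by linarith
    have a3 := sub_nonpos.1 hLg
    calc _ ≤ z ^ 87 * z + 2 * z ^ 87 * (2 * z * 1) := by gcongr
      _ = _ := by ring
  have t8 : (z ^ 42 + 1) ^ 2 / (z ^ 87 + 1) ≤ 1 / z ^ 2 := by
    refine le_trans (div_le_div_of_nonneg_left (by positivity) (show 0 < z ^ 87 by positivity)
      (by linarith)) (small_Par (c := 4) (j := 84) hz ?_ 1 (by norm_num) (by norm_num))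
    calc _ ≤ (2 * z ^ 42) ^ 2 := by gcongr; linarith [h1z 42]
      _ = _ := by ring
  have fin : 8 * (1 / z ^ 2) ≤ 1 / z := by
    rw [mul_one_div, div_le_div_iff₀ (by positivity) h0]
    nlinarith
  linarith

end

section

noncomputable section

theorem sCore (hA : SAch) (hL : SLoc) (hH : SHeavy) (hB : SBay) (hS : SSpl) (hP : SPh1)
    (hR : SReal) : SCore := by
  intro Y I _ _ _ _ _ _ e e' ζ κ x x' α ℓ m q t a s J β μ h0 h1 d0 d1 z0 z1 k0 x0 x1 x2 a0 hℓ t0
    s0 J0 hβ hμ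
  obtain ⟨-, -, -, -, -, tr, htr, hν⟩ := hA Y q
  choose ν hν1 hν2 using fun i z => hν (β i z) (hβ i z)
  obtain ⟨lam, g, H, hl, hg, hgs, hH1, hH2, loc⟩ := hL Y I _ e ζ κ x x' m q t a tr ν β h0 h1 z0 z1
    k0.le x0 x1 x2 t0 htr hν1 hν2
  have d2 : e' ≤ 1 := by linarith
  have tq : (0 : ℝ) ≤ t * q := by positivity
  obtain ⟨F4, G4, c4, b4⟩ := hH Y I e e' κ (t * q + 1) g h0 h1 d0 d2 k0 (by linarith) hg
    (fun h => by linarith [hgs h]) m H hH1
  have c4' := c4.weak (b' := fun _ => m * ((Real.log (t * q + 1) + ℓ) * q + 2)) fun h => by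
    have l1 : 0 ≤ Real.log (t * q + 1 : ℝ) := Real.log_nonneg (by linarith)
    have l2 : 0 ≤ Real.log (Fintype.card Y : ℝ) := Real.log_natCast_nonneg _
    have u : ∑ y, g h y * ∑ z, Lz e h.2 z * H z h y ≤ q := by
      refine (sum_le_sum fun y _ => mul_le_of_le_one_left (sum_nonneg fun z _ =>
        mul_nonneg (Lz_nonneg h0 h1 _ _) (hH1 z h y).1) (hg h y).2).trans ?_
      rw [sum_comm]
      simp only [← mul_sum]
      refine (sum_le_sum fun z _ => mul_le_mul_of_nonneg_left (hH2 z h)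
        (Lz_nonneg h0 h1 _ _)).trans_eq ?_
      rw [← sum_mul, sum_Lz, one_mul]
    refine mul_le_mul_of_nonneg_left (add_le_add ?_ le_rfl) (Nat.cast_nonneg _)
    exact (mul_le_mul_of_nonneg_left u (add_nonneg l1 l2)).trans
      (mul_le_mul_of_nonneg_right (by linarith) (Nat.cast_nonneg _))
  obtain ⟨F3, G3, c3, b3⟩ := hB Y I e e' α m h0 h1 d0 d1 a0
  obtain ⟨S1, S2, S3, S4⟩ := hS Y I lam s e' hl s0 d0 d2
  let σ : St Y I := (fun _ => none, μ)
  have hσ : Val σ := fun h => ⟨hμ h, fun _ => mem_cube.2 fun y b hb => by simp [σ] at hb⟩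
  obtain ⟨β', hβ', eR⟩ := hR Y I lam s J e' σ hl s0 J0
  refine ⟨β', hβ', ?_⟩
  have δ0 : 0 < (1 - 2 * e') ^ 2 := pow_pos (by linarith) _
  set δ := (1 - 2 * e') ^ 2 with hδ
  set E : ℝ := x + 2 * (t * q) * ((1 + x' * (4 * κ / ζ ^ 2)) ^ m / x' ^ (a + 1)) with hE
  set C : ℝ := 2 * ((1 / (1 - ζ)) ^ m * (2 / ζ) ^ a * (q + 1)) with hC
  have C0 : 0 ≤ C := by
    have : 0 < 1 - ζ := by linarith
    positivity
  set b : ℝ := m * ((Real.log (t * q + 1) + ℓ) * q + 2) with hb
  have pt : ∀ τ : St Y I, Val τ → lin (advI e β) τ ≤ bay τ.2 + ((E + m * α) * lin (fun _ => 1) τ +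
      (4 / (α * δ) * G3 τ.2 + (16 / (δ * κ) * G4 τ.2 + (1 / (x * t) * Ph1 τ +
        C * (Psi g τ - qop lam (Psi g) τ))))) := fun τ hτ => by
    have p1 := loc τ hτ
    have p2 := b3 τ.2 fun h => (hτ h).1
    have p3 := b4 τ.2 fun h => (hτ h).1
    rw [← le_div_iff₀' (mul_pos δ0 k0)] at p3
    rw [(hP Y I lam e' τ (hl τ) d0 d2 hτ).2.2 g]
    have q1 : 16 / (δ * κ) * G4 τ.2 = 2 * (8 * G4 τ.2 / (δ * κ)) := by ring
    have q2 : 1 / (x * t) * Ph1 τ = Ph1 τ / (x * t) := by ring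
    have q3 : lin (fun _ => 1) τ = ∑ h, τ.2 h := by simp [lin]
    rw [q1, q2, q3]
    linarith
  have M : ∀ y : ℝ, lin (fun _ => y) σ = y * ∑ h, μ h := fun y => by
    simp only [lin, σ]; rw [← sum_mul, mul_comm]
  have M0 : 0 ≤ ∑ h, μ h := sum_nonneg fun h _ => hμ h
  have xt : 0 < x * t := by positivity
  have st : ∀ j, lin (advI e β) σ ≤ Ex lam s e' j (fun τ => bay τ.2) σ + ((E + m * α) * ∑ h, μ h +
      (4 / (α * δ) * Ex lam s e' j (fun τ => G3 τ.2) σ +
      (16 / (δ * κ) * Ex lam s e' j (fun τ => G4 τ.2) σ + (1 / (x * t) * Ph1 σ +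
        C * (t * q * (∑ h, μ h) / s))))) := fun j => by
    have p := (S1 j).mono _ _ pt σ hσ
    rw [(S1 j).lin, (S1 j).add, (S1 j).add, (S1 j).add, (S1 j).add, (S1 j).add, (S1 j).smul,
      (S1 j).smul, (S1 j).smul, (S1 j).smul, (S1 j).smul, (S1 j).lin, M, one_mul] at p
    have p1 := S2 Ph1 (fun τ hτ => (hP Y I lam e' τ (hl τ) d0 d2 hτ).1)
      (fun τ hτ => (hP Y I lam e' τ (hl τ) d0 d2 hτ).2.1) j σ hσ
    have p2 := S3 (Psi g) (fun _ => t * q) (fun τ hτ => ⟨sum_nonneg fun h _ => mul_nonneg (hτ h).1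
      (sum_nonneg fun y _ => mul_nonneg (ind_nonneg _) (hg h y).1), sum_le_sum fun h _ =>
      mul_le_mul_of_nonneg_left ((sum_le_sum fun y _ => mul_le_of_le_one_left (hg h y).1
        (ind_le_one _)).trans (hgs h)) (hτ h).1⟩) j σ hσ
    rw [M] at p2
    have p3 := mul_le_mul_of_nonneg_left p1 (one_div_pos.2 xt).le
    have p4 := mul_le_mul_of_nonneg_left p2 C0
    linarith
  have t3 := mul_le_mul_of_nonneg_left (S4 _ _ _ c3 J σ hσ) (show 0 ≤ 4 / (α * δ) by positivity)
  have t4 := mul_le_mul_of_nonneg_left (S4 _ _ _ c4' J σ hσ) (show 0 ≤ 16 / (δ * κ) by positivity)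
  rw [M] at t3 t4
  have ss := sum_le_sum fun j (_ : j ∈ range J) => st j
  simp only [sum_add_distrib, ← mul_sum, sum_const, card_range, nsmul_eq_mul] at ss
  have J1 : (0 : ℝ) < J := Nat.cast_pos.2 J0
  rw [eq_div_iff J1.ne'] at eR
  have hc : cube (fun _ : Y => (none : Option Bool)) = univ :=
    eq_univ_of_forall fun O => mem_cube.2 fun y b hb => by simp at hb
  have hp : Ph1 σ = ∑ c, Ph univ fun O => μ (O, c) := by simp only [Ph1, σ, hc]
  rw [← hp]
  change lin (advI e β) σ ≤ lin (advI e' β') σ + _ + _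
  refine le_of_mul_le_mul_left ?_ J1
  have fin : J * (lin (advI e' β') σ + err0 e' ζ κ x x' α ℓ m q t a s J * ∑ h, μ h +
      Ph1 σ / (x * t)) = lin (advI e' β') σ * J + J * ((E + m * α) * ∑ h, μ h) +
      4 / (α * δ) * (2 * m * ∑ h, μ h) + 16 / (δ * κ) * (b * ∑ h, μ h) +
      J * (1 / (x * t) * Ph1 σ) + J * (C * (t * q * (∑ h, μ h) / s)) := by
    simp only [err0, ← hδ, ← hE, ← hC, ← hb]
    field_simp
    ring
  rw [fin, eR]
  linarith

end

end

section

noncomputable section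

theorem ach_graft (hA : SAch) {Y : Type} [Fintype Y] [DecidableEq Y] {q q' : ℕ}
    {f g0 g1 : (Y → Bool) → ℝ} (hf : f ∈ Ach q) (h0 : g0 ∈ Ach q') (h1 : g1 ∈ Ach q') :
    (fun O => f O * g1 O + (1 - f O) * g0 O) ∈ Ach (q + q') := by
  have T : ∀ (t : DT Y) (k : ℕ), t.depth ≤ k →
      (fun O => if t.eval O then g1 O else g0 O) ∈ Ach (k + q') := fun t => by
    induction t with
    | leaf b =>
      intro k _
      cases b
      · exact (hA Y q').2.2.2.1 _ (Nat.le_add_left _ _) h0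
      · exact (hA Y q').2.2.2.1 _ (Nat.le_add_left _ _) h1
    | node y t f iht ihf =>
      intro k hk
      simp only [DT.depth] at hk
      obtain ⟨k, rfl⟩ : ∃ j, k = j + 1 := ⟨k - 1, by omega⟩
      have := (hA Y (k + q')).2.2.2.2.1 y (fun a O => if (if a then t else f).eval O then g1 O
        else g0 O) fun a => by
          cases a
          · exact ihf k (by omega)
          · exact iht k (by omega)
      rw [show k + 1 + q' = k + q' + 1 by ring]
      convert this using 3 with O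
      cases h : O y <;> simp [DT.eval, h]
  refine convexHull_min (s := {f | ∃ t : DT Y, t.depth ≤ q ∧ f = fun O => if t.eval O then 1 else 0})
    (t := {f | (fun O => f O * g1 O + (1 - f O) * g0 O) ∈ Ach (q + q')}) ?_ ?_ hf
  · rintro _ ⟨t, ht, rfl⟩
    refine Set.mem_of_eq_of_mem (s := Ach (q + q')) (funext fun O => ?_) (T t q ht)
    cases h : t.eval O <;> simp [h]
  · intro u hu v hv a b ha hb hab
    refine Set.mem_of_eq_of_mem (s := Ach (q + q')) (funext fun O => ?_)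
      (convex_convexHull ℝ _ hu hv ha hb hab)
    obtain rfl : b = 1 - a := by linarith
    simp only [Pi.add_apply, Pi.smul_apply, smul_eq_mul]
    ring

theorem ach_xor (hA : SAch) {Y : Type} [Fintype Y] [DecidableEq Y] {q : ℕ}
    {f g : (Y → Bool) → ℝ} (hf : f ∈ Ach q) (hg : g ∈ Ach q) (s : Bool) :
    (fun O => (1 + sg s * (2 * f O - 1) * (2 * g O - 1)) / 2) ∈ Ach (q + q) := by
  have n : (fun O => 1 - g O) ∈ Ach q := by
    simpa using ach_graft hA hg ((hA Y 0).2.2.1 1 zero_le_one le_rfl)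
      ((hA Y 0).2.2.1 0 le_rfl zero_le_one)
  cases s
  · convert ach_graft hA hf hg n using 2 with O
    simp only [sg, Bool.false_eq_true, if_false]; ring
  · convert ach_graft hA hf n hg using 2 with O
    simp only [sg, if_true]; ring

theorem prod_lip {T : Type} [Fintype T] {p p' : T → ℝ} (hp : IsProb p) (hp' : IsProb p') (m : ℕ) :
    ∀ F : (Fin m → T) → ℝ, (∀ S, 0 ≤ F S ∧ F S ≤ 1) → ∑ S, (∏ i, p (S i)) * F S ≤
      ∑ S, (∏ i, p' (S i)) * F S + m * ∑ t, |p t - p' t| := by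
  induction m with
  | zero => intro F _; simp
  | succ m ih =>
    intro F hF
    have s1 : ∑ S : Fin m → T, ∏ i, p' (S i) = 1 := by
      rw [← Fintype.piFinset_univ, ← prod_univ_sum]
      simp [hp'.2]
    simp only [sum_succ, Fin.prod_univ_succ, Fin.cons_zero, Fin.cons_succ, mul_assoc, ← mul_sum]
    set Δ := ∑ t, |p t - p' t| with hΔ
    have b : ∀ t, p t * ∑ S : Fin m → T, (∏ i, p (S i)) * F (Fin.cons t S) ≤
        p' t * ∑ S : Fin m → T, (∏ i, p' (S i)) * F (Fin.cons t S) + |p t - p' t| +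
          p t * (m * Δ) := fun t => by
      have h1 := mul_le_mul_of_nonneg_left (ih (fun S => F (Fin.cons t S)) fun S => hF _) (hp.1 t)
      have h2 : 0 ≤ ∑ S : Fin m → T, (∏ i, p' (S i)) * F (Fin.cons t S) :=
        sum_nonneg fun S _ => mul_nonneg (prod_nonneg fun i _ => hp'.1 _) (hF _).1
      have h3 : ∑ S : Fin m → T, (∏ i, p' (S i)) * F (Fin.cons t S) ≤ 1 :=
        (sum_le_sum fun S _ => mul_le_of_le_one_right (prod_nonneg fun i _ => hp'.1 _)
          (hF _).2).trans_eq s1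
      nlinarith [le_abs_self (p t - p' t), abs_nonneg (p t - p' t)]
    have := sum_le_sum fun t (_ : t ∈ univ) => b t
    rw [sum_add_distrib, sum_add_distrib, ← sum_mul, hp.2] at this
    push_cast
    linarith

section
variable {n m : ℕ}

theorem ex_prob {e : ℝ} (h0 : 0 ≤ e) (h1 : e ≤ 1) (c : X n → Bool) {D : X n → ℝ}
    (hD : IsProb D) : IsProb (exProb e c D) := by
  refine ⟨fun y => mul_nonneg (hD.1 _) (by split_ifs <;> linarith), ?_⟩
  rw [Fintype.sum_prod_type, ← hD.2]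
  refine sum_congr rfl fun x _ => ?_
  cases h : c x <;> simp [exProb, h] <;> ring

theorem mis_lip {e e' : ℝ} (h0 : 0 ≤ e) (h1 : e ≤ e') (h2 : e' ≤ 1) (c : X n → Bool)
    {D : X n → ℝ} (hD : IsProb D) (h : Sample n m → X n → ℝ) (hh : ∀ S x, 0 ≤ h S x ∧ h S x ≤ 1) :
    mis e' c D h ≤ mis e c D h + m * (2 * (e' - e)) := by
  have := prod_lip (ex_prob (h0.trans h1) h2 c hD) (ex_prob h0 (h1.trans h2) c hD) m
    (fun S => ∑ x : X n, D x * (if c x then 1 - h S x else h S x)) fun S =>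
      ⟨sum_nonneg fun x _ => mul_nonneg (hD.1 x) (by split_ifs <;> linarith [hh S x]),
      (sum_le_sum fun x _ => mul_le_of_le_one_right (hD.1 x)
        (by split_ifs <;> linarith [hh S x])).trans_eq hD.2⟩
  refine this.trans_eq ?_
  congr 2
  rw [Fintype.sum_prod_type, ← one_mul (2 * (e' - e)), ← hD.2, sum_mul]
  refine sum_congr rfl fun x _ => ?_
  have a1 : |D x * e' - D x * e| = D x * (e' - e) := by
    rw [← mul_sub]; exact abs_of_nonneg (mul_nonneg (hD.1 x) (by linarith))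
  have a2 : |D x * (1 - e') - D x * (1 - e)| = D x * (e' - e) := by
    rw [abs_sub_comm, ← a1]; congr 1; ring
  cases hc : c x <;> simp [exProb, hc, a1, a2] <;> ring

/-- advantage of the hypothesis `u` -/
def ad (c : X n → Bool) (D u : X n → ℝ) : ℝ := ∑ x, D x * ((2 * u x - 1) * sg (c x))

theorem mis_ad {e : ℝ} (h0 : 0 ≤ e) (h1 : e ≤ 1) (c : X n → Bool) {D : X n → ℝ}
    (hD : IsProb D) (h : Sample n m → X n → ℝ) :
    1 - 2 * mis e c D h = ∑ S : Sample n m, (∏ i, exProb e c D (S i)) * ad c D (h S) := by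
  have s1 : ∑ S : Sample n m, ∏ i, exProb e c D (S i) = 1 := by
    rw [← Fintype.piFinset_univ, ← prod_univ_sum]
    simp [(ex_prob h0 h1 c hD).2]
  have a : ∀ S, ad c D (h S) = 1 - 2 * ∑ x : X n, D x * (if c x then 1 - h S x else h S x) :=
    fun S => by
      rw [mul_sum, eq_sub_iff_add_eq, ad, ← sum_add_distrib]
      refine (sum_congr rfl fun x _ => ?_).trans hD.2
      cases c x <;> simp [sg] <;> ring
  simp only [a, mul_sub, mul_one, sum_sub_distrib, s1, mis, mul_sum, mul_left_comm (2 : ℝ)]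

/-- an average of learners, each sign corrected on one extra example -/
def xr {K : Type} [Fintype K] (β : K → Sample n m → X n → ℝ) (S : Sample n (m + 1)) (x : X n) :
    ℝ := av fun k => (1 + sg (S 0).2 * (2 * β k (Fin.tail S) (S 0).1 - 1) *
      (2 * β k (Fin.tail S) x - 1)) / 2

theorem xr_ad {K : Type} [Fintype K] [Nonempty K] {e : ℝ} (h0 : 0 ≤ e) (h1 : e ≤ 1 / 2)
    (c : X n → Bool) {D : X n → ℝ} (hD : IsProb D) (β : K → Sample n m → X n → ℝ) (k : K) (τ : ℝ)
    (hτ : 0 ≤ τ) (hk : τ ≤ 1 - 2 * mis e c D (β k)) :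
    (1 - 2 * e) * τ ^ 2 / Fintype.card K ≤ 1 - 2 * mis e c D (xr β) := by
  have h2 : e ≤ 1 := by linarith
  have N : (Fintype.card K : ℝ) ≠ 0 := Nat.cast_ne_zero.2 Fintype.card_ne_zero
  have w0 : ∀ S : Sample n m, 0 ≤ ∏ i, exProb e c D (S i) := fun S =>
    prod_nonneg fun i _ => (ex_prob h0 h2 c hD).1 _
  have s1 : ∑ S : Sample n m, ∏ i, exProb e c D (S i) = 1 := by
    rw [← Fintype.piFinset_univ, ← prod_univ_sum]
    simp [(ex_prob h0 h2 c hD).2]
  have a1 : ∀ (t : X n × Bool) (S : Sample n m), ad c D (xr β (Fin.cons t S)) =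
      (∑ j, sg t.2 * (2 * β j S t.1 - 1) * ad c D (β j S)) / Fintype.card K := fun t S => by
    have r : ∀ x, 2 * xr β (Fin.cons t S) x - 1 =
        (∑ j, sg t.2 * (2 * β j S t.1 - 1) * (2 * β j S x - 1)) / Fintype.card K := fun x => by
      simp only [xr, av, Fin.cons_zero, Fin.tail_cons]
      rw [← sum_div, sum_add_distrib, sum_const, card_univ, nsmul_eq_mul]
      field_simp
      ring
    simp only [ad, r, mul_sum, sum_div, sum_mul]
    rw [sum_comm]
    exact sum_congr rfl fun _ _ => sum_congr rfl fun _ _ => by ring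
  have a2 : ∀ u : X n → ℝ, ∑ t, exProb e c D t * (sg t.2 * (2 * u t.1 - 1)) =
      (1 - 2 * e) * ad c D u := fun u => by
    rw [Fintype.sum_prod_type, ad, mul_sum]
    refine sum_congr rfl fun x _ => ?_
    cases hc : c x <;> simp [exProb, hc, sg] <;> ring
  have a3 : 1 - 2 * mis e c D (xr β) = (1 - 2 * e) * (∑ j, ∑ S : Sample n m,
      (∏ i, exProb e c D (S i)) * ad c D (β j S) ^ 2) / Fintype.card K := by
    rw [mis_ad h0 h2 c hD, sum_succ, sum_comm, eq_div_iff N, sum_mul, sum_comm (s := univ (α := K)),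
      mul_sum]
    refine sum_congr rfl fun S _ => ?_
    simp only [a1, Fin.prod_univ_succ, Fin.cons_zero, Fin.cons_succ]
    rw [sum_mul, mul_sum]
    have : ∀ j, (1 - 2 * e) * ((∏ i, exProb e c D (S i)) * ad c D (β j S) ^ 2) =
        ∑ t, exProb e c D t * (∏ i, exProb e c D (S i)) *
          (sg t.2 * (2 * β j S t.1 - 1) * ad c D (β j S)) := fun j => by
      rw [show (1 - 2 * e) * ((∏ i, exProb e c D (S i)) * ad c D (β j S) ^ 2) =
        (1 - 2 * e) * ad c D (β j S) * ((∏ i, exProb e c D (S i)) * ad c D (β j S)) by ring, ← a2,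
        sum_mul]
      exact sum_congr rfl fun _ _ => by ring
    simp only [this]
    rw [sum_comm]
    refine sum_congr rfl fun t _ => ?_
    rw [← mul_sum]
    field_simp
  rw [a3]
  refine div_le_div_of_nonneg_right (mul_le_mul_of_nonneg_left ?_ (by linarith)) (Nat.cast_nonneg _)
  refine le_trans ?_ (single_le_sum (f := fun j => ∑ S : Sample n m,
    (∏ i, exProb e c D (S i)) * ad c D (β j S) ^ 2) (fun j _ => sum_nonneg fun S _ =>
      mul_nonneg (w0 S) (sq_nonneg _)) (mem_univ k))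
  rw [mis_ad h0 h2 c hD] at hk
  have := sum_le_sum fun S (_ : S ∈ univ) => mul_le_mul_of_nonneg_left
    (show 2 * τ * ad c D (β k S) - τ ^ 2 ≤ ad c D (β k S) ^ 2 by
      nlinarith [sq_nonneg (ad c D (β k S) - τ)]) (w0 S)
  simp only [mul_sub, sum_sub_distrib, ← sum_mul, s1, mul_left_comm _ (2 * τ), ← mul_sum] at this
  nlinarith

end

end

end

section

noncomputable section

theorem sum_prod_one {n : ℕ} {I : Type} [Fintype I] [DecidableEq I] {D : X n → ℝ}
    (h : IsProb D) : ∑ xs : I → X n, ∏ i, D (xs i) = 1 := by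
  rw [← Fintype.piFinset_univ, ← prod_univ_sum]
  simp [h.2]

theorem fin_gen (hPo : SPool) (hBa : SBack) (hE : SEmp) (n m J Q M L : ℕ) (Y : Type) [Fintype Y]
    [DecidableEq Y] (e e' E0 E1 γ : ℝ) (A : Sample n m → X n → (Y → Bool) → ℝ) (h0 : 0 ≤ e')
    (h1 : e' ≤ 1) (hE1 : 0 ≤ E1)
    (hc : ∀ (xs : Fin (M + 1) → X n) (μ : Hd Y (Fin (M + 1)) → ℝ), (∀ h, 0 ≤ μ h) →
      ∃ β' : Fin (M + 1) → (Fin J → Fin (M + 1) × Bool) → (Y → Bool) → ℝ,
        (∀ i z, β' i z ∈ Ach Q) ∧ ∑ h, μ h * advI e (onPool A xs) h ≤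
          ∑ h, μ h * advI e' β' h + E0 * ∑ h, μ h + (∑ c, Ph univ fun O => μ (O, c)) * E1)
    (hp : E0 + (Real.log L + (M + 1 : ℕ) * ((n + 1) * Real.log 2)) * E1 +
      ((J : ℝ) + 1) ^ 2 / ((M : ℝ) + 1) ≤ γ) :
    ∃ B : Sample n M → X n → (Y → Bool) → ℝ, (∀ S x, B S x ∈ Ach Q) ∧
      {O : Y → Bool | ∃ c : X n → Bool,
        (∀ D, IsProb D → mis e c D (fun S x => A S x O) ≤ 1 / 2 - γ) ∧
        ∃ D, IsProb D ∧ 1 / 2 - γ / 2 < mis e' c D fun S x => B S x O}.ncard * L ≤
        Fintype.card (Y → Bool) := by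
  classical
  obtain ⟨β, hβ, hP⟩ := hPo n m J Q Y (Fin (M + 1)) e e' E0 E1 (2 * γ) L A hE1 hc
  obtain ⟨B, hB, hb⟩ := hBa n M J Q Y e' β h0 h1 hβ
  refine ⟨B, hB, ?_⟩
  generalize hS : {O : Y → Bool | ∃ c : X n → Bool,
        (∀ D, IsProb D → mis e c D (fun S x => A S x O) ≤ 1 / 2 - γ) ∧
        ∃ D, IsProb D ∧ 1 / 2 - γ / 2 < mis e' c D fun S x => B S x O} = T
  rw [Set.ncard_eq_toFinset_card' T]
  set Bd := T.toFinset with hBd
  by_contra hn
  rw [not_le] at hn
  have ne : Bd.Nonempty := card_pos.1 (Nat.pos_of_ne_zero fun h => by simp [h] at hn)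
  have N0 : (0 : ℝ) < Bd.card := Nat.cast_pos.2 ne.card_pos
  have ch : ∀ O, ∃ (c : X n → Bool) (D : X n → ℝ), IsProb D ∧ (O ∈ Bd →
      (∀ D, IsProb D → mis e c D (fun S x => A S x O) ≤ 1 / 2 - γ) ∧
        1 / 2 - γ / 2 < mis e' c D fun S x => B S x O) := fun O => by
    by_cases h : O ∈ Bd
    · have : O ∈ T := Set.mem_toFinset.1 h
      rw [← hS] at this
      obtain ⟨c, a1, D, a2, a3⟩ := this
      exact ⟨c, D, a2, fun _ => ⟨a1, a3⟩⟩
    · exact ⟨fun _ => true, fun x => ind (x = fun _ => true),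
        ⟨fun _ => ind_nonneg _, by simp [ind_eq]⟩, fun h' => absurd h' h⟩
  choose c D hD hcD using ch
  let μ : (Fin (M + 1) → X n) → Hd Y (Fin (M + 1)) → ℝ := fun xs h =>
    ind (h.1 ∈ Bd) / Bd.card * (∏ i, D h.1 (xs i)) * ind (h.2 = fun i => c h.1 (xs i))
  have m1 : ∀ O (φ : (Fin (M + 1) → X n) → Hd Y (Fin (M + 1)) → ℝ),
      ∑ xs, ∑ c', μ xs (O, c') * φ xs (O, c') = ind (O ∈ Bd) / Bd.card *
        ∑ xs, (∏ i, D O (xs i)) * φ xs (O, fun i => c O (xs i)) := fun O φ => by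
    rw [mul_sum]
    refine sum_congr rfl fun xs _ => ?_
    rw [sum_eq_single (fun i => c O (xs i)) (fun b _ hb => by simp only [μ, ind_neg hb]; ring)
      (by simp)]
    simp only [μ, ind_pos True.intro]
    ring
  have m2 : ∀ φ : (Fin (M + 1) → X n) → Hd Y (Fin (M + 1)) → ℝ,
      ∑ xs, ∑ h, μ xs h * φ xs h = (∑ O ∈ Bd,
        ∑ xs, (∏ i, D O (xs i)) * φ xs (O, fun i => c O (xs i))) / Bd.card := fun φ => by
    simp only [Fintype.sum_prod_type (α₁ := Y → Bool)]
    rw [sum_comm]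
    simp only [m1]
    rw [sum_div, ← sum_subset (subset_univ Bd) fun O _ h => by rw [ind_neg h]; ring]
    exact sum_congr rfl fun O h => by rw [ind_pos h]; ring
  have key := hP μ (fun xs h => mul_nonneg (mul_nonneg (div_nonneg (ind_nonneg _) N0.le)
    (prod_nonneg fun i _ => (hD _).1 _)) (ind_nonneg _)) (by
      have := m2 fun _ _ => 1
      simp only [mul_one, fun O => sum_prod_one (I := Fin (M + 1)) (hD O), sum_const,
        nsmul_eq_mul] at this
      rw [this, div_self N0.ne']) (fun O => by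
      have := m1 O fun _ _ => 1
      simp only [mul_one, sum_prod_one (I := Fin (M + 1)) (hD O)] at this
      rw [this, div_mul_eq_mul_div, div_le_iff₀ N0]
      have h3 : ((Fintype.card (Y → Bool) : ℕ) : ℝ) ≤ Bd.card * L := by exact_mod_cast hn.le
      nlinarith [ind_le_one (O ∈ Bd), Nat.cast_nonneg (α := ℝ) (Fintype.card (Y → Bool))]) (by
      rw [m2, le_div_iff₀ N0, mul_comm, ← nsmul_eq_mul]
      refine card_nsmul_le_sum _ _ _ fun O hO => ?_
      rw [← one_mul (2 * γ), ← sum_prod_one (I := Fin (M + 1)) (hD O), sum_mul]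
      refine sum_le_sum fun xs _ => mul_le_mul_of_nonneg_left ?_
        (prod_nonneg fun i _ => (hD _).1 _)
      obtain ⟨D', d1, d2⟩ := hE n m Y (Fin (M + 1)) e A xs O (c O)
      rw [d2]
      linarith [(hcD O hO).1 D' d1])
  rw [m2, le_div_iff₀ N0, Fintype.card_fin] at key
  have fin := sum_lt_sum_of_nonempty ne
    (g := fun _ => γ + ((J : ℝ) + 1) ^ 2 / ((M : ℝ) + 1)) fun O hO =>
      (hb O (c O) (D O) (hD O)).trans_lt (by linarith [(hcD O hO).2])
  rw [sum_const, nsmul_eq_mul] at fin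
  nlinarith

theorem fin_one (hC : SCore) (hPo : SPool) (hBa : SBack) (hE : SEmp) (hPa : SPar)
    (n l q m Z : ℕ) (η η' γ : ℝ) (hZ : 10 ≤ Z) (hn : n ≤ Z) (hl : l ≤ Z) (hq : q ≤ Z) (hm : m ≤ Z)
    (h0 : 0 ≤ η) (h1 : η ≤ 1) (h2 : 0 ≤ η') (h3 : 1 ≤ Z * (1 - 2 * η')) (h4 : 1 ≤ Z * γ)
    (A : Sample n m → X n → (X l → Bool) → ℝ) (hA : ∀ S x, A S x ∈ Ach q) :
    ∃ B : Sample n (Z ^ 87) → X n → (X l → Bool) → ℝ, (∀ S x, B S x ∈ Ach (Z ^ 148)) ∧
      {O : X l → Bool | ∃ c : X n → Bool,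
        (∀ D, IsProb D → mis η c D (fun S x => A S x O) ≤ 1 / 2 - γ) ∧
        ∃ D, IsProb D ∧ 1 / 2 - γ / 2 < mis η' c D fun S x => B S x O}.ncard *
        (2 ^ Z * Z ^ 89) ≤
        2 ^ 2 ^ l := by
  have Z1 : (10 : ℝ) ≤ Z := by exact_mod_cast hZ
  have Z0 : 0 < Z := by omega
  have d1 : η' < 1 / 2 := by nlinarith
  have cY : Fintype.card (X l) = 2 ^ l := by simp
  have := fin_gen hPo hBa hE n m (Z ^ 42) (Z ^ 42 * Z ^ 106) (Z ^ 87) (2 ^ Z * Z ^ 89) (X l) η η'
    (err0 η' (1 / (Z + 1)) (1 / Z ^ 29) (1 / Z ^ 2) (Z ^ 25) (1 / Z ^ 3) l m q (Z ^ 94) 3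
      (Z ^ 106) (Z ^ 42)) (1 / (1 / Z ^ 2 * (Z ^ 94 : ℕ))) γ A h2 (by linarith) (by positivity)
    (fun xs μ hμ => by
      have := hC (X l) (Fin (Z ^ 87 + 1)) η η' (1 / (Z + 1)) (1 / Z ^ 29) (1 / Z ^ 2) (Z ^ 25)
        (1 / Z ^ 3) l m q (Z ^ 94) 3 (Z ^ 106) (Z ^ 42) (onPool A xs) μ h0 h1 h2 d1
        (by positivity) (by rw [div_lt_one (by linarith)]; linarith) (by positivity)
        (by positivity) (by rw [div_le_one (by positivity)]; nlinarith)
        (one_le_pow₀ (by linarith)) (by positivity) (by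
          rw [cY, Nat.cast_pow, Real.log_pow]
          have := Real.log_two_lt_d9
          push_cast
          nlinarith [Nat.cast_nonneg (α := ℝ) l]) (by positivity) (by positivity) (by positivity)
        (fun i z => hA _ _) hμ
      simpa only [mul_one_div] using this)
    (by
      have := hPa Z n l m q η' (Real.log (2 ^ Z * Z ^ 89 : ℕ)) (by
        push_cast
        rw [Real.log_mul (by positivity) (by positivity), Real.log_pow, Real.log_pow]
        have a1 := Real.log_two_lt_d9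
        have a2 := Real.log_le_sub_one_of_pos (show (0 : ℝ) < Z by linarith)
        have a3 : (10 : ℝ) ^ 2 ≤ (Z : ℝ) ^ 87 :=
          (pow_le_pow_left₀ (by norm_num) Z1 2).trans (pow_le_pow_right₀ (by linarith) (by norm_num))
        generalize (Z : ℝ) ^ 87 = u at a3
        push_cast
        nlinarith) hZ hn hl hm hq h2 h3
      refine this.trans ?_
      rw [div_le_iff₀ (by linarith)]; linarith)
  rwa [← pow_add, Fintype.card_fun, cY, Fintype.card_bool] at this

theorem fin_all (hAc : SAch) (hC : SCore) (hPo : SPool) (hBa : SBack) (hE : SEmp) (hPa : SPar)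
    (n l q m Z : ℕ) (η : ℝ) (hZ : 10 ≤ Z) (hn : n ≤ Z) (hl : l ≤ Z) (hq : q ≤ Z) (hm : m ≤ Z)
    (h0 : 0 ≤ η) (h1 : η ≤ 1)
    (A : Sample n m → X n → (X l → Bool) → ℝ) (hA : ∀ S x, A S x ∈ Ach q) :
    ∃ B : Sample n (Z ^ 87 + 1) → X n → (X l → Bool) → ℝ, (∀ S x, B S x ∈ Ach (Z ^ 149)) ∧
      {O : X l → Bool | ∃ c : X n → Bool,
        (∀ D, IsProb D → mis η c D (fun S x => A S x O) ≤ 1 / 2 - 1 / Z) ∧
        ∃ (η' : ℝ) (D : X n → ℝ), 0 ≤ η' ∧ η' ≤ 1 / 2 - 1 / Z ∧ IsProb D ∧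
          1 / 2 - 1 / Z ^ 93 < mis η' c D fun S x => B S x O}.ncard * 2 ^ Z ≤ 2 ^ 2 ^ l := by
  have Z1 : (10 : ℝ) ≤ Z := by exact_mod_cast hZ
  have Z0 : (0 : ℝ) < Z := by linarith
  have K0 : 0 < Z ^ 89 := pow_pos (by omega) _
  have iZ : (1 : ℝ) / Z ≤ 1 / 10 := one_div_le_one_div_of_le (by norm_num) Z1
  have zi : (Z : ℝ) * (1 / Z) = 1 := mul_one_div_cancel Z0.ne'
  have : Nonempty (Fin (Z ^ 89)) := ⟨⟨0, K0⟩⟩
  choose B hB hb using fun j : Fin (Z ^ 89) => fin_one hC hPo hBa hE hPa n l q m Z η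
    (min ((j : ℕ) / Z ^ 89) (1 / 2 - 1 / Z)) (1 / Z) hZ hn hl hq hm h0 h1
    (le_min (by positivity) (by linarith))
    (by nlinarith [min_le_right (((j : ℕ) : ℝ) / Z ^ 89) (1 / 2 - 1 / Z)]) zi.ge A hA
  refine ⟨fun S x O => xr (fun j S x => B j S x O) S x, fun S x => ?_, ?_⟩
  · refine (hAc _ (Z ^ 148 + Z ^ 148)).2.2.2.1 _ (by
      rw [pow_succ Z 148, ← mul_two]; exact Nat.mul_le_mul_left _ (by omega)) ?_
    have N : (0 : ℝ) < Fintype.card (Fin (Z ^ 89)) := Nat.cast_pos.2 Fintype.card_pos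
    refine Set.mem_of_eq_of_mem (s := Ach (Z ^ 148 + Z ^ 148)) (funext fun O => ?_)
      ((convex_convexHull ℝ _).sum_mem (t := univ) 
        (w := fun _ => (1 : ℝ) / Fintype.card (Fin (Z ^ 89)))
        (fun _ _ => (one_div_pos.2 N).le) (by
          rw [sum_const, card_univ, nsmul_eq_mul, mul_one_div_cancel N.ne'])
        fun j _ => ach_xor hAc (hB j (Fin.tail S) (S 0).1) (hB j (Fin.tail S) x) (S 0).2)
    simp only [xr, av, Finset.sum_apply, Pi.smul_apply, smul_eq_mul, ← mul_sum]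
    ring
  refine Nat.le_of_mul_le_mul_right ?_ K0
  have s := sum_le_sum fun j (_ : j ∈ univ) => hb j
  rw [← sum_mul, sum_const, card_univ, Fintype.card_fin, smul_eq_mul, mul_comm (Z ^ 89)] at s
  rw [mul_assoc]
  refine le_trans (Nat.mul_le_mul_right _ (le_trans (Set.ncard_le_ncard ?_)
    (Set.ncard_iUnion_le_of_fintype _))) s
  rintro O ⟨c, hc, e, D, e0, e1, hD, hlt⟩
  have P : (0 : ℝ) < (Z : ℝ) ^ 89 := by positivity
  have f1 : ((⌊e * (Z : ℝ) ^ 89⌋₊ : ℕ) : ℝ) ≤ e * Z ^ 89 := Nat.floor_le (mul_nonneg e0 P.le)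
  have f2 := Nat.lt_floor_add_one (e * Z ^ 89)
  have f3 : ⌊e * (Z : ℝ) ^ 89⌋₊ < Z ^ 89 := by
    have : ((⌊e * (Z : ℝ) ^ 89⌋₊ : ℕ) : ℝ) < ((Z ^ 89 : ℕ) : ℝ) := by
      rw [Nat.cast_pow]
      exact f1.trans_lt (mul_lt_of_lt_one_left P (by linarith [one_div_pos.2 Z0]))
    exact_mod_cast this
  refine Set.mem_iUnion.2 ⟨⟨_, f3⟩, c, hc, D, hD, ?_⟩
  have f4 : ((⌊e * (Z : ℝ) ^ 89⌋₊ : ℕ) : ℝ) / Z ^ 89 ≤ e := by rwa [div_le_iff₀ P]
  rw [min_eq_left (f4.trans e1)]
  by_contra hn'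
  rw [not_lt] at hn'
  have e2 : e ≤ 1 / 2 := by linarith [one_div_pos.2 Z0]
  have L := mis_lip (by positivity) f4 (by linarith) c hD (fun S x => B ⟨_, f3⟩ S x O)
    fun S x => (hAc _ _).2.1 _ (hB _ S x) O
  have f5 : ((Z ^ 87 : ℕ) : ℝ) * (2 * (e - ((⌊e * (Z : ℝ) ^ 89⌋₊ : ℕ) : ℝ) / Z ^ 89)) ≤ 1 / Z / 4 := by
    have u : e - ((⌊e * (Z : ℝ) ^ 89⌋₊ : ℕ) : ℝ) / Z ^ 89 ≤ 1 / Z ^ 89 := by
      rw [sub_le_iff_le_add, ← add_div, le_div_iff₀ P]; linarith
    calc _ ≤ ((Z ^ 87 : ℕ) : ℝ) * (2 * (1 / Z ^ 89)) := by gcongr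
      _ = 1 / Z * (2 * (1 / Z)) := by push_cast; field_simp
      _ ≤ 1 / Z * (1 / 4) := by gcongr; linarith
      _ = _ := by ring
  have X := xr_ad e0 e2 c hD (fun j S x => B j S x O) ⟨_, f3⟩ (1 / Z / 2) (by positivity)
    (by linarith)
  rw [Fintype.card_fin, Nat.cast_pow] at X
  have f6 : 2 * (1 / (Z : ℝ) ^ 93) ≤ (1 - 2 * e) * (1 / Z / 2) ^ 2 / Z ^ 89 :=
    calc 2 * (1 / (Z : ℝ) ^ 93) = 4 * (1 / Z) * (2 * (1 / Z) * (1 / Z / 2) ^ 2 / Z ^ 89) := by
          field_simp; ring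
      _ ≤ 1 * ((1 - 2 * e) * (1 / Z / 2) ^ 2 / Z ^ 89) := by gcongr <;> linarith
      _ = _ := one_mul _
  linarith

end

end

end Pool.Agent.MP_9f8ce8_lc.Rom
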