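import Pool.Agent.MP_9f8ce8_lc.RomDefs

/-! Noise boosting relative to a random oracle: definitions, tools, statements of the steps. -/

set_option autoImplicit false
set_option linter.unusedSectionVars false

namespace Pool.Agent.MP_9f8ce8_lc.Rom

open Finset Cap

noncomputable section

open Classical in
def ind (p : Prop) : ℝ := if p then 1 else 0

theorem ind_pos {p : Prop} (h : p) : ind p = 1 := if_pos h
theorem ind_neg {p : Prop} (h : ¬ p) : ind p = 0 := if_neg h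
theorem ind_nonneg (p : Prop) : 0 ≤ ind p := by unfold ind; split_ifs <;> norm_num
theorem ind_le_one (p : Prop) : ind p ≤ 1 := by unfold ind; split_ifs <;> norm_num
theorem ind_eq (p : Prop) [Decidable p] : ind p = if p then 1 else 0 := by
  by_cases h : p <;> simp [ind, h]
theorem ind_mono {p r : Prop} (h : p → r) : ind p ≤ ind r := by
  by_cases hp : p
  · rw [ind_pos hp, ind_pos (h hp)]
  · rw [ind_neg hp]; exact ind_nonneg r

def sg (b : Bool) : ℝ := if b then 1 else -1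

theorem abs_sg (b : Bool) : |sg b| = 1 := by cases b <;> simp [sg]

/-- uniform average -/
def av {α : Type} [Fintype α] (f : α → ℝ) : ℝ := (∑ a, f a) / Fintype.card α

def lik (e : ℝ) (c b : Bool) : ℝ := if b = c then 1 - e else e

def kl (a b : ℝ) : ℝ := a * Real.log (a / b) - a + b

/-! ### Trees, transcripts, subcubes -/

section
variable {Y : Type} [Fintype Y] [DecidableEq Y]

/-- the queries made on oracle `O` -/
def qs : DT Y → (Y → Bool) → Finset Y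
  | .leaf _, _ => ∅
  | .node y t f, O => insert y (if O y then qs t O else qs f O)

def trans (t : DT Y) (O : Y → Bool) : Y → Option Bool :=
  fun y => if y ∈ qs t O then some (O y) else none

def ovr (ρ : Y → Option Bool) (O : Y → Bool) : Y → Bool := fun y => (ρ y).getD (O y)

def merge (ρ ω : Y → Option Bool) : Y → Option Bool := fun y => (ρ y).or (ω y)

open Classical in
def cube (ρ : Y → Option Bool) : Finset (Y → Bool) :=
  univ.filter fun O => ∀ y b, ρ y = some b → O y = b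

theorem mem_cube {ρ : Y → Option Bool} {O : Y → Bool} :
    O ∈ cube ρ ↔ ∀ y b, ρ y = some b → O y = b := by simp [cube]

omit [Fintype Y] in
theorem card_qs (t : DT Y) (O : Y → Bool) : (qs t O).card ≤ t.depth := by
  induction t with
  | leaf b => simp [qs]
  | node y t f iht ihf =>
    refine (card_insert_le _ _).trans ?_
    simp only [DT.depth]
    split_ifs <;> omega

omit [Fintype Y] in
theorem agree (t : DT Y) {O O' : Y → Bool} (h : ∀ y ∈ qs t O, O' y = O y) :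
    qs t O' = qs t O ∧ t.eval O' = t.eval O := by
  induction t with
  | leaf b => simp [qs, DT.eval]
  | node y t f iht ihf =>
    have e : O' y = O y := h y (by simp [qs])
    simp only [qs, DT.eval, e] at h ⊢
    cases hy : O y
    · simp only [hy, Bool.false_eq_true, if_false] at h ⊢
      obtain ⟨a, b⟩ := ihf fun z hz => h z (mem_insert_of_mem hz)
      exact ⟨by rw [a], b⟩
    · simp only [hy, if_true] at h ⊢
      obtain ⟨a, b⟩ := iht fun z hz => h z (mem_insert_of_mem hz)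
      exact ⟨by rw [a], b⟩

omit [Fintype Y] in
theorem common (t : DT Y) (O O' : Y → Bool) :
    t.eval O = t.eval O' ∨ ∃ y, O y ≠ O' y ∧ y ∈ qs t O ∧ y ∈ qs t O' := by
  induction t with
  | leaf b => simp [DT.eval]
  | node y t f iht ihf =>
    by_cases e : O y = O' y
    · simp only [qs, DT.eval, ← e]
      cases hy : O y
      · simp only [Bool.false_eq_true, if_false]
        exact ihf.imp_right fun ⟨z, a, b, c⟩ => ⟨z, a, mem_insert_of_mem b, mem_insert_of_mem c⟩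
      · simp only [if_true]
        exact iht.imp_right fun ⟨z, a, b, c⟩ => ⟨z, a, mem_insert_of_mem b, mem_insert_of_mem c⟩
    · exact Or.inr ⟨y, e, by simp [qs], by simp [qs]⟩

theorem sum_ind_qs (t : DT Y) (O : Y → Bool) : ∑ y, ind (y ∈ qs t O) ≤ t.depth := by
  simp only [ind_eq, sum_boole, filter_mem_eq_inter, univ_inter]
  exact_mod_cast card_qs t O

/-- entropy deficiency of the weight `V` inside `A` -/
def Ph (A : Finset (Y → Bool)) (V : (Y → Bool) → ℝ) : ℝ :=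
  ∑ O, V O * Real.log (V O * A.card / ∑ O', V O')

def Sup (ρ : Y → Option Bool) (V : (Y → Bool) → ℝ) : Prop :=
  ∀ O, 0 ≤ V O ∧ (V O ≠ 0 → O ∈ cube ρ)

/-- probability that `t` asks `y` when the oracle is fresh outside `ρ` -/
def hitF (ρ : Y → Option Bool) (t : DT Y) (y : Y) : ℝ := av fun O => ind (y ∈ qs t (ovr ρ O))

/-- union bound for `t` ghost runs to ask `y` -/
def gh {R : Type} [Fintype R] (w : R → ℝ) (tr : R → DT Y) (t : ℕ) (O : Y → Bool) (y : Y) : ℝ :=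
  min 1 (t * ∑ r, w r * ind (y ∈ qs (tr r) O))

/-- one ghost run -/
def gop {R : Type} [Fintype R] (w : R → ℝ) (tr : R → DT Y)
    (F : (Y → Option Bool) → ((Y → Bool) → ℝ) → ℝ) (ρ : Y → Option Bool)
    (V : (Y → Bool) → ℝ) : ℝ :=
  ∑ r, ∑ ω : Y → Option Bool, F (merge ρ ω) fun O => V O * (w r * ind (trans (tr r) O = ω))

end

/-! ### Hidden data, tokens, states -/

abbrev Hd (Y I : Type) : Type := (Y → Bool) × (I → Bool)

abbrev St (Y I : Type) : Type := (Y → Option Bool) × (Hd Y I → ℝ)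

section
variable {Y I : Type} [Fintype Y] [DecidableEq Y] [Fintype I] [DecidableEq I]

/-- a uniform index with a noisy label -/
def tokw (e : ℝ) (c : I → Bool) (z : I × Bool) : ℝ := lik e (c z.1) z.2 / Fintype.card I

def Lz (e : ℝ) (c : I → Bool) {m : ℕ} (z : Fin m → I × Bool) : ℝ := ∏ k, tokw e c (z k)

def mulT (e : ℝ) (W : Hd Y I → ℝ) (z : I × Bool) : Hd Y I → ℝ := fun h => W h * tokw e h.2 z

def post (W : Hd Y I → ℝ) (i : I) : ℝ := (∑ h, W h * ind (h.2 i = true)) / ∑ h, W h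

def gap (W g : Hd Y I → ℝ) (i : I) : ℝ := |post (fun h => W h * g h) i - post W i|

def msq (W g : Hd Y I → ℝ) : ℝ := av fun i => gap W g i ^ 2

/-- smoothed predictive law of a batch -/
def fake (e ζ : ℝ) : (m : ℕ) → (Hd Y I → ℝ) → (Fin m → I × Bool) → ℝ
  | 0, _, _ => 1
  | m + 1, W, z => ((1 - ζ) * ((∑ h, mulT e W (z 0) h) / ∑ h, W h) + ζ / 2 / Fintype.card I) *
      fake e ζ m (mulT e W (z 0)) (Fin.tail z)

open Classical in
/-- number of steps of a batch at which `p` holds for the current weight and token -/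
def cnt (e : ℝ) (p : (Hd Y I → ℝ) → I × Bool → Prop) :
    (m : ℕ) → (Hd Y I → ℝ) → (Fin m → I × Bool) → ℕ
  | 0, _, _ => 0
  | m + 1, W, z => (if p W (z 0) then 1 else 0) + cnt e p m (mulT e W (z 0)) (Fin.tail z)

def Val (σ : St Y I) : Prop := ∀ h, 0 ≤ σ.2 h ∧ (σ.2 h ≠ 0 → h.1 ∈ cube σ.1)

def nextQ (lam : St Y I → Y → ℝ) (σ : St Y I) (y : Y) (a : Bool) : St Y I :=
  (Function.update σ.1 y (some a), fun h => σ.2 h * (lam σ y * ind (h.1 y = a)))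

def qop (lam : St Y I → Y → ℝ) (F : St Y I → ℝ) (σ : St Y I) : ℝ :=
  ∑ y, ∑ a, F (nextQ lam σ y a)

def lop (e : ℝ) (F : St Y I → ℝ) (σ : St Y I) : ℝ := ∑ z, F (σ.1, mulT e σ.2 z)

def blk (lam : St Y I → Y → ℝ) (s : ℕ) (F : St Y I → ℝ) (σ : St Y I) : ℝ :=
  (∑ u ∈ range s, (qop lam)^[u] F σ) / s

/-- expectation at the end of block number `j` -/
def Ex (lam : St Y I → Y → ℝ) (s : ℕ) (e : ℝ) (j : ℕ) (F : St Y I → ℝ) : St Y I → ℝ :=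
  (fun G => blk lam s (lop e G))^[j] (blk lam s F)

def lin (φ : Hd Y I → ℝ) (σ : St Y I) : ℝ := ∑ h, σ.2 h * φ h

/-- positive linear operators that split the weight -/
structure Spl (op : (St Y I → ℝ) → St Y I → ℝ) : Prop where
  add : ∀ F G σ, op (fun τ => F τ + G τ) σ = op F σ + op G σ
  smul : ∀ (x : ℝ) F σ, op (fun τ => x * F τ) σ = x * op F σ
  mono : ∀ F G, (∀ τ, Val τ → F τ ≤ G τ) → ∀ σ, Val σ → op F σ ≤ op G σ
  lin : ∀ φ σ, op (lin φ) σ = lin φ σ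

/-- a potential `F` that gains `G` at each label and is bounded through `b` -/
structure Cert (e : ℝ) (F G : (Hd Y I → ℝ) → ℝ) (b : Hd Y I → ℝ) : Prop where
  split : ∀ (S : Type) [Fintype S] (W : Hd Y I → ℝ) (κ : S → Hd Y I → ℝ), (∀ h, 0 ≤ W h) →
    (∀ s h, 0 ≤ κ s h) → (∀ h, ∑ s, κ s h = 1) → F W ≤ ∑ s, F fun h => W h * κ s h
  gain : ∀ W, (∀ h, 0 ≤ W h) → F W + G W ≤ ∑ z, F (mulT e W z)
  lo : ∀ W, (∀ h, 0 ≤ W h) → 0 ≤ F W
  up : ∀ W, (∀ h, 0 ≤ W h) → F W ≤ ∑ h, W h * b h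

theorem Cert.zero (e : ℝ) : Cert (Y := Y) (I := I) e (fun _ => 0) (fun _ => 0) (fun _ => 0) :=
  ⟨fun _ _ _ _ _ _ _ => by simp, fun _ _ => by simp, fun _ _ => le_rfl, fun _ _ => by simp⟩

theorem Cert.add {e : ℝ} {F G F' G' : (Hd Y I → ℝ) → ℝ} {b b' : Hd Y I → ℝ} (h : Cert e F G b)
    (h' : Cert e F' G' b') :
    Cert e (fun W => F W + F' W) (fun W => G W + G' W) (fun x => b x + b' x) := by
  refine ⟨fun S _ W κ a1 a2 a3 => ?_, fun W a => ?_, fun W a => ?_, fun W a => ?_⟩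
  · rw [sum_add_distrib]; exact add_le_add (h.split S W κ a1 a2 a3) (h'.split S W κ a1 a2 a3)
  · rw [sum_add_distrib]; linarith [h.gain W a, h'.gain W a]
  · exact add_nonneg (h.lo W a) (h'.lo W a)
  · simp only [mul_add, sum_add_distrib]; exact add_le_add (h.up W a) (h'.up W a)

theorem Cert.sum {e : ℝ} {J : Type} [Fintype J] {F G : J → (Hd Y I → ℝ) → ℝ}
    {b : J → Hd Y I → ℝ} (h : ∀ j, Cert e (F j) (G j) (b j)) :
    Cert e (fun W => ∑ j, F j W) (fun W => ∑ j, G j W) (fun x => ∑ j, b j x) := by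
  refine ⟨fun S _ W κ a1 a2 a3 => ?_, fun W a => ?_, fun W a => ?_, fun W a => ?_⟩
  · rw [sum_comm]; exact sum_le_sum fun j _ => (h j).split S W κ a1 a2 a3
  · rw [sum_comm, ← sum_add_distrib]; exact sum_le_sum fun j _ => (h j).gain W a
  · exact sum_nonneg fun j _ => (h j).lo W a
  · simp only [mul_sum]; rw [sum_comm]; exact sum_le_sum fun j _ => (h j).up W a

theorem Cert.mul {e : ℝ} {F G : (Hd Y I → ℝ) → ℝ} {b : Hd Y I → ℝ} (h : Cert e F G b)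
    (φ : Hd Y I → ℝ) (hφ : ∀ x, 0 ≤ φ x) :
    Cert e (fun W => F fun x => W x * φ x) (fun W => G fun x => W x * φ x)
      (fun x => φ x * b x) := by
  refine ⟨fun S _ W κ a1 a2 a3 => ?_, fun W a => ?_, fun W a => ?_, fun W a => ?_⟩
  · simpa only [mul_right_comm] using
      h.split S (fun x => W x * φ x) κ (fun x => mul_nonneg (a1 x) (hφ x)) a2 a3
  · have := h.gain (fun x => W x * φ x) fun x => mul_nonneg (a x) (hφ x)
    refine this.trans_eq (sum_congr rfl fun z _ => congrArg F (funext fun x => ?_))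
    simp only [mulT]; ring
  · exact h.lo _ fun x => mul_nonneg (a x) (hφ x)
  · simpa only [mul_assoc] using h.up (fun x => W x * φ x) fun x => mul_nonneg (a x) (hφ x)

theorem Cert.weak {e : ℝ} {F G : (Hd Y I → ℝ) → ℝ} {b b' : Hd Y I → ℝ} (h : Cert e F G b)
    (hb : ∀ x, b x ≤ b' x) : Cert e F G b' :=
  ⟨h.split, h.gain, h.lo, fun W a =>
    (h.up W a).trans (sum_le_sum fun x _ => mul_le_mul_of_nonneg_left (hb x) (a x))⟩

theorem tokw_nonneg {e : ℝ} (h0 : 0 ≤ e) (h1 : e ≤ 1) (c : I → Bool) (z : I × Bool) :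
    0 ≤ tokw e c z := div_nonneg (by unfold lik; split_ifs <;> linarith) (Nat.cast_nonneg _)

theorem sum_tokw [Nonempty I] (e : ℝ) (c : I → Bool) : ∑ z, tokw e c z = 1 := by
  have h : ∀ i, ∑ b, tokw e c (i, b) = 1 / Fintype.card I := fun i => by
    cases hc : c i <;> simp [tokw, lik, hc] <;> ring
  rw [Fintype.sum_prod_type, sum_congr rfl fun i _ => h i]
  simp

theorem Lz_nonneg {e : ℝ} (h0 : 0 ≤ e) (h1 : e ≤ 1) (c : I → Bool) {m : ℕ}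
    (z : Fin m → I × Bool) : 0 ≤ Lz e c z := prod_nonneg fun _ _ => tokw_nonneg h0 h1 c _

theorem sum_Lz [Nonempty I] (e : ℝ) (c : I → Bool) (m : ℕ) :
    ∑ z : Fin m → I × Bool, Lz e c z = 1 := by
  simp only [Lz]
  rw [← Fintype.piFinset_univ, ← prod_univ_sum]
  simp [sum_tokw]

theorem Lz_succ (e : ℝ) (c : I → Bool) {m : ℕ} (z : Fin (m + 1) → I × Bool) :
    Lz e c z = tokw e c (z 0) * Lz e c (Fin.tail z) := Fin.prod_univ_succ _

theorem sum_succ {T : Type} [Fintype T] {m : ℕ} (f : (Fin (m + 1) → T) → ℝ) :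
    ∑ z, f z = ∑ t, ∑ z : Fin m → T, f (Fin.cons t z) := by
  rw [← (Fin.consEquiv fun _ : Fin (m + 1) => T).sum_comp, Fintype.sum_prod_type]
  rfl

/-- weight of a run of the given learner: test index, batch, coins -/
def rw (e : ℝ) {m : ℕ} {R : Type} (ν : I → (Fin m → I × Bool) → R → ℝ) (c : I → Bool)
    (r : I × (Fin m → I × Bool) × R) : ℝ := Lz e c r.2.1 * ν r.1 r.2.1 r.2.2 / Fintype.card I

/-- advantage of a family of acceptance probabilities on the pool -/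
def advI (e : ℝ) {m : ℕ} (β : I → (Fin m → I × Bool) → (Y → Bool) → ℝ) (h : Hd Y I) : ℝ :=
  av fun i => ∑ z, Lz e h.2 z * ((2 * β i z h.1 - 1) * sg (h.2 i))

def bay (W : Hd Y I → ℝ) : ℝ := av fun i => |∑ h, W h * sg (h.2 i)|

def Ph1 (σ : St Y I) : ℝ := ∑ c, Ph (cube σ.1) fun O => σ.2 (O, c)

def Psi (g : Hd Y I → Y → ℝ) (σ : St Y I) : ℝ := ∑ h, σ.2 h * ∑ y, ind (σ.1 y = none) * g h y

end

/-! ### Statements -/

/-- chain rule and variational bound inside a finite set -/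
def SCh : Prop := ∀ (Y : Type) [Fintype Y] [DecidableEq Y] (S : Type) [Fintype S]
  (A : Finset (Y → Bool)) (B : S → Finset (Y → Bool)) (f : (Y → Bool) → S) (V ψ : (Y → Bool) → ℝ)
  (x : ℝ), (∀ O, 0 ≤ V O ∧ (V O ≠ 0 → O ∈ A)) → (∀ O ∈ A, ∀ O', O' ∈ B (f O) ↔ O' ∈ A ∧ f O' = f O) →
  (∀ O, |ψ O| ≤ 1) → (∀ O O', f O = f O' → ψ O = ψ O') → 0 ≤ x → x ≤ 1 →
    0 ≤ Ph A V ∧ (∀ y : ℝ, 0 ≤ y → Ph A (fun O => V O * y) = y * Ph A V) ∧
    x * ∑ O, V O * ψ O + ∑ s, Ph (B s) (fun O => V O * ind (f O = s)) ≤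
      x * ((∑ O, V O) * ((∑ O ∈ A, ψ O) / A.card)) + x ^ 2 * ∑ O, V O + Ph A V

def SG1 : Prop := ∀ (Y : Type) [Fintype Y] [DecidableEq Y] (R : Type) [Fintype R] (w : R → ℝ)
  (tr : R → DT Y) (ρ : Y → Option Bool) (V : (Y → Bool) → ℝ) (ψ : R → (Y → Bool) → ℝ) (x : ℝ),
  IsProb w → Sup ρ V → (∀ r O, |ψ r O| ≤ 1) →
  (∀ r O O', trans (tr r) O = trans (tr r) O' → ψ r O = ψ r O') → 0 ≤ x → x ≤ 1 →
    0 ≤ Ph (cube ρ) V ∧
    x * ∑ O, V O * ∑ r, w r * ψ r O + gop w tr (fun ρ' V' => Ph (cube ρ') V') ρ V ≤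
      x * ((∑ O, V O) * ∑ r, w r * av fun O => ψ r (ovr ρ O)) + x ^ 2 * ∑ O, V O + Ph (cube ρ) V

/-- one step of the ghost argument, at a later state `ρ'` -/
def SG2 : Prop := ∀ (Y : Type) [Fintype Y] [DecidableEq Y] (R : Type) [Fintype R] (w : R → ℝ)
  (tr : R → DT Y) (s : R → Bool) (Good : Y → R → Prop) (ρ ρ' : Y → Option Bool)
  (V : (Y → Bool) → ℝ) (x : ℝ), IsProb w → Sup ρ' V → (∀ y b, ρ y = some b → ρ' y = some b) →
  0 ≤ x → x ≤ 1 →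
    x * ∑ O, V O * ∑ r, w r * (sg ((tr r).eval O) * sg (s r)) +
        gop w tr (fun ρ' V' => Ph (cube ρ') V') ρ' V ≤
      x * ((∑ O, V O) * ∑ r, w r * av fun O => sg ((tr r).eval (ovr ρ O)) * sg (s r)) +
      x ^ 2 * ∑ O, V O + Ph (cube ρ') V +
      2 * x * ∑ O, V O * ∑ y, ind (ρ y = none ∧ ρ' y ≠ none) *
        ∑ r, w r * (ind (y ∈ qs (tr r) O) * ind (¬ Good y r) + hitF ρ (tr r) y * ind (Good y r))

def SG : Prop := ∀ (Y : Type) [Fintype Y] [DecidableEq Y] (R : Type) [Fintype R] (w : R → ℝ)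
  (tr : R → DT Y) (s : R → Bool) (Good : Y → R → Prop) (ρ : Y → Option Bool)
  (V : (Y → Bool) → ℝ) (x : ℝ) (t : ℕ), IsProb w → Sup ρ V → 0 < x → x ≤ 1 → 0 < t →
    ∑ O, V O * ∑ r, w r * (sg ((tr r).eval O) * sg (s r)) ≤
      (∑ O, V O) * ∑ r, w r * (av fun O => sg ((tr r).eval (ovr ρ O)) * sg (s r)) +
      x * ∑ O, V O + Ph (cube ρ) V / (x * t) +
      2 * ∑ O, V O * ∑ y, ind (ρ y = none) * gh w tr t O y *
        ∑ r, w r * (ind (y ∈ qs (tr r) O) * ind (¬ Good y r) + hitF ρ (tr r) y * ind (Good y r))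

def SSpl : Prop := ∀ (Y I : Type) [Fintype Y] [DecidableEq Y] [Fintype I] [DecidableEq I]
  [Nonempty I] (lam : St Y I → Y → ℝ) (s : ℕ) (e : ℝ), (∀ σ, IsProb (lam σ)) → 0 < s → 0 ≤ e →
  e ≤ 1 → (∀ j, Spl (Ex lam s e j)) ∧
    (∀ (F : St Y I → ℝ), (∀ σ, Val σ → qop lam F σ ≤ F σ) → (∀ σ, Val σ → lop e F σ ≤ F σ) →
      ∀ j σ, Val σ → Ex lam s e j F σ ≤ F σ) ∧
    (∀ (F : St Y I → ℝ) (φ : Hd Y I → ℝ), (∀ σ, Val σ → 0 ≤ F σ ∧ F σ ≤ lin φ σ) →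
      ∀ j σ, Val σ → Ex lam s e j (fun τ => F τ - qop lam F τ) σ ≤ lin φ σ / s) ∧
    ∀ (F G : (Hd Y I → ℝ) → ℝ) (b : Hd Y I → ℝ), Cert e F G b → ∀ J σ, Val σ →
      ∑ j ∈ range J, Ex lam s e j (fun τ => G τ.2) σ ≤ lin b σ

def SPh1 : Prop := ∀ (Y I : Type) [Fintype Y] [DecidableEq Y] [Fintype I] [DecidableEq I]
  [Nonempty I] (lam : St Y I → Y → ℝ) (e : ℝ) (σ : St Y I), IsProb (lam σ) → 0 ≤ e → e ≤ 1 →
  Val σ → qop lam Ph1 σ ≤ Ph1 σ ∧ lop e Ph1 σ ≤ Ph1 σ ∧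
    ∀ g : Hd Y I → Y → ℝ, Psi g σ - qop lam (Psi g) σ =
      ∑ y, ind (σ.1 y = none) * (∑ h, σ.2 h * g h y) * lam σ y

def SKl : Prop := ∀ (Y I : Type) [Fintype Y] [DecidableEq Y] [Fintype I] [DecidableEq I]
  [Nonempty I] (e L : ℝ) (A B : Hd Y I → ℝ), 0 ≤ e → e ≤ 1 → 1 ≤ L →
  (∀ h, 0 ≤ A h ∧ A h ≤ L * B h) →
    Cert e (fun W => kl (∑ h, W h * A h) (∑ h, W h * B h))
      (fun W => (1 - 2 * e) ^ 2 / 4 * ((∑ h, W h * A h) *
        av fun i => (post (fun h => W h * A h) i - post (fun h => W h * B h) i) ^ 2))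
      (fun h => Real.log L * A h + B h)

def SRat : Prop := ∀ (Y I : Type) [Fintype Y] [DecidableEq Y] [Fintype I] [DecidableEq I]
  [Nonempty I] (e ζ : ℝ) (m : ℕ) (W : Hd Y I → ℝ), 0 ≤ e → e ≤ 1 → 0 < ζ → ζ < 1 →
  (∀ h, 0 ≤ W h) → (∀ z, 0 ≤ fake e ζ m W z) ∧ ∑ z, fake e ζ m W z ≤ 1 ∧
    ∀ (g : Hd Y I → ℝ) (z : Fin m → I × Bool), (∀ h, 0 ≤ g h ∧ g h ≤ 1) →
      ∑ h, W h * g h * Lz e h.2 z ≤ (∑ h, W h * g h) * fake e ζ m W z *
        ((1 / (1 - ζ)) ^ m * (2 / ζ) ^ cnt e (fun V t => ζ / 2 < gap V g t.1) m W z)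

def SRare : Prop := ∀ (Y I : Type) [Fintype Y] [DecidableEq Y] [Fintype I] [DecidableEq I]
  [Nonempty I] (e ζ κ x : ℝ) (m a : ℕ) (W g : Hd Y I → ℝ) (c : I → Bool), 0 ≤ e → e ≤ 1 → 0 < ζ →
  0 ≤ κ → 1 ≤ x →
    (∀ z : Fin m → I × Bool, ind (a < cnt e (fun V t => ζ / 2 < gap V g t.1) m W z) ≤
      cnt e (fun V _ => κ < msq V g) m W z +
        ind (a < cnt e (fun V t => ζ / 2 < gap V g t.1 ∧ msq V g ≤ κ) m W z)) ∧
    ∑ z : Fin m → I × Bool, Lz e c z *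
      ind (a < cnt e (fun V t => ζ / 2 < gap V g t.1 ∧ msq V g ≤ κ) m W z) ≤
        (1 + x * (4 * κ / ζ ^ 2)) ^ m / x ^ (a + 1)

def SHeavy : Prop := ∀ (Y I : Type) [Fintype Y] [DecidableEq Y] [Fintype I] [DecidableEq I]
  [Nonempty Y] [Nonempty I] (e e' κ T : ℝ) (g : Hd Y I → Y → ℝ), 0 ≤ e → e ≤ 1 → 0 ≤ e' →
  e' ≤ 1 → 0 < κ → 1 ≤ T → (∀ h y, 0 ≤ g h y ∧ g h y ≤ 1) → (∀ h, ∑ y, g h y ≤ T) →
  ∀ (m : ℕ) (H : (Fin m → I × Bool) → Hd Y I → Y → ℝ), (∀ z h y, 0 ≤ H z h y ∧ H z h y ≤ 1) →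
    ∃ F G : (Hd Y I → ℝ) → ℝ, Cert e' F G (fun h => m * ((Real.log T + Real.log (Fintype.card Y)) *
        (∑ y, g h y * ∑ z, Lz e h.2 z * H z h y) + 2)) ∧
      ∀ W : Hd Y I → ℝ, (∀ h, 0 ≤ W h) →
        (1 - 2 * e') ^ 2 * κ * ∑ y, ∑ h, W h * g h y * ∑ z, Lz e h.2 z * H z h y *
          cnt e (fun V _ => κ < msq V fun h => g h y) m W z ≤ 8 * G W

def SBay : Prop := ∀ (Y I : Type) [Fintype Y] [DecidableEq Y] [Fintype I] [DecidableEq I]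
  [Nonempty I] (e e' α : ℝ) (m : ℕ), 0 ≤ e → e ≤ 1 → 0 ≤ e' → e' < 1 / 2 → 0 < α →
    ∃ F G : (Hd Y I → ℝ) → ℝ, Cert e' F G (fun _ => 2 * m) ∧ ∀ W : Hd Y I → ℝ, (∀ h, 0 ≤ W h) →
      (av fun i => ∑ z : Fin m → I × Bool, |∑ h, W h * Lz e h.2 z * sg (h.2 i)|) ≤
        bay W + m * α * ∑ h, W h + 4 / (α * (1 - 2 * e') ^ 2) * G W

def SAch : Prop := ∀ (Y : Type) [Fintype Y] [DecidableEq Y] (q : ℕ),
  IsCompact (Ach q : Set ((Y → Bool) → ℝ)) ∧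
  (∀ f ∈ (Ach q : Set ((Y → Bool) → ℝ)), ∀ O, 0 ≤ f O ∧ f O ≤ 1) ∧
  (∀ p : ℝ, 0 ≤ p → p ≤ 1 → (fun _ => p) ∈ (Ach q : Set ((Y → Bool) → ℝ))) ∧
  (∀ q', q ≤ q' → (Ach q : Set ((Y → Bool) → ℝ)) ⊆ Ach q') ∧
  (∀ (y : Y) (f : Bool → (Y → Bool) → ℝ), (∀ a, f a ∈ Ach q) → (fun O => f (O y) O) ∈ Ach (q + 1)) ∧
  ∃ tr : ((Y → Bool) → Bool) → DT Y, (∀ g, (tr g).depth ≤ q) ∧
    ∀ f ∈ (Ach q : Set ((Y → Bool) → ℝ)), ∃ ν : ((Y → Bool) → Bool) → ℝ, IsProb ν ∧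
      ∀ O, 2 * f O - 1 = ∑ g, ν g * sg ((tr g).eval O)

def SReal : Prop := ∀ (Y I : Type) [Fintype Y] [DecidableEq Y] [Fintype I] [DecidableEq I]
  [Nonempty I] (lam : St Y I → Y → ℝ) (s J : ℕ) (e : ℝ) (σ : St Y I), (∀ σ, IsProb (lam σ)) →
  0 < s → 0 < J → ∃ β : I → (Fin J → I × Bool) → (Y → Bool) → ℝ, (∀ i z, β i z ∈ Ach (J * s)) ∧
    lin (advI e β) σ = (∑ j ∈ range J, Ex lam s e j (fun τ => bay τ.2) σ) / J

/-- the local inequality at a state -/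
def SLoc : Prop := ∀ (Y I R : Type) [Fintype Y] [DecidableEq Y] [Fintype I] [DecidableEq I]
  [Nonempty Y] [Nonempty I] [Fintype R] (e ζ κ x x' : ℝ) (m q t a : ℕ) (tr : R → DT Y)
  (ν : I → (Fin m → I × Bool) → R → ℝ) (β : I → (Fin m → I × Bool) → (Y → Bool) → ℝ),
  0 ≤ e → e ≤ 1 → 0 < ζ → ζ < 1 → 0 ≤ κ → 0 < x → x ≤ 1 → 1 ≤ x' → 0 < t →
  (∀ r, (tr r).depth ≤ q) → (∀ i z, IsProb (ν i z)) →
  (∀ i z O, 2 * β i z O - 1 = ∑ r, ν i z r * sg ((tr r).eval O)) →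
  ∃ (lam : St Y I → Y → ℝ) (g : Hd Y I → Y → ℝ) (H : (Fin m → I × Bool) → Hd Y I → Y → ℝ),
    (∀ σ, IsProb (lam σ)) ∧ (∀ h y, 0 ≤ g h y ∧ g h y ≤ 1) ∧ (∀ h, ∑ y, g h y ≤ t * q) ∧
    (∀ z h y, 0 ≤ H z h y ∧ H z h y ≤ 1) ∧ (∀ z h, ∑ y, H z h y ≤ q) ∧
    ∀ σ : St Y I, Val σ → lin (advI e β) σ ≤
      (av fun i => ∑ z : Fin m → I × Bool, |∑ h, σ.2 h * Lz e h.2 z * sg (h.2 i)|) +
      (x + 2 * (t * q) * ((1 + x' * (4 * κ / ζ ^ 2)) ^ m / x' ^ (a + 1))) * ∑ h, σ.2 h +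
      Ph1 σ / (x * t) +
      2 * (∑ y, ∑ h, σ.2 h * g h y * ∑ z, Lz e h.2 z * H z h y *
        cnt e (fun V _ => κ < msq V fun h => g h y) m σ.2 z) +
      2 * ((1 / (1 - ζ)) ^ m * (2 / ζ) ^ a * (q + 1)) *
        ∑ y, ind (σ.1 y = none) * (∑ h, σ.2 h * g h y) * lam σ y

/-- the error per unit mass of the core theorem -/
def err0 (e' ζ κ x x' α ℓ : ℝ) (m q t a s J : ℕ) : ℝ :=
  x + 2 * (t * q) * ((1 + x' * (4 * κ / ζ ^ 2)) ^ m / x' ^ (a + 1)) + m * α +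
    4 / (α * (1 - 2 * e') ^ 2) * (2 * m) / J +
    16 / ((1 - 2 * e') ^ 2 * κ) * (m * ((Real.log (t * q + 1) + ℓ) * q + 2)) / J +
    2 * ((1 / (1 - ζ)) ^ m * (2 / ζ) ^ a * (q + 1)) * (t * q) / s

def SCore : Prop := ∀ (Y I : Type) [Fintype Y] [DecidableEq Y] [Fintype I] [DecidableEq I]
  [Nonempty Y] [Nonempty I] (e e' ζ κ x x' α ℓ : ℝ) (m q t a s J : ℕ)
  (β : I → (Fin m → I × Bool) → (Y → Bool) → ℝ) (μ : Hd Y I → ℝ),
  0 ≤ e → e ≤ 1 → 0 ≤ e' → e' < 1 / 2 → 0 < ζ → ζ < 1 → 0 < κ → 0 < x → x ≤ 1 → 1 ≤ x' → 0 < α →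
  Real.log (Fintype.card Y) ≤ ℓ → 0 < t → 0 < s → 0 < J → (∀ i z, β i z ∈ Ach q) → (∀ h, 0 ≤ μ h) →
  ∃ β' : I → (Fin J → I × Bool) → (Y → Bool) → ℝ, (∀ i z, β' i z ∈ Ach (J * s)) ∧
    ∑ h, μ h * advI e β h ≤ ∑ h, μ h * advI e' β' h +
      err0 e' ζ κ x x' α ℓ m q t a s J * ∑ h, μ h + (∑ c, Ph univ fun O => μ (O, c)) / (x * t)

def SDef : Prop := ∀ (Y U : Type) [Fintype Y] [DecidableEq Y] [Fintype U] (μ : (Y → Bool) → U → ℝ)
  (L : ℝ), (∀ O u, 0 ≤ μ O u) → ∑ O, ∑ u, μ O u = 1 →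
  (∀ O, (∑ u, μ O u) * Fintype.card (Y → Bool) ≤ L) →
    ∑ u, Ph univ (fun O => μ O u) ≤ Real.log L + Real.log (Fintype.card U)

def SMM : Prop := ∀ (A E : Type) [Fintype A] [AddCommGroup E] [Module ℝ E] [TopologicalSpace E]
  [IsTopologicalAddGroup E] [ContinuousSMul ℝ E] (K : Set (A → ℝ)) (C : Set E) (p : E → A → ℝ)
  (v : ℝ), IsCompact K → Convex ℝ K → IsCompact C → Convex ℝ C → C.Nonempty →
  (∀ a, Continuous fun β => p β a) →
  (∀ (a : A) (β β' : E) (s t : ℝ), s + t = 1 → p (s • β + t • β') a = s * p β a + t * p β' a) →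
  (∀ μ ∈ K, ∃ β ∈ C, v ≤ ∑ a, μ a * p β a) → ∃ β ∈ C, ∀ μ ∈ K, v ≤ ∑ a, μ a * p β a

/-- the learner `A` run on a pool of points -/
def onPool {n m : ℕ} {Y I : Type} (A : Sample n m → X n → (Y → Bool) → ℝ) (xs : I → X n) (i : I)
    (z : Fin m → I × Bool) : (Y → Bool) → ℝ := A (fun k => (xs (z k).1, (z k).2)) (xs i)

def SEmp : Prop := ∀ (n m : ℕ) (Y I : Type) [Fintype Y] [DecidableEq Y] [Fintype I]
  [DecidableEq I] [Nonempty I] (e : ℝ) (A : Sample n m → X n → (Y → Bool) → ℝ) (xs : I → X n)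
  (O : Y → Bool) (c : X n → Bool), ∃ D : X n → ℝ, IsProb D ∧
    advI e (onPool A xs) (O, fun i => c (xs i)) = 1 - 2 * mis e c D fun S x => A S x O

def SColl : Prop := ∀ (M J : ℕ) (i : Fin (M + 1)),
  (av fun d : Fin J → Fin (M + 1) => ind (¬ (Function.Injective d ∧ ∀ j, d j ≠ i))) ≤
    ((J : ℝ) + 1) ^ 2 / (M + 1)

def SGood : Prop := ∀ (n M J : ℕ) (e : ℝ) (c : X n → Bool) (D : X n → ℝ) (i : Fin (M + 1))
  (d : Fin J → Fin M) (Φ : (Fin (M + 1) → X n) → (Fin J → Bool) → ℝ), Function.Injective d →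
    ∑ xs : Fin (M + 1) → X n, (∏ k, D (xs k)) * ∑ b : Fin J → Bool,
        (∏ j, lik e (c (xs (i.succAbove (d j)))) (b j)) * Φ xs b =
      ∑ S : Sample n M, (∏ k, exProb e c D (S k)) *
        ∑ x, D x * Φ (i.insertNth x fun k => (S k).1) fun j => (S (d j)).2

def SBack : Prop := ∀ (n M J Q : ℕ) (Y : Type) [Fintype Y] [DecidableEq Y] (e : ℝ)
  (β : (Fin (M + 1) → X n) → Fin (M + 1) → (Fin J → Fin (M + 1) × Bool) → (Y → Bool) → ℝ),
  0 ≤ e → e ≤ 1 → (∀ xs i z, β xs i z ∈ Ach Q) →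
  ∃ B : Sample n M → X n → (Y → Bool) → ℝ, (∀ S x, B S x ∈ Ach Q) ∧
    ∀ (O : Y → Bool) (c : X n → Bool) (D : X n → ℝ), IsProb D →
      ∑ xs : Fin (M + 1) → X n, (∏ i, D (xs i)) * advI e (β xs) (O, fun i => c (xs i)) ≤
        1 - 2 * (mis e c D fun S x => B S x O) + (J + 1) ^ 2 / (M + 1)

/-- the worst case statement on pools -/
def SPool : Prop := ∀ (n m J Q : ℕ) (Y I : Type) [Fintype Y] [DecidableEq Y] [Fintype I]
  [DecidableEq I] (e e' E0 E1 γ L : ℝ) (A : Sample n m → X n → (Y → Bool) → ℝ), 0 ≤ E1 →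
  (∀ (xs : I → X n) (μ : Hd Y I → ℝ), (∀ h, 0 ≤ μ h) →
    ∃ β' : I → (Fin J → I × Bool) → (Y → Bool) → ℝ, (∀ i z, β' i z ∈ Ach Q) ∧
      ∑ h, μ h * advI e (onPool A xs) h ≤ ∑ h, μ h * advI e' β' h + E0 * ∑ h, μ h +
        (∑ c, Ph univ fun O => μ (O, c)) * E1) →
  ∃ β : (I → X n) → I → (Fin J → I × Bool) → (Y → Bool) → ℝ, (∀ xs i z, β xs i z ∈ Ach Q) ∧
    ∀ μ : (I → X n) → Hd Y I → ℝ, (∀ xs h, 0 ≤ μ xs h) → ∑ xs, ∑ h, μ xs h = 1 →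
      (∀ O, (∑ xs, ∑ c, μ xs (O, c)) * Fintype.card (Y → Bool) ≤ L) →
      γ ≤ ∑ xs, ∑ h, μ xs h * advI e (onPool A xs) h →
        γ - E0 - (Real.log L + Fintype.card I * ((n + 1) * Real.log 2)) * E1 ≤
          ∑ xs, ∑ h, μ xs h * advI e' (β xs) h

def SPar : Prop := ∀ (Z n l m q : ℕ) (e' Lg : ℝ), Lg ≤ Z ^ 87 * Z → 10 ≤ Z → n ≤ Z → l ≤ Z →
  m ≤ Z → q ≤ Z → 0 ≤ e' →
  1 ≤ Z * (1 - 2 * e') →
    err0 e' (1 / (Z + 1)) (1 / Z ^ 29) (1 / Z ^ 2) (Z ^ 25) (1 / Z ^ 3) l m q (Z ^ 94) 3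
        (Z ^ 106) (Z ^ 42) +
      (Lg + (Z ^ 87 + 1 : ℕ) * ((n + 1) * Real.log 2)) * (1 / (1 / Z ^ 2 * (Z ^ 94 : ℕ))) +
      ((Z ^ 42 : ℕ) + 1) ^ 2 / ((Z ^ 87 : ℕ) + 1) ≤ 1 / (Z : ℝ)

end

end Pool.Agent.MP_9f8ce8_lc.Rom
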