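import Pool.Agent.MP_9f8ce8_lc.Rom.PA
import Pool.Agent.MP_9f8ce8_lc.Rom.PB
import Pool.Agent.MP_9f8ce8_lc.TdpDefs

/-! Noise boosting relative to structured oracles: definitions and statements of the steps. -/

set_option autoImplicit false
set_option linter.unusedSectionVars false

namespace Pool.Agent.MP_9f8ce8_lc.Rom

open Finset Cap

noncomputable section

/-- average over a finite set -/
def avg {α : Type} (A : Finset α) (f : α → ℝ) : ℝ := (∑ a ∈ A, f a) / A.card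

/-- admissible oracles, closures of queries, queries revealing the same atom -/
structure Sys (Y : Type) where
  A : Finset (Y → Bool)
  cl : Y → Finset Y
  same : (Y → Bool) → Y → Y → Prop

section
variable {Y : Type} [Fintype Y] [DecidableEq Y]

def qsP (P : Sys Y) : DT Y → (Y → Bool) → Finset Y
  | .leaf _, _ => ∅
  | .node y t f, O => P.cl y ∪ (if O y then qsP P t O else qsP P f O)

def restr (S : Finset Y) (O : Y → Bool) : Y → Option Bool :=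
  fun y => if y ∈ S then some (O y) else none

def Closed (P : Sys Y) (ρ : Y → Option Bool) : Prop :=
  ∀ y, ρ y ≠ none → ∀ y' ∈ P.cl y, ρ y' ≠ none

open Classical in
def cell (P : Sys Y) (ρ : Y → Option Bool) : Finset (Y → Bool) :=
  P.A.filter fun O => Closed P ρ ∧ ∀ y b, ρ y = some b → O y = b

def sz (ρ : Y → Option Bool) : ℝ := ∑ y, ind (ρ y ≠ none)

def Kn (P : Sys Y) (ρ : Y → Option Bool) (O : Y → Bool) (y : Y) : Prop :=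
  ∃ y', ρ y' ≠ none ∧ P.same O y y'

def Opn (P : Sys Y) (ρ : Y → Option Bool) (y : Y) : Prop := ∀ O ∈ cell P ρ, ¬ Kn P ρ O y

def Rel (P : Sys Y) (ρ ρ' : Y → Option Bool) (y : Y) : Prop :=
  Opn P ρ y ∧ ∀ O ∈ cell P ρ', Kn P ρ' O y

def SupP (P : Sys Y) (ρ : Y → Option Bool) (V : (Y → Bool) → ℝ) : Prop :=
  ∀ O, 0 ≤ V O ∧ (V O ≠ 0 → O ∈ cell P ρ)

def hitP (P : Sys Y) (ρ : Y → Option Bool) (t : DT Y) (y : Y) : ℝ :=
  avg (cell P ρ) fun O => ind (y ∈ qsP P t O)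

def ghP (P : Sys Y) {R : Type} [Fintype R] (w : R → ℝ) (tr : R → DT Y) (t : ℕ) (O : Y → Bool)
    (y : Y) : ℝ := min 1 (t * ∑ r, w r * ind (∃ y' ∈ qsP P (tr r) O, P.same O y y'))

def gopP (P : Sys Y) {R : Type} [Fintype R] (w : R → ℝ) (tr : R → DT Y)
    (F : (Y → Option Bool) → ((Y → Bool) → ℝ) → ℝ) (ρ : Y → Option Bool)
    (V : (Y → Bool) → ℝ) : ℝ :=
  ∑ r, ∑ ω : Y → Option Bool, F (merge ρ ω) fun O =>
    V O * (w r * ind (restr (qsP P (tr r) O) O = ω))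

structure Base (P : Sys Y) (v f : ℕ) : Prop where
  self : ∀ y, y ∈ P.cl y
  idem : ∀ y, ∀ y' ∈ P.cl y, P.cl y' ⊆ P.cl y
  card : ∀ y, (P.cl y).card ≤ v
  refl : ∀ O y, P.same O y y
  fib : ∀ O y', ∑ y, ind (P.same O y y') ≤ f

/-- a coupling of two nested cells under which runs of depth `q` rarely part unseen -/
def Dec (P : Sys Y) (q : ℕ) (ε : ℝ) : Prop := ∀ (ρ ρ' : Y → Option Bool) (t : DT Y), t.depth ≤ q →
  Closed P ρ → (∀ y b, ρ y = some b → ρ' y = some b) → (cell P ρ').Nonempty →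
  ∃ Φ : (Y → Bool) → (Y → Bool),
    (∀ F : (Y → Bool) → ℝ, avg (cell P ρ') F = avg (cell P ρ) fun O => F (Φ O)) ∧
    (avg (cell P ρ) fun O => ind (¬ (t.eval (Φ O) = t.eval O ∨
      ∃ y, Rel P ρ ρ' y ∧ y ∈ qsP P t (Φ O) ∧ y ∈ qsP P t O))) ≤ ε * (sz ρ' + 2 * q)

theorem mem_cell {P : Sys Y} {ρ : Y → Option Bool} {O : Y → Bool} :
    O ∈ cell P ρ ↔ O ∈ P.A ∧ Closed P ρ ∧ ∀ y b, ρ y = some b → O y = b := by simp [cell]

theorem cell_none (P : Sys Y) : cell P (fun _ => none) = P.A := by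
  ext O; simp [mem_cell, Closed]

omit [Fintype Y] in
theorem card_qsP {P : Sys Y} {v : ℕ} (h : ∀ y, (P.cl y).card ≤ v) (t : DT Y) (O : Y → Bool) :
    (qsP P t O).card ≤ t.depth * v := by
  induction t with
  | leaf b => simp [qsP]
  | node y t f iht ihf =>
    refine (card_union_le _ _).trans ?_
    have a := Nat.mul_le_mul_right v (le_max_left t.depth f.depth)
    have b := Nat.mul_le_mul_right v (le_max_right t.depth f.depth)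
    have c := h y
    simp only [DT.depth, add_mul, one_mul]
    split_ifs <;> omega

omit [Fintype Y] in
theorem agreeP {P : Sys Y} (hs : ∀ y, y ∈ P.cl y) (t : DT Y) {O O' : Y → Bool}
    (h : ∀ y ∈ qsP P t O, O' y = O y) : qsP P t O' = qsP P t O ∧ t.eval O' = t.eval O := by
  induction t with
  | leaf b => simp [qsP, DT.eval]
  | node y t f iht ihf =>
    have e : O' y = O y := h y (mem_union_left _ (hs y))
    simp only [qsP, DT.eval, e] at h ⊢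
    cases hy : O y
    · simp only [hy, Bool.false_eq_true, if_false] at h ⊢
      obtain ⟨a, b⟩ := ihf fun z hz => h z (mem_union_right _ hz)
      exact ⟨by rw [a], b⟩
    · simp only [hy, if_true] at h ⊢
      obtain ⟨a, b⟩ := iht fun z hz => h z (mem_union_right _ hz)
      exact ⟨by rw [a], b⟩

omit [Fintype Y] in
theorem qsP_closed {P : Sys Y} (hi : ∀ y, ∀ y' ∈ P.cl y, P.cl y' ⊆ P.cl y) (t : DT Y)
    (O : Y → Bool) : ∀ y ∈ qsP P t O, P.cl y ⊆ qsP P t O := by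
  induction t with
  | leaf b => simp [qsP]
  | node y t f iht ihf =>
    intro z hz
    simp only [qsP] at hz ⊢
    rcases mem_union.1 hz with h | h
    · exact (hi y z h).trans subset_union_left
    · refine Subset.trans ?_ subset_union_right
      split_ifs at h ⊢
      exacts [iht z h, ihf z h]

/-- the cell after revealing a closed set `S` of queries -/
theorem mem_cell_merge {P : Sys Y} {ρ : Y → Option Bool} {S : Finset Y}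
    (hS : ∀ y ∈ S, P.cl y ⊆ S) {O : Y → Bool} (hO : O ∈ cell P ρ) (O' : Y → Bool) :
    O' ∈ cell P (merge ρ (restr S O)) ↔ O' ∈ cell P ρ ∧ ∀ y ∈ S, O' y = O y := by
  obtain ⟨-, c, e⟩ := mem_cell.1 hO
  have m : ∀ y b, merge ρ (restr S O) y = some b ↔ ρ y = some b ∨ (y ∈ S ∧ O y = b) := by
    intro y b
    have := e y
    cases h : ρ y <;> by_cases hy : y ∈ S <;> simp_all [merge, restr]
  have n : ∀ y, merge ρ (restr S O) y ≠ none ↔ ρ y ≠ none ∨ y ∈ S := by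
    intro y
    cases h : ρ y <;> by_cases hy : y ∈ S <;> simp_all [merge, restr]
  simp only [mem_cell]
  constructor
  · rintro ⟨a, -, g⟩
    exact ⟨⟨a, c, fun y b h => g y b ((m y b).2 (Or.inl h))⟩,
      fun y hy => g y _ ((m y _).2 (Or.inr ⟨hy, rfl⟩))⟩
  · rintro ⟨⟨a, -, g⟩, k⟩
    refine ⟨a, fun y hy z hz => (n z).2 (((n y).1 hy).imp (fun h => c y h z hz)
      fun h => hS y h hz), fun y b h => ?_⟩
    rcases (m y b).1 h with h | ⟨h1, h2⟩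
    exacts [g y b h, (k y h1).trans h2]

theorem sz_merge (ρ : Y → Option Bool) (S : Finset Y) (O : Y → Bool) :
    sz (merge ρ (restr S O)) ≤ sz ρ + S.card := by
  have : (S.card : ℝ) = ∑ y, ind (y ∈ S) := by
    simp only [ind_eq, sum_boole, filter_mem_eq_inter, univ_inter]
  rw [this, sz, sz, ← sum_add_distrib]
  refine sum_le_sum fun y _ => ?_
  cases h : ρ y <;> by_cases hy : y ∈ S <;> simp [merge, restr, h, hy, ind]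

end

section
variable {Y I : Type} [Fintype Y] [DecidableEq Y] [Fintype I] [DecidableEq I]

def ValP (P : Sys Y) (σ : St Y I) : Prop := ∀ h, 0 ≤ σ.2 h ∧ (σ.2 h ≠ 0 → h.1 ∈ cell P σ.1)

def nextP (P : Sys Y) (lam : St Y I → Y → ℝ) (σ : St Y I) (y : Y) (ω : Y → Option Bool) :
    St Y I := (merge σ.1 ω, fun h => σ.2 h * (lam σ y * ind (restr (P.cl y) h.1 = ω)))

def qopP (P : Sys Y) (lam : St Y I → Y → ℝ) (F : St Y I → ℝ) (σ : St Y I) : ℝ :=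
  ∑ y, ∑ ω, F (nextP P lam σ y ω)

def blkP (P : Sys Y) (lam : St Y I → Y → ℝ) (s : ℕ) (F : St Y I → ℝ) (σ : St Y I) : ℝ :=
  (∑ u ∈ range s, (qopP P lam)^[u] F σ) / s

def ExP (P : Sys Y) (lam : St Y I → Y → ℝ) (s : ℕ) (e : ℝ) (j : ℕ) (F : St Y I → ℝ) :
    St Y I → ℝ := (fun G => blkP P lam s (lop e G))^[j] (blkP P lam s F)

structure SplP (P : Sys Y) (op : (St Y I → ℝ) → St Y I → ℝ) : Prop where
  add : ∀ F G σ, op (fun τ => F τ + G τ) σ = op F σ + op G σ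
  smul : ∀ (x : ℝ) F σ, op (fun τ => x * F τ) σ = x * op F σ
  mono : ∀ F G, (∀ τ, ValP P τ → F τ ≤ G τ) → ∀ σ, ValP P σ → op F σ ≤ op G σ
  lin : ∀ φ σ, op (lin φ) σ = lin φ σ

def Ph1P (P : Sys Y) (σ : St Y I) : ℝ := ∑ c, Ph (cell P σ.1) fun O => σ.2 (O, c)

def PsiP (P : Sys Y) (g : Hd Y I → Y → ℝ) (σ : St Y I) : ℝ :=
  ∑ h, σ.2 h * ∑ y, ind (¬ Kn P σ.1 h.1 y) * g h y

def SzP (σ : St Y I) : ℝ := sz σ.1 * ∑ h, σ.2 h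

end

/-! ### Statements, abstract part -/

def TSet : Prop := ∀ (Y : Type) [Fintype Y] [DecidableEq Y] (q : ℕ) (S : Finset Y)
  (f : (Y → Option Bool) → (Y → Bool) → ℝ), (∀ ω, f ω ∈ Ach q) →
    (fun O => f (restr S O) O) ∈ Ach (q + S.card)

def TG1 : Prop := ∀ (Y : Type) [Fintype Y] [DecidableEq Y] (P : Sys Y) (v f : ℕ) (R : Type)
  [Fintype R] (w : R → ℝ) (tr : R → DT Y) (ρ : Y → Option Bool) (V : (Y → Bool) → ℝ)
  (ψ : R → (Y → Bool) → ℝ) (x : ℝ), Base P v f → IsProb w → SupP P ρ V → (∀ r O, |ψ r O| ≤ 1) →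
  (∀ r O O', restr (qsP P (tr r) O) O = restr (qsP P (tr r) O') O' → ψ r O = ψ r O') → 0 ≤ x →
  x ≤ 1 → 0 ≤ Ph (cell P ρ) V ∧
    x * ∑ O, V O * ∑ r, w r * ψ r O + gopP P w tr (fun ρ' V' => Ph (cell P ρ') V') ρ V ≤
      x * ((∑ O, V O) * ∑ r, w r * avg (cell P ρ) (ψ r)) + x ^ 2 * ∑ O, V O + Ph (cell P ρ) V

def TG2 : Prop := ∀ (Y : Type) [Fintype Y] [DecidableEq Y] (P : Sys Y) (v f q : ℕ) (ε : ℝ)
  (R : Type) [Fintype R] (w : R → ℝ) (tr : R → DT Y) (s : R → Bool) (Good : Y → R → Prop)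
  (ρ ρ' : Y → Option Bool) (V : (Y → Bool) → ℝ) (x : ℝ), Base P v f → Dec P q ε →
  (∀ r, (tr r).depth ≤ q) → IsProb w → SupP P ρ' V → Closed P ρ →
  (∀ y b, ρ y = some b → ρ' y = some b) → 0 ≤ x → x ≤ 1 →
    x * ∑ O, V O * ∑ r, w r * (sg ((tr r).eval O) * sg (s r)) +
        gopP P w tr (fun ρ' V' => Ph (cell P ρ') V') ρ' V ≤
      x * ((∑ O, V O) * ∑ r, w r * avg (cell P ρ) fun O => sg ((tr r).eval O) * sg (s r)) +
      x ^ 2 * ∑ O, V O + Ph (cell P ρ') V + 2 * x * (ε * (sz ρ' + 2 * q) * ∑ O, V O) +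
      2 * x * ∑ O, V O * ∑ y, ind (Opn P ρ y ∧ Kn P ρ' O y) * ∑ r, w r *
        (ind (y ∈ qsP P (tr r) O) * ind (¬ Good y r) + hitP P ρ (tr r) y * ind (Good y r))

def TG : Prop := ∀ (Y : Type) [Fintype Y] [DecidableEq Y] (P : Sys Y) (v f q : ℕ) (ε : ℝ)
  (R : Type) [Fintype R] (w : R → ℝ) (tr : R → DT Y) (s : R → Bool) (Good : Y → R → Prop)
  (ρ : Y → Option Bool) (V : (Y → Bool) → ℝ) (x : ℝ) (t : ℕ), Base P v f → Dec P q ε → 0 ≤ ε →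
  (∀ r, (tr r).depth ≤ q) → IsProb w → SupP P ρ V → 0 < x → x ≤ 1 → 0 < t →
    ∑ O, V O * ∑ r, w r * (sg ((tr r).eval O) * sg (s r)) ≤
      (∑ O, V O) * ∑ r, w r * (avg (cell P ρ) fun O => sg ((tr r).eval O) * sg (s r)) +
      x * ∑ O, V O + Ph (cell P ρ) V / (x * t) +
      2 * (ε * (sz ρ + t * (q * v) + 2 * q) * ∑ O, V O) +
      2 * ∑ O, V O * ∑ y, ind (Opn P ρ y) * ghP P w tr t O y * ∑ r, w r *
        (ind (y ∈ qsP P (tr r) O) * ind (¬ Good y r) + hitP P ρ (tr r) y * ind (Good y r))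

def TSpl : Prop := ∀ (Y I : Type) [Fintype Y] [DecidableEq Y] [Fintype I] [DecidableEq I]
  [Nonempty I] (P : Sys Y) (v f : ℕ) (lam : St Y I → Y → ℝ) (s : ℕ) (e : ℝ), Base P v f →
  (∀ σ, IsProb (lam σ)) → 0 < s → 0 ≤ e → e ≤ 1 → (∀ j, SplP P (ExP P lam s e j)) ∧
    (∀ (F : St Y I → ℝ) (φ : Hd Y I → ℝ), (∀ h, 0 ≤ φ h) →
      (∀ σ, ValP P σ → qopP P lam F σ ≤ F σ + lin φ σ) → (∀ σ, ValP P σ → lop e F σ ≤ F σ) →
      ∀ (j : ℕ) σ, ValP P σ → ExP P lam s e j F σ ≤ F σ + (j + 1) * s * lin φ σ) ∧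
    (∀ (F : St Y I → ℝ) (φ : Hd Y I → ℝ), (∀ σ, ValP P σ → 0 ≤ F σ ∧ F σ ≤ lin φ σ) →
      ∀ j σ, ValP P σ → ExP P lam s e j (fun τ => F τ - qopP P lam F τ) σ ≤ lin φ σ / s) ∧
    ∀ (F G : (Hd Y I → ℝ) → ℝ) (b : Hd Y I → ℝ), Cert e F G b → ∀ J σ, ValP P σ →
      ∑ j ∈ range J, ExP P lam s e j (fun τ => G τ.2) σ ≤ lin b σ

def TPh1 : Prop := ∀ (Y I : Type) [Fintype Y] [DecidableEq Y] [Fintype I] [DecidableEq I]
  [Nonempty I] (P : Sys Y) (v f : ℕ) (lam : St Y I → Y → ℝ) (e : ℝ) (σ : St Y I), Base P v f →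
  IsProb (lam σ) → 0 ≤ e → e ≤ 1 → ValP P σ →
    qopP P lam (Ph1P P) σ ≤ Ph1P P σ ∧ lop e (Ph1P P) σ ≤ Ph1P P σ

def TPsi : Prop := ∀ (Y I : Type) [Fintype Y] [DecidableEq Y] [Fintype I] [DecidableEq I]
  [Nonempty I] (P : Sys Y) (v f : ℕ) (lam : St Y I → Y → ℝ) (e : ℝ) (σ : St Y I), Base P v f →
  IsProb (lam σ) → ValP P σ → qopP P lam SzP σ ≤ SzP σ + lin (fun _ => (v : ℝ)) σ ∧
    lop e SzP σ ≤ SzP σ ∧ ∀ g : Hd Y I → Y → ℝ, (∀ h y, 0 ≤ g h y) →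
      ∑ y, ind (Opn P σ.1 y) * (∑ h, σ.2 h * g h y) * lam σ y ≤
        PsiP P g σ - qopP P lam (PsiP P g) σ

def TReal : Prop := ∀ (Y I : Type) [Fintype Y] [DecidableEq Y] [Fintype I] [DecidableEq I]
  [Nonempty I] (P : Sys Y) (v : ℕ) (lam : St Y I → Y → ℝ) (s J : ℕ) (e : ℝ) (σ : St Y I),
  (∀ y, (P.cl y).card ≤ v) → (∀ σ, IsProb (lam σ)) → 0 < s → 0 < J →
  ∃ β : I → (Fin J → I × Bool) → (Y → Bool) → ℝ, (∀ i z, β i z ∈ Ach (J * s * v)) ∧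
    lin (advI e β) σ = (∑ j ∈ range J, ExP P lam s e j (fun τ => bay τ.2) σ) / J

def TLoc : Prop := ∀ (Y I R : Type) [Fintype Y] [DecidableEq Y] [Fintype I] [DecidableEq I]
  [Nonempty Y] [Nonempty I] [Fintype R] (P : Sys Y) (v f Q : ℕ) (ε e ζ κ x x' : ℝ) (m q t a : ℕ)
  (tr : R → DT Y) (ν : I → (Fin m → I × Bool) → R → ℝ)
  (β : I → (Fin m → I × Bool) → (Y → Bool) → ℝ), Base P v f → Dec P q ε → 0 ≤ ε → q * v ≤ Q →
  q * v * f ≤ Q → 0 ≤ e → e ≤ 1 → 0 < ζ → ζ < 1 → 0 ≤ κ → 0 < x → x ≤ 1 → 1 ≤ x' → 0 < t →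
  (∀ r, (tr r).depth ≤ q) → (∀ i z, IsProb (ν i z)) →
  (∀ i z O, 2 * β i z O - 1 = ∑ r, ν i z r * sg ((tr r).eval O)) →
  ∃ (lam : St Y I → Y → ℝ) (g : Hd Y I → Y → ℝ) (H : (Fin m → I × Bool) → Hd Y I → Y → ℝ),
    (∀ σ, IsProb (lam σ)) ∧ (∀ h y, 0 ≤ g h y ∧ g h y ≤ 1) ∧ (∀ h, ∑ y, g h y ≤ t * Q) ∧
    (∀ z h y, 0 ≤ H z h y ∧ H z h y ≤ 1) ∧ (∀ z h, ∑ y, H z h y ≤ Q) ∧
    ∀ σ : St Y I, ValP P σ → lin (advI e β) σ ≤
      (av fun i => ∑ z : Fin m → I × Bool, |∑ h, σ.2 h * Lz e h.2 z * sg (h.2 i)|) +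
      (x + 2 * (t * Q) * ((1 + x' * (4 * κ / ζ ^ 2)) ^ m / x' ^ (a + 1))) * ∑ h, σ.2 h +
      Ph1P P σ / (x * t) + 2 * ε * (SzP σ + (t * Q + 2 * q) * ∑ h, σ.2 h) +
      2 * (∑ y, ∑ h, σ.2 h * g h y * ∑ z, Lz e h.2 z * H z h y *
        cnt e (fun V _ => κ < msq V fun h => g h y) m σ.2 z) +
      2 * ((1 / (1 - ζ)) ^ m * (2 / ζ) ^ a * (Q + 1)) *
        ∑ y, ind (Opn P σ.1 y) * (∑ h, σ.2 h * g h y) * lam σ y

def TCore : Prop := ∀ (Y I : Type) [Fintype Y] [DecidableEq Y] [Fintype I] [DecidableEq I]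
  [Nonempty Y] [Nonempty I] (P : Sys Y) (v f Q : ℕ) (ε e e' ζ κ x x' α ℓ : ℝ) (m q t a s J : ℕ)
  (β : I → (Fin m → I × Bool) → (Y → Bool) → ℝ) (μ : Hd Y I → ℝ), Base P v f → Dec P q ε →
  0 ≤ ε → q * v ≤ Q → q * v * f ≤ Q →
  0 ≤ e → e ≤ 1 → 0 ≤ e' → e' < 1 / 2 → 0 < ζ → ζ < 1 → 0 < κ → 0 < x → x ≤ 1 → 1 ≤ x' → 0 < α →
  Real.log (Fintype.card Y) ≤ ℓ → 0 < t → 0 < s → 0 < J → (∀ i z, β i z ∈ Ach q) →
  (∀ h, 0 ≤ μ h ∧ (μ h ≠ 0 → h.1 ∈ P.A)) →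
  ∃ β' : I → (Fin J → I × Bool) → (Y → Bool) → ℝ, (∀ i z, β' i z ∈ Ach (J * s * v)) ∧
    ∑ h, μ h * advI e β h ≤ ∑ h, μ h * advI e' β' h +
      (err0 e' ζ κ x x' α ℓ m Q t a s J + 2 * ε * (J * s * v + t * Q + 2 * q)) * ∑ h, μ h +
      (∑ c, Ph P.A fun O => μ (O, c)) / (x * t)

def TDef : Prop := ∀ (Y U : Type) [Fintype Y] [DecidableEq Y] [Fintype U] (A : Finset (Y → Bool))
  (μ : (Y → Bool) → U → ℝ) (L : ℝ), (∀ O u, 0 ≤ μ O u) → ∑ O, ∑ u, μ O u = 1 →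
  (∀ O, (∑ u, μ O u) * A.card ≤ L) → A.Nonempty →
    ∑ u, Ph A (fun O => μ O u) ≤ Real.log L + Real.log (Fintype.card U)

def TPool : Prop := ∀ (n m J Q : ℕ) (Y I : Type) [Fintype Y] [DecidableEq Y] [Fintype I]
  [DecidableEq I] (A0 : Finset (Y → Bool)) (e e' E0 E1 γ L : ℝ)
  (A : Sample n m → X n → (Y → Bool) → ℝ), A0.Nonempty → 0 ≤ E1 →
  (∀ (xs : I → X n) (μ : Hd Y I → ℝ), (∀ h, 0 ≤ μ h ∧ (μ h ≠ 0 → h.1 ∈ A0)) →
    ∃ β' : I → (Fin J → I × Bool) → (Y → Bool) → ℝ, (∀ i z, β' i z ∈ Ach Q) ∧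
      ∑ h, μ h * advI e (onPool A xs) h ≤ ∑ h, μ h * advI e' β' h + E0 * ∑ h, μ h +
        (∑ c, Ph A0 fun O => μ (O, c)) * E1) →
  ∃ β : (I → X n) → I → (Fin J → I × Bool) → (Y → Bool) → ℝ, (∀ xs i z, β xs i z ∈ Ach Q) ∧
    ∀ μ : (I → X n) → Hd Y I → ℝ, (∀ xs h, 0 ≤ μ xs h ∧ (μ xs h ≠ 0 → h.1 ∈ A0)) →
      ∑ xs, ∑ h, μ xs h = 1 → (∀ O, (∑ xs, ∑ c, μ xs (O, c)) * A0.card ≤ L) →
      γ ≤ ∑ xs, ∑ h, μ xs h * advI e (onPool A xs) h →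
        γ - E0 - (Real.log L + Fintype.card I * ((n + 1) * Real.log 2)) * E1 ≤
          ∑ xs, ∑ h, μ xs h * advI e' (β xs) h

/-- the oracles on which `A` learns some target that `B` does not learn -/
def Bad {n m M : ℕ} {Y : Type} (Z : ℕ) (η : ℝ) (A : Sample n m → X n → (Y → Bool) → ℝ)
    (B : Sample n M → X n → (Y → Bool) → ℝ) (O : Y → Bool) : Prop :=
  ∃ c : X n → Bool,
    (∀ D : X n → ℝ, IsProb D → mis η c D (fun S x => A S x O) ≤ 1 / 2 - 2 / (Z : ℝ)) ∧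
    ∃ (η' : ℝ) (D : X n → ℝ), 0 ≤ η' ∧ η' ≤ 1 / 2 - 1 / (Z : ℝ) ∧ IsProb D ∧
      1 / 2 - 1 / (Z : ℝ) ^ 93 < mis η' c D fun S x => B S x O

def TAll : Prop := ∀ (Y : Type) [Fintype Y] [DecidableEq Y] [Nonempty Y] (P : Sys Y)
  (v f q n m Z : ℕ) (ε η : ℝ) (A : Sample n m → X n → (Y → Bool) → ℝ), Base P v f → Dec P q ε →
  P.A.Nonempty → 0 ≤ ε → ε * Z ^ 151 ≤ 1 → 10 ≤ Z → n ≤ Z → m ≤ Z → q ≤ Z → v ≤ Z → q * v ≤ Z →
  q * v * f ≤ Z → Real.log (Fintype.card Y) ≤ Z → 0 ≤ η → η ≤ 1 → (∀ S x, A S x ∈ Ach q) →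
  ∃ B : Sample n (Z ^ 87 + 1) → X n → (Y → Bool) → ℝ, (∀ S x, B S x ∈ Ach (Z ^ 150)) ∧
    {O | O ∈ P.A ∧ Bad Z η A B O}.ncard * 2 ^ Z ≤ P.A.card

/-! ### Families of permutations -/

section
variable {J : Type} [Fintype J] [DecidableEq J] {B : J → Type} [∀ j, Fintype (B j)]
  [∀ j, DecidableEq (B j)]

/-- the families that agree with `ω0` at the positions in `D` -/
def Cy (D : Finset (Σ j, B j)) (ω0 : (j : J) → Equiv.Perm (B j)) :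
    Finset ((j : J) → Equiv.Perm (B j)) := univ.filter fun ω => ∀ p ∈ D, ω p.1 p.2 = ω0 p.1 p.2

def fixP (ω0 : (j : J) → Equiv.Perm (B j)) (p : Σ j, B j) (ω : (j : J) → Equiv.Perm (B j)) :
    (j : J) → Equiv.Perm (B j) :=
  Function.update ω p.1 (Equiv.swap (ω p.1 p.2) (ω0 p.1 p.2) * ω p.1)

/-- some query along the run finds a listed value at a position not yet known -/
def luck {Y : Type} (ans : ((j : J) → Equiv.Perm (B j)) → Y → Bool)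
    (rev : ((j : J) → Equiv.Perm (B j)) → Y → Finset (Σ j, B j))
    (E : Y → (p : Σ j, B j) → B p.1 → Prop) :
    DT Y → Finset (Σ j, B j) → ((j : J) → Equiv.Perm (B j)) → Prop
  | .leaf _, _, _ => False
  | .node y t f, D, ω => (∃ p, p ∉ D ∧ E y p (ω p.1 p.2)) ∨
      (if ans ω y then luck ans rev E t (D ∪ rev ω y) ω else luck ans rev E f (D ∪ rev ω y) ω)

theorem mem_Cy {D : Finset (Σ j, B j)} {ω0 ω : (j : J) → Equiv.Perm (B j)} :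
    ω ∈ Cy D ω0 ↔ ∀ p ∈ D, ω p.1 p.2 = ω0 p.1 p.2 := by simp only [Cy, mem_filter, mem_univ, true_and]

end

def CFix : Prop := ∀ (J : Type) [Fintype J] [DecidableEq J] (B : J → Type) [∀ j, Fintype (B j)]
  [∀ j, DecidableEq (B j)] (D : Finset (Σ j, B j)) (ω0 : (j : J) → Equiv.Perm (B j))
  (p : Σ j, B j), p ∉ D →
    (∀ F : ((j : J) → Equiv.Perm (B j)) → ℝ,
      avg (Cy (insert p D) ω0) F = avg (Cy D ω0) fun ω => F (fixP ω0 p ω)) ∧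
    ∀ u : B p.1, (avg (Cy D ω0) fun ω => ind (ω p.1 p.2 = u)) *
      (Fintype.card (B p.1) - ((univ.filter fun x : B p.1 => (⟨p.1, x⟩ : Σ j, B j) ∈ D).card : ℝ))
        ≤ 1

def CPhi : Prop := ∀ (J : Type) [Fintype J] [DecidableEq J] (B : J → Type) [∀ j, Fintype (B j)]
  [∀ j, DecidableEq (B j)] (D Δ : Finset (Σ j, B j)) (ω0 : (j : J) → Equiv.Perm (B j)),
  Disjoint D Δ → ∃ Φ : ((j : J) → Equiv.Perm (B j)) → (j : J) → Equiv.Perm (B j),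
    (∀ F : ((j : J) → Equiv.Perm (B j)) → ℝ,
      avg (Cy (D ∪ Δ) ω0) F = avg (Cy D ω0) fun ω => F (Φ ω)) ∧
    ∀ ω (p : Σ j, B j), p ∉ Δ → (∀ x : B p.1, (⟨p.1, x⟩ : Σ j, B j) ∈ Δ → ω p.1 p.2 ≠ ω0 p.1 x) →
      Φ ω p.1 p.2 = ω p.1 p.2

def CLuck : Prop := ∀ (J : Type) [Fintype J] [DecidableEq J] (B : J → Type) [∀ j, Fintype (B j)]
  [∀ j, DecidableEq (B j)] (Y : Type) (ans : ((j : J) → Equiv.Perm (B j)) → Y → Bool)
  (rev : ((j : J) → Equiv.Perm (B j)) → Y → Finset (Σ j, B j))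
  (E : Y → (p : Σ j, B j) → B p.1 → Prop) (S : Finset (Σ j, B j)) (K : ℕ) (e : ℝ), 0 < K →
  (∀ ω y, (rev ω y).card ≤ 2) →
  (∀ ω ω' y, (∀ p ∈ rev ω y, ω' p.1 p.2 = ω p.1 p.2) → rev ω' y = rev ω y ∧ ans ω' y = ans ω y) →
  (∀ y, ∑ p, ∑ u, ind (E y p u) ≤ e) → 0 ≤ e →
  (∀ p : Σ j, B j, p ∉ S → K ≤ Fintype.card (B p.1) ∧ ∀ x : B p.1, (⟨p.1, x⟩ : Σ j, B j) ∉ S) →
  ∀ (t : DT Y) (D : Finset (Σ j, B j)) (ω0 : (j : J) → Equiv.Perm (B j)), S ⊆ D →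
    2 * ((D \ S).card + 2 * t.depth) ≤ K →
    (avg (Cy D ω0) fun ω => ind (luck ans rev E t D ω)) ≤ t.depth * e * 2 / K

/-! ### The trapdoor permutation oracle -/

def tdp0 {l : ℕ} (ω : World l) : TQ l → Bool
  | ⟨k, .inl sk, i⟩ => ω ⟨k, none⟩ sk i
  | ⟨k, .inr (.inl (pk, x)), i⟩ => ω ⟨k, some pk⟩ x i
  | ⟨k, .inr (.inr (sk, y)), i⟩ => (ω ⟨k, some (ω ⟨k, none⟩ sk)⟩).symm y i

theorem tdp_eq {l : ℕ} (ω : World l) : tdp0 ω = tdp ω := by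
  funext y
  rcases y with ⟨k, (sk | ⟨pk, x⟩ | ⟨sk, y⟩), i⟩ <;> rfl

abbrev Pos (l : ℕ) : Type := Σ j : Idx l, X j.1

instance decTQ (l : ℕ) : DecidableEq (TQ l) := Classical.decEq _

section
variable {l : ℕ}

def atom (ω : World l) : TQ l → Pos l
  | ⟨k, .inl sk, _⟩ => ⟨⟨k, none⟩, sk⟩
  | ⟨k, .inr (.inl (pk, x)), _⟩ => ⟨⟨k, some pk⟩, x⟩
  | ⟨k, .inr (.inr (sk, y)), _⟩ =>
      ⟨⟨k, some (ω ⟨k, none⟩ sk)⟩, (ω ⟨k, some (ω ⟨k, none⟩ sk)⟩).symm y⟩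

def fwd : TQ l → Pos l
  | ⟨k, .inl sk, _⟩ => ⟨⟨k, none⟩, sk⟩
  | ⟨k, .inr (.inl (pk, x)), _⟩ => ⟨⟨k, some pk⟩, x⟩
  | ⟨k, .inr (.inr (sk, _)), _⟩ => ⟨⟨k, none⟩, sk⟩

def tgt : TQ l → Option (Σ k : Fin (l + 1), X k)
  | ⟨k, .inr (.inr (_, y)), _⟩ => some ⟨k, y⟩
  | _ => none

def clT : TQ l → Finset (TQ l)
  | ⟨k, .inr (.inr (sk, y)), _⟩ => univ.image (fun i => ⟨k, .inr (.inr (sk, y)), i⟩) ∪
      univ.image fun i => ⟨k, .inl sk, i⟩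
  | ⟨k, u, _⟩ => univ.image fun i => ⟨k, u, i⟩

def revT (ω : World l) (y : TQ l) : Finset (Pos l) := {fwd y, atom ω y}

def Ev (Δ : Finset (Pos l)) (ω0 : World l) (y : TQ l) (p : Pos l) (u : X p.1.1) : Prop :=
  (p = fwd y ∧ ((∃ x, (⟨p.1, x⟩ : Pos l) ∈ Δ ∧ ω0 p.1 x = u) ∨
    ∃ x, (⟨⟨p.1.1, some u⟩, x⟩ : Pos l) ∈ Δ)) ∨ (p ∈ Δ ∧ tgt y = some ⟨p.1.1, u⟩)

def Small (l K : ℕ) : Finset (Pos l) := univ.filter fun p => 2 ^ (p.1.1 : ℕ) < K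

def sysT (K : ℕ) (ω0 : World l) : Sys (TQ l) where
  A := (Cy (Small l K) ω0).image tdp0
  cl := clT
  same O y y' := y = y' ∨ ∃ ω : World l, tdp0 ω = O ∧ atom ω y = atom ω y'

def Dr (ρ : TQ l → Option Bool) (ω : World l) : Finset (Pos l) :=
  (univ.filter fun y => ρ y ≠ none).image (atom ω)

def RelPos (D Δ : Finset (Pos l)) (ω0 : World l) (y : TQ l) : Prop :=
  (∀ ω ∈ Cy D ω0, atom ω y ∉ D) ∧ ∀ ω ∈ Cy (D ∪ Δ) ω0, atom ω y ∈ Δ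

end

def CStab : Prop := ∀ l : ℕ, Function.Injective (tdp0 (l := l)) ∧
  (∀ (ω ω' : World l) (y : TQ l), (∀ p ∈ revT ω y, ω' p.1 p.2 = ω p.1 p.2) →
    atom ω' y = atom ω y ∧ revT ω' y = revT ω y ∧ tdp0 ω' y = tdp0 ω y) ∧
  (∀ (ω ω' : World l) (y : TQ l), (∀ y' ∈ clT y, tdp0 ω' y' = tdp0 ω y') →
    ∀ p ∈ revT ω y, ω' p.1 p.2 = ω p.1 p.2) ∧
  ∀ (ω : World l) (y : TQ l), ∃ y' ∈ clT y, atom ω y' = fwd y

def CCount : Prop := ∀ (l : ℕ) (Δ : Finset (Pos l)) (ω0 : World l) (y : TQ l),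
  ∑ p, ∑ u, ind (Ev Δ ω0 y p u) ≤ 3 * (Δ.card : ℝ)

def CBase : Prop := ∀ (l K : ℕ) (ω0 : World l), Base (sysT K ω0) (2 * l) (2 * l + 1)

def CCell : Prop := ∀ (l K : ℕ) (ω0 ω1 : World l) (ρ : TQ l → Option Bool),
  tdp0 ω1 ∈ cell (sysT K ω0) ρ →
    cell (sysT K ω0) ρ = (Cy (Small l K ∪ Dr ρ ω1) ω1).image tdp0 ∧
    ∀ ω ∈ Cy (Small l K ∪ Dr ρ ω1) ω1, ∀ y, Kn (sysT K ω0) ρ (tdp0 ω) y ↔ atom ω y ∈ Dr ρ ω1

def CDet : Prop := ∀ (l K : ℕ) (ω0 ω1 ω ω' : World l) (D Δ : Finset (Pos l)) (t : DT (TQ l)),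
  Disjoint D Δ → ω ∈ Cy D ω1 →
  (∀ p : Pos l, p ∉ Δ → (∀ x, (⟨p.1, x⟩ : Pos l) ∈ Δ → ω p.1 p.2 ≠ ω1 p.1 x) →
    ω' p.1 p.2 = ω p.1 p.2) →
  ¬ luck tdp0 revT (Ev Δ ω1) t D ω → t.eval (tdp0 ω') = t.eval (tdp0 ω) ∨
    ∃ y, RelPos D Δ ω1 y ∧ y ∈ qsP (sysT K ω0) t (tdp0 ω') ∧ y ∈ qsP (sysT K ω0) t (tdp0 ω)

def CDec : Prop := ∀ (l K q : ℕ) (ω0 : World l), 0 < K → Dec (sysT K ω0) q (6 * (q + 1) / K)

def CSmall : Prop := ∀ (l K Q L : ℕ) (T : Type) (bad : (T → (TQ l → Bool) → ℝ) →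
    (TQ l → Bool) → Prop),
  (∀ B B' O, (∀ a, B a O = B' a O) → bad B O → bad B' O) →
  (∀ ω0 : World l, ∃ B : T → (TQ l → Bool) → ℝ, (∀ a, B a ∈ Ach Q) ∧
    {O | O ∈ (sysT K ω0).A ∧ bad B O}.ncard * L ≤ (sysT K ω0).A.card) →
  ∃ B : T → (TQ l → Bool) → ℝ, (∀ a, B a ∈ Ach (Q + (2 * l + 1) ^ 2 * K ^ 2)) ∧
    {ω : World l | bad B (tdp0 ω)}.ncard * L ≤ Fintype.card (World l)

end

end Pool.Agent.MP_9f8ce8_lc.Rom
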