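import Pool.Agent.MP_9f8ce8_lc.Rom.St2

set_option autoImplicit false
set_option linter.unusedSectionVars false

namespace Pool.Agent.MP_9f8ce8_lc.Rom

open Finset Cap

section

theorem ins_TSet {Y : Type} [DecidableEq Y] (y : Y) (S : Finset Y) (O : Y → Bool) :
    restr (insert y S) O = Function.update (restr S O) y (some (O y)) := by
  funext z
  by_cases h : z = y
  · subst h; simp [restr]
  · simp [restr, h]

theorem tSet : TSet := by
  intro Y _ _ q S
  induction S using Finset.induction_on with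
  | empty => exact fun f hf => hf fun _ => none
  | insert y S hy ih =>
    intro f hf
    have h := (sAch Y (q + S.card)).2.2.2.2.1 y
      (fun a O => f (Function.update (restr S O) y (some a)) O)
      fun a => ih (fun ω => f (Function.update ω y (some a))) fun ω => hf _
    simp only [card_insert_of_notMem hy, ins_TSet]
    exact h

end

section

theorem iff_TG1 {Y : Type} [DecidableEq Y] {P : Sys Y} (hs : ∀ y, y ∈ P.cl y) (t : DT Y)
    (O O' : Y → Bool) : (∀ y ∈ qsP P t O, O' y = O y) ↔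
      restr (qsP P t O') O' = restr (qsP P t O) O := by
  constructor
  · intro h
    funext y
    rw [(agreeP hs t h).1]
    unfold restr
    split_ifs with hy
    · rw [h y hy]
    · rfl
  · intro h y hy
    have := congrFun h y
    unfold restr at this
    rw [if_pos hy] at this
    split_ifs at this
    exact Option.some.inj this

theorem cell_TG1 {Y : Type} [Fintype Y] [DecidableEq Y] {P : Sys Y} {v f : ℕ} (hB : Base P v f)
    (t : DT Y) (ρ : Y → Option Bool) (O : Y → Bool) (hO : O ∈ cell P ρ) (O' : Y → Bool) :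
    O' ∈ cell P (merge ρ (restr (qsP P t O) O)) ↔
      O' ∈ cell P ρ ∧ restr (qsP P t O') O' = restr (qsP P t O) O := by
  rw [mem_cell_merge (qsP_closed hB.idem t O) hO, iff_TG1 hB.self]

theorem tG1 : TG1 := by
  intro Y _ _ P v f R _ w tr ρ V ψ x hB hw hV h1 h2 hx0 hx1
  have H := fun r => sCh Y (Y → Option Bool) (cell P ρ) (fun ω => cell P (merge ρ ω))
    (fun O => restr (qsP P (tr r) O) O) V
    (ψ r) x hV (fun O hO O' => cell_TG1 hB (tr r) ρ O hO O') (h1 r) (h2 r) hx0 hx1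
  have hom : ∀ r (ω : Y → Option Bool),
      Ph (cell P (merge ρ ω)) (fun O => V O * (w r * ind (restr (qsP P (tr r) O) O = ω))) =
        w r * Ph (cell P (merge ρ ω)) (fun O => V O * ind (restr (qsP P (tr r) O) O = ω)) := by
    intro r ω
    have := (sCh Y Unit (cell P (merge ρ ω)) (fun _ => cell P (merge ρ ω)) (fun _ => ())
      (fun O => V O * ind (restr (qsP P (tr r) O) O = ω)) (fun _ => 0) 0
      (fun O => ⟨mul_nonneg (hV O).1 (ind_nonneg _), fun hne => by
        have a : V O ≠ 0 := left_ne_zero_of_mul hne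
        have b : restr (qsP P (tr r) O) O = ω := by
          by_contra hb
          exact hne (by rw [ind_neg hb, mul_zero])
        rw [← b]
        exact (cell_TG1 hB (tr r) ρ O ((hV O).2 a) O).2 ⟨(hV O).2 a, rfl⟩⟩)
      (fun O _ O' => by simp) (fun _ => by simp) (fun _ _ _ => rfl) le_rfl zero_le_one).2.1
      (w r) (hw.1 r)
    rw [← this]
    congr 1
    funext O
    ring
  have h0 : 0 ≤ Ph (cell P ρ) V := (sCh Y Unit (cell P ρ) (fun _ => cell P ρ) (fun _ => ()) V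
    (fun _ => 0) 0 hV (fun O _ O' => by simp) (fun _ => by simp) (fun _ _ _ => rfl) le_rfl
    zero_le_one).1
  refine ⟨h0, ?_⟩
  have hs := sum_le_sum fun r (_ : r ∈ univ) => mul_le_mul_of_nonneg_left (H r).2.2 (hw.1 r)
  have e1 : x * ∑ O, V O * ∑ r, w r * ψ r O = ∑ r, w r * (x * ∑ O, V O * ψ r O) := by
    simp only [mul_sum]
    rw [sum_comm]
    exact sum_congr rfl fun r _ => sum_congr rfl fun O _ => by ring
  have e2 : gopP P w tr (fun ρ' V' => Ph (cell P ρ') V') ρ V = ∑ r, w r *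
      ∑ ω, Ph (cell P (merge ρ ω)) (fun O => V O * ind (restr (qsP P (tr r) O) O = ω)) := by
    simp only [gopP, hom, mul_sum]
  have e3 : x * ((∑ O, V O) * ∑ r, w r * avg (cell P ρ) (ψ r)) =
      ∑ r, w r * (x * ((∑ O, V O) * ((∑ O ∈ cell P ρ, ψ r O) / (cell P ρ).card))) := by
    rw [mul_sum univ (fun r => w r * avg (cell P ρ) (ψ r)), mul_sum]
    exact sum_congr rfl fun r _ => by rw [avg]; ring
  have e4 : x ^ 2 * ∑ O, V O + Ph (cell P ρ) V =
      ∑ r, w r * (x ^ 2 * ∑ O, V O + Ph (cell P ρ) V) := by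
    rw [← sum_mul, hw.2, one_mul]
  rw [e1, e2, add_assoc, e3, e4, ← sum_add_distrib, ← sum_add_distrib]
  refine le_trans (le_of_eq (sum_congr rfl fun r _ => by ring)) (hs.trans (le_of_eq ?_))
  exact sum_congr rfl fun r _ => by ring

end

section

theorem restr_TG2 {Y : Type} [DecidableEq Y] {P : Sys Y} (hs : ∀ y, y ∈ P.cl y) (t : DT Y)
    {O O' : Y → Bool} (h : restr (qsP P t O) O = restr (qsP P t O') O') :
    qsP P t O' = qsP P t O ∧ t.eval O' = t.eval O := by
  refine agreeP hs t fun y hy => ?_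
  have h1 := congrFun h y
  unfold restr at h1
  rw [if_pos hy] at h1
  split_ifs at h1 with h2
  exact (Option.some.inj h1).symm

theorem av_TG2 {Y : Type} [Fintype Y] [DecidableEq Y] (P : Sys Y) (ρ : Y → Option Bool)
    (t : DT Y) (p r : Y → Prop) (f g e : (Y → Bool) → ℝ)
    (h : ∀ O, f O ≤ g O + 2 * ∑ y, ind (p y) * (ind (y ∈ qsP P t O) * ind (r y)) + 2 * e O) :
    avg (cell P ρ) f ≤ avg (cell P ρ) g + 2 * ∑ y, ind (p y) * (hitP P ρ t y * ind (r y)) +
      2 * avg (cell P ρ) e := by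
  have e1 : ∑ y, ind (p y) * (hitP P ρ t y * ind (r y))
      = (∑ O ∈ cell P ρ, ∑ y, ind (p y) * (ind (y ∈ qsP P t O) * ind (r y)))
        / (cell P ρ).card := by
    rw [sum_comm, sum_div]
    refine sum_congr rfl fun y _ => ?_
    unfold hitP avg
    rw [← mul_sum, ← sum_mul]
    ring
  unfold avg
  rw [e1, ← mul_div_assoc, ← mul_div_assoc, ← add_div, ← add_div, mul_sum, mul_sum,
    ← sum_add_distrib, ← sum_add_distrib]
  exact div_le_div_of_nonneg_right (sum_le_sum fun O _ => h O) (Nat.cast_nonneg _)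

theorem tG2 (h : TG1) : TG2 := by
  classical
  intro Y _ _ P v f q ε R _ w tr s Good ρ ρ' V x hB hD hq hw hV hc hρ hx0 hx1
  set ψ : R → (Y → Bool) → ℝ := fun r O =>
    if ∃ y ∈ qsP P (tr r) O, Rel P ρ ρ' y ∧ ¬ Good y r then -1
    else sg ((tr r).eval O) * sg (s r) with hψ
  have a1 : ∀ r O, |ψ r O| ≤ 1 := by
    intro r O
    simp only [hψ]
    split_ifs
    · simp
    · exact abs_le.2 (sgsg_G2 _ _)
  have a2 : ∀ r O O', restr (qsP P (tr r) O) O = restr (qsP P (tr r) O') O' →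
      ψ r O = ψ r O' := by
    intro r O O' e
    obtain ⟨e1, e2⟩ := restr_TG2 hB.self (tr r) e
    simp only [hψ, e1, e2]
  have key := (h Y P v f R w tr ρ' V ψ x hB hw hV a1 a2 hx0 hx1).2
  have real : ∀ r O, sg ((tr r).eval O) * sg (s r) ≤ ψ r O + 2 * ∑ y,
      ind (Rel P ρ ρ' y) * (ind (y ∈ qsP P (tr r) O) * ind (¬ Good y r)) := by
    intro r O
    simp only [hψ]
    split_ifs with c
    · obtain ⟨y, c1, c2, c3⟩ := c
      have := one_le_G2 (fun y => Rel P ρ ρ' y) (fun y => y ∈ qsP P (tr r) O)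
        (fun y => ¬ Good y r) y c2 c1 c3
      linarith [(sgsg_G2 ((tr r).eval O) (s r)).2]
    · linarith [zero_le_G2 (fun y => Rel P ρ ρ' y) (fun y => y ∈ qsP P (tr r) O)
        (fun y => ¬ Good y r)]
  have fresh : ∀ r O O', ψ r O' ≤ sg ((tr r).eval O) * sg (s r) + 2 * ∑ y,
      ind (Rel P ρ ρ' y) * (ind (y ∈ qsP P (tr r) O) * ind (Good y r)) +
      2 * ind (¬ ((tr r).eval O' = (tr r).eval O ∨
        ∃ y, Rel P ρ ρ' y ∧ y ∈ qsP P (tr r) O' ∧ y ∈ qsP P (tr r) O)) := by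
    intro r O O'
    have z := zero_le_G2 (fun y => Rel P ρ ρ' y)
      (fun y => y ∈ qsP P (tr r) O) (fun y => Good y r)
    have b := sgsg_G2 ((tr r).eval O) (s r)
    have b' := sgsg_G2 ((tr r).eval O') (s r)
    have i0 := ind_nonneg (¬ ((tr r).eval O' = (tr r).eval O ∨
        ∃ y, Rel P ρ ρ' y ∧ y ∈ qsP P (tr r) O' ∧ y ∈ qsP P (tr r) O))
    simp only [hψ]
    split_ifs with c
    · linarith [b.1]
    · by_cases k : (tr r).eval O' = (tr r).eval O ∨
          ∃ y, Rel P ρ ρ' y ∧ y ∈ qsP P (tr r) O' ∧ y ∈ qsP P (tr r) O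
      · rcases k with e | ⟨y, c1, c2, c3⟩
        · have e' : sg ((tr r).eval O') = sg ((tr r).eval O) := by rw [e]
          rw [e']
          linarith
        · have g : Good y r := by
            by_contra g
            exact c ⟨y, c2, c1, g⟩
          have := one_le_G2 (fun y => Rel P ρ ρ' y)
            (fun y => y ∈ qsP P (tr r) O) (fun y => Good y r) y c1 c3 g
          linarith [b'.2, b.1]
      · rw [ind_pos k]
        linarith [b'.2, b.1]
  set A : (Y → Bool) → ℝ := fun O => ∑ r, w r * ∑ y,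
    ind (Rel P ρ ρ' y) * (ind (y ∈ qsP P (tr r) O) * ind (¬ Good y r)) with hA
  set C : ℝ := ∑ r, w r * ∑ y,
    ind (Rel P ρ ρ' y) * (hitP P ρ (tr r) y * ind (Good y r)) with hC
  have e1 : ∀ O, ∑ y, ind (Rel P ρ ρ' y) * ∑ r, w r *
      (ind (y ∈ qsP P (tr r) O) * ind (¬ Good y r) + hitP P ρ (tr r) y * ind (Good y r))
        = A O + C := by
    intro O
    simp only [hA, hC, mul_sum]
    rw [sum_comm, ← sum_add_distrib]
    refine sum_congr rfl fun r _ => ?_
    rw [← sum_add_distrib]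
    exact sum_congr rfl fun y _ => by ring
  have b1 : ∑ O, V O * ∑ r, w r * (sg ((tr r).eval O) * sg (s r))
      ≤ ∑ O, V O * ∑ r, w r * ψ r O + 2 * ∑ O, V O * A O := by
    rw [mul_sum, ← sum_add_distrib]
    refine sum_le_sum fun O _ => ?_
    have b2 : ∑ r, w r * (sg ((tr r).eval O) * sg (s r)) ≤ ∑ r, w r * ψ r O + 2 * A O := by
      simp only [hA]
      rw [mul_sum, ← sum_add_distrib]
      refine sum_le_sum fun r _ => ?_
      have := mul_le_mul_of_nonneg_left (real r O) (hw.1 r)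
      linarith
    have := mul_le_mul_of_nonneg_left b2 (hV O).1
    linarith
  have v0 : 0 ≤ ∑ O, V O := sum_nonneg fun O _ => (hV O).1
  have b3 : (∑ O, V O) * ∑ r, w r * avg (cell P ρ') (ψ r) ≤ (∑ O, V O) *
      (∑ r, w r * avg (cell P ρ) (fun O => sg ((tr r).eval O) * sg (s r)) + 2 * C +
        2 * (ε * (sz ρ' + 2 * q))) := by
    by_cases hn : (cell P ρ').Nonempty
    · refine mul_le_mul_of_nonneg_left ?_ v0
      have e3 : 2 * (ε * (sz ρ' + 2 * q)) = ∑ r, w r * (2 * (ε * (sz ρ' + 2 * q))) := by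
        rw [← sum_mul, hw.2, one_mul]
      simp only [hC]
      rw [e3, mul_sum, ← sum_add_distrib, ← sum_add_distrib]
      refine sum_le_sum fun r _ => ?_
      obtain ⟨Φ, p1, p2⟩ := hD ρ ρ' (tr r) (hq r) hc hρ hn
      have p3 := av_TG2 P ρ (tr r) (fun y => Rel P ρ ρ' y) (fun y => Good y r) _ _ _
        (fun O => fresh r O (Φ O))
      rw [← p1 (ψ r)] at p3
      have := mul_le_mul_of_nonneg_left (p3.trans (add_le_add_right
        (mul_le_mul_of_nonneg_left p2 zero_le_two) _)) (hw.1 r)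
      linarith
    · have z : ∑ O, V O = 0 := sum_eq_zero fun O _ => by
        by_contra g
        exact hn ⟨O, (hV O).2 g⟩
      rw [z, zero_mul, zero_mul]
  have b6 : ∑ O, V O * A O + (∑ O, V O) * C ≤ ∑ O, V O * ∑ y,
      ind (Opn P ρ y ∧ Kn P ρ' O y) * ∑ r, w r *
        (ind (y ∈ qsP P (tr r) O) * ind (¬ Good y r) + hitP P ρ (tr r) y * ind (Good y r)) := by
    rw [sum_mul, ← sum_add_distrib]
    refine sum_le_sum fun O _ => ?_
    rw [← mul_add, ← e1]
    rcases eq_or_ne (V O) 0 with g | g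
    · rw [g, zero_mul, zero_mul]
    refine mul_le_mul_of_nonneg_left (sum_le_sum fun y _ => ?_) (hV O).1
    refine mul_le_mul_of_nonneg_right ?_ (sum_nonneg fun r _ => mul_nonneg (hw.1 r)
      (add_nonneg (mul_nonneg (ind_nonneg _) (ind_nonneg _)) (mul_nonneg
        (div_nonneg (sum_nonneg fun _ _ => ind_nonneg _) (Nat.cast_nonneg _)) (ind_nonneg _))))
    by_cases k : Rel P ρ ρ' y
    · rw [ind_pos k, ind_pos ⟨k.1, k.2 O ((hV O).2 g)⟩]
    · rw [ind_neg k]
      exact ind_nonneg _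
  have b4 := mul_le_mul_of_nonneg_left b1 hx0
  have b5 := mul_le_mul_of_nonneg_left b3 hx0
  have b7 := mul_le_mul_of_nonneg_left b6 hx0
  linarith

end

section

/-! The ghost argument for structured oracles: summing the one step inequality. -/

section
variable {Y : Type} [Fintype Y] [DecidableEq Y] {R : Type} [Fintype R] {P : Sys Y}

theorem sup_child_TG {v f : ℕ} (hB : Base P v f) {w : R → ℝ} (hw : IsProb w) (tr : R → DT Y)
    {ρ : Y → Option Bool} {V : (Y → Bool) → ℝ} (h : SupP P ρ V) (r : R) (ω : Y → Option Bool) :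
    SupP P (merge ρ ω) fun O => V O * (w r * ind (restr (qsP P (tr r) O) O = ω)) := by
  intro O
  refine ⟨mul_nonneg (h O).1 (mul_nonneg (hw.1 r) (ind_nonneg _)), fun hne => ?_⟩
  have h1 : V O ≠ 0 := left_ne_zero_of_mul hne
  have h2 : restr (qsP P (tr r) O) O = ω := by
    by_contra g
    apply hne
    simp only [ind_neg g, mul_zero]
  rw [← h2]
  exact (mem_cell_merge (qsP_closed hB.idem (tr r) O) ((h O).2 h1) O).2
    ⟨(h O).2 h1, fun _ _ => rfl⟩

theorem gop_lin_TG (w : R → ℝ) (tr : R → DT Y) (g : (Y → Option Bool) → (Y → Bool) → ℝ)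
    (ρ : Y → Option Bool) (V : (Y → Bool) → ℝ) :
    gopP P w tr (fun ρ' V' => ∑ O, V' O * g ρ' O) ρ V =
      ∑ O, V O * ∑ r, w r * g (merge ρ (restr (qsP P (tr r) O) O)) O := by
  unfold gopP
  simp only [mul_sum]
  rw [sum_comm (s := (univ : Finset (Y → Bool)))]
  refine sum_congr rfl fun r _ => ?_
  rw [sum_comm]
  refine sum_congr rfl fun O _ => ?_
  rw [sum_eq_single (restr (qsP P (tr r) O) O)]
  · rw [ind_pos rfl]; ring
  · intro ω _ hω
    rw [ind_neg (Ne.symm hω)]; ring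
  · simp

omit [Fintype Y] in
theorem ind_merge_TG (S : Finset Y) (ρ : Y → Option Bool) (O : Y → Bool) (y : Y) :
    ind (Kn P (merge ρ (restr S O)) O y) ≤ ind (Kn P ρ O y) + ind (∃ y' ∈ S, P.same O y y') := by
  by_cases h : Kn P (merge ρ (restr S O)) O y
  · obtain ⟨z, h1, h2⟩ := id h
    rw [ind_pos h]
    by_cases h3 : ρ z = none
    · have : z ∈ S := by
        by_contra g
        simp [merge, restr, h3, g] at h1
      rw [ind_pos (p := ∃ y' ∈ S, P.same O y y') ⟨z, this, h2⟩]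
      linarith [ind_nonneg (Kn P ρ O y)]
    · rw [ind_pos (p := Kn P ρ O y) ⟨z, h3, h2⟩]
      linarith [ind_nonneg (∃ y' ∈ S, P.same O y y')]
  · rw [ind_neg h]
    exact add_nonneg (ind_nonneg _) (ind_nonneg _)

omit [Fintype Y] in
theorem min_step_TG {w : R → ℝ} (hw : IsProb w) (tr : R → DT Y) (ρ : Y → Option Bool)
    (O : Y → Bool) (y : Y) (c : ℝ) :
    ∑ r, w r * min 1 (ind (Kn P (merge ρ (restr (qsP P (tr r) O) O)) O y) + c) ≤
      min 1 (ind (Kn P ρ O y) +
        (c + ∑ r, w r * ind (∃ y' ∈ qsP P (tr r) O, P.same O y y'))) := by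
  refine le_min ?_ ?_
  · refine le_trans (sum_le_sum fun r _ => ?_) hw.2.le
    exact mul_le_of_le_one_right (hw.1 r) (min_le_left _ _)
  · have e : ind (Kn P ρ O y) + (c + ∑ r, w r * ind (∃ y' ∈ qsP P (tr r) O, P.same O y y')) =
        ∑ r, w r * (ind (Kn P ρ O y) + ind (∃ y' ∈ qsP P (tr r) O, P.same O y y') + c) := by
      simp only [mul_add, sum_add_distrib, ← sum_mul, hw.2]; ring
    rw [e]
    refine sum_le_sum fun r _ => mul_le_mul_of_nonneg_left ((min_le_right _ _).trans ?_) (hw.1 r)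
    linarith [ind_merge_TG (P := P) (qsP P (tr r) O) ρ O y]

/-- the accumulated error term after `u` ghost runs -/
noncomputable def acc_TG (P : Sys Y) (w : R → ℝ) (tr : R → DT Y) (φ : Y → (Y → Bool) → ℝ) (u : ℕ)
    (ρ : Y → Option Bool) (O : Y → Bool) : ℝ :=
  ∑ y, ∑ j ∈ range u, min 1 (ind (Kn P ρ O y) +
    j * ∑ r, w r * ind (∃ y' ∈ qsP P (tr r) O, P.same O y y')) * φ y O

theorem acc_step_TG {w : R → ℝ} (hw : IsProb w) (tr : R → DT Y) (φ : Y → (Y → Bool) → ℝ)
    (hφ : ∀ y O, 0 ≤ φ y O) (u : ℕ) (ρ : Y → Option Bool) (O : Y → Bool) :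
    ∑ y, ind (Kn P ρ O y) * φ y O +
        ∑ r, w r * acc_TG P w tr φ u (merge ρ (restr (qsP P (tr r) O) O)) O ≤
      acc_TG P w tr φ (u + 1) ρ O := by
  unfold acc_TG
  have hm := fun y => min_step_TG (P := P) hw tr ρ O y
  generalize hα : (fun y => ∑ r, w r * ind (∃ y' ∈ qsP P (tr r) O, P.same O y y')) = α
  have hα' : ∀ y, ∑ r, w r * ind (∃ y' ∈ qsP P (tr r) O, P.same O y y') = α y :=
    fun y => congrFun hα y
  simp only [hα'] at hm ⊢
  simp only [mul_sum]
  rw [sum_comm (s := (univ : Finset R)), ← sum_add_distrib]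
  refine sum_le_sum fun y _ => ?_
  rw [sum_range_succ', add_comm, sum_comm]
  refine add_le_add (sum_le_sum fun j _ => ?_) ?_
  · simp only [← mul_assoc, ← sum_mul]
    refine mul_le_mul_of_nonneg_right ((hm y _).trans_eq ?_) (hφ y O)
    congr 2
    push_cast
    ring
  · simp only [Nat.cast_zero, zero_mul, add_zero]
    rw [min_eq_right (ind_le_one _)]

theorem sz_step_TG {v f q : ℕ} (hB : Base P v f) {w : R → ℝ} (hw : IsProb w) {tr : R → DT Y}
    (hq : ∀ r, (tr r).depth ≤ q) (u : ℕ) (ρ : Y → Option Bool) (O : Y → Bool) :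
    sz ρ + 2 * q + ∑ r, w r * (u * (sz (merge ρ (restr (qsP P (tr r) O) O)) +
      u * (q * v) + 2 * q)) ≤ (u + 1 : ℕ) * (sz ρ + (u + 1 : ℕ) * (q * v) + 2 * q) := by
  have h1 : ∑ r, w r * (u * (sz (merge ρ (restr (qsP P (tr r) O) O)) + u * (q * v) + 2 * q)) ≤
      ∑ r, w r * (u * (sz ρ + q * v + u * (q * v) + 2 * q)) := by
    refine sum_le_sum fun r _ => mul_le_mul_of_nonneg_left
      (mul_le_mul_of_nonneg_left ?_ (Nat.cast_nonneg _)) (hw.1 r)
    have a := sz_merge ρ (qsP P (tr r) O) O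
    have b : ((qsP P (tr r) O).card : ℝ) ≤ q * v := by
      exact_mod_cast (card_qsP hB.card (tr r) O).trans (Nat.mul_le_mul_right v (hq r))
    linarith
  rw [← sum_mul, hw.2, one_mul] at h1
  have h2 : (0 : ℝ) ≤ (u + 1) * (q * v) := by positivity
  push_cast
  nlinarith

theorem ghost_TG {v f : ℕ} (hB : Base P v f) {w : R → ℝ} (hw : IsProb w) (tr : R → DT Y)
    (ρ : Y → Option Bool) (ψ : (Y → Bool) → ℝ) (e : (Y → Option Bool) → (Y → Bool) → ℝ)
    (a : ℕ → (Y → Option Bool) → (Y → Bool) → ℝ) (a0 : ∀ ρ' O, a 0 ρ' O = 0)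
    (a1 : ∀ u ρ' O, e ρ' O + ∑ r, w r * a u (merge ρ' (restr (qsP P (tr r) O) O)) O ≤
      a (u + 1) ρ' O)
    (h0 : ∀ (ρ' : Y → Option Bool) V, SupP P ρ' V → 0 ≤ Ph (cell P ρ') V)
    (h : ∀ ρ' V, SupP P ρ' V → (∀ y b, ρ y = some b → ρ' y = some b) →
      ∑ O, V O * ψ O + gopP P w tr (fun ρ' V' => Ph (cell P ρ') V') ρ' V ≤
        Ph (cell P ρ') V + ∑ O, V O * e ρ' O) (u : ℕ) :
    ∀ ρ' V, SupP P ρ' V → (∀ y b, ρ y = some b → ρ' y = some b) →
      u * ∑ O, V O * ψ O ≤ Ph (cell P ρ') V + ∑ O, V O * a u ρ' O := by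
  induction u with
  | zero => intro ρ' V hs _; simpa [a0] using h0 ρ' V hs
  | succ u ih =>
    intro ρ' V hs hρ
    have h1 := h ρ' V hs hρ
    have h2 : u * gopP P w tr (fun _ V' => ∑ O, V' O * ψ O) ρ' V ≤
        gopP P w tr (fun ρ' V' => Ph (cell P ρ') V') ρ' V +
          gopP P w tr (fun ρ' V' => ∑ O, V' O * a u ρ' O) ρ' V := by
      unfold gopP
      rw [mul_sum, ← sum_add_distrib]
      refine sum_le_sum fun r _ => ?_
      rw [mul_sum, ← sum_add_distrib]
      refine sum_le_sum fun ω _ => ih _ _ (sup_child_TG hB hw tr hs r ω) fun y b hb => ?_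
      simp [merge, hρ y b hb]
    rw [gop_lin_TG w tr (fun _ O => ψ O), gop_lin_TG w tr (a u)] at h2
    simp only [← sum_mul, hw.2, one_mul] at h2
    have h3 : ∑ O, V O * e ρ' O +
        ∑ O, V O * ∑ r, w r * a u (merge ρ' (restr (qsP P (tr r) O) O)) O ≤
        ∑ O, V O * a (u + 1) ρ' O := by
      rw [← sum_add_distrib]
      refine sum_le_sum fun O _ => ?_
      rw [← mul_add]
      exact mul_le_mul_of_nonneg_left (a1 u ρ' O) (hs O).1
    push_cast
    linarith

end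

theorem ind_and_TG (p r : Prop) (c : ℝ) : ind r * (ind p * c) = ind (p ∧ r) * c := by
  by_cases g1 : p <;> by_cases g2 : r <;> simp [ind, g1, g2]

theorem lin_TG {Ω : Type} [Fintype Ω] (V g : Ω → ℝ) (c d : ℝ) :
    ∑ O, V O * (c * g O + d) = c * ∑ O, V O * g O + d * ∑ O, V O := by
  rw [mul_sum, mul_sum, ← sum_add_distrib]
  exact sum_congr rfl fun O _ => by ring

theorem tG (h : TG2) (h0 : TG1) : TG := by
  intro Y _ _ P v f q ε R _ w tr s Good ρ V x t hB hD hε hq hw hs hx hx1 ht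
  by_cases hV : ∀ O, V O = 0
  · simp [hV, Ph]
  obtain ⟨O₀, hO₀⟩ := not_forall.1 hV
  have hC : Closed P ρ := (mem_cell.1 ((hs O₀).2 hO₀)).2.1
  set b : ℝ := ∑ r, w r * avg (cell P ρ) fun O => sg ((tr r).eval O) * sg (s r) with hb
  set a : (Y → Bool) → ℝ := fun O => ∑ r, w r * (sg ((tr r).eval O) * sg (s r)) with ha
  set χ : Y → (Y → Bool) → ℝ := fun y O => ∑ r, w r *
    (ind (y ∈ qsP P (tr r) O) * ind (¬ Good y r) + hitP P ρ (tr r) y * ind (Good y r)) with hχ
  have χ0 : ∀ y O, 0 ≤ χ y O := fun y O => sum_nonneg fun r _ => mul_nonneg (hw.1 r)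
    (add_nonneg (mul_nonneg (ind_nonneg _) (ind_nonneg _)) (mul_nonneg
      (div_nonneg (sum_nonneg fun _ _ => ind_nonneg _) (Nat.cast_nonneg _)) (ind_nonneg _)))
  have e1 : ∀ V' : (Y → Bool) → ℝ, ∑ O, V' O * (x * a O - x * b - x ^ 2) =
      x * ∑ O, V' O * a O - x * ((∑ O, V' O) * b) - x ^ 2 * ∑ O, V' O := fun V' => by
    clear_value a b
    rw [sum_mul, mul_sum, mul_sum, mul_sum, ← sum_sub_distrib, ← sum_sub_distrib]
    exact sum_congr rfl fun O _ => by ring
  have key := ghost_TG hB hw tr ρ (fun O => x * a O - x * b - x ^ 2)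
    (fun ρ' O => 2 * x * ∑ y, ind (Kn P ρ' O y) * (ind (Opn P ρ y) * χ y O) +
      2 * x * ε * (sz ρ' + 2 * q))
    (fun u ρ' O => 2 * x * acc_TG P w tr (fun y O => ind (Opn P ρ y) * χ y O) u ρ' O +
      2 * x * ε * (u * (sz ρ' + u * (q * v) + 2 * q)))
    (fun ρ' O => by simp [acc_TG])
    (fun u ρ' O => by
      have k1 := mul_le_mul_of_nonneg_left (acc_step_TG (P := P) hw tr
        (fun y O => ind (Opn P ρ y) * χ y O) (fun y O => mul_nonneg (ind_nonneg _) (χ0 y O))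
        u ρ' O) (show 0 ≤ 2 * x by linarith)
      have k2 := mul_le_mul_of_nonneg_left (sz_step_TG hB hw hq u ρ' O)
        (show 0 ≤ 2 * x * ε by positivity)
      have k3 : ∀ A B : R → ℝ, ∑ r, w r * (2 * x * A r + 2 * x * ε * B r) =
          2 * x * ∑ r, w r * A r + 2 * x * ε * ∑ r, w r * B r := fun A B => by
        rw [mul_sum, mul_sum, ← sum_add_distrib]
        exact sum_congr rfl fun r _ => by ring
      rw [k3]
      rw [mul_add] at k1 k2
      linarith)
    (fun ρ' V' hs' => (h0 Y P v f R w tr ρ' V' (fun _ _ => 0) 0 hB hw hs' (fun _ _ => by simp)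
      (fun _ _ _ _ => rfl) le_rfl zero_le_one).1)
    (fun ρ' V' hs' hρ => by
      have h1 := h Y P v f q ε R w tr s Good ρ ρ' V' x hB hD hq hw hs' hC hρ hx.le hx1
      simp only [ind_and_TG]
      rw [e1, lin_TG]
      linarith) t ρ V hs fun _ _ g => g
  have h2 : ∀ O, V O ≠ 0 → acc_TG P w tr (fun y O => ind (Opn P ρ y) * χ y O) t ρ O ≤
      t * ∑ y, ind (Opn P ρ y) * ghP P w tr t O y * χ y O := fun O hO => by
    unfold acc_TG
    rw [mul_sum]
    refine sum_le_sum fun y _ => ?_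
    by_cases g : Opn P ρ y
    · have g' : ¬ Kn P ρ O y := g O ((hs O).2 hO)
      rw [ind_pos g, ind_neg g']
      have a0 : 0 ≤ ∑ r, w r * ind (∃ y' ∈ qsP P (tr r) O, P.same O y y') :=
        sum_nonneg fun r _ => mul_nonneg (hw.1 r) (ind_nonneg _)
      have := sum_le_card_nsmul (range t)
        (fun j => min 1 (0 + (j : ℝ) * ∑ r, w r * ind (∃ y' ∈ qsP P (tr r) O, P.same O y y')) *
          (1 * χ y O))
        (1 * ghP P w tr t O y * χ y O) fun j hj => by
          simp only [zero_add, one_mul]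
          refine mul_le_mul_of_nonneg_right (min_le_min le_rfl ?_) (χ0 y O)
          exact mul_le_mul_of_nonneg_right (by exact_mod_cast (mem_range.1 hj).le) a0
      simpa [ind_pos g] using this
    · simp [ind_neg g]
  have h3 : ∑ O, V O * acc_TG P w tr (fun y O => ind (Opn P ρ y) * χ y O) t ρ O ≤
      t * ∑ O, V O * ∑ y, ind (Opn P ρ y) * ghP P w tr t O y * χ y O := by
    rw [mul_sum]
    refine sum_le_sum fun O _ => ?_
    by_cases hO : V O = 0
    · simp [hO]
    rw [mul_left_comm]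
    exact mul_le_mul_of_nonneg_left (h2 O hO) (hs O).1
  rw [e1, lin_TG] at key
  have tp : (0 : ℝ) < t := by exact_mod_cast ht
  have xt : 0 < x * t := by positivity
  have h4 := mul_le_mul_of_nonneg_left h3 (show 0 ≤ 2 * x by linarith)
  change ∑ O, V O * a O ≤ (∑ O, V O) * b + x * ∑ O, V O + Ph (cell P ρ) V / (x * t) +
    2 * (ε * (sz ρ + t * (q * v) + 2 * q) * ∑ O, V O) +
    2 * ∑ O, V O * ∑ y, ind (Opn P ρ y) * ghP P w tr t O y * χ y O
  generalize (∑ O, V O * ∑ y, ind (Opn P ρ y) * ghP P w tr t O y * χ y O) = G at *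
  generalize (∑ O, V O * a O) = A at *
  generalize (∑ O, V O) = M at *
  generalize sz ρ + t * (q * v) + 2 * q = Z at *
  have h5 : A - M * b - x * M - 2 * (ε * Z * M) - 2 * G ≤ Ph (cell P ρ) V / (x * t) := by
    rw [le_div_iff₀ xt]
    nlinarith
  linarith

end

section

variable {Y I : Type} [Fintype Y] [DecidableEq Y] [Fintype I] [DecidableEq I] {P : Sys Y}

theorem sum_ind_TSpl (b : Y → Option Bool) : ∑ a, ind (b = a) = 1 := by
  simp [ind_eq]

theorem sum_q_TSpl {p : Y → ℝ} (hp : IsProb p) (O : Y → Bool) :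
    ∑ y, ∑ a, p y * ind (restr (P.cl y) O = a) = 1 := by
  simp only [← mul_sum, sum_ind_TSpl, mul_one, hp.2]

theorem qop_TSpl {v f : ℕ} (hB : Base P v f) {lam : St Y I → Y → ℝ} (hl : ∀ σ, IsProb (lam σ)) :
    SplP P (qopP P lam) := by
  refine ⟨fun F G σ => ?_, fun x F σ => ?_, fun F G h σ hσ => ?_, fun φ σ => ?_⟩
  · simp only [qopP, sum_add_distrib]
  · simp only [qopP, mul_sum]
  · refine sum_le_sum fun y _ => sum_le_sum fun a _ => h _ fun k => ⟨mul_nonneg (hσ k).1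
      (mul_nonneg ((hl σ).1 y) (ind_nonneg _)), fun h0 => ?_⟩
    have h1 : restr (P.cl y) k.1 = a := by
      by_contra h1
      exact h0 (by simp [nextP, ind_neg h1])
    have h2 := (hσ k).2 (left_ne_zero_of_mul h0)
    subst h1
    exact (mem_cell_merge (hB.idem y) h2 _).2 ⟨h2, fun _ _ => rfl⟩
  · simp only [qopP, lin, nextP]
    rw [sum_congr rfl fun y _ => sum_comm, sum_comm]
    refine sum_congr rfl fun k _ => ?_
    simp only [← sum_mul, ← mul_sum, sum_ind_TSpl, mul_one, (hl σ).2]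

theorem lop_TSpl [Nonempty I] {e : ℝ} (h0 : 0 ≤ e) (h1 : e ≤ 1) :
    SplP P (lop (Y := Y) (I := I) e) := by
  refine ⟨fun F G σ => ?_, fun x F σ => ?_, fun F G h σ hσ => ?_, fun φ σ => ?_⟩
  · simp only [lop, sum_add_distrib]
  · simp only [lop, mul_sum]
  · exact sum_le_sum fun z _ => h _ fun k => ⟨mul_nonneg (hσ k).1 (tokw_nonneg h0 h1 _ _),
      fun h0 => (hσ k).2 (left_ne_zero_of_mul h0)⟩
  · simp only [lop, lin, mulT]
    rw [sum_comm]
    refine sum_congr rfl fun k _ => ?_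
    simp only [← sum_mul, ← mul_sum, sum_tokw, mul_one]

theorem comp_TSpl {A B : (St Y I → ℝ) → St Y I → ℝ} (hA : SplP P A) (hB : SplP P B) :
    SplP P fun F => A (B F) := by
  refine ⟨fun F G σ => ?_, fun x F σ => ?_, fun F G h => hA.mono _ _ (hB.mono F G h),
    fun φ σ => ?_⟩
  · rw [funext (hB.add F G), hA.add]
  · rw [funext (hB.smul x F), hA.smul]
  · rw [funext (hB.lin φ), hA.lin]

theorem iter_TSpl {A : (St Y I → ℝ) → St Y I → ℝ} (hA : SplP P A) (n : ℕ) : SplP P A^[n] := by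
  induction n with
  | zero => exact ⟨fun _ _ _ => rfl, fun _ _ _ => rfl, fun _ _ h => h, fun _ _ => rfl⟩
  | succ n ih => exact (comp_TSpl ih hA :)

theorem sub_TSpl {A : (St Y I → ℝ) → St Y I → ℝ} (hA : SplP P A) (F G : St Y I → ℝ) (σ : St Y I) :
    A (fun τ => F τ - G τ) σ = A F σ - A G σ := by
  have := hA.add F (fun τ => -1 * G τ) σ
  rw [hA.smul] at this
  simpa only [neg_one_mul, ← sub_eq_add_neg] using this

theorem nonneg_TSpl {A : (St Y I → ℝ) → St Y I → ℝ} (hA : SplP P A) {F : St Y I → ℝ}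
    (h : ∀ σ, ValP P σ → 0 ≤ F σ) (σ : St Y I) (hσ : ValP P σ) : 0 ≤ A F σ := by
  have := hA.mono (fun τ => 0 * F τ) F (fun τ hτ => by simpa using h τ hτ) σ hσ
  rwa [hA.smul, zero_mul] at this

theorem blk_TSpl {v f : ℕ} (hB : Base P v f) {lam : St Y I → Y → ℝ} (hl : ∀ σ, IsProb (lam σ))
    {s : ℕ} (hs : 0 < s) :
    SplP P (blkP P lam s) := by
  have h := iter_TSpl (qop_TSpl hB hl)
  refine ⟨fun F G σ => ?_, fun x F σ => ?_, fun F G k σ hσ => ?_, fun φ σ => ?_⟩
  · simp only [blkP, (h _).add, sum_add_distrib, add_div]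
  · simp only [blkP, (h _).smul, ← mul_sum, mul_div_assoc]
  · exact div_le_div_of_nonneg_right (sum_le_sum fun u _ => (h u).mono F G k σ hσ)
      (Nat.cast_nonneg _)
  · have : (s : ℝ) ≠ 0 := Nat.cast_ne_zero.2 hs.ne'
    simp only [blkP, (h _).lin, sum_const, card_range, nsmul_eq_mul]
    field_simp

theorem tSpl : TSpl := by
  intro Y I _ _ _ _ _ P v f lam s e hB hl hs h0 h1
  have hq := qop_TSpl hB hl
  have hi := iter_TSpl hq
  have hb := blk_TSpl hB hl hs
  have hL := lop_TSpl (P := P) (I := I) h0 h1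
  have hO := iter_TSpl (comp_TSpl hb hL)
  have hE : ∀ j, SplP P (ExP P lam s e j) := fun j => (comp_TSpl (hO j) hb :)
  have hs' : (0 : ℝ) < s := Nat.cast_pos.2 hs
  refine ⟨hE, fun F φ a0 a1 a2 => ?_, fun F φ a j σ hσ => ?_, fun F G b hc J σ hσ => ?_⟩
  · have l0 : ∀ σ, ValP P σ → 0 ≤ lin φ σ := fun σ hσ =>
      sum_nonneg fun h _ => mul_nonneg (hσ h).1 (a0 h)
    have b1 : ∀ (u : ℕ) σ, ValP P σ → (qopP P lam)^[u] F σ ≤ F σ + u * lin φ σ := fun u => by
      induction u with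
      | zero => exact fun _ _ => by simp
      | succ u ih =>
        intro σ hσ
        have := (hi u).mono _ _ a1 σ hσ
        rw [(hi u).add, (hi u).lin] at this
        rw [Function.iterate_succ_apply]
        push_cast
        linarith [ih σ hσ]
    have b2 : ∀ σ, ValP P σ → blkP P lam s F σ ≤ F σ + s * lin φ σ := fun σ hσ => by
      rw [blkP, div_le_iff₀ hs']
      refine (sum_le_sum (g := fun _ => F σ + s * lin φ σ) fun u hu => (b1 u σ hσ).trans
        (add_le_add le_rfl (mul_le_mul_of_nonneg_right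
          (Nat.cast_le.2 (mem_range.1 hu).le) (l0 σ hσ)))).trans_eq ?_
      simp only [sum_const, card_range, nsmul_eq_mul]
      ring
    intro j
    induction j with
    | zero => exact fun σ hσ => by simpa [ExP] using b2 σ hσ
    | succ j ih =>
      intro σ hσ
      rw [ExP, Function.iterate_succ_apply']
      have h2 := hb.mono (lop e (ExP P lam s e j F))
        (fun τ => F τ + (j + 1) * s * lin φ τ) (fun τ hτ => by
        have := hL.mono _ _ ih τ hτ
        rw [hL.add, hL.smul, hL.lin] at this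
        exact this.trans (add_le_add (a2 τ hτ) le_rfl)) σ hσ
      refine h2.trans ?_
      rw [hb.add, hb.smul, hb.lin]
      push_cast
      linarith [b2 σ hσ]
  · have b1 : ∀ τ, ValP P τ → blkP P lam s (fun τ => F τ - qopP P lam F τ) τ ≤ 1 / s * lin φ τ := by
      intro τ hτ
      rw [blkP, one_div_mul_eq_div]
      refine div_le_div_of_nonneg_right ?_ hs'.le
      simp only [sub_TSpl (hi _)]
      have := sum_range_sub' (fun u => (qopP P lam)^[u] F τ) s
      simp only [Function.iterate_succ_apply, Function.iterate_zero, id] at this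
      rw [this]
      linarith [nonneg_TSpl (hi s) (fun σ hσ => (a σ hσ).1) τ hτ, (a τ hτ).2]
    refine ((hO j).mono _ _ b1 σ hσ).trans_eq ?_
    rw [(hO j).smul, (hO j).lin, one_div_mul_eq_div]
  · have a1 : ∀ τ : St Y I, ValP P τ → F τ.2 ≤ qopP P lam (fun τ => F τ.2) τ := fun τ hτ => by
      have := hc.split (Y × (Y → Option Bool)) τ.2
        (fun z h => lam τ z.1 * ind (restr (P.cl z.1) h.1 = z.2))
        (fun h => (hτ h).1) (fun z h => mul_nonneg ((hl τ).1 _) (ind_nonneg _))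
        fun h => by rw [Fintype.sum_prod_type]; exact sum_q_TSpl (hl τ) h.1
      rwa [Fintype.sum_prod_type] at this
    have b1 : ∀ u (τ : St Y I), ValP P τ → F τ.2 ≤ (qopP P lam)^[u] (fun τ => F τ.2) τ := fun u => by
      induction u with
      | zero => exact fun _ _ => le_rfl
      | succ u ih => exact fun σ hσ => (ih σ hσ).trans ((hi u).mono _ _ a1 σ hσ)
    have b2 : ∀ τ : St Y I, ValP P τ → F τ.2 ≤ blkP P lam s (fun τ => F τ.2) τ := fun τ hτ => by
      rw [blkP, le_div_iff₀ hs']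
      refine Eq.trans_le ?_ (sum_le_sum fun u _ => b1 u τ hτ)
      simp [mul_comm]
    have b3 : ∀ j, ExP P lam s e j (fun τ => F τ.2) σ + ExP P lam s e j (fun τ => G τ.2) σ ≤
        ExP P lam s e (j + 1) (fun τ => F τ.2) σ := fun j => by
      rw [← (hE j).add]
      exact (hE j).mono _ (lop e (blkP P lam s fun τ => F τ.2))
        (fun τ hτ => (hc.gain τ.2 fun h => (hτ h).1).trans (hL.mono _ _ b2 τ hτ)) σ hσ
    have b4 : ∑ j ∈ range J, ExP P lam s e j (fun τ => G τ.2) σ ≤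
        ExP P lam s e J (fun τ => F τ.2) σ := by
      induction J with
      | zero => simpa using nonneg_TSpl (hE 0) (fun τ hτ => hc.lo τ.2 fun h => (hτ h).1) σ hσ
      | succ J ih => rw [sum_range_succ]; linarith [b3 J]
    exact b4.trans (((hE J).mono _ (lin b) (fun τ hτ => hc.up τ.2 fun h => (hτ h).1) σ hσ).trans_eq
      ((hE J).lin b σ))

end

section

theorem restr_TPh1 {Y : Type} [DecidableEq Y] (S : Finset Y) (O O' : Y → Bool) :
    restr S O' = restr S O ↔ ∀ y ∈ S, O' y = O y := by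
  refine ⟨fun h y hy => ?_, fun h => funext fun y => ?_⟩
  · simpa [restr, hy] using congrFun h y
  · by_cases hy : y ∈ S
    · simp [restr, hy, h y hy]
    · simp [restr, hy]

theorem tPh1 : TPh1 := by
  intro Y I _ _ _ _ _ P v f lam e σ hP hl _ _ hV
  refine ⟨?_, le_of_eq ?_⟩
  · have key : ∀ y, ∑ ω, Ph1P P (nextP P lam σ y ω) ≤ lam σ y * Ph1P P σ := fun y => by
      simp only [Ph1P, nextP]
      rw [sum_comm, mul_sum]
      refine sum_le_sum fun c _ => ?_
      have h1 := (sCh Y (Y → Option Bool) (cell P σ.1) (fun ω => cell P (merge σ.1 ω))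
        (fun O => restr (P.cl y) O) (fun O => σ.2 (O, c)) (fun _ => 0) 0 (fun O => hV (O, c))
        (fun O hO O' => by rw [mem_cell_merge (hP.idem y) hO, restr_TPh1])
        (fun _ => by simp) (fun _ _ _ => rfl) le_rfl zero_le_one).2.2
      rw [zero_mul, zero_mul, zero_pow two_ne_zero, zero_mul, zero_add, zero_add, zero_add] at h1
      refine le_trans (le_of_eq ?_) (mul_le_mul_of_nonneg_left h1 (hl.1 y))
      rw [mul_sum]
      refine sum_congr rfl fun a _ => ?_
      rw [← hom_Ph1]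
      congr 1
      funext O
      ring
    refine (sum_le_sum fun y _ => key y).trans (le_of_eq ?_)
    rw [← sum_mul, hl.2, one_mul]
  · simp only [lop, Ph1P, mulT, hom_Ph1]
    rw [sum_comm]
    refine sum_congr rfl fun c _ => ?_
    rw [← sum_mul, sum_tokw, one_mul]

end

section

section
variable {Y I : Type} [Fintype Y] [DecidableEq Y] [Fintype I] [DecidableEq I]

theorem key_TPsi (P : Sys Y) (lam : St Y I → Y → ℝ) (φ : (Y → Option Bool) → Hd Y I → ℝ)
    (σ : St Y I) : qopP P lam (fun τ => ∑ h, τ.2 h * φ τ.1 h) σ =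
      ∑ h, σ.2 h * ∑ y, lam σ y * φ (merge σ.1 (restr (P.cl y) h.1)) h := by
  simp only [qopP, nextP, mul_sum]
  rw [sum_comm' (t' := univ) (s' := fun _ => univ) (by simp)]
  symm
  rw [sum_comm]
  symm
  rw [sum_comm]
  refine sum_congr rfl fun y _ => ?_
  rw [sum_comm]
  refine sum_congr rfl fun h _ => ?_
  rw [sum_eq_single (restr (P.cl y) h.1)]
  · rw [ind_pos rfl]; ring
  · intro ω _ hω
    rw [ind_neg (Ne.symm hω)]; ring
  · simp

omit [Fintype Y] [DecidableEq Y] in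
theorem mono_TPsi {P : Sys Y} {ρ ω : Y → Option Bool} {O : Y → Bool} {y : Y} (h : Kn P ρ O y) :
    Kn P (merge ρ ω) O y := by
  obtain ⟨z, a, b⟩ := h
  refine ⟨z, ?_, b⟩
  cases hz : ρ z
  · exact absurd hz a
  · simp [merge, hz]

theorem self_TPsi {P : Sys Y} {v f : ℕ} (hB : Base P v f) (ρ : Y → Option Bool) (O : Y → Bool)
    (y : Y) : Kn P (merge ρ (restr (P.cl y) O)) O y := by
  refine ⟨y, ?_, hB.refl O y⟩
  cases hz : ρ y <;> simp [merge, restr, hz, hB.self y]

theorem drop_TPsi {P : Sys Y} {v f : ℕ} (hB : Base P v f) {ρ : Y → Option Bool} {O : Y → Bool}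
    (hO : O ∈ cell P ρ) (g : Y → ℝ) (hg : ∀ y, 0 ≤ g y) (y : Y) :
    ind (Opn P ρ y) * g y + ∑ z, ind (¬ Kn P (merge ρ (restr (P.cl y) O)) O z) * g z ≤
      ∑ z, ind (¬ Kn P ρ O z) * g z := by
  rw [← add_sum_erase univ _ (mem_univ y), ← add_sum_erase univ _ (mem_univ y),
    ind_neg (not_not.2 (self_TPsi hB ρ O y)), zero_mul, zero_add]
  refine add_le_add (mul_le_mul_of_nonneg_right (ind_mono fun h => h O hO) (hg y))
    (sum_le_sum fun z _ => mul_le_mul_of_nonneg_right (ind_mono fun h k => h (mono_TPsi k)) (hg z))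

end

theorem tPsi : TPsi := by
  intro Y I _ _ _ _ _ P v f lam e σ hB hl hV
  refine ⟨?_, ?_, fun g hg => ?_⟩
  · have e1 : (SzP : St Y I → ℝ) = fun τ => ∑ h, τ.2 h * (fun ρ _ => sz ρ) τ.1 h := by
      funext τ
      simp only [SzP, mul_sum, mul_comm]
    rw [e1, key_TPsi P lam fun ρ _ => sz ρ, lin, ← sum_add_distrib]
    refine sum_le_sum fun h _ => ?_
    rw [← mul_add]
    refine mul_le_mul_of_nonneg_left (PLoc.pr_le hl fun y => (sz_merge _ _ _).trans ?_) (hV h).1
    have : ((P.cl y).card : ℝ) ≤ v := by exact_mod_cast hB.card y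
    linarith
  · simp only [lop, SzP, mulT]
    rw [← mul_sum, sum_comm]
    simp only [← mul_sum, sum_tokw, mul_one, le_refl]
  · have e1 : PsiP P g = fun τ : St Y I => ∑ h, τ.2 h *
        (fun ρ (h : Hd Y I) => ∑ y, ind (¬ Kn P ρ h.1 y) * g h y) τ.1 h := rfl
    rw [le_sub_iff_add_le]
    conv_lhs =>
      rw [e1, key_TPsi P lam fun ρ (h : Hd Y I) => ∑ y, ind (¬ Kn P ρ h.1 y) * g h y]
    have e2 : ∑ y, ind (Opn P σ.1 y) * (∑ h, σ.2 h * g h y) * lam σ y =
        ∑ h, σ.2 h * ∑ y, lam σ y * (ind (Opn P σ.1 y) * g h y) := by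
      simp only [mul_sum, sum_mul]
      rw [sum_comm]
      exact sum_congr rfl fun h _ => sum_congr rfl fun y _ => by ring
    rw [e2, ← sum_add_distrib, PsiP]
    refine sum_le_sum fun h _ => ?_
    by_cases h0 : σ.2 h = 0
    · simp [h0]
    rw [← mul_add, ← sum_add_distrib]
    refine mul_le_mul_of_nonneg_left ?_ (hV h).1
    simp only [← mul_add]
    exact PLoc.pr_le hl fun y => drop_TPsi hB ((hV h).2 h0) (g h) (hg h) y

end

section

noncomputable section

section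
variable {Y I : Type} [Fintype Y] [DecidableEq Y] [Fintype I] [DecidableEq I]

/-- one random closed query, then the strategy `f` -/
def qev_TReal (P : Sys Y) (lam : St Y I → Y → ℝ) (f : St Y I → (Y → Bool) → ℝ) (σ : St Y I)
    (O : Y → Bool) : ℝ := ∑ y, lam σ y * f (nextP P lam σ y (restr (P.cl y) O)) O

theorem q_TReal (P : Sys Y) (lam : St Y I → Y → ℝ) (hl : ∀ σ, IsProb (lam σ)) (e : ℝ) {n : ℕ}
    (f : I → (Fin n → I × Bool) → St Y I → (Y → Bool) → ℝ) :
    qopP P lam (pr_Real e f) = pr_Real e fun i z => qev_TReal P lam (f i z) := by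
  funext σ
  have h1 : ∀ y, ∑ a, pr_Real e f (nextP P lam σ y a) = ∑ h, ∑ i, ∑ z, σ.2 h *
      (Lz e h.2 z * sg (h.2 i) / Fintype.card I) *
      (lam σ y * (2 * f i z (nextP P lam σ y (restr (P.cl y) h.1)) h.1 - 1)) := by
    intro y
    simp only [pr_eq_Real]
    rw [sum_comm]
    refine sum_congr rfl fun h _ => ?_
    rw [sum_eq_single (restr (P.cl y) h.1)]
    · refine sum_congr rfl fun i _ => sum_congr rfl fun z _ => ?_
      have : (nextP P lam σ y (restr (P.cl y) h.1)).2 h = σ.2 h * lam σ y := by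
        simp only [nextP, ind_pos, mul_one]
      rw [this]
      ring
    · intro a _ ha
      have : (nextP P lam σ y a).2 h = 0 := by
        simp only [nextP, ind_neg (Ne.symm ha), mul_zero]
      simp [this]
    · simp
  rw [qopP, sum_congr rfl fun y _ => h1 y, pr_eq_Real, sum_comm]
  refine sum_congr rfl fun h _ => ?_
  rw [sum_comm]
  refine sum_congr rfl fun i _ => ?_
  rw [sum_comm]
  refine sum_congr rfl fun z _ => ?_
  rw [← mul_sum]
  congr 1
  simp only [qev_TReal, mul_sub, mul_one, sum_sub_distrib, (hl σ).2, mul_sum]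
  congr 1
  exact sum_congr rfl fun y _ => by ring

theorem iter_TReal (P : Sys Y) (lam : St Y I → Y → ℝ) (hl : ∀ σ, IsProb (lam σ)) (e : ℝ) {n : ℕ}
    (f : I → (Fin n → I × Bool) → St Y I → (Y → Bool) → ℝ) (u : ℕ) :
    (qopP P lam)^[u] (pr_Real e f) = pr_Real e fun i z => (qev_TReal P lam)^[u] (f i z) := by
  induction u with
  | zero => rfl
  | succ u ih => simp only [Function.iterate_succ_apply', ih, q_TReal P lam hl]

theorem achQ_TReal (hS : TSet) (P : Sys Y) (v : ℕ) (hv : ∀ y, (P.cl y).card ≤ v)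
    (lam : St Y I → Y → ℝ) (hl : ∀ σ, IsProb (lam σ)) (q : ℕ)
    (f : St Y I → (Y → Bool) → ℝ) (hf : ∀ σ, f σ ∈ Ach q) (u : ℕ) :
    ∀ σ, (qev_TReal P lam)^[u] f σ ∈ Ach (q + u * v) := by
  induction u with
  | zero => simpa using hf
  | succ u ih =>
    intro σ
    rw [Function.iterate_succ_apply']
    have h := (convex_convexHull ℝ _).sum_mem (t := univ) (w := lam σ)
      (z := fun y O => (qev_TReal P lam)^[u] f (nextP P lam σ y (restr (P.cl y) O)) O)
      (fun y _ => (hl σ).1 y) (hl σ).2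
      (fun y _ => (sAch Y (q + u * v + (P.cl y).card)).2.2.2.1 (q + (u + 1) * v)
        (by have := hv y; rw [Nat.succ_mul]; omega)
        (hS Y (q + u * v) (P.cl y) (fun a => (qev_TReal P lam)^[u] f (nextP P lam σ y a))
          fun a => ih _))
    have e : qev_TReal P lam ((qev_TReal P lam)^[u] f) σ = ∑ y, lam σ y •
        fun O => (qev_TReal P lam)^[u] f (nextP P lam σ y (restr (P.cl y) O)) O := by
      funext O
      simp only [qev_TReal, Finset.sum_apply, Pi.smul_apply, smul_eq_mul]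
    rw [e]
    exact h

theorem blk_TReal (hS : TSet) (P : Sys Y) (v : ℕ) (hv : ∀ y, (P.cl y).card ≤ v)
    (lam : St Y I → Y → ℝ) (hl : ∀ σ, IsProb (lam σ)) (e : ℝ) {n : ℕ}
    (s q : ℕ) (hs : 0 < s) (f : I → (Fin n → I × Bool) → St Y I → (Y → Bool) → ℝ)
    (hf : ∀ i z σ, f i z σ ∈ Ach q) :
    ∃ g : I → (Fin n → I × Bool) → St Y I → (Y → Bool) → ℝ,
      (∀ i z σ, g i z σ ∈ Ach (q + s * v)) ∧ blkP P lam s (pr_Real e f) = pr_Real e g := by
  refine ⟨fun i z τ O => (∑ u ∈ range s, (qev_TReal P lam)^[u] (f i z) τ O) / s,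
    fun i z σ => ?_, ?_⟩
  · exact achAvg_Real _ s hs _ fun u hu =>
      (sAch Y (q + u * v)).2.2.2.1 _ (Nat.add_le_add_left (Nat.mul_le_mul_right v hu.le) q)
        (achQ_TReal hS P v hv lam hl q _ (hf i z) u σ)
  · funext σ
    simp only [blkP, iter_TReal P lam hl]
    exact avg_Real e s hs (fun u i z => (qev_TReal P lam)^[u] (f i z)) σ

theorem ex_TReal [Nonempty I] (hS : TSet) (P : Sys Y) (v : ℕ) (hv : ∀ y, (P.cl y).card ≤ v)
    (lam : St Y I → Y → ℝ) (hl : ∀ σ, IsProb (lam σ))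
    (e : ℝ) (s : ℕ) (hs : 0 < s) (j : ℕ) : ∀ n, j ≤ n →
    ∃ g : I → (Fin n → I × Bool) → St Y I → (Y → Bool) → ℝ,
      (∀ i z σ, g i z σ ∈ Ach ((j + 1) * (s * v))) ∧
      ExP P lam s e j (fun τ => bay τ.2) = pr_Real e g := by
  induction j with
  | zero =>
    intro n _
    obtain ⟨g, h1, h2⟩ := blk_TReal hS P v hv lam hl e s 0 hs
      (fun i (_ : Fin n → I × Bool) τ _ => ind (0 ≤ ∑ h, τ.2 h * sg (h.2 i)))
      fun i z σ => (sAch Y 0).2.2.1 _ (ind_nonneg _) (ind_le_one _)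
    refine ⟨g, by simpa using h1, ?_⟩
    rw [← h2, ← zero_Real]
    rfl
  | succ j ih =>
    intro n hn
    obtain ⟨n, rfl⟩ : ∃ n', n = n' + 1 := ⟨n - 1, by omega⟩
    obtain ⟨f, h1, h2⟩ := ih n (by omega)
    obtain ⟨g, h3, h4⟩ := blk_TReal hS P v hv lam hl e s ((j + 1) * (s * v)) hs
      (fun i (z : Fin (n + 1) → I × Bool) τ => f i (Fin.tail z) (τ.1, mulT e τ.2 (z 0)))
      fun i z σ => h1 _ _ _
    refine ⟨g, by rw [Nat.succ_mul (j + 1) (s * v)]; exact h3, ?_⟩
    rw [← h4, ← l_Real, ← h2]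
    simp only [ExP, Function.iterate_succ_apply']

end

theorem tReal (h : TSet) : TReal := by
  intro Y I _ _ _ _ _ P v lam s J e σ hv hl hs hJ
  have key : ∀ j : ℕ, ∃ g : I → (Fin J → I × Bool) → St Y I → (Y → Bool) → ℝ, j < J →
      (∀ i z σ, g i z σ ∈ Ach ((j + 1) * (s * v))) ∧
      ExP P lam s e j (fun τ => bay τ.2) = pr_Real e g := by
    intro j
    by_cases hj : j < J
    · obtain ⟨g, hg⟩ := ex_TReal h P v hv lam hl e s hs j J hj.le
      exact ⟨g, fun _ => hg⟩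
    · exact ⟨0, fun h0 => absurd h0 hj⟩
  choose g hg using key
  refine ⟨fun i z O => (∑ j ∈ range J, g j i z σ O) / J, fun i z => ?_, ?_⟩
  · exact achAvg_Real _ J hJ _ fun j hj =>
      (sAch Y _).2.2.2.1 _ (by rw [mul_assoc]; exact Nat.mul_le_mul_right (s * v) hj)
        ((hg j hj).1 i z σ)
  · rw [sum_congr rfl fun j hj => congrFun (hg j (mem_range.1 hj)).2 σ, avg_Real e J hJ]
    rfl

end

end

section

theorem tDef : TDef := by
  intro Y U _ _ _ A μ L h0 h1 hL hA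
  have hU : Nonempty U := by
    by_contra h
    rw [not_nonempty_iff] at h
    simp at h1
  have hC : (0 : ℝ) < Fintype.card U := by exact_mod_cast Fintype.card_pos
  have hN : (0 : ℝ) < A.card := by exact_mod_cast hA.card_pos
  have key : ∀ u, Ph A (fun O => μ O u) ≤
      (∑ O, μ O u) * (Real.log L + Real.log (Fintype.card U) - 1) + 1 / Fintype.card U := by
    intro u
    unfold Ph
    refine (sum_le_sum fun O _ => term_Def (L := L) (h0 O u)
      (single_le_sum (f := fun O => μ O u) (fun O _ => h0 O u) (mem_univ O)) hN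
      ((mul_le_mul_of_nonneg_right
        (single_le_sum (f := fun u => μ O u) (fun u _ => h0 O u) (mem_univ u)) hN.le).trans
        (hL O)) hC).trans ?_
    rw [sum_add_distrib, ← sum_mul, ← sum_div, ← div_div]
    gcongr
    exact div_self_le_one _
  refine (sum_le_sum fun u _ => key u).trans (le_of_eq ?_)
  rw [sum_add_distrib, ← sum_mul, sum_comm, h1, sum_const, card_univ, nsmul_eq_mul]
  field_simp
  ring

end

section

theorem tPool (h : TDef) : TPool := by
  intro n m J Q Y I _ _ _ _ A0 e e' E0 E1 γ L A hA0 hE1 hyp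
  obtain ⟨hc, -, hconst, -⟩ := sAch Y Q
  have hcv : Convex ℝ (Ach Q : Set ((Y → Bool) → ℝ)) := convex_convexHull ℝ _
  let K : Set ((I → X n) × Hd Y I → ℝ) :=
    {μ | (∀ a, 0 ≤ μ a) ∧ ∑ a, μ a = 1 ∧
      (∀ O, (∑ xs, ∑ c, μ (xs, (O, c))) * A0.card ≤ L) ∧
      γ ≤ ∑ a, μ a * advI e (onPool A a.1) a.2 ∧ ∀ a, a.2.1 ∉ A0 → μ a = 0}
  let C : Set ((I → X n) → I → (Fin J → I × Bool) → (Y → Bool) → ℝ) :=
    Set.pi Set.univ fun _ => Set.pi Set.univ fun _ => Set.pi Set.univ fun _ => Ach Q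
  have hKc : IsCompact K := by
    have hcl : IsClosed K := by
      simp only [K, Set.ofPred_and, Set.ofPred_forall]
      refine (isClosed_iInter fun a => isClosed_le continuous_const (continuous_apply a)).inter
        ((isClosed_eq (by fun_prop) continuous_const).inter
          ((isClosed_iInter fun O => isClosed_le (by fun_prop) continuous_const).inter
            ((isClosed_le continuous_const (by fun_prop)).inter
              (isClosed_iInter fun a => isClosed_iInter fun _ =>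
                isClosed_eq (continuous_apply a) continuous_const))))
    exact (isCompact_stdSimplex ℝ _).of_isClosed_subset hcl fun μ hμ => ⟨hμ.1, hμ.2.1⟩
  have hKv : Convex ℝ K := by
    intro μ hμ ν hν s t hs ht hst
    refine ⟨fun a => ?_, ?_, fun O => ?_, ?_, fun a ha => ?_⟩
    · exact add_nonneg (mul_nonneg hs (hμ.1 a)) (mul_nonneg ht (hν.1 a))
    · simp only [Pi.add_apply, Pi.smul_apply, smul_eq_mul, sum_add_distrib, ← mul_sum]
      rw [hμ.2.1, hν.2.1]; linarith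
    · simp only [Pi.add_apply, Pi.smul_apply, smul_eq_mul, sum_add_distrib, ← mul_sum]
      have a1 := mul_le_mul_of_nonneg_left (hμ.2.2.1 O) hs
      have a2 := mul_le_mul_of_nonneg_left (hν.2.2.1 O) ht
      have a3 : s * L + t * L = L := by rw [← add_mul, hst, one_mul]
      linarith
    · simp only [Pi.add_apply, Pi.smul_apply, smul_eq_mul, add_mul, mul_assoc, sum_add_distrib,
        ← mul_sum]
      have a1 := mul_le_mul_of_nonneg_left hμ.2.2.2.1 hs
      have a2 := mul_le_mul_of_nonneg_left hν.2.2.2.1 ht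
      have a3 : s * γ + t * γ = γ := by rw [← add_mul, hst, one_mul]
      linarith
    · simp only [Pi.add_apply, Pi.smul_apply, smul_eq_mul]
      rw [hμ.2.2.2.2 a ha, hν.2.2.2.2 a ha, mul_zero, mul_zero, add_zero]
  have hCc : IsCompact C :=
    isCompact_univ_pi fun _ => isCompact_univ_pi fun _ => isCompact_univ_pi fun _ => hc
  have hCv : Convex ℝ C :=
    convex_pi fun _ _ => convex_pi fun _ _ => convex_pi fun _ _ => hcv
  have hCn : C.Nonempty :=
    ⟨fun _ _ _ _ => 1 / 2, fun _ _ _ _ _ _ => hconst _ (by norm_num) (by norm_num)⟩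
  obtain ⟨β, hβ, hmain⟩ := sMM ((I → X n) × Hd Y I)
    ((I → X n) → I → (Fin J → I × Bool) → (Y → Bool) → ℝ) K C
    (fun β a => advI e' (β a.1) a.2)
    (γ - E0 - (Real.log L + Fintype.card I * ((n + 1) * Real.log 2)) * E1) hKc hKv hCc hCv hCn
    (fun a => advI_cont_Pool e' a.1 a.2)
    (fun a β β' s t hst => advI_aff_Pool e' (β a.1) (β' a.1) a.2 s t hst) (by
      intro μ hμ
      choose β' hβ' hle using fun xs => hyp xs (fun h => μ (xs, h)) fun h =>
        ⟨hμ.1 _, fun hn => of_not_not fun hk => hn (hμ.2.2.2.2 (xs, h) hk)⟩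
      refine ⟨β', fun xs _ i _ z _ => hβ' xs i z, ?_⟩
      have hs := sum_le_sum fun xs (_ : xs ∈ (univ : Finset (I → X n))) => hle xs
      simp only [sum_add_distrib, ← mul_sum, ← sum_mul] at hs
      have e1 : ∑ xs, ∑ h, μ (xs, h) = 1 := by rw [← hμ.2.1, Fintype.sum_prod_type]
      have hd := h Y ((I → X n) × (I → Bool)) A0 (fun O u => μ (u.1, (O, u.2))) L
        (fun O u => hμ.1 _) (by
          rw [← e1]
          simp only [Fintype.sum_prod_type]
          rw [sum_comm])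
        (fun O => by rw [Fintype.sum_prod_type]; exact hμ.2.2.1 O) hA0
      rw [card_log_Pool, Fintype.sum_prod_type] at hd
      have hγ := hμ.2.2.2.1
      rw [Fintype.sum_prod_type] at hγ ⊢
      have hd' := mul_le_mul_of_nonneg_right hd hE1
      rw [e1] at hs
      linarith)
  refine ⟨β, fun xs i z => hβ xs trivial i trivial z trivial, fun μ a1 a2 a3 a4 => ?_⟩
  have := hmain (fun a => μ a.1 a.2) ⟨fun a => (a1 _ _).1,
    by rw [Fintype.sum_prod_type]; exact a2, a3, by rw [Fintype.sum_prod_type]; exact a4,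
    fun a ha => of_not_not fun hn => ha ((a1 _ _).2 hn)⟩
  rw [Fintype.sum_prod_type] at this
  exact this

end

section

noncomputable section

open PLoc

theorem avg_bd_TLoc {α : Type} (A : Finset α) {f : α → ℝ} {a b : ℝ} (ha : a ≤ 0) (hb : 0 ≤ b)
    (h : ∀ x, a ≤ f x ∧ f x ≤ b) : a ≤ avg A f ∧ avg A f ≤ b := by
  rcases A.eq_empty_or_nonempty with rfl | n
  · simpa [avg] using ⟨ha, hb⟩
  have p : (0 : ℝ) < A.card := Nat.cast_pos.2 n.card_pos
  rw [avg, le_div_iff₀ p, div_le_iff₀ p, mul_comm a, mul_comm b, ← nsmul_eq_mul, ← nsmul_eq_mul]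
  exact ⟨card_nsmul_le_sum _ _ _ fun x _ => (h x).1, sum_le_card_nsmul _ _ _ fun x _ => (h x).2⟩

theorem sum_ind_TLoc {Y : Type} [Fintype Y] [DecidableEq Y] (S : Finset Y) :
    ∑ y, ind (y ∈ S) = S.card := by
  simp only [ind_eq, sum_boole, filter_mem_eq_inter, univ_inter]

theorem hit_bd_TLoc {Y : Type} [Fintype Y] [DecidableEq Y] (P : Sys Y) (ρ : Y → Option Bool)
    (t : DT Y) {Q : ℝ} (h0 : 0 ≤ Q) (h : ∀ O, ∑ y, ind (y ∈ qsP P t O) ≤ Q) :
    (∀ y, 0 ≤ hitP P ρ t y ∧ hitP P ρ t y ≤ 1) ∧ ∑ y, hitP P ρ t y ≤ Q := by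
  refine ⟨fun y => avg_bd_TLoc _ le_rfl zero_le_one fun O => ⟨ind_nonneg _, ind_le_one _⟩, ?_⟩
  have := (avg_bd_TLoc (cell P ρ) le_rfl h0 fun O =>
    ⟨sum_nonneg fun y _ => ind_nonneg (y ∈ qsP P t O), h O⟩).2
  simp only [hitP, avg] at this ⊢
  rwa [← sum_div, sum_comm]

theorem tLoc (hG : TG) : TLoc := by
  intro Y I R _ _ _ _ _ _ _ P v f Q ε e ζ κ x x' m q t a tr ν β hB hD ε0 Q1 Q2 h0 h1 z0 z1 k0 x0 x1
    x2 t0 hd hν hβ
  have hw := fun c => rw_prob h0 h1 hν c
  have cq : ∀ r O, (qsP P (tr r) O).card ≤ q * v := fun r O =>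
    (card_qsP hB.card _ _).trans (Nat.mul_le_mul_right _ (hd r))
  have hdq : ∀ r O, ∑ y, ind (y ∈ qsP P (tr r) O) ≤ Q := fun r O => by
    rw [sum_ind_TLoc]; exact_mod_cast (cq r O).trans Q1
  have hsm : ∀ r O, ∑ y, ind (∃ y' ∈ qsP P (tr r) O, P.same O y y') ≤ Q := fun r O => by
    have a1 : ∀ y, ind (∃ y' ∈ qsP P (tr r) O, P.same O y y') ≤
        ∑ y' ∈ qsP P (tr r) O, ind (P.same O y y') := fun y => by
      by_cases h : ∃ y' ∈ qsP P (tr r) O, P.same O y y'
      · obtain ⟨y', a, b⟩ := h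
        refine (ind_le_one _).trans ((ind_pos b).ge.trans ?_)
        exact single_le_sum (f := fun y' => ind (P.same O y y')) (fun _ _ => ind_nonneg _) a
      · rw [ind_neg h]; exact sum_nonneg fun _ _ => ind_nonneg _
    refine (sum_le_sum fun y _ => a1 y).trans ?_
    rw [sum_comm]
    refine (sum_le_card_nsmul _ _ _ fun y' _ => hB.fib O y').trans ?_
    rw [nsmul_eq_mul]
    exact_mod_cast (Nat.mul_le_mul_right f (cq r O)).trans Q2
  let g : Hd Y I → Y → ℝ := fun h y => ghP P (rw e ν h.2) (fun r => tr r.2.2) t h.1 y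
  let H : (Fin m → I × Bool) → Hd Y I → Y → ℝ := fun z h y =>
    mixv ν (fun r => ind (y ∈ qsP P (tr r) h.1)) z
  let K : (Y → Option Bool) → (Fin m → I × Bool) → Y → ℝ := fun ρ z y =>
    mixv ν (fun r => hitP P ρ (tr r) y) z
  have hH := fun z (h : Hd Y I) => mix_bd hν (fun y r => ind (y ∈ qsP P (tr r) h.1)) Q
    (fun _ _ => ⟨ind_nonneg _, ind_le_one _⟩) (fun r => hdq r _) z
  have hK := fun ρ z => mix_bd hν (fun y r => hitP P ρ (tr r) y) Q
    (fun y r => (hit_bd_TLoc P ρ (tr r) (Nat.cast_nonneg Q) (hdq r)).1 y)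
    (fun r => (hit_bd_TLoc P ρ (tr r) (Nat.cast_nonneg Q) (hdq r)).2) z
  have hg : ∀ h y, 0 ≤ g h y ∧ g h y ≤ 1 := fun h y =>
    ⟨le_min zero_le_one (mul_nonneg (Nat.cast_nonneg _) (pr_ge (hw _) fun r => ind_nonneg _)),
      min_le_left _ _⟩
  have hgs : ∀ h, ∑ y, g h y ≤ t * Q := fun h => by
    refine (sum_le_sum fun y _ => min_le_right _ _).trans ?_
    rw [← mul_sum, sum_comm]
    simp only [← mul_sum]
    exact mul_le_mul_of_nonneg_left (pr_le (hw _) fun r => hsm _ _)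
      (Nat.cast_nonneg _)
  choose lam hl1 hl2 using fun σ : St Y I =>
    dom (fun y => ∑ z, fake e ζ m σ.2 z * K σ.1 z y) Q (Nat.cast_nonneg Q)
  refine ⟨lam, g, H, hl1, hg, hgs, fun z h => (hH z h).1, fun z h => (hH z h).2, fun σ hσ => ?_⟩
  obtain ⟨ρ, W⟩ := σ
  have hW : ∀ h, 0 ≤ W h := fun h => (hσ h).1
  obtain ⟨f0, f1, f2⟩ := sRat Y I e ζ m W h0 h1 z0 z1 hW
  have hl := hl2 (ρ, W) (fun y => sum_nonneg fun z _ => mul_nonneg (f0 z) ((hK ρ z).1 y).1) (by
    rw [sum_comm]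
    simp only [← mul_sum]
    refine (sum_le_sum fun z _ => mul_le_mul_of_nonneg_left (hK ρ z).2 (f0 z)).trans ?_
    rw [← sum_mul]
    exact mul_le_of_le_one_left (Nat.cast_nonneg _) f1)
  let N : Y → (Fin m → I × Bool) → ℕ := fun y z =>
    cnt e (fun V t => ζ / 2 < gap V (fun h => g h y) t.1) m W z
  have key := fun c => hG Y P v f q ε _ (rw e ν c) (fun r => tr r.2.2) (fun r => c r.1)
    (fun y r => N y r.2.1 ≤ a) ρ (fun O => W (O, c)) x t hB hD ε0 (fun r => hd _) (hw c)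
    (fun O => hσ (O, c)) x0 x1 t0
  have ks := sum_le_sum fun c (_ : c ∈ univ) => key c
  have pr : ∀ F : Hd Y I → ℝ, ∑ h, F h = ∑ c, ∑ O, F (O, c) := fun F =>
    Fintype.sum_prod_type_right F
  have e0 : lin (advI e β) (ρ, W) = ∑ c, ∑ O, W (O, c) *
      ∑ r, rw e ν c r * (sg ((tr r.2.2).eval O) * sg (c r.1)) := by
    rw [lin, pr]
    refine sum_congr rfl fun c _ => sum_congr rfl fun O _ => congrArg _ ?_
    rw [sum_rw]
    simp only [advI, mul_av, sum_av, hβ, sum_mul, mul_assoc]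
  have e1 : ∑ c, (∑ O, W (O, c)) * ∑ r, rw e ν c r *
      (avg (cell P ρ) fun O => sg ((tr r.2.2).eval O) * sg (c r.1)) ≤
      av fun i => ∑ z : Fin m → I × Bool, |∑ h, W h * Lz e h.2 z * sg (h.2 i)| := by
    have b : ∀ i z, |∑ r, ν i z r * avg (cell P ρ) fun O => sg ((tr r).eval O)| ≤ 1 :=
      fun i z => abs_le.2
        ⟨pr_ge (hν i z) fun r => (avg_bd_TLoc _ (by norm_num) zero_le_one fun O =>
          abs_le.1 (abs_sg _).le).1, pr_le (hν i z) fun r => (avg_bd_TLoc _ (by norm_num)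
            zero_le_one fun O => abs_le.1 (abs_sg _).le).2⟩
    have b2 : ∀ (c : I → Bool) i z, ∑ r, ν i z r *
        (avg (cell P ρ) fun O => sg ((tr r).eval O) * sg (c i)) =
        (∑ r, ν i z r * avg (cell P ρ) fun O => sg ((tr r).eval O)) * sg (c i) := by
      intro c i z
      rw [sum_mul]
      refine sum_congr rfl fun r _ => ?_
      simp only [avg, ← sum_mul]
      ring
    obtain ⟨u, hu⟩ : ∃ u : I → (Fin m → I × Bool) → ℝ, ∀ i z,
      (∑ r, ν i z r * avg (cell P ρ) fun O => sg ((tr r).eval O)) = u i z :=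
      ⟨_, fun _ _ => rfl⟩
    simp only [sum_rw, b2, hu] at b ⊢
    simp only [mul_av, sum_av, mul_sum]
    refine av_mono fun i => ?_
    rw [sum_comm]
    refine sum_le_sum fun z _ => ?_
    refine le_trans (le_of_eq ?_) ((le_abs_self ((∑ h, W h * Lz e h.2 z * sg (h.2 i)) *
      u i z)).trans ?_)
    · rw [pr, sum_mul]
      refine sum_congr rfl fun c _ => ?_
      simp only [← sum_mul]
      ring
    · rw [abs_mul]; exact mul_le_of_le_one_right (abs_nonneg _) (b i z)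
  set E : ℝ := (1 + x' * (4 * κ / ζ ^ 2)) ^ m / x' ^ (a + 1) with hE
  set C : ℝ := (1 / (1 - ζ)) ^ m * (2 / ζ) ^ a with hC
  have C1 : (0 : ℝ) ≤ (1 / (1 - ζ)) ^ m := pow_nonneg (one_div_pos.2 (by linarith)).le _
  have C2 : (1 : ℝ) ≤ 2 / ζ := by rw [le_div_iff₀ z0]; linarith
  have E0 : 0 ≤ E := by positivity
  have e2 : ∑ c, ∑ O, W (O, c) * ∑ y, ind (Opn P ρ y) * ghP P (rw e ν c) (fun r => tr r.2.2) t O y *
      ∑ r, rw e ν c r * (ind (y ∈ qsP P (tr r.2.2) O) * ind (¬ N y r.2.1 ≤ a) +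
        hitP P ρ (tr r.2.2) y * ind (N y r.2.1 ≤ a)) =
      ∑ y, (∑ h, W h * g h y * (ind (Opn P ρ y) * ∑ z, Lz e h.2 z * H z h y * ind (a < N y z)) +
        ind (Opn P ρ y) * ∑ z, K ρ z y * (ind (N y z ≤ a) * ∑ h, W h * g h y * Lz e h.2 z)) := by
    have r : ∀ y, ∑ z, K ρ z y * (ind (N y z ≤ a) * ∑ h, W h * g h y * Lz e h.2 z) =
        ∑ h, W h * g h y * ∑ z, Lz e h.2 z * K ρ z y * ind (N y z ≤ a) := fun y => by
      simp only [mul_sum]
      rw [sum_comm]
      exact sum_congr rfl fun _ _ => sum_congr rfl fun _ _ => by ring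
    simp only [r]
    simp only [mul_sum _ _ (ind _), ← sum_add_distrib]
    rw [sum_comm (s := univ (α := Y)), pr]
    refine sum_congr rfl fun c _ => sum_congr rfl fun O _ => ?_
    rw [mul_sum]
    refine sum_congr rfl fun y _ => ?_
    rw [sum_rw]
    simp only [g, H, K, mixv, not_le, mul_sum, ← sum_add_distrib]
    refine sum_congr rfl fun z _ => ?_
    simp only [av, mul_add, sum_add_distrib, ← mul_assoc, ← sum_mul]
    ring
  have e3 : ∀ y (h : Hd Y I), ind (Opn P ρ y) * ∑ z, Lz e h.2 z * H z h y * ind (a < N y z) ≤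
      ∑ z, Lz e h.2 z * H z h y * cnt e (fun V _ => κ < msq V fun h => g h y) m W z + E := by
    intro y h
    obtain ⟨r1, r2⟩ := sRare Y I e ζ κ x' m a W (fun h => g h y) h.2 h0 h1 z0 k0 x2
    refine (mul_le_of_le_one_left (sum_nonneg fun z _ => mul_nonneg (mul_nonneg
      (Lz_nonneg h0 h1 _ _) ((hH z h).1 y).1) (ind_nonneg _)) (ind_le_one _)).trans ?_
    refine le_trans ?_ (add_le_add le_rfl r2)
    rw [← sum_add_distrib]
    refine sum_le_sum fun z _ => ?_
    refine (mul_le_mul_of_nonneg_left (r1 z) (mul_nonneg (Lz_nonneg h0 h1 _ _)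
      ((hH z h).1 y).1)).trans ?_
    rw [mul_add]
    exact add_le_add le_rfl (mul_le_mul_of_nonneg_right (mul_le_of_le_one_right
      (Lz_nonneg h0 h1 _ _) ((hH z h).1 y).2) (ind_nonneg _))
  have e4 : ∀ y, ∑ z, K ρ z y * (ind (N y z ≤ a) * ∑ h, W h * g h y * Lz e h.2 z) ≤
      C * (Q + 1) * ((∑ h, W h * g h y) * lam (ρ, W) y) := by
    intro y
    have S0 : 0 ≤ ∑ h, W h * g h y := sum_nonneg fun h _ => mul_nonneg (hW h) (hg h y).1
    have C0 : 0 ≤ C := mul_nonneg C1 (pow_nonneg (zero_le_one.trans C2) _)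
    have b : ∀ z, ind (N y z ≤ a) * ∑ h, W h * g h y * Lz e h.2 z ≤
        (∑ h, W h * g h y) * fake e ζ m W z * C := fun z => by
      by_cases hz : N y z ≤ a
      · rw [ind_pos hz, one_mul]
        exact (f2 (fun h => g h y) z fun h => hg h y).trans (mul_le_mul_of_nonneg_left
          (mul_le_mul_of_nonneg_left (pow_le_pow_right₀ C2 hz) C1) (mul_nonneg S0 (f0 z)))
      · rw [ind_neg hz, zero_mul]; exact mul_nonneg (mul_nonneg S0 (f0 z)) C0
    refine (sum_le_sum fun z _ => mul_le_mul_of_nonneg_left (b z) ((hK ρ z).1 y).1).trans ?_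
    calc _ = C * (∑ h, W h * g h y) * ∑ z, fake e ζ m W z * K ρ z y := by
          rw [mul_sum]; exact sum_congr rfl fun z _ => by ring
      _ ≤ C * (∑ h, W h * g h y) * ((Q + 1) * lam (ρ, W) y) :=
          mul_le_mul_of_nonneg_left (hl y) (mul_nonneg C0 S0)
      _ = _ := by ring
  have e5 : ∑ y, ∑ h, W h * g h y * E ≤ t * Q * E * ∑ h, W h := by
    rw [sum_comm, mul_sum]
    refine sum_le_sum fun h _ => ?_
    rw [← sum_mul, ← mul_sum]
    have := mul_le_mul_of_nonneg_left (hgs h) (mul_nonneg (hW h) E0)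
    linarith
  have e6 := sum_le_sum fun y (_ : y ∈ univ) => add_le_add
    (sum_le_sum fun h (_ : h ∈ univ) => mul_le_mul_of_nonneg_left (e3 y h)
      (mul_nonneg (hW h) (hg h y).1))
    (mul_le_mul_of_nonneg_left (e4 y) (ind_nonneg (Opn P ρ y)))
  rw [← e2] at e6
  have e7 : ∑ y, ind (Opn P ρ y) * (C * (Q + 1) * ((∑ h, W h * g h y) * lam (ρ, W) y)) =
      C * (Q + 1) * ∑ y, ind (Opn P ρ y) * (∑ h, W h * g h y) * lam (ρ, W) y := by
    rw [mul_sum]; exact sum_congr rfl fun _ _ => by ring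
  rw [sum_add_distrib, e7] at e6
  simp only [mul_add (W _ * g _ _), sum_add_distrib] at e6
  rw [sum_add_distrib, sum_add_distrib, sum_add_distrib, sum_add_distrib, ← mul_sum, ← mul_sum,
    ← mul_sum, ← mul_sum, ← sum_div, ← pr fun h => W h] at ks
  have e8 : ε * ((t : ℝ) * (q * v)) * ∑ h, W h ≤ ε * (t * Q) * ∑ h, W h := by
    have : (q : ℝ) * v ≤ Q := by exact_mod_cast Q1
    have := sum_nonneg fun h (_ : h ∈ univ) => hW h
    gcongr
  rw [e0]
  simp only [Ph1P, SzP]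
  linarith

end

end

section

noncomputable section

theorem tCore (hL : TLoc) (hS : TSpl) (hP : TPh1) (hQ : TPsi) (hR : TReal) : TCore := by
  intro Y I _ _ _ _ _ _ P v f Q ε e e' ζ κ x x' α ℓ m q t a s J β μ hB hD ε0 Q1 Q2 h0 h1 d0 d1 z0
    z1 k0 x0 x1 x2 a0 hℓ t0 s0 J0 hβ hμ
  obtain ⟨-, -, -, -, -, tr, htr, hν⟩ := sAch Y q
  choose ν hν1 hν2 using fun i z => hν (β i z) (hβ i z)
  obtain ⟨lam, g, H, hl, hg, hgs, hH1, hH2, loc⟩ := hL Y I _ P v f Q ε e ζ κ x x' m q t a tr ν β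
    hB hD ε0 Q1 Q2 h0 h1 z0 z1 k0.le x0 x1 x2 t0 htr hν1 hν2
  have d2 : e' ≤ 1 := by linarith
  have tq : (0 : ℝ) ≤ t * Q := by positivity
  obtain ⟨F4, G4, c4, b4⟩ := sHeavy sKl Y I e e' κ (t * Q + 1) g h0 h1 d0 d2 k0 (by linarith) hg
    (fun h => by linarith [hgs h]) m H hH1
  have c4' := c4.weak (b' := fun _ => m * ((Real.log (t * Q + 1) + ℓ) * Q + 2)) fun h => by
    have l1 : 0 ≤ Real.log (t * Q + 1 : ℝ) := Real.log_nonneg (by linarith)
    have l2 : 0 ≤ Real.log (Fintype.card Y : ℝ) := Real.log_natCast_nonneg _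
    have u : ∑ y, g h y * ∑ z, Lz e h.2 z * H z h y ≤ Q := by
      refine (sum_le_sum fun y _ => mul_le_of_le_one_left (sum_nonneg fun z _ =>
        mul_nonneg (Lz_nonneg h0 h1 _ _) (hH1 z h y).1) (hg h y).2).trans ?_
      rw [sum_comm]
      simp only [← mul_sum]
      refine (sum_le_sum fun z _ => mul_le_mul_of_nonneg_left (hH2 z h)
        (Lz_nonneg h0 h1 _ _)).trans_eq ?_
      rw [← sum_mul, sum_Lz, one_mul]
    refine mul_le_mul_of_nonneg_left (add_le_add ?_ le_rfl) (Nat.cast_nonneg _)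
    exact (mul_le_mul_of_nonneg_left u (add_nonneg l1 l2)).trans
      (mul_le_mul_of_nonneg_right (by linarith) (Nat.cast_nonneg _))
  obtain ⟨F3, G3, c3, b3⟩ := sBay sKl Y I e e' α m h0 h1 d0 d1 a0
  obtain ⟨S1, S2, S3, S4⟩ := hS Y I P v f lam s e' hB hl s0 d0 d2
  let σ : St Y I := (fun _ => none, μ)
  have hσ : ValP P σ := fun h => ⟨(hμ h).1, fun k => (cell_none P).symm ▸ (hμ h).2 k⟩
  obtain ⟨β', hβ', eR⟩ := hR Y I P v lam s J e' σ hB.card hl s0 J0
  refine ⟨β', hβ', ?_⟩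
  have δ0 : 0 < (1 - 2 * e') ^ 2 := pow_pos (by linarith) _
  set δ := (1 - 2 * e') ^ 2 with hδ
  set E : ℝ := x + 2 * (t * Q) * ((1 + x' * (4 * κ / ζ ^ 2)) ^ m / x' ^ (a + 1)) with hE
  set C : ℝ := 2 * ((1 / (1 - ζ)) ^ m * (2 / ζ) ^ a * (Q + 1)) with hC
  have C0 : 0 ≤ C := by
    have : 0 < 1 - ζ := by linarith
    positivity
  set b : ℝ := m * ((Real.log (t * Q + 1) + ℓ) * Q + 2) with hb
  have pt : ∀ τ : St Y I, ValP P τ → lin (advI e β) τ ≤ bay τ.2 + ((E + m * α + 2 * ε * (t * Q + 2 * q)) *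
      lin (fun _ => 1) τ + (2 * ε * SzP τ +
      (4 / (α * δ) * G3 τ.2 + (16 / (δ * κ) * G4 τ.2 + (1 / (x * t) * Ph1P P τ +
        C * (PsiP P g τ - qopP P lam (PsiP P g) τ)))))) := fun τ hτ => by
    have p1 := loc τ hτ
    have p2 := b3 τ.2 fun h => (hτ h).1
    have p3 := b4 τ.2 fun h => (hτ h).1
    rw [← le_div_iff₀' (mul_pos δ0 k0)] at p3
    have p4 := mul_le_mul_of_nonneg_left ((hQ Y I P v f lam e' τ hB (hl τ) hτ).2.2 g
      fun h y => (hg h y).1) C0
    have q1 : 16 / (δ * κ) * G4 τ.2 = 2 * (8 * G4 τ.2 / (δ * κ)) := by ring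
    have q2 : 1 / (x * t) * Ph1P P τ = Ph1P P τ / (x * t) := by ring
    have q3 : lin (fun _ => 1) τ = ∑ h, τ.2 h := by simp [lin]
    rw [q1, q2, q3]
    linarith
  have M : ∀ y : ℝ, lin (fun _ => y) σ = y * ∑ h, μ h := fun y => by
    simp only [lin, σ]; rw [← sum_mul, mul_comm]
  have M0 : 0 ≤ ∑ h, μ h := sum_nonneg fun h _ => (hμ h).1
  have xt : 0 < x * t := by positivity
  have st : ∀ j ∈ range J, lin (advI e β) σ ≤ ExP P lam s e' j (fun τ => bay τ.2) σ +
      ((E + m * α + 2 * ε * (t * Q + 2 * q)) * ∑ h, μ h + (2 * ε * (J * s * v * ∑ h, μ h) +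
      (4 / (α * δ) * ExP P lam s e' j (fun τ => G3 τ.2) σ +
      (16 / (δ * κ) * ExP P lam s e' j (fun τ => G4 τ.2) σ + (1 / (x * t) * Ph1P P σ +
        C * (t * Q * (∑ h, μ h) / s)))))) := fun j hj => by
    have p := (S1 j).mono _ _ pt σ hσ
    rw [(S1 j).lin, (S1 j).add, (S1 j).add, (S1 j).add, (S1 j).add, (S1 j).add, (S1 j).add,
      (S1 j).smul, (S1 j).smul, (S1 j).smul, (S1 j).smul, (S1 j).smul, (S1 j).smul, (S1 j).lin, M, one_mul] at p
    have p1 := S2 (Ph1P P) (fun _ => 0) (fun _ => le_rfl)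
      (fun τ hτ => by simpa [lin] using (hP Y I P v f lam e' τ hB (hl τ) d0 d2 hτ).1)
      (fun τ hτ => (hP Y I P v f lam e' τ hB (hl τ) d0 d2 hτ).2) j σ hσ
    have p5 := S2 SzP (fun _ => v) (fun _ => Nat.cast_nonneg _)
      (fun τ hτ => (hQ Y I P v f lam e' τ hB (hl τ) hτ).1)
      (fun τ hτ => (hQ Y I P v f lam e' τ hB (hl τ) hτ).2.1) j σ hσ
    have p6 : SzP σ = 0 := by simp [SzP, sz, σ, ind]
    have p7 : ((j : ℝ) + 1) * s * (v * ∑ h, μ h) ≤ J * s * (v * ∑ h, μ h) := by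
      have : (j : ℝ) + 1 ≤ J := by exact_mod_cast mem_range.1 hj
      gcongr
    rw [M, zero_mul, mul_zero, add_zero] at p1
    rw [M, p6, zero_add] at p5
    have p8 := mul_le_mul_of_nonneg_left (p5.trans p7) (show 0 ≤ 2 * ε by linarith)
    have p2 := S3 (PsiP P g) (fun _ => t * Q) (fun τ hτ => ⟨sum_nonneg fun h _ => mul_nonneg (hτ h).1
      (sum_nonneg fun y _ => mul_nonneg (ind_nonneg _) (hg h y).1), sum_le_sum fun h _ =>
      mul_le_mul_of_nonneg_left ((sum_le_sum fun y _ => mul_le_of_le_one_left (hg h y).1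
        (ind_le_one _)).trans (hgs h)) (hτ h).1⟩) j σ hσ
    rw [M] at p2
    have p3 := mul_le_mul_of_nonneg_left p1 (one_div_pos.2 xt).le
    have p4 := mul_le_mul_of_nonneg_left p2 C0
    linarith
  have t3 := mul_le_mul_of_nonneg_left (S4 _ _ _ c3 J σ hσ) (show 0 ≤ 4 / (α * δ) by positivity)
  have t4 := mul_le_mul_of_nonneg_left (S4 _ _ _ c4' J σ hσ) (show 0 ≤ 16 / (δ * κ) by positivity)
  rw [M] at t3 t4
  have ss := sum_le_sum st
  simp only [sum_add_distrib, ← mul_sum, sum_const, card_range, nsmul_eq_mul] at ss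
  have J1 : (0 : ℝ) < J := Nat.cast_pos.2 J0
  rw [eq_div_iff J1.ne'] at eR
  have hp : Ph1P P σ = ∑ c, Ph P.A fun O => μ (O, c) := by simp only [Ph1P, σ, cell_none]
  rw [← hp]
  change lin (advI e β) σ ≤ lin (advI e' β') σ + _ + _
  refine le_of_mul_le_mul_left ?_ J1
  have fin : J * (lin (advI e' β') σ + (err0 e' ζ κ x x' α ℓ m Q t a s J +
      2 * ε * (J * s * v + t * Q + 2 * q)) * ∑ h, μ h + Ph1P P σ / (x * t)) =
      lin (advI e' β') σ * J + J * ((E + m * α + 2 * ε * (t * Q + 2 * q)) * ∑ h, μ h) +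
      J * (2 * ε * (J * s * v * ∑ h, μ h)) +
      4 / (α * δ) * (2 * m * ∑ h, μ h) + 16 / (δ * κ) * (b * ∑ h, μ h) +
      J * (1 / (x * t) * Ph1P P σ) + J * (C * (t * Q * (∑ h, μ h) / s)) := by
    simp only [err0, ← hδ, ← hE, ← hC, ← hb]
    field_simp
    ring
  rw [fin, eR]
  linarith

end

end

end Pool.Agent.MP_9f8ce8_lc.Rom
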