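import Pool.Agent.MP_9f8ce8_lc.Rom.St2

set_option autoImplicit false
set_option linter.unusedSectionVars false

namespace Pool.Agent.MP_9f8ce8_lc.Rom

open Finset Cap

section

section

variable {J : Type} [Fintype J] [DecidableEq J] {B : J → Type} [∀ j, Fintype (B j)]
  [∀ j, DecidableEq (B j)]

/-- the values still free at the index `j` -/
def fr_TFix (D : Finset (Σ j, B j)) (ω0 : (j : J) → Equiv.Perm (B j)) (j : J) : Finset (B j) :=
  univ.filter fun u => ∀ x', (⟨j, x'⟩ : Σ j, B j) ∈ D → ω0 j x' ≠ u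

theorem card_TFix (D : Finset (Σ j, B j)) (ω0 : (j : J) → Equiv.Perm (B j)) (j : J) :
    (fr_TFix D ω0 j).card + (univ.filter fun x : B j => (⟨j, x⟩ : Σ j, B j) ∈ D).card =
      Fintype.card (B j) := by
  have h : fr_TFix D ω0 j =
      ((univ.filter fun x : B j => (⟨j, x⟩ : Σ j, B j) ∈ D).image (ω0 j))ᶜ := by
    ext u
    simp only [fr_TFix, mem_filter, mem_univ, true_and, mem_compl, mem_image, not_exists, not_and]
  rw [h, ← card_image_of_injective (univ.filter fun x : B j => (⟨j, x⟩ : Σ j, B j) ∈ D)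
    (ω0 j).injective, card_compl_add_card]

theorem upd_TFix {D : Finset (Σ j, B j)} {ω0 ω : (j : J) → Equiv.Perm (B j)} {j : J} {a b : B j}
    (hω : ω ∈ Cy D ω0) (ha : a ∈ fr_TFix D ω0 j) (hb : b ∈ fr_TFix D ω0 j) :
    Function.update ω j (Equiv.swap a b * ω j) ∈ Cy D ω0 := by
  rw [mem_Cy] at hω ⊢
  rintro ⟨j', x'⟩ hp
  have h1 : ω j' x' = ω0 j' x' := hω _ hp
  show Function.update ω j (Equiv.swap a b * ω j) j' x' = ω0 j' x'
  by_cases e : j' = j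
  · subst e
    rw [Function.update_self, Equiv.Perm.mul_apply, h1]
    exact Equiv.swap_apply_of_ne_of_ne ((mem_filter.1 ha).2 x' hp) ((mem_filter.1 hb).2 x' hp)
  · rw [Function.update_of_ne e, h1]

theorem val_TFix {D : Finset (Σ j, B j)} {ω0 ω : (j : J) → Equiv.Perm (B j)} {j : J} {x : B j}
    (hp : (⟨j, x⟩ : Σ j, B j) ∉ D) (hω : ω ∈ Cy D ω0) : ω j x ∈ fr_TFix D ω0 j := by
  refine mem_filter.2 ⟨mem_univ _, fun x' hx e => hp ?_⟩
  have h1 : ω j x' = ω0 j x' := mem_Cy.1 hω _ hx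
  rw [(ω j).injective (e.symm.trans h1.symm)]
  exact hx

theorem ins_TFix {D : Finset (Σ j, B j)} {ω0 ω : (j : J) → Equiv.Perm (B j)} {j : J} {x : B j} :
    ω ∈ Cy (insert ⟨j, x⟩ D) ω0 ↔ ω j x = ω0 j x ∧ ω ∈ Cy D ω0 := by
  rw [mem_Cy, mem_Cy, forall_mem_insert]

theorem sum_TFix (D : Finset (Σ j, B j)) (ω0 : (j : J) → Equiv.Perm (B j)) (j : J) (x : B j)
    (hp : (⟨j, x⟩ : Σ j, B j) ∉ D) (G : ((j : J) → Equiv.Perm (B j)) → B j → ℝ) :
    ∑ ω ∈ Cy D ω0, G (fixP ω0 ⟨j, x⟩ ω) (ω j x) =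
      ∑ ω ∈ Cy (insert ⟨j, x⟩ D) ω0, ∑ u ∈ fr_TFix D ω0 j, G ω u := by
  have h0 : ω0 j x ∈ fr_TFix D ω0 j := val_TFix hp (mem_Cy.2 fun _ _ => rfl)
  rw [← sum_product' (f := G)]
  refine sum_nbij' (fun ω => (fixP ω0 ⟨j, x⟩ ω, ω j x))
    (fun q => Function.update q.1 j (Equiv.swap q.2 (ω0 j x) * q.1 j)) ?_ ?_ ?_ ?_ ?_
  · intro ω hω
    refine mem_product.2 ⟨ins_TFix.2 ⟨?_, upd_TFix hω (val_TFix hp hω) h0⟩, val_TFix hp hω⟩
    show Function.update ω j (Equiv.swap (ω j x) (ω0 j x) * ω j) j x = ω0 j x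
    rw [Function.update_self, Equiv.Perm.mul_apply, Equiv.swap_apply_left]
  · intro q hq
    obtain ⟨h1, h2⟩ := mem_product.1 hq
    exact upd_TFix (ins_TFix.1 h1).2 h2 h0
  · intro ω _
    show Function.update (Function.update ω j (Equiv.swap (ω j x) (ω0 j x) * ω j)) j
      (Equiv.swap (ω j x) (ω0 j x) *
        Function.update ω j (Equiv.swap (ω j x) (ω0 j x) * ω j) j) = ω
    rw [Function.update_self, Function.update_idem, Equiv.swap_mul_self_mul,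
      Function.update_eq_self]
  · rintro ⟨ω, u⟩ hq
    have h1 : ω j x = ω0 j x := (ins_TFix.1 (mem_product.1 hq).1).1
    have h2 : Function.update ω j (Equiv.swap u (ω0 j x) * ω j) j x = u := by
      rw [Function.update_self, Equiv.Perm.mul_apply, h1, Equiv.swap_apply_right]
    refine Prod.ext ?_ h2
    show Function.update (Function.update ω j (Equiv.swap u (ω0 j x) * ω j)) j
      (Equiv.swap (Function.update ω j (Equiv.swap u (ω0 j x) * ω j) j x) (ω0 j x) *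
        Function.update ω j (Equiv.swap u (ω0 j x) * ω j) j) = ω
    rw [h2, Function.update_self, Function.update_idem, Equiv.swap_mul_self_mul,
      Function.update_eq_self]
  · intro ω _
    rfl

end

theorem cFix : CFix := by
  intro J _ _ B _ _ D ω0 p hp
  obtain ⟨j, x⟩ := p
  have h0 : ω0 j x ∈ fr_TFix D ω0 j := val_TFix hp (mem_Cy.2 fun _ _ => rfl)
  have hV : (0 : ℝ) < (fr_TFix D ω0 j).card := by exact_mod_cast card_pos.2 ⟨_, h0⟩
  have hC : (0 : ℝ) < (Cy (insert ⟨j, x⟩ D) ω0).card := by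
    exact_mod_cast card_pos.2 ⟨ω0, mem_Cy.2 fun _ _ => rfl⟩
  have hc : ((Cy D ω0).card : ℝ) =
      (Cy (insert ⟨j, x⟩ D) ω0).card * (fr_TFix D ω0 j).card := by
    have := sum_TFix D ω0 j x hp fun _ _ => 1
    simpa only [sum_const, nsmul_eq_mul, mul_one] using this
  constructor
  · intro F
    have h1 := sum_TFix D ω0 j x hp fun ω _ => F ω
    simp only [sum_const, nsmul_eq_mul, ← mul_sum] at h1
    unfold avg
    rw [h1, hc]
    field_simp
  · intro u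
    have h1 := sum_TFix D ω0 j x hp fun _ v => ind (v = u)
    have h2 : ∑ v ∈ fr_TFix D ω0 j, ind (v = u) ≤ 1 := by
      simp only [ind_eq, sum_ite_eq']
      split_ifs <;> norm_num
    have h3 : (Fintype.card (B j) : ℝ) -
        ((univ.filter fun x : B j => (⟨j, x⟩ : Σ j, B j) ∈ D).card : ℝ) =
        (fr_TFix D ω0 j).card := by
      rw [← card_TFix D ω0 j]
      push_cast
      ring
    simp only [sum_const, nsmul_eq_mul] at h1
    show (avg (Cy D ω0) fun ω => ind (ω j x = u)) * ((Fintype.card (B j) : ℝ) -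
        ((univ.filter fun x : B j => (⟨j, x⟩ : Σ j, B j) ∈ D).card : ℝ)) ≤ 1
    unfold avg
    rw [h3, h1, hc]
    refine le_trans (le_of_eq ?_) h2
    field_simp

end

section

theorem cPhi (h : CFix) : CPhi := by
  intro J _ _ B _ _ D Δ ω0
  induction Δ using Finset.induction_on with
  | empty => exact fun _ => ⟨id, fun F => by rw [union_empty]; rfl, fun _ _ _ _ => rfl⟩
  | insert p Δ hp ih =>
    intro hd
    obtain ⟨h1, h2⟩ := disjoint_insert_right.1 hd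
    obtain ⟨Φ, a, b⟩ := ih h2
    refine ⟨fun ω => fixP ω0 p (Φ ω), fun F => ?_, fun ω p' hp' hx => ?_⟩
    · rw [union_insert, (h J B (D ∪ Δ) ω0 p fun hm => (mem_union.1 hm).elim h1 hp).1 F]
      exact a fun ω => F (fixP ω0 p ω)
    · have e := b ω p' (fun hm => hp' (mem_insert_of_mem hm)) fun x hm =>
        hx x (mem_insert_of_mem hm)
      obtain ⟨j, x⟩ := p
      obtain ⟨j', x'⟩ := p'
      by_cases hj : j' = j
      · subst hj
        have hne : x' ≠ x := by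
          rintro rfl
          exact hp' (mem_insert_self _ _)
        simp only [fixP, Function.update_self, Equiv.Perm.mul_apply]
        rw [Equiv.swap_apply_of_ne_of_ne (fun c => hne ((Φ ω j').injective c))
          (fun c => hx x (mem_insert_self _ _) (e.symm.trans c))]
        exact e
      · simp only [fixP, Function.update_of_ne hj]
        exact e

end

section

theorem tower_TLuck {α : Type} [DecidableEq α] (C : Finset α) (cls : α → Finset α) (G : α → ℝ)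
    (b : ℝ) (hb : 0 ≤ b) (h1 : ∀ a ∈ C, a ∈ cls a) (h2 : ∀ a ∈ C, cls a ⊆ C)
    (h3 : ∀ a ∈ C, ∀ a' ∈ cls a, cls a' = cls a) (h4 : ∀ a ∈ C, avg (cls a) G ≤ b) :
    avg C G ≤ b := by
  have key : ∑ a ∈ C, G a ≤ ∑ _a ∈ C, b := by
    rw [← sum_fiberwise_of_maps_to (g := cls) (t := C.image cls)
        (fun a ha => mem_image_of_mem _ ha) G,
      ← sum_fiberwise_of_maps_to (g := cls) (t := C.image cls)
        (fun a ha => mem_image_of_mem _ ha) (fun _ => b)]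
    refine sum_le_sum fun c hc => ?_
    obtain ⟨a, ha, rfl⟩ := mem_image.1 hc
    have e : C.filter (fun x => cls x = cls a) = cls a := by
      ext x
      simp only [mem_filter]
      constructor
      · rintro ⟨hx, e⟩
        rw [← e]
        exact h1 x hx
      · intro hx
        exact ⟨h2 a ha hx, h3 a ha x hx⟩
    rw [e, sum_const, nsmul_eq_mul]
    have := h4 a ha
    rw [avg, div_le_iff₀ (by exact_mod_cast card_pos.2 ⟨a, h1 a ha⟩)] at this
    linarith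
  rw [sum_const, nsmul_eq_mul] at key
  exact div_le_of_le_mul₀ (Nat.cast_nonneg _) hb (by linarith)

theorem mono_TLuck {α : Type} {A : Finset α} {f g : α → ℝ} (h : ∀ a ∈ A, f a ≤ g a) :
    avg A f ≤ avg A g := div_le_div_of_nonneg_right (sum_le_sum h) (Nat.cast_nonneg _)

theorem add_TLuck {α : Type} (A : Finset α) (f g : α → ℝ) :
    (avg A fun a => f a + g a) = avg A f + avg A g := by
  simp only [avg, sum_add_distrib, add_div]

theorem sum_TLuck {α ι : Type} (A : Finset α) (s : Finset ι) (f : ι → α → ℝ) :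
    (avg A fun a => ∑ i ∈ s, f i a) = ∑ i ∈ s, avg A (f i) := by
  simp only [avg]
  rw [sum_comm, sum_div]

theorem mul_TLuck {α : Type} (A : Finset α) (c : ℝ) (f : α → ℝ) :
    (avg A fun a => c * f a) = c * avg A f := by
  simp only [avg]
  rw [← mul_sum, mul_div_assoc]

theorem or_TLuck (p r : Prop) : ind (p ∨ r) ≤ ind p + ind r := by
  by_cases hp : p
  · rw [ind_pos (Or.inl hp), ind_pos hp]
    linarith [ind_nonneg r]
  · have : ind (p ∨ r) ≤ ind r := ind_mono fun h => h.resolve_left hp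
    linarith [ind_nonneg p]

section
variable {J : Type} [Fintype J] [DecidableEq J] {B : J → Type} [∀ j, Fintype (B j)]
  [∀ j, DecidableEq (B j)]

theorem pt_TLuck (h : CFix) {S D : Finset (Σ j, B j)} {K : ℕ} (hK : 0 < K)
    (hS : ∀ p : Σ j, B j, p ∉ S →
      K ≤ Fintype.card (B p.1) ∧ ∀ x : B p.1, (⟨p.1, x⟩ : Σ j, B j) ∉ S)
    (hSD : S ⊆ D) (hD : 2 * (D \ S).card ≤ K) (ω0 : (j : J) → Equiv.Perm (B j)) (p : Σ j, B j)
    (hp : p ∉ D) (u : B p.1) : (avg (Cy D ω0) fun ω => ind (ω p.1 p.2 = u)) ≤ 2 / K := by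
  obtain ⟨a, b⟩ := hS p fun c => hp (hSD c)
  have c : (univ.filter fun x : B p.1 => (⟨p.1, x⟩ : Σ j, B j) ∈ D).card ≤ (D \ S).card :=
    card_le_card_of_injOn (fun x => ⟨p.1, x⟩)
      (fun x hx => mem_coe.2 (mem_sdiff.2 ⟨(mem_filter.1 (mem_coe.1 hx)).2, b x⟩))
      fun x _ x' _ e => sigma_mk_injective e
  have d := (h J B D ω0 p hp).2 u
  have a' : (K : ℝ) ≤ Fintype.card (B p.1) := by exact_mod_cast a
  have c' : 2 * ((univ.filter fun x : B p.1 => (⟨p.1, x⟩ : Σ j, B j) ∈ D).card : ℝ) ≤ K := by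
    exact_mod_cast (Nat.mul_le_mul_left 2 c).trans hD
  have n : 0 ≤ avg (Cy D ω0) fun ω => ind (ω p.1 p.2 = u) :=
    div_nonneg (sum_nonneg fun _ _ => ind_nonneg _) (Nat.cast_nonneg _)
  rw [le_div_iff₀ (by exact_mod_cast hK)]
  nlinarith

theorem first_TLuck (h : CFix) {S D : Finset (Σ j, B j)} {K : ℕ} (hK : 0 < K)
    (hS : ∀ p : Σ j, B j, p ∉ S →
      K ≤ Fintype.card (B p.1) ∧ ∀ x : B p.1, (⟨p.1, x⟩ : Σ j, B j) ∉ S)
    (hSD : S ⊆ D) (hD : 2 * (D \ S).card ≤ K) (ω0 : (j : J) → Equiv.Perm (B j))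
    (E : (p : Σ j, B j) → B p.1 → Prop) (e : ℝ) (hE : ∑ p, ∑ u, ind (E p u) ≤ e) :
    (avg (Cy D ω0) fun ω => ind (∃ p, p ∉ D ∧ E p (ω p.1 p.2))) ≤ e * 2 / K := by
  have a : ∀ ω ∈ Cy D ω0, ind (∃ p, p ∉ D ∧ E p (ω p.1 p.2)) ≤
      ∑ p, ∑ u, (ind (E p u) * ind (p ∉ D)) * ind (ω p.1 p.2 = u) := by
    intro ω _
    have n : ∀ (p : Σ j, B j) (u : B p.1),
        0 ≤ (ind (E p u) * ind (p ∉ D)) * ind (ω p.1 p.2 = u) := fun p u =>
      mul_nonneg (mul_nonneg (ind_nonneg _) (ind_nonneg _)) (ind_nonneg _)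
    by_cases c : ∃ p, p ∉ D ∧ E p (ω p.1 p.2)
    · rw [ind_pos c]
      obtain ⟨p, c1, c2⟩ := c
      refine le_trans ?_ (single_le_sum (f := fun p : Σ j, B j =>
        ∑ u, (ind (E p u) * ind (p ∉ D)) * ind (ω p.1 p.2 = u))
        (fun p _ => sum_nonneg fun u _ => n p u) (mem_univ p))
      refine le_trans ?_ (single_le_sum (f := fun u : B p.1 =>
        (ind (E p u) * ind (p ∉ D)) * ind (ω p.1 p.2 = u)) (fun u _ => n p u)
        (mem_univ (ω p.1 p.2)))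
      rw [ind_pos c1, ind_pos c2, ind_pos rfl]
      norm_num
    · rw [ind_neg c]
      exact sum_nonneg fun p _ => sum_nonneg fun u _ => n p u
  refine (mono_TLuck a).trans ?_
  rw [sum_TLuck]
  have hK2 : (0 : ℝ) ≤ 2 / K := by positivity
  refine le_trans (sum_le_sum (g := fun p : Σ j, B j => (∑ u, ind (E p u)) * (2 / K))
    fun p _ => ?_) ?_
  · rw [sum_TLuck, sum_mul]
    refine sum_le_sum fun u _ => ?_
    rw [mul_TLuck]
    by_cases c : p ∈ D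
    · rw [ind_neg (not_not.2 c), mul_zero, zero_mul]
      exact mul_nonneg (ind_nonneg _) hK2
    · rw [ind_pos c, mul_one]
      exact mul_le_mul_of_nonneg_left (pt_TLuck h hK hS hSD hD ω0 p c u) (ind_nonneg _)
  · rw [← sum_mul, mul_div_assoc]
    exact mul_le_mul_of_nonneg_right hE hK2

end

theorem cLuck (h : CFix) : CLuck := by
  intro J _ _ B _ _ Y ans rev E S K e hK hrev hst hE he hS t
  classical
  induction t with
  | leaf b =>
    intro D ω0 _ _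
    simp [luck, avg, ind, DT.depth]
  | node y t f iht ihf =>
    intro D ω0 hSD hD
    simp only [DT.depth] at hD ⊢
    have m1 := le_max_left t.depth f.depth
    have m2 := le_max_right t.depth f.depth
    have p1 := first_TLuck h hK hS hSD (by omega) ω0 (E y) e (hE y)
    have p2 : (avg (Cy D ω0) fun ω => ind (if ans ω y then luck ans rev E t (D ∪ rev ω y) ω
        else luck ans rev E f (D ∪ rev ω y) ω)) ≤ (max t.depth f.depth : ℕ) * e * 2 / K := by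
      refine tower_TLuck _ (fun ω => Cy (D ∪ rev ω y) ω) _ _ (by positivity)
        (fun ω _ => mem_Cy.2 fun _ _ => rfl)
        (fun ω hω ω' hω' => mem_Cy.2 fun p hp =>
          (mem_Cy.1 hω' p (mem_union_left _ hp)).trans (mem_Cy.1 hω p hp))
        (fun ω _ ω' hω' => ?_) fun ω _ => ?_
      · have a := mem_Cy.1 hω'
        have b := (hst ω ω' y fun p hp => a p (mem_union_right _ hp)).1
        ext ω''
        simp only [b, mem_Cy]
        exact ⟨fun c p hp => (c p hp).trans (a p hp), fun c p hp => (c p hp).trans (a p hp).symm⟩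
      · have c : ((D ∪ rev ω y) \ S).card ≤ (D \ S).card + 2 := by
          rw [union_sdiff_distrib]
          exact (card_union_le _ _).trans
            (Nat.add_le_add_left ((card_le_card sdiff_subset).trans (hrev ω y)) _)
        have hs : S ⊆ D ∪ rev ω y := hSD.trans subset_union_left
        have w : ∀ a b : ℕ, a ≤ b → (a : ℝ) * e * 2 / K ≤ b * e * 2 / K := fun a b hab => by
          have : (a : ℝ) ≤ b := by exact_mod_cast hab
          gcongr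
        have st : ∀ ω' ∈ Cy (D ∪ rev ω y) ω, rev ω' y = rev ω y ∧ ans ω' y = ans ω y :=
          fun ω' hω' => hst ω ω' y fun p hp => mem_Cy.1 hω' p (mem_union_right _ hp)
        by_cases ha : ans ω y
        · refine le_trans (mono_TLuck fun ω' hω' => le_of_eq ?_)
            ((iht (D ∪ rev ω y) ω hs (by omega)).trans (w _ _ m1))
          rw [(st ω' hω').1, (st ω' hω').2, if_pos ha]
        · refine le_trans (mono_TLuck fun ω' hω' => le_of_eq ?_)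
            ((ihf (D ∪ rev ω y) ω hs (by omega)).trans (w _ _ m2))
          rw [(st ω' hω').1, (st ω' hω').2, if_neg ha]
    refine le_trans (mono_TLuck fun ω _ => or_TLuck _ _) ?_
    rw [add_TLuck]
    refine (add_le_add p1 p2).trans (le_of_eq ?_)
    push_cast
    ring

end

section

theorem atom_TStab {l : ℕ} {ω ω' : World l} {k : Fin (l + 1)} {sk y : X k} (i : Fin k)
    (h1 : ω' ⟨k, none⟩ sk = ω ⟨k, none⟩ sk)
    (h2 : (ω' ⟨k, some (ω ⟨k, none⟩ sk)⟩).symm y = (ω ⟨k, some (ω ⟨k, none⟩ sk)⟩).symm y) :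
    atom ω' ⟨k, .inr (.inr (sk, y)), i⟩ = atom ω ⟨k, .inr (.inr (sk, y)), i⟩ ∧
      tdp0 ω' ⟨k, .inr (.inr (sk, y)), i⟩ = tdp0 ω ⟨k, .inr (.inr (sk, y)), i⟩ := by
  have e : ∀ a b : X k, a = b → (ω' ⟨k, some b⟩).symm y = (ω ⟨k, some b⟩).symm y →
      (⟨⟨k, some a⟩, (ω' ⟨k, some a⟩).symm y⟩ : Pos l) = ⟨⟨k, some b⟩, (ω ⟨k, some b⟩).symm y⟩ ∧
        (ω' ⟨k, some a⟩).symm y i = (ω ⟨k, some b⟩).symm y i := by
    rintro a _ rfl h
    exact ⟨congrArg (fun z : X k => (⟨⟨k, some a⟩, z⟩ : Pos l)) h, congrFun h i⟩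
  exact e _ _ h1 h2

theorem cStab : CStab := by
  intro l
  refine ⟨fun ω ω' h => ?_, fun ω ω' y hp => ?_, fun ω ω' y hc p hp => ?_, fun ω y => ?_⟩
  · funext j
    obtain ⟨k, _ | pk⟩ := j
    · exact Equiv.ext fun x => funext fun i => congrFun h ⟨k, .inl x, i⟩
    · exact Equiv.ext fun x => funext fun i => congrFun h ⟨k, .inr (.inl (pk, x)), i⟩
  · have h1 := hp (fwd y) (mem_insert_self _ _)
    have h2 := hp (atom ω y) (mem_insert_of_mem (mem_singleton_self _))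
    obtain ⟨k, sk | ⟨pk, x⟩ | ⟨sk, y⟩, i⟩ := y
    · exact ⟨rfl, rfl, congrFun h1 i⟩
    · exact ⟨rfl, rfl, congrFun h1 i⟩
    · obtain ⟨a, b⟩ := atom_TStab (ω := ω) (ω' := ω') (sk := sk) (y := y) i h1
        ((Equiv.symm_apply_eq _).2 (h2.trans (Equiv.apply_symm_apply _ _)).symm)
      exact ⟨a, by rw [revT, revT, a], b⟩
  · have hp' : p = fwd y ∨ p = atom ω y := (mem_insert.1 hp).imp_right mem_singleton.1
    obtain ⟨k, sk | ⟨pk, x⟩ | ⟨sk, y⟩, i⟩ := y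
    · obtain rfl : p = ⟨⟨k, none⟩, sk⟩ := hp'.elim id id
      exact funext fun j => hc ⟨k, .inl sk, j⟩ (mem_image_of_mem _ (mem_univ j))
    · obtain rfl : p = ⟨⟨k, some pk⟩, x⟩ := hp'.elim id id
      exact funext fun j => hc ⟨k, .inr (.inl (pk, x)), j⟩ (mem_image_of_mem _ (mem_univ j))
    · have h1 : ω' ⟨k, none⟩ sk = ω ⟨k, none⟩ sk := funext fun j =>
        hc ⟨k, .inl sk, j⟩ (mem_union_right _ (mem_image_of_mem _ (mem_univ j)))
      have h2 : (ω' ⟨k, some (ω' ⟨k, none⟩ sk)⟩).symm y =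
          (ω ⟨k, some (ω ⟨k, none⟩ sk)⟩).symm y := funext fun j =>
        hc ⟨k, .inr (.inr (sk, y)), j⟩ (mem_union_left _ (mem_image_of_mem _ (mem_univ j)))
      have e : ∀ a b : X k, a = b → (ω' ⟨k, some a⟩).symm y = (ω ⟨k, some b⟩).symm y →
          ω' ⟨k, some b⟩ ((ω ⟨k, some b⟩).symm y) = ω ⟨k, some b⟩ ((ω ⟨k, some b⟩).symm y) := by
        rintro a _ rfl h
        rw [Equiv.apply_symm_apply, ← h, Equiv.apply_symm_apply]
      rcases hp' with rfl | rfl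
      · exact h1
      · exact e _ _ h1 h2
  · obtain ⟨k, sk | ⟨pk, x⟩ | ⟨sk, y⟩, i⟩ := y
    · exact ⟨_, mem_image_of_mem _ (mem_univ i), rfl⟩
    · exact ⟨_, mem_image_of_mem _ (mem_univ i), rfl⟩
    · exact ⟨⟨k, .inl sk, i⟩, mem_union_right _ (mem_image_of_mem _ (mem_univ i)), rfl⟩

end

section

theorem or_TCount (a b : Prop) : ind (a ∨ b) ≤ ind a + ind b := by
  by_cases h : a ∨ b
  · rw [ind_pos h]
    rcases h with h | h
    · rw [ind_pos h]; linarith [ind_nonneg b]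
    · rw [ind_pos h]; linarith [ind_nonneg a]
  · rw [ind_neg h]; linarith [ind_nonneg a, ind_nonneg b]

theorem one_TCount {U : Type} [Fintype U] (P : U → Prop) (h : ∀ u u', P u → P u' → u = u') :
    ∑ u, ind (P u) ≤ 1 := by
  by_cases e : ∃ u, P u
  · obtain ⟨u, hu⟩ := e
    rw [sum_eq_single u (fun b _ hb => ind_neg fun hp => hb (h _ _ hp hu)) (by simp)]
    exact ind_le_one _
  · rw [sum_eq_zero fun u _ => ind_neg fun hp => e ⟨u, hp⟩]
    exact zero_le_one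

theorem many_TCount {U α : Type} [Fintype U] (Δ : Finset α) (P : U → Prop) (r : U → α → Prop)
    (hP : ∀ u, P u → ∃ a ∈ Δ, r u a) (h : ∀ a u u', r u a → r u' a → u = u') :
    ∑ u, ind (P u) ≤ Δ.card := by
  calc ∑ u, ind (P u) ≤ ∑ u, ∑ a ∈ Δ, ind (r u a) := by
        refine sum_le_sum fun u _ => ?_
        by_cases hu : P u
        · obtain ⟨a, ha, hr⟩ := hP u hu
          rw [ind_pos hu, ← ind_pos hr]
          exact single_le_sum (f := fun a => ind (r u a)) (fun a _ => ind_nonneg _) ha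
        · rw [ind_neg hu]; exact sum_nonneg fun a _ => ind_nonneg _
    _ = ∑ a ∈ Δ, ∑ u, ind (r u a) := sum_comm
    _ ≤ ∑ _a ∈ Δ, (1 : ℝ) := sum_le_sum fun a _ => one_TCount _ (h a)
    _ = Δ.card := by simp

theorem cCount : CCount := by
  intro l Δ ω0 y
  have h1 : ∀ p : Pos l,
      ∑ u, ind (∃ x, (⟨p.1, x⟩ : Pos l) ∈ Δ ∧ ω0 p.1 x = u) ≤ (Δ.card : ℝ) := fun p => by
    refine many_TCount Δ _ (fun u a => ∃ x, (⟨p.1, x⟩ : Pos l) = a ∧ ω0 p.1 x = u)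
      (fun u ⟨x, hx, e⟩ => ⟨_, hx, x, rfl, e⟩) ?_
    rintro a u u' ⟨x, rfl, rfl⟩ ⟨x', e, rfl⟩
    rw [eq_of_heq (Sigma.mk.inj e).2]
  have h2 : ∀ p : Pos l, ∑ u : X p.1.1,
      ind (∃ x, (⟨⟨p.1.1, some u⟩, x⟩ : Pos l) ∈ Δ) ≤ (Δ.card : ℝ) := fun p => by
    refine many_TCount Δ _ (fun u a => a.1 = ⟨p.1.1, some u⟩)
      (fun u ⟨x, hx⟩ => ⟨_, hx, rfl⟩) ?_
    intro a u u' e e'
    exact Option.some.inj (eq_of_heq (Sigma.mk.inj (e.symm.trans e')).2)
  have h3 : ∀ p : Pos l, ∑ u : X p.1.1, ind (p ∈ Δ ∧ tgt y = some ⟨p.1.1, u⟩) ≤ ind (p ∈ Δ) :=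
    fun p => by
    by_cases hp : p ∈ Δ
    · rw [ind_pos hp]
      refine one_TCount _ fun u u' e e' => ?_
      exact eq_of_heq (Sigma.mk.inj (Option.some.inj (e.2.symm.trans e'.2))).2
    · rw [ind_neg hp, sum_eq_zero fun u _ => ind_neg fun e => hp e.1]
  have h4 : ∀ p : Pos l, ∑ u : X p.1.1, ind (p = fwd y ∧
      ((∃ x, (⟨p.1, x⟩ : Pos l) ∈ Δ ∧ ω0 p.1 x = u) ∨
        ∃ x, (⟨⟨p.1.1, some u⟩, x⟩ : Pos l) ∈ Δ)) ≤ ind (p = fwd y) * (2 * (Δ.card : ℝ)) :=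
    fun p => by
    by_cases hp : p = fwd y
    · rw [ind_pos hp, one_mul, two_mul]
      refine le_trans (sum_le_sum fun u _ => (ind_mono fun e => e.2).trans (or_TCount _ _)) ?_
      rw [sum_add_distrib]
      exact add_le_add (h1 p) (h2 p)
    · rw [ind_neg hp, zero_mul, sum_eq_zero fun u _ => ind_neg fun e => hp e.1]
  have h5 : ∑ p : Pos l, ind (p = fwd y) ≤ 1 := one_TCount _ fun u u' e e' => e.trans e'.symm
  have h6 : ∑ p : Pos l, ind (p ∈ Δ) ≤ (Δ.card : ℝ) :=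
    many_TCount Δ _ (fun u a => u = a) (fun u hu => ⟨u, hu, rfl⟩) fun a u u' e e' =>
      e.trans e'.symm
  calc ∑ p, ∑ u, ind (Ev Δ ω0 y p u)
      ≤ ∑ p : Pos l, (ind (p = fwd y) * (2 * (Δ.card : ℝ)) + ind (p ∈ Δ)) := by
        refine sum_le_sum fun p _ => ?_
        refine le_trans (sum_le_sum fun u _ => or_TCount _ _) ?_
        rw [sum_add_distrib]
        exact add_le_add (h4 p) (h3 p)
    _ ≤ 3 * (Δ.card : ℝ) := by
        rw [sum_add_distrib, ← sum_mul]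
        have : (0 : ℝ) ≤ Δ.card := Nat.cast_nonneg _
        nlinarith

end

section

variable {l : ℕ}

noncomputable def row_TBase (k : Fin (l + 1)) (u : X k ⊕ (X k × X k) ⊕ (X k × X k)) :
    Finset (TQ l) := univ.image fun i => ⟨k, u, i⟩

theorem card_row_TBase (k : Fin (l + 1)) (u : X k ⊕ (X k × X k) ⊕ (X k × X k)) :
    (row_TBase k u).card ≤ l := by
  refine card_image_le.trans ?_
  rw [card_univ, Fintype.card_fin]
  omega

theorem mem_row_TBase (k : Fin (l + 1)) (u : X k ⊕ (X k × X k) ⊕ (X k × X k)) (i : Fin k) :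
    (⟨k, u, i⟩ : TQ l) ∈ row_TBase k u := mem_image_of_mem _ (mem_univ i)

theorem of_row_TBase {k : Fin (l + 1)} {u : X k ⊕ (X k × X k) ⊕ (X k × X k)} {y : TQ l}
    (h : y ∈ row_TBase k u) : ∃ i, y = ⟨k, u, i⟩ := by
  obtain ⟨i, -, e⟩ := mem_image.1 h
  exact ⟨i, e.symm⟩

theorem cl1_TBase (k : Fin (l + 1)) (sk : X k) (i : Fin k) :
    clT (⟨k, .inl sk, i⟩ : TQ l) = row_TBase k (.inl sk) := rfl

theorem cl2_TBase (k : Fin (l + 1)) (pk x : X k) (i : Fin k) :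
    clT (⟨k, .inr (.inl (pk, x)), i⟩ : TQ l) = row_TBase k (.inr (.inl (pk, x))) := rfl

theorem cl3_TBase (k : Fin (l + 1)) (sk y : X k) (i : Fin k) :
    clT (⟨k, .inr (.inr (sk, y)), i⟩ : TQ l) =
      row_TBase k (.inr (.inr (sk, y))) ∪ row_TBase k (.inl sk) := rfl

noncomputable def fib_TBase (ω : World l) : Pos l → Finset (TQ l)
  | ⟨⟨k, none⟩, x⟩ => row_TBase k (.inl x)
  | ⟨⟨k, some pk⟩, x⟩ => row_TBase k (.inr (.inl (pk, x))) ∪
      row_TBase k (.inr (.inr ((ω ⟨k, none⟩).symm pk, ω ⟨k, some pk⟩ x)))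

theorem card_fib_TBase (ω : World l) (p : Pos l) : (fib_TBase ω p).card ≤ 2 * l := by
  rcases p with ⟨⟨k, _ | pk⟩, x⟩
  · exact (card_row_TBase _ _).trans (by omega)
  · exact (card_union_le _ _).trans
      ((add_le_add (card_row_TBase _ _) (card_row_TBase _ _)).trans (by omega))

theorem mem_fib_TBase (ω : World l) (y : TQ l) : y ∈ fib_TBase ω (atom ω y) := by
  rcases y with ⟨k, (sk | ⟨pk, x⟩ | ⟨sk, y⟩), i⟩
  · exact mem_row_TBase _ _ _
  · exact mem_union_left _ (mem_row_TBase _ _ _)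
  · refine mem_union_right _ ?_
    rw [Equiv.symm_apply_apply, Equiv.apply_symm_apply]
    exact mem_row_TBase _ _ _

theorem cBase (h : CStab) : CBase := by
  intro l K ω0
  refine ⟨fun y => ?_, fun y y' hy => ?_, fun y => ?_, fun O y => Or.inl rfl, fun O y' => ?_⟩
  · change y ∈ clT y
    rcases y with ⟨k, (sk | ⟨pk, x⟩ | ⟨sk, y⟩), i⟩
    · exact mem_row_TBase _ _ _
    · exact mem_row_TBase _ _ _
    · exact mem_union_left _ (mem_row_TBase _ _ _)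
  · change y' ∈ clT y at hy
    change clT y' ⊆ clT y
    rcases y with ⟨k, (sk | ⟨pk, x⟩ | ⟨sk, y⟩), i⟩
    · obtain ⟨j, rfl⟩ := of_row_TBase hy
      exact Subset.refl _
    · obtain ⟨j, rfl⟩ := of_row_TBase hy
      exact Subset.refl _
    · rw [cl3_TBase] at hy ⊢
      rcases mem_union.1 hy with hy | hy <;> obtain ⟨j, rfl⟩ := of_row_TBase hy
      · exact Subset.refl _
      · exact subset_union_right
  · change (clT y).card ≤ 2 * l
    rcases y with ⟨k, (sk | ⟨pk, x⟩ | ⟨sk, y⟩), i⟩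
    · exact (card_row_TBase _ _).trans (by omega)
    · exact (card_row_TBase _ _).trans (by omega)
    · exact (card_union_le _ _).trans
        ((add_le_add (card_row_TBase _ _) (card_row_TBase _ _)).trans (by omega))
  · obtain ⟨T, hT, hc⟩ : ∃ T : Finset (TQ l),
        (∀ y, (∃ ω : World l, tdp0 ω = O ∧ atom ω y = atom ω y') → y ∈ T) ∧ T.card ≤ 2 * l := by
      by_cases hO : ∃ ω : World l, tdp0 ω = O
      · obtain ⟨ω, rfl⟩ := hO
        refine ⟨fib_TBase ω (atom ω y'), ?_, card_fib_TBase _ _⟩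
        rintro y ⟨ω', e, a⟩
        obtain rfl := (h l).1 e
        rw [← a]
        exact mem_fib_TBase _ _
      · exact ⟨∅, fun y ⟨ω, e, _⟩ => (hO ⟨ω, e⟩).elim, by simp⟩
    have e : ((insert y' T).card : ℝ) = ∑ y, ind (y ∈ insert y' T) := by
      simp only [ind_eq, sum_boole, filter_mem_eq_inter, univ_inter]
    have c : (insert y' T).card ≤ 2 * l + 1 := (card_insert_le _ _).trans (by omega)
    refine le_trans ?_ (Nat.cast_le.2 c)
    rw [e]
    refine sum_le_sum fun y _ => ind_mono fun hs => ?_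
    rcases hs with rfl | hs
    · exact mem_insert_self _ _
    · exact mem_insert_of_mem (hT y hs)

end

section

theorem mem_Dr_TCell {l : ℕ} {ρ : TQ l → Option Bool} {ω : World l} {p : Pos l} :
    p ∈ Dr ρ ω ↔ ∃ y, ρ y ≠ none ∧ atom ω y = p := by
  simp only [Dr, mem_image, mem_filter, mem_univ, true_and]

theorem mem_A_TCell {l K : ℕ} {ω0 : World l} {O : TQ l → Bool} :
    O ∈ (sysT K ω0).A ↔ ∃ ω ∈ Cy (Small l K) ω0, tdp0 ω = O := by
  simp only [sysT, mem_image]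

theorem cCell (h : CStab) : CCell := by
  intro l K ω0 ω1 ρ h1
  obtain ⟨inj, st, cl, fw⟩ := h l
  obtain ⟨hA, hC, hE⟩ := mem_cell.1 h1
  obtain ⟨ω2, h2, e2⟩ := mem_A_TCell.1 hA
  obtain rfl : ω1 = ω2 := (inj e2).symm
  have hS := mem_Cy.1 h2
  have key : ∀ ω ∈ Cy (Small l K ∪ Dr ρ ω1) ω1, ∀ y, ρ y ≠ none →
      atom ω y = atom ω1 y ∧ tdp0 ω y = tdp0 ω1 y := by
    intro ω hω y hy
    have := st ω1 ω y fun p hp => mem_Cy.1 hω p (mem_union_right _ (mem_Dr_TCell.2 (by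
      rcases mem_insert.1 hp with e | e
      · obtain ⟨y', a, b⟩ := fw ω1 y
        exact ⟨y', hC y hy y' a, b.trans e.symm⟩
      · exact ⟨y, hy, (mem_singleton.1 e).symm⟩)))
    exact ⟨this.1, this.2.2⟩
  refine ⟨?_, fun ω hω y => ⟨?_, ?_⟩⟩
  · ext O
    rw [mem_cell, mem_image, mem_A_TCell]
    constructor
    · rintro ⟨⟨ω, hω, rfl⟩, -, hO⟩
      refine ⟨ω, mem_Cy.2 fun p hp => ?_, rfl⟩
      rcases mem_union.1 hp with hp | hp
      · exact (mem_Cy.1 hω p hp).trans (hS p hp).symm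
      · obtain ⟨y, hy, rfl⟩ := mem_Dr_TCell.1 hp
        refine cl ω1 ω y (fun y' hy' => ?_) _ (mem_insert_of_mem (mem_singleton_self _))
        obtain ⟨b, hb⟩ := Option.ne_none_iff_exists'.1 (hC y hy y' hy')
        exact (hO y' b hb).trans (hE y' b hb).symm
    · rintro ⟨ω, hω, rfl⟩
      refine ⟨⟨ω, mem_Cy.2 fun p hp => ?_, rfl⟩, hC, fun y b hb => ?_⟩
      · exact (mem_Cy.1 hω p (mem_union_left _ hp)).trans (hS p hp)
      · exact (key ω hω y (by simp [hb])).2.trans (hE y b hb)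
  · rintro ⟨y', hy', e | ⟨ω2, e2, e⟩⟩
    · subst e
      exact mem_Dr_TCell.2 ⟨y, hy', (key ω hω y hy').1.symm⟩
    · obtain rfl : ω2 = ω := inj e2
      exact mem_Dr_TCell.2 ⟨y', hy', (key ω2 hω y' hy').1.symm.trans e.symm⟩
  · intro hy
    obtain ⟨y', hy', e⟩ := mem_Dr_TCell.1 hy
    exact ⟨y', hy', Or.inr ⟨ω, rfl, e.symm.trans (key ω hω y' hy').1.symm⟩⟩

end

section

section
variable {l : ℕ} {D D' Δ : Finset (Pos l)} {ω1 ω : World l}

/-- positions at which the coupling changes nothing -/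
def Inv_TDet (D Δ : Finset (Pos l)) (ω1 ω : World l) (p : Pos l) : Prop :=
  p ∉ Δ ∧ (∀ x, (⟨p.1, x⟩ : Pos l) ∈ Δ → ω p.1 p.2 ≠ ω1 p.1 x) ∧
    (p.1.2 = none → p ∈ D ∨ ¬ ∃ x, (⟨⟨p.1.1, some (ω p.1 p.2)⟩, x⟩ : Pos l) ∈ Δ)

theorem invD_TDet (hd : Disjoint D Δ) (hω : ω ∈ Cy D ω1) (p : Pos l) (hp : p ∈ D) :
    Inv_TDet D Δ ω1 ω p := by
  refine ⟨disjoint_left.1 hd hp, fun x hx e => ?_, fun _ => Or.inl hp⟩
  rw [mem_Cy.1 hω p hp] at e
  obtain rfl := (ω1 p.1).injective e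
  exact disjoint_left.1 hd hp hx

theorem self_TDet (y : TQ l) : y ∈ clT y := by
  rcases y with ⟨k, sk | ⟨pk, x⟩ | ⟨sk, y0⟩, i⟩
  · exact mem_image.2 ⟨i, mem_univ _, rfl⟩
  · exact mem_image.2 ⟨i, mem_univ _, rfl⟩
  · exact mem_union_left _ (mem_image.2 ⟨i, mem_univ _, rfl⟩)

theorem fix_TDet (y : TQ l) : ∃ y' ∈ clT y, ∀ ω2 : World l, atom ω2 y' = fwd y := by
  rcases y with ⟨k, sk | ⟨pk, x⟩ | ⟨sk, y0⟩, i⟩
  · exact ⟨_, self_TDet _, fun _ => rfl⟩
  · exact ⟨_, self_TDet _, fun _ => rfl⟩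
  · exact ⟨⟨k, .inl sk, i⟩, mem_union_right _ (mem_image.2 ⟨i, mem_univ _, rfl⟩), fun _ => rfl⟩

theorem rel_TDet (hd : Disjoint D Δ) {k : Fin (l + 1)} {sk pk x : X k} (i : Fin k)
    (h1 : (⟨⟨k, none⟩, sk⟩ : Pos l) ∈ D) (hk : ω1 ⟨k, none⟩ sk = pk)
    (hx : (⟨⟨k, some pk⟩, x⟩ : Pos l) ∈ Δ) :
    RelPos D Δ ω1 ⟨k, .inr (.inr (sk, ω1 ⟨k, some pk⟩ x)), i⟩ := by
  refine ⟨fun ω2 h2 c => ?_, fun ω2 h2 => ?_⟩
  · have e : ω2 ⟨k, none⟩ sk = pk := (mem_Cy.1 h2 _ h1).trans hk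
    simp only [atom] at c
    rw [e] at c
    have e2 := mem_Cy.1 h2 _ c
    simp only [Equiv.apply_symm_apply] at e2
    rw [← (ω1 ⟨k, some pk⟩).injective e2] at c
    exact disjoint_left.1 hd c hx
  · have e : ω2 ⟨k, none⟩ sk = pk := (mem_Cy.1 h2 _ (mem_union_left _ h1)).trans hk
    have e2 : ω2 ⟨k, some pk⟩ x = ω1 ⟨k, some pk⟩ x := mem_Cy.1 h2 _ (mem_union_right _ hx)
    simp only [atom]
    rw [e, ← e2, Equiv.symm_apply_apply]
    exact hx

theorem step_TDet (hd : Disjoint D Δ) (hω : ω ∈ Cy D ω1) (hI : ∀ p ∈ D', Inv_TDet D Δ ω1 ω p)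
    (y : TQ l) (hE : ¬ ∃ p, p ∉ D' ∧ Ev Δ ω1 y p (ω p.1 p.2)) :
    (∃ y' ∈ clT y, RelPos D Δ ω1 y') ∨
      (Inv_TDet D Δ ω1 ω (fwd y) ∧ Inv_TDet D Δ ω1 ω (atom ω y)) := by
  by_cases h1 : fwd y ∈ Δ
  · obtain ⟨y', hy, e⟩ := fix_TDet y
    exact Or.inl ⟨y', hy, fun ω2 _ => (e ω2).symm ▸ disjoint_right.1 hd h1,
      fun ω2 _ => (e ω2).symm ▸ h1⟩
  have I1 : Inv_TDet D Δ ω1 ω (fwd y) := by
    by_cases h2 : fwd y ∈ D'
    · exact hI _ h2
    · exact ⟨h1, fun x hx e => hE ⟨_, h2, Or.inl ⟨rfl, Or.inl ⟨x, hx, e.symm⟩⟩⟩,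
        fun _ => Or.inr fun c => hE ⟨_, h2, Or.inl ⟨rfl, Or.inr c⟩⟩⟩
  rcases y with ⟨k, sk | ⟨pk, x⟩ | ⟨sk, y0⟩, i⟩
  · exact Or.inr ⟨I1, I1⟩
  · exact Or.inr ⟨I1, I1⟩
  by_cases h2 : atom ω ⟨k, .inr (.inr (sk, y0)), i⟩ ∈ D'
  · exact Or.inr ⟨I1, hI _ h2⟩
  have ev : ω ⟨k, some (ω ⟨k, none⟩ sk)⟩ ((ω ⟨k, some (ω ⟨k, none⟩ sk)⟩).symm y0) = y0 :=
    Equiv.apply_symm_apply _ _
  by_cases h3 : ∃ x, (⟨⟨k, some (ω ⟨k, none⟩ sk)⟩, x⟩ : Pos l) ∈ Δ ∧
      y0 = ω1 ⟨k, some (ω ⟨k, none⟩ sk)⟩ x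
  · obtain ⟨x, hx, rfl⟩ := h3
    have p1 : (⟨⟨k, none⟩, sk⟩ : Pos l) ∈ D := (I1.2.2 rfl).resolve_right fun c => c ⟨x, hx⟩
    exact Or.inl ⟨_, self_TDet _, rel_TDet hd i p1 (mem_Cy.1 hω _ p1).symm hx⟩
  · refine Or.inr ⟨I1, fun c => hE ⟨_, h2, Or.inr ⟨c, ?_⟩⟩,
      fun x hx e => h3 ⟨x, hx, ev.symm.trans e⟩, fun c => absurd c (Option.some_ne_none _)⟩
    exact congrArg (fun u => some (⟨k, u⟩ : Σ k : Fin (l + 1), X k)) ev.symm

end

theorem cDet (h : CStab) : CDet := by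
  intro l K ω0 ω1 ω ω' D Δ t hd hω hc
  suffices H : ∀ D', (∀ p ∈ D', Inv_TDet D Δ ω1 ω p) → ¬ luck tdp0 revT (Ev Δ ω1) t D' ω →
      t.eval (tdp0 ω') = t.eval (tdp0 ω) ∨ ∃ y, RelPos D Δ ω1 y ∧
        y ∈ qsP (sysT K ω0) t (tdp0 ω') ∧ y ∈ qsP (sysT K ω0) t (tdp0 ω) from
    H D (invD_TDet hd hω)
  induction t with
  | leaf b => exact fun _ _ _ => Or.inl rfl
  | node y t f iht ihf =>
    intro D' hI hl
    simp only [luck, not_or] at hl
    rcases step_TDet hd hω hI y hl.1 with ⟨y', hy, hr⟩ | ⟨i1, i2⟩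
    · exact Or.inr ⟨y', hr, mem_union_left _ hy, mem_union_left _ hy⟩
    have I0 : ∀ p ∈ revT ω y, Inv_TDet D Δ ω1 ω p := fun p hp => by
      rcases mem_insert.1 hp with rfl | hp
      · exact i1
      · exact mem_singleton.1 hp ▸ i2
    have e : tdp0 ω' y = tdp0 ω y :=
      ((h l).2.1 ω ω' y fun p hp => hc p (I0 p hp).1 (I0 p hp).2.1).2.2
    have I' : ∀ p ∈ D' ∪ revT ω y, Inv_TDet D Δ ω1 ω p := fun p hp =>
      (mem_union.1 hp).elim (hI p) (I0 p)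
    have h2 := hl.2
    simp only [DT.eval, qsP, e]
    split_ifs at h2 ⊢
    · exact (iht _ I' h2).imp_right fun ⟨z, r, z1, z2⟩ =>
        ⟨z, r, mem_union_right _ z1, mem_union_right _ z2⟩
    · exact (ihf _ I' h2).imp_right fun ⟨z, r, z1, z2⟩ =>
        ⟨z, r, mem_union_right _ z1, mem_union_right _ z2⟩

end

section

/-! The coupling of nested cells for the trapdoor permutation oracle. -/

theorem avg_image_TDec {α β : Type} [DecidableEq β] {g : α → β} (hg : Function.Injective g)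
    (C : Finset α) (F : β → ℝ) : avg (C.image g) F = avg C fun a => F (g a) := by
  rw [avg, avg, sum_image fun a _ b _ h => hg h, card_image_of_injective _ hg]

theorem avg_mono_TDec {α : Type} {C : Finset α} {F G : α → ℝ} (h : ∀ a ∈ C, F a ≤ G a) :
    avg C F ≤ avg C G :=
  div_le_div_of_nonneg_right (sum_le_sum h) (Nat.cast_nonneg _)

theorem avg_le_one_TDec {α : Type} (C : Finset α) (p : α → Prop) :
    (avg C fun a => ind (p a)) ≤ 1 := by
  refine div_le_one_of_le₀ ?_ (Nat.cast_nonneg _)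
  refine (sum_le_card_nsmul _ _ 1 fun a _ => ind_le_one _).trans (le_of_eq ?_)
  rw [nsmul_eq_mul, mul_one]

theorem card_Dr_TDec {l : ℕ} (ρ : TQ l → Option Bool) (ω : World l) :
    ((Dr ρ ω).card : ℝ) ≤ sz ρ := by
  have e : ((univ.filter fun y => ρ y ≠ none).card : ℝ) = sz ρ := by
    rw [sz, card_filter]
    push_cast
    exact sum_congr rfl fun y _ => (ind_eq _).symm
  rw [← e]
  exact Nat.cast_le.2 card_image_le

theorem Dr_mono_TDec {l : ℕ} {ρ ρ' : TQ l → Option Bool}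
    (h : ∀ y b, ρ y = some b → ρ' y = some b) (ω : World l) : Dr ρ ω ⊆ Dr ρ' ω := by
  refine image_subset_image fun y hy => mem_filter.2 ⟨mem_univ _, ?_⟩
  obtain ⟨b, hb⟩ := Option.ne_none_iff_exists'.1 (mem_filter.1 hy).2
  rw [h y b hb]
  exact Option.some_ne_none b

theorem cDec (h1 : CStab) (h2 : CCount) (h3 : CCell) (h4 : CDet) (h5 : CPhi) (h6 : CLuck) :
    CDec := by
  intro l K q ω0 hK ρ ρ' t ht hc hext ⟨O1, hO1⟩
  obtain ⟨hinj, hst, -, -⟩ := h1 l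
  obtain ⟨hA, -, hv⟩ := mem_cell.1 hO1
  obtain ⟨ω1, -, rfl⟩ := mem_image.1 hA
  obtain ⟨c1, k1⟩ := h3 l K ω0 ω1 ρ (mem_cell.2 ⟨hA, hc, fun y b h => hv y b (hext y b h)⟩)
  obtain ⟨c2, k2⟩ := h3 l K ω0 ω1 ρ' hO1
  have hm := Dr_mono_TDec hext ω1
  obtain ⟨D, hD⟩ : ∃ D, D = Small l K ∪ Dr ρ ω1 := ⟨_, rfl⟩
  obtain ⟨Δ, hΔ⟩ : ∃ Δ, Δ = Dr ρ' ω1 \ D := ⟨_, rfl⟩
  have hdj : Disjoint D Δ := by
    rw [hΔ]
    exact disjoint_sdiff
  have hsub : Δ ⊆ Dr ρ' ω1 := by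
    rw [hΔ]
    exact sdiff_subset
  have hU : Small l K ∪ Dr ρ' ω1 = D ∪ Δ := by
    rw [hΔ, union_sdiff_self_eq_union, hD, union_assoc, union_eq_right.2 hm]
  rw [← hD] at c1 k1
  rw [hU] at c2 k2
  obtain ⟨Φ, hΦ1, hΦ2⟩ := h5 (Idx l) (fun j => X j.1) D Δ ω1 hdj
  have : Nonempty (World l) := ⟨ω0⟩
  have hl : ∀ ω : World l, Function.invFun tdp0 (tdp0 ω) = ω := Function.leftInverse_invFun hinj
  have hrel : ∀ y, RelPos D Δ ω1 y → Rel (sysT K ω0) ρ ρ' y := fun y hy => by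
    refine ⟨fun O hO hk => ?_, fun O hO => ?_⟩
    · rw [c1] at hO
      obtain ⟨ω, hω, rfl⟩ := mem_image.1 hO
      refine hy.1 ω hω ?_
      rw [hD]
      exact mem_union_right _ ((k1 ω hω y).1 hk)
    · rw [c2] at hO
      obtain ⟨ω, hω, rfl⟩ := mem_image.1 hO
      exact (k2 ω hω y).2 (hsub (hy.2 ω hω))
  refine ⟨fun O => tdp0 (Φ (Function.invFun tdp0 O)), fun F => ?_, ?_⟩
  · rw [c1, c2, avg_image_TDec hinj, avg_image_TDec hinj, hΦ1]
    simp only [hl]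
  rw [c1, avg_image_TDec hinj]
  simp only [hl]
  have hK0 : (0 : ℝ) < K := Nat.cast_pos.2 hK
  have hq : (t.depth : ℝ) ≤ q := Nat.cast_le.2 ht
  have hq0 : (0 : ℝ) ≤ q := Nat.cast_nonneg q
  have hsz := card_Dr_TDec ρ' ω1
  have hs0 : 0 ≤ sz ρ' := (Nat.cast_nonneg _).trans hsz
  by_cases hs : 2 * ((D \ Small l K).card + 2 * t.depth) ≤ K
  · have hL := h6 (Idx l) (fun j => X j.1) (TQ l) tdp0 revT (Ev Δ ω1) (Small l K) K (3 * Δ.card) hK
      (fun ω y => card_le_two) (fun ω ω' y h => (hst ω ω' y h).2) (h2 l Δ ω1) (by positivity)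
      (fun p hp => by
        have hp' : ¬ 2 ^ (p.1.1 : ℕ) < K := fun h => hp (mem_filter.2 ⟨mem_univ _, h⟩)
        refine ⟨?_, fun x hx => hp' (mem_filter.1 hx).2⟩
        rw [Fintype.card_fun, Fintype.card_bool, Fintype.card_fin]
        exact not_lt.1 hp') t D ω1 (by
        rw [hD]
        exact subset_union_left) hs
    refine (avg_mono_TDec fun ω hω => ind_mono fun hb => ?_).trans (hL.trans ?_)
    · by_contra hn
      refine hb ((h4 l K ω0 ω1 ω (Φ ω) D Δ t hdj hω (hΦ2 ω) hn).imp id ?_)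
      rintro ⟨y, a, b⟩
      exact ⟨y, hrel y a, b⟩
    · have e1 : (Δ.card : ℝ) ≤ sz ρ' := (Nat.cast_le.2 (card_le_card hsub)).trans hsz
      have e2 : (t.depth : ℝ) * Δ.card ≤ q * sz ρ' :=
        mul_le_mul hq e1 (Nat.cast_nonneg _) hq0
      rw [div_mul_eq_mul_div]
      refine div_le_div_of_nonneg_right ?_ hK0.le
      nlinarith [mul_nonneg hq0 hq0]
  · refine (avg_le_one_TDec _ _).trans ?_
    have e1 : D \ Small l K ⊆ Dr ρ' ω1 := by
      rw [hD]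
      exact fun p hp => hm ((mem_union.1 (mem_sdiff.1 hp).1).resolve_left (mem_sdiff.1 hp).2)
    have e2 : ((D \ Small l K).card : ℝ) ≤ sz ρ' := (Nat.cast_le.2 (card_le_card e1)).trans hsz
    have e3 : (K : ℝ) ≤ 2 * ((D \ Small l K).card + 2 * t.depth) := by
      exact_mod_cast (not_le.1 hs).le
    rw [div_mul_eq_mul_div, le_div_iff₀ hK0]
    nlinarith [mul_nonneg hq0 hq0, mul_nonneg hq0 hs0]

end

section

theorem card_TSmall (l K : ℕ) :
    (univ.filter fun y : TQ l => 2 ^ (y.1 : ℕ) < K).card ≤ (2 * l + 1) ^ 2 * K ^ 2 := by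
  have h1 : (univ.filter fun y : TQ l => 2 ^ (y.1 : ℕ) < K) ⊆
      (univ.filter fun k : Fin (l + 1) => 2 ^ (k : ℕ) < K).sigma fun _ => univ := fun y hy =>
    mem_sigma.2 ⟨mem_filter.2 ⟨mem_univ _, (mem_filter.1 hy).2⟩, mem_univ _⟩
  refine (card_le_card h1).trans ?_
  rw [card_sigma]
  refine (sum_le_card_nsmul _ _ (3 * K ^ 2 * l) fun k hk => ?_).trans ?_
  · have h2 := (mem_filter.1 hk).2
    have h3 : (k : ℕ) ≤ l := by have := k.2; omega
    have h4 : Fintype.card (X k) = 2 ^ (k : ℕ) := by simp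
    rw [card_univ, Fintype.card_prod, Fintype.card_sum, Fintype.card_sum, Fintype.card_prod,
      Fintype.card_fin, h4]
    refine Nat.mul_le_mul ?_ h3
    generalize 2 ^ (k : ℕ) = a at h2
    nlinarith
  · have h2 : (univ.filter fun k : Fin (l + 1) => 2 ^ (k : ℕ) < K).card ≤ l + 1 :=
      (card_filter_le _ _).trans (by simp)
    rw [smul_eq_mul]
    refine (Nat.mul_le_mul_right _ h2).trans ?_
    nlinarith [Nat.zero_le (K ^ 2 * l ^ 2), Nat.zero_le (K ^ 2 * l), Nat.zero_le (K ^ 2)]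

theorem iff_TSmall {l K : ℕ} (ω ω' : World l) :
    restr (univ.filter fun y : TQ l => 2 ^ (y.1 : ℕ) < K) (tdp0 ω) =
      restr (univ.filter fun y : TQ l => 2 ^ (y.1 : ℕ) < K) (tdp0 ω') ↔
        ω ∈ Cy (Small l K) ω' := by
  rw [mem_Cy]
  constructor
  · intro h p hp
    have hk := (mem_filter.1 hp).2
    have e : ∀ y : TQ l, 2 ^ (y.1 : ℕ) < K → tdp0 ω y = tdp0 ω' y := fun y hy => by
      have := congrFun h y
      have hm : y ∈ univ.filter fun y : TQ l => 2 ^ (y.1 : ℕ) < K :=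
        mem_filter.2 ⟨mem_univ _, hy⟩
      simp only [restr, if_pos hm] at this
      exact Option.some.inj this
    obtain ⟨⟨k, _ | pk⟩, x⟩ := p
    · exact funext fun i => e ⟨k, .inl x, i⟩ hk
    · exact funext fun i => e ⟨k, .inr (.inl (pk, x)), i⟩ hk
  · intro h
    funext y
    unfold restr
    split_ifs with hy
    · have hk := (mem_filter.1 hy).2
      obtain ⟨k, u, i⟩ := y
      have e : ∀ o, ω ⟨k, o⟩ = ω' ⟨k, o⟩ := fun o =>
        Equiv.ext fun x => h ⟨⟨k, o⟩, x⟩ (mem_filter.2 ⟨mem_univ _, hk⟩)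
      rcases u with sk | ⟨pk, x⟩ | ⟨sk, y⟩
      · simp only [tdp0, e]
      · simp only [tdp0, e]
      · simp only [tdp0]
        rw [e none, e]
    · rfl

theorem cSmall (h1 : TSet) (h2 : CStab) : CSmall := by
  classical
  intro l K Q L T bad hbad H
  choose B0 hB0 hc using H
  obtain ⟨Sq, hSq⟩ : ∃ Sq, Sq = univ.filter fun y : TQ l => 2 ^ (y.1 : ℕ) < K := ⟨_, rfl⟩
  have hcard : Sq.card ≤ (2 * l + 1) ^ 2 * K ^ 2 := hSq ▸ card_TSmall l K
  have hiff : ∀ ω ω' : World l, restr Sq (tdp0 ω) = restr Sq (tdp0 ω') ↔ ω ∈ Cy (Small l K) ω' :=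
    hSq ▸ iff_TSmall
  have : Nonempty (World l) := ⟨fun _ => 1⟩
  obtain ⟨rep, hrep⟩ : ∃ rep : (TQ l → Option Bool) → World l,
      ∀ ω, restr Sq (tdp0 (rep (restr Sq (tdp0 ω)))) = restr Sq (tdp0 ω) :=
    ⟨Function.invFun fun ω => restr Sq (tdp0 ω), fun ω =>
      Function.invFun_eq (f := fun ω => restr Sq (tdp0 ω)) ⟨ω, rfl⟩⟩
  refine ⟨fun a O => B0 (rep (restr Sq O)) a O, fun a => ?_, ?_⟩
  · refine convexHull_mono ?_ (h1 _ Q Sq (fun π => B0 (rep π) a) fun π => hB0 _ a)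
    rintro f ⟨t, ht, e⟩
    exact ⟨t, by omega, e⟩
  have e0 : {ω : World l | bad (fun a O => B0 (rep (restr Sq O)) a O) (tdp0 ω)}.ncard =
      (univ.filter fun ω : World l =>
        bad (fun a O => B0 (rep (restr Sq O)) a O) (tdp0 ω)).card := by
    rw [← Set.ncard_coe_finset]
    congr 1
    ext ω
    simp
  rw [e0, ← card_univ,
    card_eq_sum_card_fiberwise (f := fun ω => rep (restr Sq (tdp0 ω))) (t := univ)
      fun _ _ => mem_univ _,
    card_eq_sum_card_fiberwise (s := univ) (f := fun ω => rep (restr Sq (tdp0 ω))) (t := univ)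
      fun _ _ => mem_univ _, sum_mul]
  refine sum_le_sum fun r _ => ?_
  by_cases hr : ∃ ω0, rep (restr Sq (tdp0 ω0)) = r
  · obtain ⟨ω0, h0⟩ := hr
    have hf : ∀ ω, rep (restr Sq (tdp0 ω)) = r ↔ ω ∈ Cy (Small l K) r := fun ω => by
      rw [← hiff]
      constructor
      · intro h
        rw [← h, hrep]
      · intro h
        rw [h, ← h0, hrep]
    have e1 : (univ.filter fun ω => rep (restr Sq (tdp0 ω)) = r).card = (sysT K r).A.card := by
      rw [sysT, card_image_of_injective _ (h2 l).1]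
      congr 1
      ext ω
      simp only [mem_filter, mem_univ, true_and, hf]
    rw [e1]
    refine le_trans (Nat.mul_le_mul_right _ ?_) (hc r)
    rw [← Set.ncard_coe_finset]
    refine Set.ncard_le_ncard_of_injOn tdp0 (fun ω hω => ?_) (h2 l).1.injOn (Set.toFinite _)
    obtain ⟨a, b⟩ := mem_filter.1 (mem_coe.1 hω)
    exact ⟨mem_image_of_mem _ ((hf ω).1 b),
      hbad _ _ _ (fun a => by rw [b]) (mem_filter.1 a).2⟩
  · rw [card_eq_zero.2 (filter_eq_empty_iff.2 fun ω _ h => hr ⟨ω, h⟩), zero_mul]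
    exact Nat.zero_le _

end

section

noncomputable section

theorem gen_TAll (hPo : TPool) (n m J Q M L : ℕ) (Y : Type) [Fintype Y] [DecidableEq Y]
    (A0 : Finset (Y → Bool)) (hA0 : A0.Nonempty) (e e' E0 E1 γ : ℝ)
    (A : Sample n m → X n → (Y → Bool) → ℝ) (h0 : 0 ≤ e')
    (h1 : e' ≤ 1) (hE1 : 0 ≤ E1)
    (hc : ∀ (xs : Fin (M + 1) → X n) (μ : Hd Y (Fin (M + 1)) → ℝ),
      (∀ h, 0 ≤ μ h ∧ (μ h ≠ 0 → h.1 ∈ A0)) →
      ∃ β' : Fin (M + 1) → (Fin J → Fin (M + 1) × Bool) → (Y → Bool) → ℝ,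
        (∀ i z, β' i z ∈ Ach Q) ∧ ∑ h, μ h * advI e (onPool A xs) h ≤
          ∑ h, μ h * advI e' β' h + E0 * ∑ h, μ h + (∑ c, Ph A0 fun O => μ (O, c)) * E1)
    (hp : E0 + (Real.log L + (M + 1 : ℕ) * ((n + 1) * Real.log 2)) * E1 +
      ((J : ℝ) + 1) ^ 2 / ((M : ℝ) + 1) ≤ γ) :
    ∃ B : Sample n M → X n → (Y → Bool) → ℝ, (∀ S x, B S x ∈ Ach Q) ∧
      {O : Y → Bool | O ∈ A0 ∧ ∃ c : X n → Bool,
        (∀ D, IsProb D → mis e c D (fun S x => A S x O) ≤ 1 / 2 - γ) ∧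
        ∃ D, IsProb D ∧ 1 / 2 - γ / 2 < mis e' c D fun S x => B S x O}.ncard * L ≤
        A0.card := by
  classical
  obtain ⟨β, hβ, hP⟩ := hPo n m J Q Y (Fin (M + 1)) A0 e e' E0 E1 (2 * γ) L A hA0 hE1 hc
  obtain ⟨B, hB, hb⟩ := sBack sColl sGood sAch n M J Q Y e' β h0 h1 hβ
  refine ⟨B, hB, ?_⟩
  generalize hS : {O : Y → Bool | O ∈ A0 ∧ ∃ c : X n → Bool,
        (∀ D, IsProb D → mis e c D (fun S x => A S x O) ≤ 1 / 2 - γ) ∧
        ∃ D, IsProb D ∧ 1 / 2 - γ / 2 < mis e' c D fun S x => B S x O} = T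
  have hT : ∀ O ∈ T, O ∈ A0 := fun O h => by rw [← hS] at h; exact h.1
  rw [Set.ncard_eq_toFinset_card' T]
  set Bd := T.toFinset with hBd
  by_contra hn
  rw [not_le] at hn
  have ne : Bd.Nonempty := card_pos.1 (Nat.pos_of_ne_zero fun h => by simp [h] at hn)
  have N0 : (0 : ℝ) < Bd.card := Nat.cast_pos.2 ne.card_pos
  have ch : ∀ O, ∃ (c : X n → Bool) (D : X n → ℝ), IsProb D ∧ (O ∈ Bd →
      (∀ D, IsProb D → mis e c D (fun S x => A S x O) ≤ 1 / 2 - γ) ∧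
        1 / 2 - γ / 2 < mis e' c D fun S x => B S x O) := fun O => by
    by_cases h : O ∈ Bd
    · have : O ∈ T := Set.mem_toFinset.1 h
      rw [← hS] at this
      obtain ⟨-, c, a1, D, a2, a3⟩ := this
      exact ⟨c, D, a2, fun _ => ⟨a1, a3⟩⟩
    · exact ⟨fun _ => true, fun x => ind (x = fun _ => true),
        ⟨fun _ => ind_nonneg _, by simp [ind_eq]⟩, fun h' => absurd h' h⟩
  choose c D hD hcD using ch
  let μ : (Fin (M + 1) → X n) → Hd Y (Fin (M + 1)) → ℝ := fun xs h =>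
    ind (h.1 ∈ Bd) / Bd.card * (∏ i, D h.1 (xs i)) * ind (h.2 = fun i => c h.1 (xs i))
  have m1 : ∀ O (φ : (Fin (M + 1) → X n) → Hd Y (Fin (M + 1)) → ℝ),
      ∑ xs, ∑ c', μ xs (O, c') * φ xs (O, c') = ind (O ∈ Bd) / Bd.card *
        ∑ xs, (∏ i, D O (xs i)) * φ xs (O, fun i => c O (xs i)) := fun O φ => by
    rw [mul_sum]
    refine sum_congr rfl fun xs _ => ?_
    rw [sum_eq_single (fun i => c O (xs i)) (fun b _ hb => by simp only [μ, ind_neg hb]; ring)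
      (by simp)]
    simp only [μ, ind_pos True.intro]
    ring
  have m2 : ∀ φ : (Fin (M + 1) → X n) → Hd Y (Fin (M + 1)) → ℝ,
      ∑ xs, ∑ h, μ xs h * φ xs h = (∑ O ∈ Bd,
        ∑ xs, (∏ i, D O (xs i)) * φ xs (O, fun i => c O (xs i))) / Bd.card := fun φ => by
    simp only [Fintype.sum_prod_type (α₁ := Y → Bool)]
    rw [sum_comm]
    simp only [m1]
    rw [sum_div, ← sum_subset (subset_univ Bd) fun O _ h => by rw [ind_neg h]; ring]
    exact sum_congr rfl fun O h => by rw [ind_pos h]; ring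
  have key := hP μ (fun xs h => ⟨mul_nonneg (mul_nonneg (div_nonneg (ind_nonneg _) N0.le)
    (prod_nonneg fun i _ => (hD _).1 _)) (ind_nonneg _), fun k => hT _ (Set.mem_toFinset.1 (by
      by_contra k'
      exact k (by simp only [μ, ind_neg (show h.1 ∉ Bd from k')]; ring)))⟩) (by
      have := m2 fun _ _ => 1
      simp only [mul_one, fun O => sum_prod_one (I := Fin (M + 1)) (hD O), sum_const,
        nsmul_eq_mul] at this
      rw [this, div_self N0.ne']) (fun O => by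
      have := m1 O fun _ _ => 1
      simp only [mul_one, sum_prod_one (I := Fin (M + 1)) (hD O)] at this
      rw [this, div_mul_eq_mul_div, div_le_iff₀ N0]
      have h3 : ((A0.card : ℕ) : ℝ) ≤ Bd.card * L := by exact_mod_cast hn.le
      nlinarith [ind_le_one (O ∈ Bd), Nat.cast_nonneg (α := ℝ) A0.card]) (by
      rw [m2, le_div_iff₀ N0, mul_comm, ← nsmul_eq_mul]
      refine card_nsmul_le_sum _ _ _ fun O hO => ?_
      rw [← one_mul (2 * γ), ← sum_prod_one (I := Fin (M + 1)) (hD O), sum_mul]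
      refine sum_le_sum fun xs _ => mul_le_mul_of_nonneg_left ?_
        (prod_nonneg fun i _ => (hD _).1 _)
      obtain ⟨D', d1, d2⟩ := sEmp n m Y (Fin (M + 1)) e A xs O (c O)
      rw [d2]
      linarith [(hcD O hO).1 D' d1])
  rw [m2, le_div_iff₀ N0, Fintype.card_fin] at key
  have fin := sum_lt_sum_of_nonempty ne
    (g := fun _ => γ + ((J : ℝ) + 1) ^ 2 / ((M : ℝ) + 1)) fun O hO =>
      (hb O (c O) (D O) (hD O)).trans_lt (by linarith [(hcD O hO).2])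
  rw [sum_const, nsmul_eq_mul] at fin
  nlinarith

theorem one_TAll (hC : TCore) (hPo : TPool) (Y : Type) [Fintype Y] [DecidableEq Y] [Nonempty Y]
    (P : Sys Y) (v f q n m Z : ℕ) (ε η η' : ℝ) (A : Sample n m → X n → (Y → Bool) → ℝ)
    (hB : Base P v f) (hD : Dec P q ε) (hne : P.A.Nonempty) (ε0 : 0 ≤ ε) (ε1 : ε * Z ^ 151 ≤ 1)
    (hZ : 10 ≤ Z) (hn : n ≤ Z) (hm : m ≤ Z) (hq : q ≤ Z) (hv : v ≤ Z) (Q1 : q * v ≤ Z)
    (Q2 : q * v * f ≤ Z) (hY : Real.log (Fintype.card Y) ≤ Z) (h0 : 0 ≤ η) (h1 : η ≤ 1)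
    (hA : ∀ S x, A S x ∈ Ach q) (h2 : 0 ≤ η') (h3 : 1 ≤ Z * (1 - 2 * η')) :
    ∃ B : Sample n (Z ^ 87) → X n → (Y → Bool) → ℝ, (∀ S x, B S x ∈ Ach (Z ^ 149)) ∧
      {O : Y → Bool | O ∈ P.A ∧ ∃ c : X n → Bool,
        (∀ D, IsProb D → mis η c D (fun S x => A S x O) ≤ 1 / 2 - 2 / Z) ∧
        ∃ D, IsProb D ∧ 1 / 2 - 2 / Z / 2 < mis η' c D fun S x => B S x O}.ncard *
        (2 ^ Z * Z ^ 89) ≤ P.A.card := by
  have Z1 : (10 : ℝ) ≤ Z := by exact_mod_cast hZ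
  have Z0 : 0 < Z := by omega
  have d1 : η' < 1 / 2 := by nlinarith
  obtain ⟨B, b1, b2⟩ := gen_TAll hPo n m (Z ^ 42) (Z ^ 42 * Z ^ 106 * v) (Z ^ 87) (2 ^ Z * Z ^ 89) Y
    P.A hne η η' (err0 η' (1 / (Z + 1)) (1 / Z ^ 29) (1 / Z ^ 2) (Z ^ 25) (1 / Z ^ 3) Z m Z (Z ^ 94) 3
      (Z ^ 106) (Z ^ 42) + 2 * ε * ((Z ^ 42 : ℕ) * (Z ^ 106 : ℕ) * v + (Z ^ 94 : ℕ) * Z + 2 * q))
    (1 / (1 / Z ^ 2 * (Z ^ 94 : ℕ))) (2 / Z) A h2 (by linarith) (by positivity)
    (fun xs μ hμ => by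
      have := hC Y (Fin (Z ^ 87 + 1)) P v f Z ε η η' (1 / (Z + 1)) (1 / Z ^ 29) (1 / Z ^ 2) (Z ^ 25)
        (1 / Z ^ 3) Z m q (Z ^ 94) 3 (Z ^ 106) (Z ^ 42) (onPool A xs) μ hB hD ε0 Q1 Q2 h0 h1 h2 d1
        (by positivity) (by rw [div_lt_one (by linarith)]; linarith) (by positivity)
        (by positivity) (by rw [div_le_one (by positivity)]; nlinarith)
        (one_le_pow₀ (by linarith)) (by positivity) hY (by positivity) (by positivity)
        (by positivity) (fun i z => hA _ _) hμ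
      simpa only [mul_one_div] using this)
    (by
      have := sPar Z n Z m Z η' (Real.log (2 ^ Z * Z ^ 89 : ℕ)) (by
        push_cast
        rw [Real.log_mul (by positivity) (by positivity), Real.log_pow, Real.log_pow]
        have a1 := Real.log_two_lt_d9
        have a2 := Real.log_le_sub_one_of_pos (show (0 : ℝ) < Z by linarith)
        have a3 : (10 : ℝ) ^ 2 ≤ (Z : ℝ) ^ 87 :=
          (pow_le_pow_left₀ (by norm_num) Z1 2).trans (pow_le_pow_right₀ (by linarith) (by norm_num))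
        generalize (Z : ℝ) ^ 87 = u at a3
        push_cast
        nlinarith) hZ hn le_rfl hm le_rfl h2 h3
      have a4 : 2 * ε * ((Z ^ 42 : ℕ) * (Z ^ 106 : ℕ) * v + (Z ^ 94 : ℕ) * Z + 2 * q) ≤
          1 / (Z : ℝ) := by
        have v1 : (v : ℝ) ≤ Z := by exact_mod_cast hv
        have q1 : (q : ℝ) ≤ Z := by exact_mod_cast hq
        have p1 : ∀ k, k ≤ 149 → (Z : ℝ) ^ k ≤ Z ^ 149 := fun k hk =>
          pow_le_pow_right₀ (by linarith) hk
        have p2 : (Z : ℝ) ^ 42 * Z ^ 106 * v ≤ Z ^ 149 := by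
          rw [← pow_add, pow_succ (Z : ℝ) 148]; gcongr
        have p3 := p1 95 (by norm_num)
        have p4 := p1 1 (by norm_num)
        rw [pow_succ (Z : ℝ) 94] at p3
        rw [show (Z : ℝ) ^ 151 = Z ^ 149 * Z * Z by ring] at ε1
        rw [le_div_iff₀ (by linarith)]
        push_cast
        generalize (Z : ℝ) ^ 42 * Z ^ 106 * v = a at *
        generalize (Z : ℝ) ^ 94 * Z = b at *
        generalize (Z : ℝ) ^ 149 = u at *
        have p5 : ε * (a + b + 2 * q) ≤ ε * (4 * u) := by gcongr; linarith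
        have p6 : 0 ≤ ε * u * Z := by
          have : 0 ≤ u := by linarith
          positivity
        nlinarith
      have a5 : (2 : ℝ) / Z = 1 / Z + 1 / Z := by ring
      linarith)
  refine ⟨B, fun S x => (sAch Y _).2.2.2.1 _ ?_ (b1 S x), b2⟩
  rw [← pow_add, pow_succ Z 148]
  exact Nat.mul_le_mul_left _ hv

theorem tAll (hC : TCore) (hPo : TPool) : TAll := by
  intro Y _ _ _ P v f q n m Z ε η A hBa hDe hne ε0 ε1 hZ hn hm hq hv Q1 Q2 hY h0 h1 hA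
  have Z1 : (10 : ℝ) ≤ Z := by exact_mod_cast hZ
  have Z0 : (0 : ℝ) < Z := by linarith
  have K0 : 0 < Z ^ 89 := pow_pos (by omega) _
  have iZ : (1 : ℝ) / Z ≤ 1 / 10 := one_div_le_one_div_of_le (by norm_num) Z1
  have zi : (Z : ℝ) * (1 / Z) = 1 := mul_one_div_cancel Z0.ne'
  have : Nonempty (Fin (Z ^ 89)) := ⟨⟨0, K0⟩⟩
  choose B hB hb using fun j : Fin (Z ^ 89) => one_TAll hC hPo Y P v f q n m Z ε η
    (min ((j : ℕ) / Z ^ 89) (1 / 2 - 1 / Z)) A hBa hDe hne ε0 ε1 hZ hn hm hq hv Q1 Q2 hY h0 h1 hA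
    (le_min (by positivity) (by linarith))
    (by nlinarith [min_le_right (((j : ℕ) : ℝ) / Z ^ 89) (1 / 2 - 1 / Z)])
  refine ⟨fun S x O => xr (fun j S x => B j S x O) S x, fun S x => ?_, ?_⟩
  · refine (sAch _ (Z ^ 149 + Z ^ 149)).2.2.2.1 _ (by
      rw [pow_succ Z 149, ← mul_two]; exact Nat.mul_le_mul_left _ (by omega)) ?_
    have N : (0 : ℝ) < Fintype.card (Fin (Z ^ 89)) := Nat.cast_pos.2 Fintype.card_pos
    refine Set.mem_of_eq_of_mem (s := Ach (Z ^ 149 + Z ^ 149)) (funext fun O => ?_)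
      ((convex_convexHull ℝ _).sum_mem (t := univ) 
        (w := fun _ => (1 : ℝ) / Fintype.card (Fin (Z ^ 89)))
        (fun _ _ => (one_div_pos.2 N).le) (by
          rw [sum_const, card_univ, nsmul_eq_mul, mul_one_div_cancel N.ne'])
        fun j _ => ach_xor sAch (hB j (Fin.tail S) (S 0).1) (hB j (Fin.tail S) x) (S 0).2)
    simp only [xr, av, Finset.sum_apply, Pi.smul_apply, smul_eq_mul, ← mul_sum]
    ring
  refine Nat.le_of_mul_le_mul_right ?_ K0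
  have s := sum_le_sum fun j (_ : j ∈ univ) => hb j
  rw [← sum_mul, sum_const, card_univ, Fintype.card_fin, smul_eq_mul, mul_comm (Z ^ 89)] at s
  rw [mul_assoc]
  refine le_trans (Nat.mul_le_mul_right _ (le_trans (Set.ncard_le_ncard ?_)
    (Set.ncard_iUnion_le_of_fintype _))) s
  rintro O ⟨hO, c, hc, e, D, e0, e1, hD, hlt⟩
  have P : (0 : ℝ) < (Z : ℝ) ^ 89 := by positivity
  have f1 : ((⌊e * (Z : ℝ) ^ 89⌋₊ : ℕ) : ℝ) ≤ e * Z ^ 89 := Nat.floor_le (mul_nonneg e0 P.le)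
  have f2 := Nat.lt_floor_add_one (e * Z ^ 89)
  have f3 : ⌊e * (Z : ℝ) ^ 89⌋₊ < Z ^ 89 := by
    have : ((⌊e * (Z : ℝ) ^ 89⌋₊ : ℕ) : ℝ) < ((Z ^ 89 : ℕ) : ℝ) := by
      rw [Nat.cast_pow]
      exact f1.trans_lt (mul_lt_of_lt_one_left P (by linarith [one_div_pos.2 Z0]))
    exact_mod_cast this
  refine Set.mem_iUnion.2 ⟨⟨_, f3⟩, hO, c, hc, D, hD, ?_⟩
  have f4 : ((⌊e * (Z : ℝ) ^ 89⌋₊ : ℕ) : ℝ) / Z ^ 89 ≤ e := by rwa [div_le_iff₀ P]
  rw [min_eq_left (f4.trans e1)]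
  by_contra hn'
  rw [not_lt, show (2 : ℝ) / Z / 2 = 1 / Z by ring] at hn'
  have e2 : e ≤ 1 / 2 := by linarith [one_div_pos.2 Z0]
  have L := mis_lip (by positivity) f4 (by linarith) c hD (fun S x => B ⟨_, f3⟩ S x O)
    fun S x => (sAch _ _).2.1 _ (hB _ S x) O
  have f5 : ((Z ^ 87 : ℕ) : ℝ) * (2 * (e - ((⌊e * (Z : ℝ) ^ 89⌋₊ : ℕ) : ℝ) / Z ^ 89)) ≤ 1 / Z / 4 := by
    have u : e - ((⌊e * (Z : ℝ) ^ 89⌋₊ : ℕ) : ℝ) / Z ^ 89 ≤ 1 / Z ^ 89 := by
      rw [sub_le_iff_le_add, ← add_div, le_div_iff₀ P]; linarith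
    calc _ ≤ ((Z ^ 87 : ℕ) : ℝ) * (2 * (1 / Z ^ 89)) := by gcongr
      _ = 1 / Z * (2 * (1 / Z)) := by push_cast; field_simp
      _ ≤ 1 / Z * (1 / 4) := by gcongr; linarith
      _ = _ := by ring
  have X := xr_ad e0 e2 c hD (fun j S x => B j S x O) ⟨_, f3⟩ (1 / Z / 2) (by positivity)
    (by linarith [one_div_pos.2 Z0])
  rw [Fintype.card_fin, Nat.cast_pow] at X
  have f6 : 2 * (1 / (Z : ℝ) ^ 93) ≤ (1 - 2 * e) * (1 / Z / 2) ^ 2 / Z ^ 89 :=
    calc 2 * (1 / (Z : ℝ) ^ 93) = 4 * (1 / Z) * (2 * (1 / Z) * (1 / Z / 2) ^ 2 / Z ^ 89) := by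
          field_simp; ring
      _ ≤ 1 * ((1 - 2 * e) * (1 / Z / 2) ^ 2 / Z ^ 89) := by gcongr <;> linarith
      _ = _ := one_mul _
  linarith

theorem card_TQ_TAll (l : ℕ) (hl : 0 < l) :
    Real.log (Fintype.card (TQ l)) ≤ ((2 * l + 1) ^ 2 : ℕ) := by
  have a : Fintype.card (TQ l) ≤ 2 ^ (4 * l + 2) := by
    rw [Fintype.card_sigma]
    refine (sum_le_card_nsmul _ _ (2 ^ (2 * l + 2) * 2 ^ l) fun k _ => ?_).trans ?_
    · have k1 : (k : ℕ) ≤ l := Nat.lt_succ_iff.1 k.2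
      have k2 : 2 ^ (k : ℕ) ≤ 2 ^ l := Nat.pow_le_pow_right (by norm_num) k1
      have k3 : 1 ≤ 2 ^ l := Nat.one_le_two_pow
      simp only [Fintype.card_prod, Fintype.card_sum, Fintype.card_fun, Fintype.card_bool,
        Fintype.card_fin]
      refine Nat.mul_le_mul ?_ (k1.trans Nat.lt_two_pow_self.le)
      rw [pow_add, two_mul, pow_add]
      nlinarith [Nat.mul_le_mul k2 k2]
    · rw [card_univ, Fintype.card_fin, smul_eq_mul, show 4 * l + 2 = l + (2 * l + 2 + l) by ring,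
        pow_add 2 l, pow_add 2 (2 * l + 2)]
      exact Nat.mul_le_mul_right _ Nat.lt_two_pow_self
  rcases Nat.eq_zero_or_pos (Fintype.card (TQ l)) with h | h
  · rw [h, Nat.cast_zero, Real.log_zero]; positivity
  refine (Real.log_le_log (Nat.cast_pos.2 h) (Nat.cast_le.2 a)).trans ?_
  have l1 : (1 : ℝ) ≤ l := by exact_mod_cast hl
  have := Real.log_two_lt_d9
  push_cast
  rw [Real.log_pow]
  push_cast
  nlinarith

theorem tdp_all (hAll : TAll) (hBa : CBase) (hDe : CDec) (hSm : CSmall) (n l q m Z : ℕ) (η : ℝ)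
    (hZ : 10 ≤ Z) (hn : n ≤ Z) (hm : m ≤ Z) (hl : 0 < l) (hq : (q + 1) * (2 * l + 1) ^ 2 ≤ Z)
    (h0 : 0 ≤ η) (h1 : η ≤ 1) (A : Sample n m → X n → (TQ l → Bool) → ℝ)
    (hA : ∀ S x, A S x ∈ Ach q) :
    ∃ B : Sample n (Z ^ 87 + 1) → X n → (TQ l → Bool) → ℝ, (∀ S x, B S x ∈ Ach (Z ^ 308)) ∧
      {ω : World l | Bad Z η A B (tdp ω)}.ncard * 2 ^ Z ≤ Nat.card (World l) := by
  have : Nonempty (TQ l) := ⟨⟨⟨1, by omega⟩, .inl fun _ => true, ⟨0, by simp⟩⟩⟩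
  have a1 : (2 * l + 1) ^ 2 ≤ Z := le_trans (Nat.le_mul_of_pos_left _ (by omega)) hq
  have a2 : q + 1 ≤ Z := le_trans (Nat.le_mul_of_pos_right _ (by positivity)) hq
  have a3 : q * (2 * l) * (2 * l + 1) ≤ Z := le_trans (by nlinarith) hq
  have Z1 : (10 : ℝ) ≤ Z := by exact_mod_cast hZ
  obtain ⟨B, b1, b2⟩ := hSm l (Z ^ 153) (Z ^ 150) (2 ^ Z) (Sample n (Z ^ 87 + 1) × X n)
    (fun B O => Bad Z η A (fun S x => B (S, x)) O)
    (fun B B' O h k => by simpa only [Bad, h] using k)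
    (fun ω0 => by
      obtain ⟨B, b1, b2⟩ := hAll (TQ l) (sysT (Z ^ 153) ω0) (2 * l) (2 * l + 1) q n m Z _ η A
        (hBa l _ ω0) (hDe l _ q ω0 (pow_pos (by omega) _))
        ⟨tdp0 ω0, mem_image_of_mem _ (mem_Cy.2 fun _ _ => rfl)⟩ (by positivity) (by
          have a4 : (q : ℝ) + 1 ≤ Z := by exact_mod_cast a2
          rw [div_mul_eq_mul_div, div_le_one (by positivity), Nat.cast_pow,
            show (Z : ℝ) ^ 153 = Z * Z * Z ^ 151 by ring]
          exact mul_le_mul_of_nonneg_right (by nlinarith) (by positivity))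
        hZ hn hm (by omega) (by nlinarith) (le_trans (Nat.le_mul_of_pos_right _ (by omega)) a3) a3
        ((card_TQ_TAll l hl).trans (Nat.cast_le.2 a1)) h0 h1 hA
      exact ⟨fun a => B a.1 a.2, fun a => b1 _ _, b2⟩)
  refine ⟨fun S x => B (S, x), fun S x => (sAch _ _).2.2.2.1 _ ?_ (b1 _), ?_⟩
  · have c1 : Z ^ 150 ≤ Z ^ 307 := Nat.pow_le_pow_right (by clear * - hZ; omega) (by norm_num)
    have c2 : (2 * l + 1) ^ 2 * (Z ^ 153) ^ 2 ≤ Z ^ 307 := by
      rw [← pow_mul, pow_succ' Z 306]; exact Nat.mul_le_mul_right _ a1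
    rw [pow_succ Z 307]
    exact (add_le_add c1 c2).trans (by rw [← mul_two]; exact Nat.mul_le_mul_left _ (by omega))
  · simp only [← tdp_eq]
    rwa [Nat.card_eq_fintype_card]

end

end

end Pool.Agent.MP_9f8ce8_lc.Rom
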