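import Pool.Agent.MP_9f8ce8_lc.Rom.TA
import Pool.Agent.MP_9f8ce8_lc.Rom.TB

set_option autoImplicit false
set_option linter.unusedSectionVars false

namespace Pool.Agent.MP_9f8ce8_lc.Rom

open Finset Cap

section

/-! The lossless form: selection of a learner on held-out examples. -/

noncomputable section

def ber (p : ℝ) (b : Bool) : ℝ := if b then p else 1 - p

/-- run every learner on the last `T` points, select one by the answers and labels, use it -/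
def vl {n M T : ℕ} {K : Type} [Fintype K] [DecidableEq K]
    (sel : (Fin T → (X n × Bool) × (K → Bool)) → K) (β : K → Sample n M → X n → ℝ)
    (s : Sample n (M + T)) (x : X n) : ℝ :=
  ∑ b : Fin T → K → Bool, (∏ i, ∏ j, ber (β j (fun a => s (Fin.castAdd T a))
    (s (Fin.natAdd M i)).1) (b i j)) *
      β (sel fun i => (s (Fin.natAdd M i), b i)) (fun a => s (Fin.castAdd T a)) x

def USel : Prop := ∀ (T0 K : Type) [Fintype T0] [Fintype K] [Nonempty K] (T : ℕ)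
  (φ : K → T0 → ℝ), 0 < T → (∀ j t, |φ j t| ≤ 1) → ∃ sel : (Fin T → T0) → K,
    ∀ (u : T0 → ℝ) (j : K) (δ : ℝ), IsProb u → 0 < δ →
      ∑ t, u t * φ j t - (δ + Fintype.card K / (T * δ)) ≤
        ∑ z : Fin T → T0, (∏ i, u (z i)) * ∑ t, u t * φ (sel z) t

def UVal : Prop := ∀ (n M T : ℕ) (K : Type) [Fintype K] [DecidableEq K] [Nonempty K], 0 < T →
  ∃ sel : (Fin T → (X n × Bool) × (K → Bool)) → K, ∀ (e δ : ℝ) (c : X n → Bool) (D : X n → ℝ)
    (β : K → Sample n M → X n → ℝ) (j : K), 0 ≤ e → e < 1 / 2 → 0 < δ → IsProb D →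
    (∀ k S x, 0 ≤ β k S x ∧ β k S x ≤ 1) →
      mis e c D (vl sel β) ≤ mis e c D (β j) + (δ + Fintype.card K / (T * δ)) / (2 * (1 - 2 * e))

def UGraft : Prop := ∀ (Y : Type) [Fintype Y] [DecidableEq Y] (n M T q : ℕ) (K : Type) [Fintype K]
  [DecidableEq K] (sel : (Fin T → (X n × Bool) × (K → Bool)) → K)
  (B : K → Sample n M → X n → (Y → Bool) → ℝ), (∀ k S x, B k S x ∈ Ach q) →
    ∀ s x, (fun O => vl sel (fun k S x => B k S x O) s x) ∈ Ach (T * Fintype.card K * q + q)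

def UPool : Prop := ∀ (n m J Q : ℕ) (Y I : Type) [Fintype Y] [DecidableEq Y] [Fintype I]
  [DecidableEq I] (A0 : Finset (Y → Bool)) (e e' E0 E1 L : ℝ)
  (A : Sample n m → X n → (Y → Bool) → ℝ), A0.Nonempty → 0 ≤ E1 →
  (∀ (xs : I → X n) (μ : Hd Y I → ℝ), (∀ h, 0 ≤ μ h ∧ (μ h ≠ 0 → h.1 ∈ A0)) →
    ∃ β' : I → (Fin J → I × Bool) → (Y → Bool) → ℝ, (∀ i z, β' i z ∈ Ach Q) ∧
      ∑ h, μ h * advI e (onPool A xs) h ≤ ∑ h, μ h * advI e' β' h + E0 * ∑ h, μ h +
        (∑ c, Ph A0 fun O => μ (O, c)) * E1) →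
  ∃ β : (I → X n) → I → (Fin J → I × Bool) → (Y → Bool) → ℝ, (∀ xs i z, β xs i z ∈ Ach Q) ∧
    ∀ μ : (I → X n) → Hd Y I → ℝ, (∀ xs h, 0 ≤ μ xs h ∧ (μ xs h ≠ 0 → h.1 ∈ A0)) →
      ∑ xs, ∑ h, μ xs h = 1 → (∀ O, (∑ xs, ∑ c, μ xs (O, c)) * A0.card ≤ L) →
        - E0 - (Real.log L + Fintype.card I * ((n + 1) * Real.log 2)) * E1 ≤
          ∑ xs, ∑ h, μ xs h * (advI e' (β xs) h - advI e (onPool A xs) h)

end

end

section

theorem mom_USel {T0 : Type} [Fintype T0] {u ψ : T0 → ℝ} (hu : ∑ t, u t = 1)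
    (h0 : ∑ t, u t * ψ t = 0) (T : ℕ) :
    ∑ z : Fin T → T0, ∏ i, u (z i) = 1 ∧
    ∑ z : Fin T → T0, (∏ i, u (z i)) * ∑ i, ψ (z i) = 0 ∧
    ∑ z : Fin T → T0, (∏ i, u (z i)) * (∑ i, ψ (z i)) ^ 2 = T * ∑ t, u t * ψ t ^ 2 := by
  induction T with
  | zero => simp
  | succ T ih =>
    obtain ⟨a, b, c⟩ := ih
    simp only [sum_succ, Fin.prod_univ_succ, Fin.sum_univ_succ, Fin.cons_zero, Fin.cons_succ]
    refine ⟨?_, ?_, ?_⟩
    · simp only [← mul_sum, a, mul_one, hu]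
    · rw [← h0]
      refine sum_congr rfl fun t _ => ?_
      have : ∀ z : Fin T → T0, (u t * ∏ i, u (z i)) * (ψ t + ∑ i, ψ (z i)) =
          u t * ψ t * ∏ i, u (z i) + u t * ((∏ i, u (z i)) * ∑ i, ψ (z i)) := fun z => by ring
      rw [sum_congr rfl fun z _ => this z, sum_add_distrib, ← mul_sum, ← mul_sum, a, b]
      ring
    · have : ∀ t, ∑ z : Fin T → T0, (u t * ∏ i, u (z i)) * (ψ t + ∑ i, ψ (z i)) ^ 2 =
          u t * ψ t ^ 2 + u t * (T * ∑ t, u t * ψ t ^ 2) := fun t => by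
        have : ∀ z : Fin T → T0, (u t * ∏ i, u (z i)) * (ψ t + ∑ i, ψ (z i)) ^ 2 =
            u t * ψ t ^ 2 * ∏ i, u (z i) + 2 * u t * ψ t * ((∏ i, u (z i)) * ∑ i, ψ (z i)) +
              u t * ((∏ i, u (z i)) * (∑ i, ψ (z i)) ^ 2) := fun z => by ring
        rw [sum_congr rfl fun z _ => this z, sum_add_distrib, sum_add_distrib, ← mul_sum,
          ← mul_sum, ← mul_sum, a, b, c]
        ring
      rw [sum_congr rfl fun t _ => this t, sum_add_distrib, ← sum_mul, hu]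
      push_cast
      ring

theorem uSel : USel := by
  intro T0 K _ _ _ T φ hT hφ
  choose sel hsel using fun z : Fin T → T0 => Finite.exists_max fun k => ∑ i, φ k (z i)
  refine ⟨sel, fun u j δ hu hδ => ?_⟩
  have hT' : (0 : ℝ) < T := by exact_mod_cast hT
  obtain ⟨μ, hμ⟩ : ∃ μ : K → ℝ, ∀ k, μ k = ∑ t, u t * φ k t := ⟨_, fun _ => rfl⟩
  have h0 : ∀ k, ∑ t, u t * (φ k t - μ k) = 0 := fun k => by
    simp only [mul_sub, sum_sub_distrib, ← sum_mul, hu.2, one_mul, ← hμ, sub_self]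
  have hv : ∀ k, ∑ t, u t * (φ k t - μ k) ^ 2 ≤ 1 := fun k => by
    have e : ∀ t, u t * (φ k t - μ k) ^ 2 ≤ u t - μ k * (u t * (φ k t - μ k)) -
        μ k * (u t * φ k t) := fun t => by
      have := mul_le_mul_of_nonneg_left ((sq_le_one_iff_abs_le_one _).2 (hφ k t)) (hu.1 t)
      nlinarith
    refine (sum_le_sum fun t _ => e t).trans ?_
    rw [sum_sub_distrib, sum_sub_distrib, ← mul_sum, ← mul_sum, h0, ← hμ, hu.2]
    nlinarith [sq_nonneg (μ k)]
  have hm := fun k => mom_USel (ψ := fun t => φ k t - μ k) hu.2 (h0 k) T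
  obtain ⟨D, hD⟩ : ∃ D : K → (Fin T → T0) → ℝ, ∀ k z, D k z = ∑ i, (φ k (z i) - μ k) :=
    ⟨_, fun _ _ => rfl⟩
  simp only [← hD] at hm
  have pt : ∀ z, μ j - δ + (T : ℝ)⁻¹ * D j z - (T ^ 2 * δ)⁻¹ * ∑ k, D k z ^ 2 ≤ μ (sel z) := by
    intro z
    have a1 : T * μ j + D j z ≤ T * μ (sel z) + D (sel z) z := by
      have := hsel z j
      simp only [hD, sum_sub_distrib, sum_const, card_univ, Fintype.card_fin, nsmul_eq_mul]
      linarith
    have a2 : D (sel z) z ^ 2 ≤ ∑ k, D k z ^ 2 :=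
      single_le_sum (f := fun k => D k z ^ 2) (fun k _ => sq_nonneg _) (mem_univ _)
    have a3 : T * δ * D (sel z) z ≤ (T * δ) ^ 2 + ∑ k, D k z ^ 2 := by
      nlinarith [sq_nonneg (T * δ - D (sel z) z), sq_nonneg (T * δ), sq_nonneg (D (sel z) z)]
    have a4 := mul_le_mul_of_nonneg_left a1 (mul_pos hT' hδ).le
    refine le_of_mul_le_mul_left ?_ (show (0 : ℝ) < T ^ 2 * δ by positivity)
    have e : T ^ 2 * δ * (μ j - δ + (T : ℝ)⁻¹ * D j z - (T ^ 2 * δ)⁻¹ * ∑ k, D k z ^ 2) =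
        T * δ * (T * μ j + D j z) - (T * δ) ^ 2 - ∑ k, D k z ^ 2 := by
      field_simp
      ring
    rw [e]
    nlinarith
  simp only [← hμ]
  refine le_trans ?_ (sum_le_sum fun z _ =>
    mul_le_mul_of_nonneg_left (pt z) (prod_nonneg fun i _ => hu.1 _))
  have e : ∀ z : Fin T → T0, (∏ i, u (z i)) *
      (μ j - δ + (T : ℝ)⁻¹ * D j z - (T ^ 2 * δ)⁻¹ * ∑ k, D k z ^ 2) =
      (μ j - δ) * ∏ i, u (z i) + (T : ℝ)⁻¹ * ((∏ i, u (z i)) * D j z) -
        (T ^ 2 * δ)⁻¹ * ∑ k, (∏ i, u (z i)) * D k z ^ 2 := fun z => by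
    rw [← mul_sum]
    ring
  rw [sum_congr rfl fun z _ => e z, sum_sub_distrib, sum_add_distrib, ← mul_sum, ← mul_sum,
    ← mul_sum, (hm j).1, (hm j).2.1, sum_comm, sum_congr rfl fun k _ => (hm k).2.2, ← mul_sum]
  have b1 : ∑ k, ∑ t, u t * (φ k t - μ k) ^ 2 ≤ Fintype.card K := by
    simpa using sum_le_sum fun k (_ : k ∈ (univ : Finset K)) => hv k
  have b2 : (T ^ 2 * δ)⁻¹ * (T * ∑ k, ∑ t, u t * (φ k t - μ k) ^ 2) ≤
      Fintype.card K / (T * δ) := by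
    rw [show (T ^ 2 * δ)⁻¹ * (T * ∑ k, ∑ t, u t * (φ k t - μ k) ^ 2) =
      (∑ k, ∑ t, u t * (φ k t - μ k) ^ 2) / (T * δ) by field_simp]
    gcongr
  linarith

end

section

theorem one_UVal {I α : Type} [Fintype I] [DecidableEq I] [Fintype α] {w : I → α → ℝ}
    (h : ∀ i, ∑ a, w i a = 1) : ∑ z : I → α, ∏ i, w i (z i) = 1 := by
  rw [← Fintype.piFinset_univ, ← prod_univ_sum]
  simp [h]

theorem ber_UVal (p : ℝ) : ∑ b, ber p b = 1 := by simp [ber]

theorem marg_UVal {K : Type} [Fintype K] [DecidableEq K] (p : K → ℝ) (k : K) :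
    ∑ b : K → Bool, (∏ j, ber (p j) (b j)) * sg (b k) = 2 * p k - 1 := by
  have e : ∀ b : K → Bool, (∏ j, ber (p j) (b j)) * sg (b k) =
      ∏ j, (ber (p j) (b j) * if j = k then sg (b j) else 1) := fun b => by
    rw [prod_mul_distrib]
    simp
  simp only [e]
  rw [← Fintype.piFinset_univ,
    ← prod_univ_sum (fun _ => univ) fun j b => ber (p j) b * if j = k then sg b else 1,
    prod_eq_single k (fun j _ hj => by simp [hj, ber]) (by simp)]
  simp [ber, sg]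
  ring

/-- the law of one held-out example together with the answers of all learners -/
noncomputable def uu_UVal {n : ℕ} {K : Type} [Fintype K] (e : ℝ) (c : X n → Bool) (D : X n → ℝ)
    (γ : K → X n → ℝ) (t : (X n × Bool) × (K → Bool)) : ℝ :=
  exProb e c D t.1 * ∏ k, ber (γ k t.1.1) (t.2 k)

theorem prob_UVal {n : ℕ} {K : Type} [Fintype K] [DecidableEq K] {e : ℝ} (h0 : 0 ≤ e) (h1 : e ≤ 1)
    (c : X n → Bool) {D : X n → ℝ} (hD : IsProb D) {γ : K → X n → ℝ}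
    (hγ : ∀ k x, 0 ≤ γ k x ∧ γ k x ≤ 1) : IsProb (uu_UVal e c D γ) := by
  refine ⟨fun t => mul_nonneg ((ex_prob h0 h1 c hD).1 _) (prod_nonneg fun k _ => ?_), ?_⟩
  · unfold ber
    split_ifs <;> linarith [hγ k t.1.1]
  · rw [Fintype.sum_prod_type, ← (ex_prob h0 h1 c hD).2]
    refine sum_congr rfl fun y _ => ?_
    simp only [uu_UVal]
    rw [← mul_sum, one_UVal (w := fun k b => ber (γ k y.1) b) fun k => ber_UVal _, mul_one]

theorem corr_UVal {n : ℕ} {K : Type} [Fintype K] [DecidableEq K] (e : ℝ) (c : X n → Bool)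
    (D : X n → ℝ) (γ : K → X n → ℝ) (k : K) :
    ∑ t, uu_UVal e c D γ t * (sg (t.2 k) * sg t.1.2) = (1 - 2 * e) * ad c D (γ k) := by
  have a2 : ∑ t, exProb e c D t * (sg t.2 * (2 * γ k t.1 - 1)) = (1 - 2 * e) * ad c D (γ k) := by
    rw [Fintype.sum_prod_type, ad, mul_sum]
    refine sum_congr rfl fun x _ => ?_
    cases hc : c x <;> simp [exProb, hc, sg] <;> ring
  rw [Fintype.sum_prod_type, ← a2]
  refine sum_congr rfl fun y _ => ?_
  rw [← marg_UVal (fun j => γ j y.1) k, mul_sum, mul_sum]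
  refine sum_congr rfl fun b _ => ?_
  simp only [uu_UVal]
  ring

theorem aff_UVal {n : ℕ} {B : Type} [Fintype B] (c : X n → Bool) (D : X n → ℝ) {w : B → ℝ}
    (hw : ∑ b, w b = 1) (f : B → X n → ℝ) :
    ad c D (fun x => ∑ b, w b * f b x) = ∑ b, w b * ad c D (f b) := by
  simp only [ad, mul_sum]
  rw [sum_comm]
  refine sum_congr rfl fun x _ => ?_
  have : ∑ b, 2 * (w b * f b x) - 1 = ∑ b, w b * (2 * f b x - 1) := by
    conv_lhs => rw [← hw, ← sum_sub_distrib]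
    exact sum_congr rfl fun b _ => by ring
  rw [this, sum_mul, mul_sum]
  exact sum_congr rfl fun b _ => by ring

theorem split_UVal {n M T : ℕ} {K : Type} [Fintype K] [DecidableEq K]
    (sel : (Fin T → (X n × Bool) × (K → Bool)) → K) (β : K → Sample n M → X n → ℝ) (e : ℝ)
    (c : X n → Bool) (D : X n → ℝ) :
    ∑ s : Sample n (M + T), (∏ i, exProb e c D (s i)) * ad c D (vl sel β s) =
      ∑ S : Sample n M, (∏ i, exProb e c D (S i)) *
        ∑ z : Fin T → (X n × Bool) × (K → Bool),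
          (∏ i, uu_UVal e c D (fun k => β k S) (z i)) * ad c D (β (sel z) S) := by
  rw [← (Fin.appendEquiv M T).sum_comp, Fintype.sum_prod_type]
  refine sum_congr rfl fun S _ => ?_
  rw [← Equiv.sum_comp (Equiv.arrowProdEquivProdArrow (Fin T) (fun _ => X n × Bool)
    fun _ => K → Bool).symm, Fintype.sum_prod_type, mul_sum]
  refine sum_congr rfl fun V _ => ?_
  have e1 : vl sel β (Fin.appendEquiv M T (S, V)) = fun x => ∑ b : Fin T → K → Bool,
      (∏ i, ∏ j, ber (β j S (V i).1) (b i j)) * β (sel fun i => (V i, b i)) S x := by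
    funext x
    simp [vl, Fin.appendEquiv]
  rw [e1, aff_UVal c D (one_UVal (w := fun i (b : K → Bool) => ∏ j, ber (β j S (V i).1) (b j))
    fun i => one_UVal (w := fun j b => ber (β j S (V i).1) b) fun j => ber_UVal _),
    Fin.prod_univ_add, mul_assoc]
  simp only [Fin.appendEquiv, Equiv.coe_fn_mk, Fin.append_left, Fin.append_right]
  congr 1
  rw [mul_sum]
  refine sum_congr rfl fun b _ => ?_
  simp only [uu_UVal, Equiv.arrowProdEquivProdArrow, Equiv.coe_fn_symm_mk, prod_mul_distrib,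
    mul_assoc]

theorem uVal (h : USel) : UVal := by
  intro n M T K _ _ _ hT
  obtain ⟨sel, hs⟩ := h ((X n × Bool) × (K → Bool)) K T (fun k t => sg (t.2 k) * sg t.1.2) hT
    fun j t => by rw [abs_mul, abs_sg, abs_sg, mul_one]
  refine ⟨sel, fun e δ c D β j h0 h1 hδ hD hβ => ?_⟩
  have h2 : e ≤ 1 := by linarith
  have h3 : 0 < 1 - 2 * e := by linarith
  obtain ⟨L, hL⟩ : ∃ L : ℝ, δ + Fintype.card K / (T * δ) = L := ⟨_, rfl⟩
  have a1 := mis_ad h0 h2 c hD (vl sel β)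
  have a2 := mis_ad h0 h2 c hD (β j)
  rw [split_UVal] at a1
  have s1 : ∑ S : Sample n M, ∏ i, exProb e c D (S i) = 1 :=
    one_UVal (w := fun _ y => exProb e c D y) fun _ => (ex_prob h0 h2 c hD).2
  have a3 : ∀ S : Sample n M, ad c D (β j S) - L / (1 - 2 * e) ≤
      ∑ z : Fin T → (X n × Bool) × (K → Bool),
        (∏ i, uu_UVal e c D (fun k => β k S) (z i)) * ad c D (β (sel z) S) := fun S => by
    have b := hs _ j δ (prob_UVal h0 h2 c hD (γ := fun k => β k S) fun k x => hβ k S x) hδ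
    simp only [corr_UVal, hL, mul_left_comm _ (1 - 2 * e), ← mul_sum] at b
    refine le_of_mul_le_mul_left ?_ h3
    rwa [mul_sub (1 - 2 * e), mul_div_cancel₀ _ h3.ne']
  have a4 := sum_le_sum fun S (_ : S ∈ univ) => mul_le_mul_of_nonneg_left (a3 S)
    (prod_nonneg fun i (_ : i ∈ univ) => (ex_prob h0 h2 c hD).1 (S i))
  simp only [mul_sub, sum_sub_distrib, ← sum_mul, s1, one_mul] at a4
  rw [← a1, ← a2] at a4
  rw [hL, mul_comm 2, ← div_div]
  linarith

end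

section

theorem fin_UGraft {Y : Type} [Fintype Y] [DecidableEq Y] (q q' : ℕ) : ∀ (N : ℕ)
    (f : Fin N → (Y → Bool) → ℝ) (g : (Fin N → Bool) → (Y → Bool) → ℝ), (∀ a, f a ∈ Ach q) →
    (∀ b, g b ∈ Ach q') →
    (fun O => ∑ b : Fin N → Bool, (∏ a, ber (f a O) (b a)) * g b O) ∈ Ach (N * q + q') := by
  intro N
  induction N with
  | zero =>
    intro f g _ hg
    have e : (fun O => ∑ b : Fin 0 → Bool, (∏ a, ber (f a O) (b a)) * g b O) = g default := by
      funext O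
      rw [Fintype.sum_unique, Fin.prod_univ_zero, one_mul]
      exact congrFun (congrArg g (Subsingleton.elim _ _)) O
    rw [e, zero_mul, zero_add]
    exact hg _
  | succ N ih =>
    intro f g hf hg
    have h := ach_graft sAch (hf 0)
      (ih (fun a => f a.succ) (fun b => g (Fin.cons false b)) (fun a => hf _) fun b => hg _)
      (ih (fun a => f a.succ) (fun b => g (Fin.cons true b)) (fun a => hf _) fun b => hg _)
    have e : q + (N * q + q') = (N + 1) * q + q' := by ring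
    rw [e] at h
    convert h using 2 with O
    rw [sum_succ, Fintype.sum_bool, mul_sum, mul_sum]
    simp only [Fin.prod_univ_succ, Fin.cons_zero, Fin.cons_succ, ber, if_true, Bool.false_eq_true,
      if_false, mul_assoc]

theorem gen_UGraft {Y : Type} [Fintype Y] [DecidableEq Y] (q q' : ℕ) {ι : Type} [Fintype ι]
    [DecidableEq ι] (f : ι → (Y → Bool) → ℝ) (g : (ι → Bool) → (Y → Bool) → ℝ)
    (hf : ∀ a, f a ∈ Ach q) (hg : ∀ b, g b ∈ Ach q') :
    (fun O => ∑ b : ι → Bool, (∏ a, ber (f a O) (b a)) * g b O) ∈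
      Ach (Fintype.card ι * q + q') := by
  have h := fin_UGraft q q' (Fintype.card ι) (fun a => f ((Fintype.equivFin ι).symm a))
    (fun b => g fun a => b (Fintype.equivFin ι a)) (fun a => hf _) fun b => hg _
  convert h using 2 with O
  refine Fintype.sum_equiv ((Fintype.equivFin ι).arrowCongr (Equiv.refl Bool)) _ _ fun b => ?_
  simp only [Equiv.arrowCongr_apply, Equiv.coe_refl, Function.comp, id, Equiv.symm_apply_apply]
  rw [(Fintype.equivFin ι).symm.prod_comp fun a => ber (f a O) (b a)]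

theorem uGraft : UGraft := by
  intro Y _ _ n M T q K _ _ sel B hB s x
  have h := gen_UGraft q q (ι := Fin T × K)
    (fun a => B a.2 (fun a => s (Fin.castAdd T a)) (s (Fin.natAdd M a.1)).1)
    (fun b => B (sel fun i => (s (Fin.natAdd M i), fun j => b (i, j)))
      (fun a => s (Fin.castAdd T a)) x) (fun a => hB _ _ _) fun b => hB _ _ _
  rw [Fintype.card_prod, Fintype.card_fin] at h
  convert h using 2 with O
  unfold vl
  refine (Fintype.sum_equiv (Equiv.curry (Fin T) K Bool) _ _ fun b => ?_).symm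
  rw [Fintype.prod_prod_type]
  rfl

end

section

theorem uPool : UPool := by
  intro n m J Q Y I _ _ _ _ A0 e e' E0 E1 L A hA0 hE1 hyp
  obtain ⟨hc, -, hconst, -⟩ := sAch Y Q
  have hcv : Convex ℝ (Ach Q : Set ((Y → Bool) → ℝ)) := convex_convexHull ℝ _
  let K : Set ((I → X n) × Hd Y I → ℝ) :=
    {μ | (∀ a, 0 ≤ μ a) ∧ ∑ a, μ a = 1 ∧
      (∀ O, (∑ xs, ∑ c, μ (xs, (O, c))) * A0.card ≤ L) ∧ ∀ a, a.2.1 ∉ A0 → μ a = 0}
  let C : Set ((I → X n) → I → (Fin J → I × Bool) → (Y → Bool) → ℝ) :=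
    Set.pi Set.univ fun _ => Set.pi Set.univ fun _ => Set.pi Set.univ fun _ => Ach Q
  have hKc : IsCompact K := by
    have hcl : IsClosed K := by
      simp only [K, Set.ofPred_and, Set.ofPred_forall]
      refine (isClosed_iInter fun a => isClosed_le continuous_const (continuous_apply a)).inter
        ((isClosed_eq (by fun_prop) continuous_const).inter
          ((isClosed_iInter fun O => isClosed_le (by fun_prop) continuous_const).inter
            (isClosed_iInter fun a => isClosed_iInter fun _ =>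
              isClosed_eq (continuous_apply a) continuous_const)))
    exact (isCompact_stdSimplex ℝ _).of_isClosed_subset hcl fun μ hμ => ⟨hμ.1, hμ.2.1⟩
  have hKv : Convex ℝ K := by
    intro μ hμ ν hν s t hs ht hst
    refine ⟨fun a => ?_, ?_, fun O => ?_, fun a ha => ?_⟩
    · exact add_nonneg (mul_nonneg hs (hμ.1 a)) (mul_nonneg ht (hν.1 a))
    · simp only [Pi.add_apply, Pi.smul_apply, smul_eq_mul, sum_add_distrib, ← mul_sum]
      rw [hμ.2.1, hν.2.1]; linarith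
    · simp only [Pi.add_apply, Pi.smul_apply, smul_eq_mul, sum_add_distrib, ← mul_sum]
      have a1 := mul_le_mul_of_nonneg_left (hμ.2.2.1 O) hs
      have a2 := mul_le_mul_of_nonneg_left (hν.2.2.1 O) ht
      have a3 : s * L + t * L = L := by rw [← add_mul, hst, one_mul]
      linarith
    · simp only [Pi.add_apply, Pi.smul_apply, smul_eq_mul]
      rw [hμ.2.2.2 a ha, hν.2.2.2 a ha, mul_zero, mul_zero, add_zero]
  have hCc : IsCompact C :=
    isCompact_univ_pi fun _ => isCompact_univ_pi fun _ => isCompact_univ_pi fun _ => hc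
  have hCv : Convex ℝ C :=
    convex_pi fun _ _ => convex_pi fun _ _ => convex_pi fun _ _ => hcv
  have hCn : C.Nonempty :=
    ⟨fun _ _ _ _ => 1 / 2, fun _ _ _ _ _ _ => hconst _ (by norm_num) (by norm_num)⟩
  obtain ⟨β, hβ, hmain⟩ := sMM ((I → X n) × Hd Y I)
    ((I → X n) → I → (Fin J → I × Bool) → (Y → Bool) → ℝ) K C
    (fun β a => advI e' (β a.1) a.2 - advI e (onPool A a.1) a.2)
    (- E0 - (Real.log L + Fintype.card I * ((n + 1) * Real.log 2)) * E1) hKc hKv hCc hCv hCn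
    (fun a => (advI_cont_Pool e' a.1 a.2).sub continuous_const)
    (fun a β β' s t hst => by
      have a1 : advI e' ((s • β + t • β') a.1) a.2 =
          s * advI e' (β a.1) a.2 + t * advI e' (β' a.1) a.2 :=
        advI_aff_Pool e' (β a.1) (β' a.1) a.2 s t hst
      linear_combination a1 + advI e (onPool A a.1) a.2 * hst) (by
      intro μ hμ
      choose β' hβ' hle using fun xs => hyp xs (fun h => μ (xs, h)) fun h =>
        ⟨hμ.1 _, fun hn => of_not_not fun hk => hn (hμ.2.2.2 (xs, h) hk)⟩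
      refine ⟨β', fun xs _ i _ z _ => hβ' xs i z, ?_⟩
      have hs := sum_le_sum fun xs (_ : xs ∈ (univ : Finset (I → X n))) => hle xs
      simp only [sum_add_distrib, ← mul_sum, ← sum_mul] at hs
      have e1 : ∑ xs, ∑ h, μ (xs, h) = 1 := by rw [← hμ.2.1, Fintype.sum_prod_type]
      have hd := tDef Y ((I → X n) × (I → Bool)) A0 (fun O u => μ (u.1, (O, u.2))) L
        (fun O u => hμ.1 _) (by
          rw [← e1]
          simp only [Fintype.sum_prod_type]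
          rw [sum_comm])
        (fun O => by rw [Fintype.sum_prod_type]; exact hμ.2.2.1 O) hA0
      rw [card_log_Pool, Fintype.sum_prod_type] at hd
      rw [Fintype.sum_prod_type]
      simp only [mul_sub, sum_sub_distrib]
      have hd' := mul_le_mul_of_nonneg_right hd hE1
      rw [e1] at hs
      linarith)
  refine ⟨β, fun xs i z => hβ xs trivial i trivial z trivial, fun μ a1 a2 a3 => ?_⟩
  have := hmain (fun a => μ a.1 a.2) ⟨fun a => (a1 _ _).1,
    by rw [Fintype.sum_prod_type]; exact a2, a3,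
    fun a ha => of_not_not fun hn => ha ((a1 _ _).2 hn)⟩
  rw [Fintype.sum_prod_type] at this
  exact this

end

section

noncomputable section

theorem gen_UAll (hPo : UPool) (n m J Q M L : ℕ) (Y : Type) [Fintype Y] [DecidableEq Y]
    (A0 : Finset (Y → Bool)) (hA0 : A0.Nonempty) (e e' E0 E1 γ : ℝ)
    (A : Sample n m → X n → (Y → Bool) → ℝ) (h0 : 0 ≤ e')
    (h1 : e' ≤ 1) (hE1 : 0 ≤ E1)
    (hc : ∀ (xs : Fin (M + 1) → X n) (μ : Hd Y (Fin (M + 1)) → ℝ),
      (∀ h, 0 ≤ μ h ∧ (μ h ≠ 0 → h.1 ∈ A0)) →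
      ∃ β' : Fin (M + 1) → (Fin J → Fin (M + 1) × Bool) → (Y → Bool) → ℝ,
        (∀ i z, β' i z ∈ Ach Q) ∧ ∑ h, μ h * advI e (onPool A xs) h ≤
          ∑ h, μ h * advI e' β' h + E0 * ∑ h, μ h + (∑ c, Ph A0 fun O => μ (O, c)) * E1)
    (hp : E0 + (Real.log L + (M + 1 : ℕ) * ((n + 1) * Real.log 2)) * E1 +
      ((J : ℝ) + 1) ^ 2 / ((M : ℝ) + 1) ≤ γ) :
    ∃ B : Sample n M → X n → (Y → Bool) → ℝ, (∀ S x, B S x ∈ Ach Q) ∧
      {O : Y → Bool | O ∈ A0 ∧ ∃ (c : X n → Bool) (ε : ℝ),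
        (∀ D, IsProb D → mis e c D (fun S x => A S x O) ≤ ε) ∧
        ∃ D, IsProb D ∧ ε + γ / 2 < mis e' c D fun S x => B S x O}.ncard * L ≤
        A0.card := by
  classical
  obtain ⟨β, hβ, hP⟩ := hPo n m J Q Y (Fin (M + 1)) A0 e e' E0 E1 L A hA0 hE1 hc
  obtain ⟨B, hB, hb⟩ := sBack sColl sGood sAch n M J Q Y e' β h0 h1 hβ
  refine ⟨B, hB, ?_⟩
  generalize hS : {O : Y → Bool | O ∈ A0 ∧ ∃ (c : X n → Bool) (ε : ℝ),
        (∀ D, IsProb D → mis e c D (fun S x => A S x O) ≤ ε) ∧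
        ∃ D, IsProb D ∧ ε + γ / 2 < mis e' c D fun S x => B S x O} = T
  have hT : ∀ O ∈ T, O ∈ A0 := fun O h => by rw [← hS] at h; exact h.1
  rw [Set.ncard_eq_toFinset_card' T]
  set Bd := T.toFinset with hBd
  by_contra hn
  rw [not_le] at hn
  have ne : Bd.Nonempty := card_pos.1 (Nat.pos_of_ne_zero fun h => by simp [h] at hn)
  have N0 : (0 : ℝ) < Bd.card := Nat.cast_pos.2 ne.card_pos
  have ch : ∀ O, ∃ (c : X n → Bool) (D : X n → ℝ), IsProb D ∧ (O ∈ Bd → ∃ ε : ℝ,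
      (∀ D, IsProb D → mis e c D (fun S x => A S x O) ≤ ε) ∧
        ε + γ / 2 < mis e' c D fun S x => B S x O) := fun O => by
    by_cases h : O ∈ Bd
    · have : O ∈ T := Set.mem_toFinset.1 h
      rw [← hS] at this
      obtain ⟨-, c, ε, a1, D, a2, a3⟩ := this
      exact ⟨c, D, a2, fun _ => ⟨ε, a1, a3⟩⟩
    · exact ⟨fun _ => true, fun x => ind (x = fun _ => true),
        ⟨fun _ => ind_nonneg _, by simp [ind_eq]⟩, fun h' => absurd h' h⟩
  choose c D hD hcD using ch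
  let μ : (Fin (M + 1) → X n) → Hd Y (Fin (M + 1)) → ℝ := fun xs h =>
    ind (h.1 ∈ Bd) / Bd.card * (∏ i, D h.1 (xs i)) * ind (h.2 = fun i => c h.1 (xs i))
  have m1 : ∀ O (φ : (Fin (M + 1) → X n) → Hd Y (Fin (M + 1)) → ℝ),
      ∑ xs, ∑ c', μ xs (O, c') * φ xs (O, c') = ind (O ∈ Bd) / Bd.card *
        ∑ xs, (∏ i, D O (xs i)) * φ xs (O, fun i => c O (xs i)) := fun O φ => by
    rw [mul_sum]
    refine sum_congr rfl fun xs _ => ?_
    rw [sum_eq_single (fun i => c O (xs i)) (fun b _ hb => by simp only [μ, ind_neg hb]; ring)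
      (by simp)]
    simp only [μ, ind_pos True.intro]
    ring
  have m2 : ∀ φ : (Fin (M + 1) → X n) → Hd Y (Fin (M + 1)) → ℝ,
      ∑ xs, ∑ h, μ xs h * φ xs h = (∑ O ∈ Bd,
        ∑ xs, (∏ i, D O (xs i)) * φ xs (O, fun i => c O (xs i))) / Bd.card := fun φ => by
    simp only [Fintype.sum_prod_type (α₁ := Y → Bool)]
    rw [sum_comm]
    simp only [m1]
    rw [sum_div, ← sum_subset (subset_univ Bd) fun O _ h => by rw [ind_neg h]; ring]
    exact sum_congr rfl fun O h => by rw [ind_pos h]; ring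
  have key := hP μ (fun xs h => ⟨mul_nonneg (mul_nonneg (div_nonneg (ind_nonneg _) N0.le)
    (prod_nonneg fun i _ => (hD _).1 _)) (ind_nonneg _), fun k => hT _ (Set.mem_toFinset.1 (by
      by_contra k'
      exact k (by simp only [μ, ind_neg (show h.1 ∉ Bd from k')]; ring)))⟩) (by
      have := m2 fun _ _ => 1
      simp only [mul_one, fun O => sum_prod_one (I := Fin (M + 1)) (hD O), sum_const,
        nsmul_eq_mul] at this
      rw [this, div_self N0.ne']) (fun O => by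
      have := m1 O fun _ _ => 1
      simp only [mul_one, sum_prod_one (I := Fin (M + 1)) (hD O)] at this
      rw [this, div_mul_eq_mul_div, div_le_iff₀ N0]
      have h3 : ((A0.card : ℕ) : ℝ) ≤ Bd.card * L := by exact_mod_cast hn.le
      nlinarith [ind_le_one (O ∈ Bd), Nat.cast_nonneg (α := ℝ) A0.card])
  rw [m2, le_div_iff₀ N0, Fintype.card_fin] at key
  have fin := sum_lt_sum_of_nonempty ne (f := fun O => ∑ xs : Fin (M + 1) → X n, (∏ i, D O (xs i)) *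
      (advI e' (β xs) (O, fun i => c O (xs i)) - advI e (onPool A xs) (O, fun i => c O (xs i))))
    (g := fun _ => -γ + ((J : ℝ) + 1) ^ 2 / ((M : ℝ) + 1)) fun O hO => by
      obtain ⟨ε, a1, a2⟩ := hcD O hO
      have a3 := hb O (c O) (D O) (hD O)
      have a4 : 1 - 2 * ε ≤ ∑ xs : Fin (M + 1) → X n, (∏ i, D O (xs i)) *
          advI e (onPool A xs) (O, fun i => c O (xs i)) := by
        refine le_trans (le_of_eq (by
          rw [← sum_mul, sum_prod_one (I := Fin (M + 1)) (hD O), one_mul])) (sum_le_sum fun xs _ =>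
          mul_le_mul_of_nonneg_left (b := 1 - 2 * ε) ?_ (prod_nonneg fun i _ => (hD _).1 _))
        obtain ⟨D', d1, d2⟩ := sEmp n m Y (Fin (M + 1)) e A xs O (c O)
        rw [d2]
        linarith [a1 D' d1]
      simp only [mul_sub, sum_sub_distrib]
      linarith
  rw [sum_const, nsmul_eq_mul] at fin
  nlinarith

theorem one_UAll (hC : TCore) (hPo : UPool) (Y : Type) [Fintype Y] [DecidableEq Y] [Nonempty Y]
    (P : Sys Y) (v f q n m Z : ℕ) (ε η η' : ℝ) (A : Sample n m → X n → (Y → Bool) → ℝ)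
    (hB : Base P v f) (hD : Dec P q ε) (hne : P.A.Nonempty) (ε0 : 0 ≤ ε) (ε1 : ε * Z ^ 151 ≤ 1)
    (hZ : 10 ≤ Z) (hn : n ≤ Z) (hm : m ≤ Z) (hq : q ≤ Z) (hv : v ≤ Z) (Q1 : q * v ≤ Z)
    (Q2 : q * v * f ≤ Z) (hY : Real.log (Fintype.card Y) ≤ Z) (h0 : 0 ≤ η) (h1 : η ≤ 1)
    (hA : ∀ S x, A S x ∈ Ach q) (h2 : 0 ≤ η') (h3 : 1 ≤ Z * (1 - 2 * η')) :
    ∃ B : Sample n (Z ^ 87) → X n → (Y → Bool) → ℝ, (∀ S x, B S x ∈ Ach (Z ^ 149)) ∧
      {O : Y → Bool | O ∈ P.A ∧ ∃ (c : X n → Bool) (a : ℝ),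
        (∀ D, IsProb D → mis η c D (fun S x => A S x O) ≤ a) ∧
        ∃ D, IsProb D ∧ a + 2 / Z / 2 < mis η' c D fun S x => B S x O}.ncard *
        (2 ^ Z * Z ^ 89) ≤ P.A.card := by
  have Z1 : (10 : ℝ) ≤ Z := by exact_mod_cast hZ
  have Z0 : 0 < Z := by omega
  have d1 : η' < 1 / 2 := by nlinarith
  obtain ⟨B, b1, b2⟩ := gen_UAll hPo n m (Z ^ 42) (Z ^ 42 * Z ^ 106 * v) (Z ^ 87) (2 ^ Z * Z ^ 89) Y
    P.A hne η η' (err0 η' (1 / (Z + 1)) (1 / Z ^ 29) (1 / Z ^ 2) (Z ^ 25) (1 / Z ^ 3) Z m Z (Z ^ 94) 3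
      (Z ^ 106) (Z ^ 42) + 2 * ε * ((Z ^ 42 : ℕ) * (Z ^ 106 : ℕ) * v + (Z ^ 94 : ℕ) * Z + 2 * q))
    (1 / (1 / Z ^ 2 * (Z ^ 94 : ℕ))) (2 / Z) A h2 (by linarith) (by positivity)
    (fun xs μ hμ => by
      have := hC Y (Fin (Z ^ 87 + 1)) P v f Z ε η η' (1 / (Z + 1)) (1 / Z ^ 29) (1 / Z ^ 2) (Z ^ 25)
        (1 / Z ^ 3) Z m q (Z ^ 94) 3 (Z ^ 106) (Z ^ 42) (onPool A xs) μ hB hD ε0 Q1 Q2 h0 h1 h2 d1
        (by positivity) (by rw [div_lt_one (by linarith)]; linarith) (by positivity)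
        (by positivity) (by rw [div_le_one (by positivity)]; nlinarith)
        (one_le_pow₀ (by linarith)) (by positivity) hY (by positivity) (by positivity)
        (by positivity) (fun i z => hA _ _) hμ
      simpa only [mul_one_div] using this)
    (by
      have := sPar Z n Z m Z η' (Real.log (2 ^ Z * Z ^ 89 : ℕ)) (by
        push_cast
        rw [Real.log_mul (by positivity) (by positivity), Real.log_pow, Real.log_pow]
        have a1 := Real.log_two_lt_d9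
        have a2 := Real.log_le_sub_one_of_pos (show (0 : ℝ) < Z by linarith)
        have a3 : (10 : ℝ) ^ 2 ≤ (Z : ℝ) ^ 87 :=
          (pow_le_pow_left₀ (by norm_num) Z1 2).trans (pow_le_pow_right₀ (by linarith) (by norm_num))
        generalize (Z : ℝ) ^ 87 = u at a3
        push_cast
        nlinarith) hZ hn le_rfl hm le_rfl h2 h3
      have a4 : 2 * ε * ((Z ^ 42 : ℕ) * (Z ^ 106 : ℕ) * v + (Z ^ 94 : ℕ) * Z + 2 * q) ≤
          1 / (Z : ℝ) := by
        have v1 : (v : ℝ) ≤ Z := by exact_mod_cast hv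
        have q1 : (q : ℝ) ≤ Z := by exact_mod_cast hq
        have p1 : ∀ k, k ≤ 149 → (Z : ℝ) ^ k ≤ Z ^ 149 := fun k hk =>
          pow_le_pow_right₀ (by linarith) hk
        have p2 : (Z : ℝ) ^ 42 * Z ^ 106 * v ≤ Z ^ 149 := by
          rw [← pow_add, pow_succ (Z : ℝ) 148]; gcongr
        have p3 := p1 95 (by norm_num)
        have p4 := p1 1 (by norm_num)
        rw [pow_succ (Z : ℝ) 94] at p3
        rw [show (Z : ℝ) ^ 151 = Z ^ 149 * Z * Z by ring] at ε1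
        rw [le_div_iff₀ (by linarith)]
        push_cast
        generalize (Z : ℝ) ^ 42 * Z ^ 106 * v = a at *
        generalize (Z : ℝ) ^ 94 * Z = b at *
        generalize (Z : ℝ) ^ 149 = u at *
        have p5 : ε * (a + b + 2 * q) ≤ ε * (4 * u) := by gcongr; linarith
        have p6 : 0 ≤ ε * u * Z := by
          have : 0 ≤ u := by linarith
          positivity
        nlinarith
      have a5 : (2 : ℝ) / Z = 1 / Z + 1 / Z := by ring
      linarith)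
  refine ⟨B, fun S x => (sAch Y _).2.2.2.1 _ ?_ (b1 S x), b2⟩
  rw [← pow_add, pow_succ Z 148]
  exact Nat.mul_le_mul_left _ hv

/-- the oracles on which `B` loses more than `2 / Z` against `A` -/
def Bad2 {n m M : ℕ} {Y : Type} (Z : ℕ) (η : ℝ) (A : Sample n m → X n → (Y → Bool) → ℝ)
    (B : Sample n M → X n → (Y → Bool) → ℝ) (O : Y → Bool) : Prop :=
  ∃ (c : X n → Bool) (ε : ℝ), (∀ D : X n → ℝ, IsProb D → mis η c D (fun S x => A S x O) ≤ ε) ∧
    ∃ (η' : ℝ) (D : X n → ℝ), 0 ≤ η' ∧ η' ≤ 1 / 2 - 1 / (Z : ℝ) ∧ IsProb D ∧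
      ε + 2 / (Z : ℝ) < mis η' c D fun S x => B S x O

def UAll : Prop := ∀ (Y : Type) [Fintype Y] [DecidableEq Y] [Nonempty Y] (P : Sys Y)
  (v f q n m Z : ℕ) (ε η : ℝ) (A : Sample n m → X n → (Y → Bool) → ℝ), Base P v f → Dec P q ε →
  P.A.Nonempty → 0 ≤ ε → ε * Z ^ 151 ≤ 1 → 10 ≤ Z → n ≤ Z → m ≤ Z → q ≤ Z → v ≤ Z → q * v ≤ Z →
  q * v * f ≤ Z → Real.log (Fintype.card Y) ≤ Z → 0 ≤ η → η ≤ 1 → (∀ S x, A S x ∈ Ach q) →
  ∃ B : Sample n (Z ^ 87 + Z ^ 95) → X n → (Y → Bool) → ℝ, (∀ S x, B S x ∈ Ach (Z ^ 334)) ∧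
    {O | O ∈ P.A ∧ Bad2 Z η A B O}.ncard * 2 ^ Z ≤ P.A.card

theorem uAll (hC : TCore) (hPo : UPool) (hV : UVal) (hG : UGraft) : UAll := by
  intro Y _ _ _ P v f q n m Z ε η A hBa hDe hne ε0 ε1 hZ hn hm hq hv Q1 Q2 hY h0 h1 hA
  have Z1 : (10 : ℝ) ≤ Z := by exact_mod_cast hZ
  have Z0 : (0 : ℝ) < Z := by linarith
  have K0 : 0 < Z ^ 89 := pow_pos (by omega) _
  have iZ : (1 : ℝ) / Z ≤ 1 / 10 := one_div_le_one_div_of_le (by norm_num) Z1
  have zi : (Z : ℝ) * (1 / Z) = 1 := mul_one_div_cancel Z0.ne'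
  have : Nonempty (Fin (Z ^ 89)) := ⟨⟨0, K0⟩⟩
  choose B hB hb using fun j : Fin (Z ^ 89) => one_UAll hC hPo Y P v f q n m Z ε η
    (min ((j : ℕ) / Z ^ 89) (1 / 2 - 1 / Z)) A hBa hDe hne ε0 ε1 hZ hn hm hq hv Q1 Q2 hY h0 h1 hA
    (le_min (by positivity) (by linarith))
    (by nlinarith [min_le_right (((j : ℕ) : ℝ) / Z ^ 89) (1 / 2 - 1 / Z)])
  obtain ⟨sel, hs⟩ := hV n (Z ^ 87) (Z ^ 95) (Fin (Z ^ 89)) (pow_pos (by omega) _)
  refine ⟨fun S x O => vl sel (fun j S x => B j S x O) S x, fun S x => ?_, ?_⟩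
  · refine (sAch _ _).2.2.2.1 _ ?_ (hG Y n _ _ _ _ sel B hB S x)
    have c1 : Z ^ 149 ≤ Z ^ 333 := Nat.pow_le_pow_right (le_trans (by decide) hZ) (by decide)
    rw [Fintype.card_fin, ← pow_add, ← pow_add, pow_succ Z 333]
    exact (add_le_add le_rfl c1).trans (by
      rw [← mul_two]; exact Nat.mul_le_mul_left _ (le_trans (by norm_num) hZ))
  refine Nat.le_of_mul_le_mul_right ?_ K0
  have s := sum_le_sum fun j (_ : j ∈ univ) => hb j
  rw [← sum_mul, sum_const, card_univ, Fintype.card_fin, smul_eq_mul, mul_comm (Z ^ 89)] at s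
  rw [mul_assoc]
  refine le_trans (Nat.mul_le_mul_right _ (le_trans (Set.ncard_le_ncard ?_)
    (Set.ncard_iUnion_le_of_fintype _))) s
  rintro O ⟨hO, c, a, hc, e, D, e0, e1, hD, hlt⟩
  have P : (0 : ℝ) < (Z : ℝ) ^ 89 := by positivity
  have f1 : ((⌊e * (Z : ℝ) ^ 89⌋₊ : ℕ) : ℝ) ≤ e * Z ^ 89 := Nat.floor_le (mul_nonneg e0 P.le)
  have f2 := Nat.lt_floor_add_one (e * Z ^ 89)
  have f3 : ⌊e * (Z : ℝ) ^ 89⌋₊ < Z ^ 89 := by
    have : ((⌊e * (Z : ℝ) ^ 89⌋₊ : ℕ) : ℝ) < ((Z ^ 89 : ℕ) : ℝ) := by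
      rw [Nat.cast_pow]
      exact f1.trans_lt (mul_lt_of_lt_one_left P (by linarith [one_div_pos.2 Z0]))
    exact_mod_cast this
  refine Set.mem_iUnion.2 ⟨⟨_, f3⟩, hO, c, a, hc, D, hD, ?_⟩
  have f4 : ((⌊e * (Z : ℝ) ^ 89⌋₊ : ℕ) : ℝ) / Z ^ 89 ≤ e := by rwa [div_le_iff₀ P]
  rw [min_eq_left (f4.trans e1)]
  by_contra hn'
  rw [not_lt, show (2 : ℝ) / Z / 2 = 1 / Z by ring] at hn'
  have e2 : e ≤ 1 / 2 := by linarith [one_div_pos.2 Z0]
  have L := mis_lip (by positivity) f4 (by linarith) c hD (fun S x => B ⟨_, f3⟩ S x O)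
    fun S x => (sAch _ _).2.1 _ (hB _ S x) O
  have f5 : ((Z ^ 87 : ℕ) : ℝ) * (2 * (e - ((⌊e * (Z : ℝ) ^ 89⌋₊ : ℕ) : ℝ) / Z ^ 89)) ≤ 1 / Z / 4 := by
    have u : e - ((⌊e * (Z : ℝ) ^ 89⌋₊ : ℕ) : ℝ) / Z ^ 89 ≤ 1 / Z ^ 89 := by
      rw [sub_le_iff_le_add, ← add_div, le_div_iff₀ P]; linarith
    calc _ ≤ ((Z ^ 87 : ℕ) : ℝ) * (2 * (1 / Z ^ 89)) := by gcongr
      _ = 1 / Z * (2 * (1 / Z)) := by push_cast; field_simp
      _ ≤ 1 / Z * (1 / 4) := by gcongr; linarith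
      _ = _ := by ring
  have z0 := one_div_pos.2 Z0
  have X := hs e (1 / Z ^ 3) c D (fun j S x => B j S x O) ⟨_, f3⟩ e0 (by linarith) (by positivity)
    hD fun k S x => (sAch _ _).2.1 _ (hB _ S x) O
  have f6 : (1 / (Z : ℝ) ^ 3 + Fintype.card (Fin (Z ^ 89)) / ((Z ^ 95 : ℕ) * (1 / Z ^ 3))) /
      (2 * (1 - 2 * e)) ≤ 1 / Z / 4 := by
    rw [Fintype.card_fin, div_le_iff₀ (by linarith)]
    calc _ = 1 / (Z : ℝ) / 4 * (8 * (1 / Z) * (1 / Z)) := by push_cast; field_simp; ring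
      _ ≤ 1 / Z / 4 * (2 * (1 - 2 * e)) :=
          mul_le_mul_of_nonneg_left (by nlinarith) (by positivity)
  have f7 : (2 : ℝ) / Z = 1 / Z + 1 / Z := by ring
  change _ < mis e c D (vl sel fun j S x => B j S x O) at hlt
  linarith

theorem tdp_all2 (hAll : UAll) (hBa : CBase) (hDe : CDec) (hSm : CSmall) (n l q m Z : ℕ) (η : ℝ)
    (hZ : 10 ≤ Z) (hn : n ≤ Z) (hm : m ≤ Z) (hl : 0 < l) (hq : (q + 1) * (2 * l + 1) ^ 2 ≤ Z)
    (h0 : 0 ≤ η) (h1 : η ≤ 1) (A : Sample n m → X n → (TQ l → Bool) → ℝ)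
    (hA : ∀ S x, A S x ∈ Ach q) :
    ∃ B : Sample n (Z ^ 87 + Z ^ 95) → X n → (TQ l → Bool) → ℝ, (∀ S x, B S x ∈ Ach (Z ^ 335)) ∧
      {ω : World l | Bad2 Z η A B (tdp ω)}.ncard * 2 ^ Z ≤ Nat.card (World l) := by
  have : Nonempty (TQ l) := ⟨⟨⟨1, by omega⟩, .inl fun _ => true, ⟨0, by simp⟩⟩⟩
  have a1 : (2 * l + 1) ^ 2 ≤ Z := le_trans (Nat.le_mul_of_pos_left _ (by omega)) hq
  have a2 : q + 1 ≤ Z := le_trans (Nat.le_mul_of_pos_right _ (by positivity)) hq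
  have a3 : q * (2 * l) * (2 * l + 1) ≤ Z := le_trans (by nlinarith) hq
  have Z1 : (10 : ℝ) ≤ Z := by exact_mod_cast hZ
  obtain ⟨B, b1, b2⟩ := hSm l (Z ^ 153) (Z ^ 334) (2 ^ Z) (Sample n (Z ^ 87 + Z ^ 95) × X n)
    (fun B O => Bad2 Z η A (fun S x => B (S, x)) O)
    (fun B B' O h k => by simpa only [Bad2, h] using k)
    (fun ω0 => by
      obtain ⟨B, b1, b2⟩ := hAll (TQ l) (sysT (Z ^ 153) ω0) (2 * l) (2 * l + 1) q n m Z _ η A
        (hBa l _ ω0) (hDe l _ q ω0 (pow_pos (by omega) _))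
        ⟨tdp0 ω0, mem_image_of_mem _ (mem_Cy.2 fun _ _ => rfl)⟩ (by positivity) (by
          have a4 : (q : ℝ) + 1 ≤ Z := by exact_mod_cast a2
          rw [div_mul_eq_mul_div, div_le_one (by positivity), Nat.cast_pow,
            show (Z : ℝ) ^ 153 = Z * Z * Z ^ 151 by ring]
          exact mul_le_mul_of_nonneg_right (by nlinarith) (by positivity))
        hZ hn hm (by omega) (by nlinarith) (le_trans (Nat.le_mul_of_pos_right _ (by omega)) a3) a3
        ((card_TQ_TAll l hl).trans (Nat.cast_le.2 a1)) h0 h1 hA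
      exact ⟨fun a => B a.1 a.2, fun a => b1 _ _, b2⟩)
  refine ⟨fun S x => B (S, x), fun S x => (sAch _ _).2.2.2.1 _ ?_ (b1 _), ?_⟩
  · have c1 : Z ^ 307 ≤ Z ^ 334 := Nat.pow_le_pow_right (le_trans (by decide) hZ) (by decide)
    have c2 : (2 * l + 1) ^ 2 * (Z ^ 153) ^ 2 ≤ Z ^ 307 := by
      rw [← pow_mul, pow_succ' Z 306]; exact Nat.mul_le_mul_right _ a1
    rw [pow_succ Z 334]
    exact (add_le_add le_rfl (c2.trans c1)).trans (by
      rw [← mul_two]; exact Nat.mul_le_mul_left _ (le_trans (by norm_num) hZ))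
  · simp only [← tdp_eq]
    rwa [Nat.card_eq_fintype_card]

end

end

end Pool.Agent.MP_9f8ce8_lc.Rom
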